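import Pool.Agent.LCB.St
import Pool.Agent.Helper40.Licci.Assemble

/-!
Module Adm: from a witness to a perfect ideal which is not licci.
-/

namespace Pool.Agent.LCB

open Pool.Agent.Helper40.Licci RingTheory.Sequence IsLocalRing CategoryTheory Abelian

/-- type from the size of the socle -/
theorem Adm_hasType {R : Type} [CommRing R] [IsLocalRing R] [IsNoetherianRing R] {c : ℕ}
    {xs : List R} (hx : Params R c xs) (I : Ideal R) [Finite (R ⧸ I)]
    (hk : 1 < Nat.card (R ⧸ maximalIdeal R)) (t : ℕ)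
    (hs : Nat.card (soc R (R ⧸ I)) = Nat.card (R ⧸ maximalIdeal R) ^ t) : HasType I c t := by
  obtain ⟨l, hl, hres⟩ := exists_minimalResolution c (R ⧸ I) (hx.pd_finite _ (R ⧸ I) rfl)
  have hne : l ≠ [] := by
    intro h; rw [h] at hl; simp at hl
  have hsplit := List.dropLast_append_getLast hne
  rw [← hsplit] at hres
  have hlen : l.dropLast.length = c := by
    rw [List.length_dropLast, hl]; rfl
  have h1 := card_ext_of_resolution hx _ l.dropLast 0 (by omega) (R ⧸ I) hres
  rw [card_ext_zero, hs] at h1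
  have h3 : t = l.getLast hne := Nat.pow_right_injective hk h1
  rw [← h3] at hres
  exact ⟨l.dropLast, hlen, hres⟩

theorem Adm_soc {R : Type} [CommRing R] [IsLocalRing R] (M : Type) [AddCommGroup M]
    [Module R M] [Finite M] [Nontrivial M] (hk : 1 < Nat.card (R ⧸ maximalIdeal R)) :
    1 < Nat.card (soc R M) := by
  refine lt_of_lt_of_le hk ?_
  obtain ⟨N, ⟨e⟩⟩ := exists_residue_submodule (R := R) (M := M)
  rw [← Nat.card_congr e.toEquiv]
  refine Nat.card_le_card_of_injective (fun z : N => ⟨z.1, ?_⟩) ?_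
  · rw [Submodule.mem_torsionBySet_iff]
    rintro ⟨r, hr⟩
    change r • z.1 = 0
    have h1 : e (r • z) = 0 := by
      rw [map_smul]
      exact smul_quot_eq_zero hr _
    have h2 : r • z = 0 := e.map_eq_zero_iff.mp h1
    exact congrArg Subtype.val h2
  · intro z z' hzz
    apply Subtype.ext
    exact congrArg (fun w => w.1) hzz

theorem Adm_card {R : Type} [CommRing R] [IsLocalRing R] (hO : St_One) (I : Ideal R)
    (rs : List R) (hI : Ideal.ofList rs ≤ I) (hind : Ind rs I) :
    ∀ (L1 L2 : List R), rs.Perm (L1 ++ L2) →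
      Nat.card (R ⧸ (maximalIdeal R * I ⊔ Ideal.ofList L2)) =
        Nat.card (R ⧸ maximalIdeal R) ^ L1.length *
          Nat.card (R ⧸ (maximalIdeal R * I ⊔ Ideal.ofList rs)) := by
  intro L1
  induction L1 with
  | nil =>
    intro L2 hp
    have h1 : Ideal.ofList L2 = Ideal.ofList rs := by
      unfold Ideal.ofList
      congr 1
      ext x
      exact (hp.mem_iff (a := x)).symm
    rw [h1, List.length_nil, pow_zero, one_mul]
  | cons a L1 ih =>
    intro L2 hp
    have hp2 : rs.Perm (L1 ++ a :: L2) := hp.trans (List.perm_middle.symm)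
    have h1 := ih (a :: L2) hp2
    have ha : a ∈ rs := hp.mem_iff.2 (by simp)
    have h2 : a ∉ maximalIdeal R * I ⊔ Ideal.ofList L2 := by
      intro h
      apply hind a (L1 ++ L2) hp
      have hle : Ideal.ofList L2 ≤ Ideal.ofList (L1 ++ L2) := by
        rw [Ideal.ofList_append]
        exact le_sup_right
      have hle2 : maximalIdeal R * I ⊔ Ideal.ofList L2 ≤
          maximalIdeal R * I ⊔ Ideal.ofList (L1 ++ L2) := sup_le_sup_left hle _
      exact hle2 h
    have h3 := hO R (maximalIdeal R * I ⊔ Ideal.ofList L2) a h2 (by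
      intro r hr
      exact Ideal.mem_sup_left (Ideal.mul_mem_mul hr (hI (Ideal.subset_span ha))))
    have h4 : maximalIdeal R * I ⊔ Ideal.ofList L2 ⊔ Ideal.span {a} =
        maximalIdeal R * I ⊔ Ideal.ofList (a :: L2) := by
      rw [Ideal.ofList_cons, sup_assoc, sup_comm (Ideal.ofList L2)]
    rw [h3, h4, h1, List.length_cons, pow_succ]
    ring

theorem Adm_rank {R : Type} [CommRing R] [IsLocalRing R] [Finite (R ⧸ maximalIdeal R)]
    (I : Ideal R) (hfg : I.FG) (b : ℕ)
    (hcard : Nat.card (I ⧸ (maximalIdeal R • (⊤ : Submodule R I))) =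
      Nat.card (R ⧸ maximalIdeal R) ^ b) : I.spanFinrank = b := by
  rw [IsLocalRing.spanFinrank_eq_finrank_quotient I hfg]
  let : Field (R ⧸ maximalIdeal R) := Ideal.Quotient.field _
  have hpos : 0 < Nat.card (I ⧸ (maximalIdeal R • (⊤ : Submodule R I))) := by
    rw [hcard]; exact Nat.pow_pos Nat.card_pos
  have hfin : Finite (I ⧸ (maximalIdeal R • (⊤ : Submodule R I))) :=
    (Nat.card_pos_iff.mp hpos).2
  have h1 : Nat.card (I ⧸ (maximalIdeal R • (⊤ : Submodule R I)))
      = Nat.card (R ⧸ maximalIdeal R) ^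
        Module.finrank (R ⧸ maximalIdeal R) (I ⧸ (maximalIdeal R • (⊤ : Submodule R I))) := by
    exact Module.natCard_eq_pow_finrank
  rw [hcard] at h1
  exact (Nat.pow_right_injective Finite.one_lt_card h1).symm

theorem Adm_quot {R : Type} [CommRing R] [IsLocalRing R] (I : Ideal R) :
    Nat.card (I ⧸ (maximalIdeal R • (⊤ : Submodule R I))) * Nat.card (R ⧸ I) =
      Nat.card (R ⧸ (maximalIdeal R * I)) := by
  have h : maximalIdeal R * I ≤ I := Ideal.mul_le_right
  rw [← card_ker_mul_card_of_surjective (fac h) (fac_surjective h)]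
  congr 1
  let p : I →ₗ[R] (LinearMap.ker (fac h)) :=
    LinearMap.codRestrict _ ((Submodule.mkQ (maximalIdeal R * I)).comp I.subtype)
      (fun a => mk_mem_ker_fac h a.2)
  have hp : Function.Surjective p := by
    rintro ⟨y, hy⟩
    obtain ⟨x, hx, rfl⟩ := exists_of_mem_ker_fac h hy
    exact ⟨⟨x, hx⟩, rfl⟩
  have hk : LinearMap.ker p = maximalIdeal R • (⊤ : Submodule R I) := by
    ext x
    rw [Submodule.mem_smul_top_iff, LinearMap.mem_ker]
    constructor
    · intro hx
      have h1 : (Submodule.Quotient.mk x.1 : R ⧸ (maximalIdeal R * I)) = 0 :=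
        congrArg Subtype.val hx
      rw [Submodule.Quotient.mk_eq_zero] at h1
      exact h1
    · intro hx
      apply Subtype.ext
      change (Submodule.Quotient.mk x.1 : R ⧸ (maximalIdeal R * I)) = 0
      rw [Submodule.Quotient.mk_eq_zero]
      exact hx
  rw [← hk]
  exact Nat.card_congr (p.quotKerEquivOfSurjective hp).toEquiv

theorem thm_Adm (hT : St_Type) (hO : St_One) : St_Adm := by
  intro R _ _ c d t ys rs I J hx hfin hc W
  have hfin' : Finite (ResidueField R) := hfin
  have hk : 1 < Nat.card (R ⧸ maximalIdeal R) := by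
    have : Nontrivial (R ⧸ maximalIdeal R) :=
      Ideal.Quotient.nontrivial_iff.mpr (maximalIdeal.isMaximal R).ne_top
    exact Finite.one_lt_card
  have hleI : Ideal.ofList rs ≤ I := by
    intro x hx
    rw [W.lk.hI]
    intro y _
    exact Ideal.mul_mem_right _ _ hx
  have hleJ : Ideal.ofList rs ≤ J := by
    intro x hx
    rw [W.lk.hJ]
    intro y _
    exact Ideal.mul_mem_right _ _ hx
  have hf0 : Finite (R ⧸ Ideal.ofList rs) := hx.finite rs W.len W.reg
  have hfI : Finite (R ⧸ I) := Finite.of_surjective _ (fac_surjective hleI)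
  have hfJ : Finite (R ⧸ J) := Finite.of_surjective _ (fac_surjective hleJ)
  have hsoc0 := hx.card_soc rs W.len W.reg
  have hntI : Nontrivial (R ⧸ I) := Ideal.Quotient.nontrivial_iff.mpr W.neI
  have hsoc := Adm_soc (R := R) (R ⧸ I) hk
  have htype := hT R rs J I ⟨W.lk.hI, W.lk.hJ⟩ hf0 (le_of_eq hsoc0)
  rw [W.cJ] at htype
  have hposJ : 0 < Nat.card (R ⧸ J) := Nat.card_pos
  have hsocI : Nat.card (soc R (R ⧸ I)) = Nat.card (R ⧸ maximalIdeal R) ^ t :=
    (Nat.eq_of_mul_eq_mul_right hposJ htype).symm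
  refine ⟨⟨⟨W.neI, ⟨rs, W.len, W.reg, hleI⟩, fun rs' h _ => hx.length_le rs' h⟩,
    hx.pd_eq (by omega) _ hsoc⟩, ?_, Adm_hasType hx I hk t hsocI, ?_⟩
  · refine Adm_rank I (IsNoetherian.noetherian I) (c + d) ?_
    have h1 := Adm_card hO I rs hleI W.indI rs [] (by rw [List.append_nil])
    rw [Ideal.ofList_nil, sup_bot_eq, W.cI, W.len] at h1
    have h2 := Adm_quot I
    rw [h1] at h2
    have hposI : 0 < Nat.card (R ⧸ I) := Nat.card_pos
    apply Nat.eq_of_mul_eq_mul_right hposI
    rw [h2, pow_add]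
    ring
  · intro h
    exact W.tau (card_hom_of_isLicci hx.goodRing h)

end Pool.Agent.LCB
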