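import Mathlib
import Pool.Agent.Helper40.Licci.Assemble

/-!
Linked pairs of ideals over a regular sequence which is independent modulo `𝔪 I` and `𝔪 J`,
and the predicate `Y c d t`.
-/

namespace Pool.Agent.LCB

open Pool.Agent.Helper40.Licci RingTheory.Sequence IsLocalRing

/-- No member of the list lies in the ideal generated by the other members and `𝔪 I`. -/
def Ind {R : Type} [CommRing R] [IsLocalRing R] (rs : List R) (I : Ideal R) : Prop :=
  ∀ (a : R) (L : List R), rs.Perm (a :: L) → a ∉ maximalIdeal R * I ⊔ Ideal.ofList L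

/-- `J = (rs) : I` and `I = (rs) : J`. -/
structure Lk {R : Type} [CommRing R] (rs : List R) (I J : Ideal R) : Prop where
  hJ : ∀ x, x ∈ J ↔ ∀ y ∈ I, x * y ∈ Ideal.ofList rs
  hI : ∀ x, x ∈ I ↔ ∀ y ∈ J, x * y ∈ Ideal.ofList rs

/-- A linked pair `(I, J)` over the regular sequence `rs` of length `c`, independent on both
sides, with `c + d` and `c + t` minimal generators, and with the wrong number of homomorphisms
from `I` to `R/I`. -/
structure Wit (R : Type) [CommRing R] [IsLocalRing R] (c d t : ℕ) (rs : List R)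
    (I J : Ideal R) : Prop where
  len : rs.length = c
  reg : IsRegular R rs
  lk : Lk rs I J
  neI : I ≠ ⊤
  neJ : J ≠ ⊤
  indI : Ind rs I
  indJ : Ind rs J
  cI : Nat.card (R ⧸ (maximalIdeal R * I ⊔ Ideal.ofList rs)) =
    Nat.card (R ⧸ maximalIdeal R) ^ d * Nat.card (R ⧸ I)
  cJ : Nat.card (R ⧸ (maximalIdeal R * J ⊔ Ideal.ofList rs)) =
    Nat.card (R ⧸ maximalIdeal R) ^ t * Nat.card (R ⧸ J)
  tau : Nat.card (I →ₗ[R] (R ⧸ I)) ≠ Nat.card (R ⧸ I) ^ c

/-- There is such a linked pair over some regular local ring of dimension `c` with finite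
residue field. -/
def Y (c d t : ℕ) : Prop :=
  ∃ (R : Type) (_ : CommRing R) (_ : IsRegularLocalRing R) (ys rs : List R) (I J : Ideal R),
    Params R c ys ∧ Finite (R ⧸ maximalIdeal R) ∧ Wit R c d t rs I J

end Pool.Agent.LCB
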