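import Mathlib
import Pool.Agent.LCB.Defs

/-!
Statements of the modules.
-/

namespace Pool.Agent.LCB

open Pool.Agent.Helper40.Licci RingTheory.Sequence IsLocalRing

/-- The colon ideal `K₀ : K`. -/
def col {R : Type} [CommRing R] (K0 K : Ideal R) : Ideal R := K0.colon (K : Set R)

lemma mem_col {R : Type} [CommRing R] {K0 K : Ideal R} {x : R} :
    x ∈ col K0 K ↔ ∀ y ∈ K, x * y ∈ K0 := by
  unfold col
  rw [Submodule.mem_colon]
  exact Iff.rfl

/-- Duality in a finite Gorenstein quotient. -/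
def St_Dual : Prop := ∀ (R : Type) [CommRing R] [IsLocalRing R] (K0 K : Ideal R),
  K0 ≤ K → Finite (R ⧸ K0) →
  Nat.card (soc R (R ⧸ K0)) ≤ Nat.card (R ⧸ maximalIdeal R) →
  Nat.card (R ⧸ K) * Nat.card (R ⧸ col K0 K) = Nat.card (R ⧸ K0) ∧ col K0 (col K0 K) = K

/-- The socle of `R/J` counts the generators of `I` modulo the complete intersection. -/
def St_Type : Prop := ∀ (R : Type) [CommRing R] [IsLocalRing R] (rs : List R) (I J : Ideal R),
  Lk rs I J → Finite (R ⧸ Ideal.ofList rs) →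
  Nat.card (soc R (R ⧸ Ideal.ofList rs)) ≤ Nat.card (R ⧸ maximalIdeal R) →
  Nat.card (R ⧸ (maximalIdeal R * I ⊔ Ideal.ofList rs)) =
    Nat.card (soc R (R ⧸ J)) * Nat.card (R ⧸ I)

/-- Adding one element which is killed by the maximal ideal. -/
def St_One : Prop := ∀ (R : Type) [CommRing R] [IsLocalRing R] (K : Ideal R) (a : R),
  a ∉ K → (∀ r ∈ maximalIdeal R, r * a ∈ K) →
  Nat.card (R ⧸ K) = Nat.card (R ⧸ maximalIdeal R) * Nat.card (R ⧸ (K ⊔ Ideal.span {a}))

/-- The members of a regular sequence are minimal generators. -/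
def St_Rsm : Prop := ∀ (R : Type) [CommRing R] [IsLocalRing R] [IsNoetherianRing R]
  (a : R) (L : List R), IsRegular R (a :: L) →
  a ∉ maximalIdeal R * Ideal.span {a} ⊔ Ideal.ofList L

/-- A member of a regular sequence may be replaced by a divisor of one of its powers modulo the
other members. -/
def St_Rg1 : Prop := ∀ (R : Type) [CommRing R] [IsLocalRing R] [IsNoetherianRing R]
  (a x s : R) (k : ℕ) (L : List R), IsRegular R (a :: L) → x ∈ maximalIdeal R →
  x * s - a ^ k ∈ Ideal.ofList L → IsRegular R (x :: L)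

/-- The Koszul lemma. The product of the rows, in reversed order. -/
def St_W : Prop := ∀ (R : Type) [CommRing R] (n : ℕ) (f : (Fin n → R) →ₗ[R] R) (M : Ideal R),
  M ≠ ⊤ → (∀ v, f v ∈ M) → ∀ rows : List (Fin n → R), IsWeaklyRegular R (rows.map f) →
  (rows.reverse.map (ExteriorAlgebra.ι R)).prod ∉
    LinearMap.range (CliffordAlgebra.contractLeft (Q := (0 : QuadraticForm R (Fin n → R))) f) ⊔
      Ideal.ofList (rows.map f) • (⊤ : Submodule R (ExteriorAlgebra R (Fin n → R)))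

/-- Two members of a regular sequence with a common factor modulo `𝔪 J`. -/
def St_KF : Prop := ∀ (R : Type) [CommRing R] [IsLocalRing R] [IsNoetherianRing R]
  (J : Ideal R) (b1 b2 x h v1 v2 : R) (L : List R),
  J ≤ maximalIdeal R → (∀ b ∈ b1 :: b2 :: L, b ∈ J) → x ∈ maximalIdeal R →
  IsWeaklyRegular R (b1 :: b2 :: L ++ [x]) → h ∈ maximalIdeal R →
  b1 - h * v1 ∈ maximalIdeal R * J → b2 - h * v2 ∈ maximalIdeal R * J →
  x ∉ maximalIdeal R * col (Ideal.ofList (b1 :: b2 :: L ++ [x])) J ⊔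
    Ideal.ofList (b1 :: b2 :: L)

/-- Exchange of one member of the complete intersection. -/
def St_Ex : Prop := ∀ (R : Type) [CommRing R] (M K J : Ideal R) (p x : R),
  p ∈ J → (∀ r, x * r ∈ K → r ∈ K) → x ∈ M * col (K ⊔ Ideal.span {x}) J ⊔ K →
  p ∈ M * col (K ⊔ Ideal.span {p}) J ⊔ K

/-- The basic double link. -/
def St_D0 : Prop := ∀ (R : Type) [CommRing R] (L : List R) (z : R) (I J : Ideal R),
  (∀ r, z * r ∈ Ideal.ofList L → r ∈ Ideal.ofList L) → Lk (z :: L) I J →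
  Lk (z * z :: L) I (Ideal.ofList L ⊔ Ideal.span {z} * J)

/-- Counting for the basic double link. -/
def St_MZ : Prop := ∀ (R : Type) [CommRing R] (K X : Ideal R) (z : R),
  K ≤ X → (∀ r, z * r ∈ K → r ∈ K) →
  Nat.card (R ⧸ (K ⊔ Ideal.span {z} * X)) = Nat.card (R ⧸ (K ⊔ Ideal.span {z})) * Nat.card (R ⧸ X)

/-- The number of homomorphisms is a linkage invariant. -/
def St_Tau : Prop := ∀ (R : Type) [CommRing R] [IsRegularLocalRing R] (c : ℕ) (ys rs : List R)
  (I J : Ideal R), Params R c ys → Finite (R ⧸ maximalIdeal R) → rs.length = c →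
  IsRegular R rs → Lk rs I J →
  Nat.card (I →ₗ[R] (R ⧸ I)) ≠ Nat.card (R ⧸ I) ^ c →
  Nat.card (J →ₗ[R] (R ⧸ J)) ≠ Nat.card (R ⧸ J) ^ c

/-- From a witness to a perfect ideal which is not licci. -/
def St_Adm : Prop := ∀ (R : Type) [CommRing R] [IsRegularLocalRing R] (c d t : ℕ)
  (ys rs : List R) (I J : Ideal R), Params R c ys → Finite (R ⧸ maximalIdeal R) → 1 ≤ c →
  Wit R c d t rs I J →
  IsPerfectOfCodim I c ∧ I.spanFinrank = c + d ∧ HasType I c t ∧ ¬ IsLicci c I

/-- The operation `(c, d, t) ↦ (c, d + 1, t)` for `t ≥ 2`. -/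
def St_C : Prop := ∀ (R : Type) [CommRing R] [IsRegularLocalRing R] (c d t : ℕ)
  (ys rs : List R) (I J : Ideal R), Params R c ys → Finite (R ⧸ maximalIdeal R) → 3 ≤ c →
  2 ≤ t → Wit R c d t rs I J → ∃ (rs' : List R) (I' J' : Ideal R), Wit R c (d + 1) t rs' I' J'

/-- The operation `(c, d, t) ↦ (c, d + 2, t)`. -/
def St_B : Prop := ∀ (R : Type) [CommRing R] [IsRegularLocalRing R] (c d t : ℕ)
  (ys rs : List R) (I J : Ideal R), Params R c ys → Finite (R ⧸ maximalIdeal R) → 3 ≤ c →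
  1 ≤ t → Wit R c d t rs I J → ∃ (rs' : List R) (I' J' : Ideal R), Wit R c (d + 2) t rs' I' J'

/-- Base examples. -/
def St_522 : Prop := ∀ c, 5 ≤ c → Y c 2 2
def St_631 : Prop := ∀ c, 6 ≤ c → Y c 3 1
def St_641 : Prop := ∀ c, 6 ≤ c → Y c 4 1
def St_821 : Prop := ∀ c, 8 ≤ c → Y c 2 1

end Pool.Agent.LCB
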