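import Mathlib
import Pool.Agent.LCB.St

/-!
Common lemmas for the two operations.
-/

namespace Pool.Agent.LCB

open Pool.Agent.Helper40.Licci RingTheory.Sequence IsLocalRing

section

variable {R : Type} [CommRing R]

lemma ofList_perm {L L' : List R} (h : L.Perm L') : Ideal.ofList L = Ideal.ofList L' := by
  unfold Ideal.ofList
  congr 1
  ext x
  exact h.mem_iff

lemma mem_ofList {L : List R} {a : R} (h : a ∈ L) : a ∈ Ideal.ofList L :=
  Ideal.subset_span h

lemma ofList_le {L : List R} {K : Ideal R} (h : ∀ a ∈ L, a ∈ K) : Ideal.ofList L ≤ K :=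
  Ideal.span_le.mpr h

lemma Lk.symm {rs : List R} {I J : Ideal R} (h : Lk rs I J) : Lk rs J I := ⟨h.hI, h.hJ⟩

lemma Lk.congr {rs rs' : List R} {I J : Ideal R} (h : Lk rs I J)
    (e : Ideal.ofList rs = Ideal.ofList rs') : Lk rs' I J := by
  constructor
  · intro x; rw [← e]; exact h.hJ x
  · intro x; rw [← e]; exact h.hI x

lemma Lk.leI {rs : List R} {I J : Ideal R} (h : Lk rs I J) : Ideal.ofList rs ≤ I :=
  fun x hx => (h.hI x).mpr (fun _ _ => Ideal.mul_mem_right _ _ hx)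

lemma Lk.leJ {rs : List R} {I J : Ideal R} (h : Lk rs I J) : Ideal.ofList rs ≤ J :=
  fun x hx => (h.hJ x).mpr (fun _ _ => Ideal.mul_mem_right _ _ hx)

variable [IsLocalRing R]

lemma Ind.perm {L L' : List R} {I : Ideal R} (h : Ind L I) (e : L.Perm L') : Ind L' I :=
  fun a M hM => h a M (e.trans hM)

lemma ind_of_split {L : List R} {J : Ideal R}
    (h : ∀ L1 a L2, L = L1 ++ a :: L2 → a ∉ maximalIdeal R * J ⊔ Ideal.ofList (L1 ++ L2)) :
    Ind L J := by
  intro a M hM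
  have ha : a ∈ L := hM.mem_iff.mpr List.mem_cons_self
  obtain ⟨L1, L2, rfl⟩ := List.append_of_mem ha
  have h1 : (a :: (L1 ++ L2)).Perm (a :: M) := List.perm_middle.symm.trans hM
  rw [← ofList_perm ((List.perm_cons a).mp h1)]
  exact h L1 a L2 rfl

lemma ind_cons3 {b1 b2 b3 : R} {A : List R} {J : Ideal R}
    (h1 : b1 ∉ maximalIdeal R * J ⊔ Ideal.ofList (b2 :: b3 :: A))
    (h2 : b2 ∉ maximalIdeal R * J ⊔ Ideal.ofList (b1 :: b3 :: A))
    (h3 : b3 ∉ maximalIdeal R * J ⊔ Ideal.ofList (b1 :: b2 :: A))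
    (h4 : ∀ A1 a A2, A = A1 ++ a :: A2 →
      a ∉ maximalIdeal R * J ⊔ Ideal.ofList (b1 :: b2 :: b3 :: (A1 ++ A2))) :
    Ind (b1 :: b2 :: b3 :: A) J := by
  apply ind_of_split
  intro L1 a L2 h
  rcases L1 with _ | ⟨c1, L1⟩
  · rw [List.nil_append, List.cons.injEq] at h
    obtain ⟨rfl, rfl⟩ := h
    exact h1
  rw [List.cons_append, List.cons.injEq] at h
  obtain ⟨rfl, h⟩ := h
  rcases L1 with _ | ⟨c2, L1⟩
  · rw [List.nil_append, List.cons.injEq] at h
    obtain ⟨rfl, rfl⟩ := h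
    exact h2
  rw [List.cons_append, List.cons.injEq] at h
  obtain ⟨rfl, h⟩ := h
  rcases L1 with _ | ⟨c3, L1⟩
  · rw [List.nil_append, List.cons.injEq] at h
    obtain ⟨rfl, rfl⟩ := h
    exact h3
  rw [List.cons_append, List.cons.injEq] at h
  obtain ⟨rfl, h⟩ := h
  exact h4 L1 a L2 h

/-- the exchange lemma -/
lemma exch {J V : Ideal R} (hV : maximalIdeal R * J ≤ V) {a b : R} (hb : b ∈ J)
    (h1 : a ∉ V) (h2 : b ∉ V ⊔ Ideal.span {a}) : a ∉ V ⊔ Ideal.span {b} := by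
  intro h
  obtain ⟨v, hv, w, hw, hvw⟩ := Submodule.mem_sup.mp h
  obtain ⟨s, rfl⟩ := Ideal.mem_span_singleton'.mp hw
  by_cases hs : IsUnit s
  · obtain ⟨u, rfl⟩ := hs
    apply h2
    have h3 : b = (-(↑u⁻¹ * v)) + ↑u⁻¹ * a := by
      rw [← hvw, mul_add, ← mul_assoc, Units.inv_mul, one_mul]; ring
    rw [h3]
    exact Submodule.add_mem_sup (V.neg_mem (V.mul_mem_left _ hv))
      (Ideal.mul_mem_left _ _ (Ideal.mem_span_singleton_self a))
  · apply h1
    rw [← hvw]
    exact V.add_mem hv (hV (Ideal.mul_mem_mul ((mem_maximalIdeal s).mpr hs) hb))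

variable [IsNoetherianRing R]

lemma nzd {a : R} {L : List R} (h : IsRegular R (a :: L)) :
    ∀ r, a * r ∈ Ideal.ofList L → r ∈ Ideal.ofList L := by
  have h1 : IsRegular R (L ++ [a]) := isRegular_of_perm h (List.perm_append_singleton a L).symm
  have h2 := ((isWeaklyRegular_append_iff R L [a]).mp h1.toIsWeaklyRegular).2
  rw [isWeaklyRegular_singleton_iff] at h2
  intro r hr
  have h3 : (Submodule.Quotient.mk r : R ⧸ (Ideal.ofList L • (⊤ : Submodule R R))) = 0 := by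
    apply h2
    change a • (Submodule.Quotient.mk r : R ⧸ (Ideal.ofList L • (⊤ : Submodule R R))) = a • 0
    rw [smul_zero, ← Submodule.Quotient.mk_smul, Submodule.Quotient.mk_eq_zero, smul_eq_mul]
    change a * r ∈ Ideal.ofList L • (⊤ : Ideal R)
    rw [smul_eq_mul, Ideal.mul_top]
    exact hr
  rw [Submodule.Quotient.mk_eq_zero] at h3
  change r ∈ Ideal.ofList L • (⊤ : Ideal R) at h3
  rwa [smul_eq_mul, Ideal.mul_top] at h3

end

section Build

variable {R : Type} [CommRing R] [IsRegularLocalRing R]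

lemma ne_top_of_ind {L : List R} {J : Ideal R} (hreg : IsRegular R L) (hL : L ≠ [])
    (h : Ind L J) : J ≠ ⊤ := by
  rintro rfl
  obtain ⟨a, M, rfl⟩ := List.exists_cons_of_ne_nil hL
  apply h a M (List.Perm.refl _)
  rw [Ideal.mul_top]
  exact Ideal.mem_sup_left (mem_max_of_isRegular _ hreg a List.mem_cons_self)

/-- Building a witness from a second complete intersection in the same ideal. -/
lemma wit_mk (hD : St_Dual) (hTy : St_Type) (hT : St_Tau) {c d t : ℕ} {ys γ β : List R}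
    {I J : Ideal R} (hx : Params R c ys) (hf : Finite (R ⧸ maximalIdeal R)) (hc : 1 ≤ c)
    (lγ : γ.length = c) (rγ : IsRegular R γ) (kγ : Lk γ I J)
    (lβ : β.length = c) (rβ : IsRegular R β) (hβ : Ideal.ofList β ≤ J)
    (i1 : Ind β (col (Ideal.ofList β) J)) (i2 : Ind β J)
    (n1 : Nat.card (R ⧸ (maximalIdeal R * I ⊔ Ideal.ofList γ)) =
      Nat.card (R ⧸ maximalIdeal R) ^ d * Nat.card (R ⧸ I))
    (n2 : Nat.card (R ⧸ (maximalIdeal R * J ⊔ Ideal.ofList β)) =
      Nat.card (R ⧸ maximalIdeal R) ^ t * Nat.card (R ⧸ J))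
    (ht : Nat.card (I →ₗ[R] (R ⧸ I)) ≠ Nat.card (R ⧸ I) ^ c) :
    Wit R c d t β (col (Ideal.ofList β) J) J := by
  have hf' : Finite (ResidueField R) := hf
  obtain ⟨f1, s1⟩ := hx.goodRing γ lγ rγ
  obtain ⟨f2, s2⟩ := hx.goodRing β lβ rβ
  have hdual := (hD R (Ideal.ofList β) J hβ f2 s2).2
  have kβ : Lk β (col (Ideal.ofList β) J) J := by
    constructor
    · intro x
      conv_lhs => rw [← hdual]
      exact mem_col
    · intro x
      exact mem_col
  have hne : β ≠ [] := by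
    intro h; rw [h, List.length_nil] at lβ; omega
  have e1 := hTy R γ I J kγ f1 s1
  have e2 := hTy R β _ J kβ f2 s2
  have fI : Finite (R ⧸ I) := Finite.of_surjective _ (fac_surjective kγ.leI)
  have pI : 0 < Nat.card (R ⧸ I) := Nat.card_pos
  refine ⟨lβ, rβ, kβ, ne_top_of_ind rβ hne i1, ne_top_of_ind rβ hne i2, i1, i2, ?_, n2, ?_⟩
  · rw [e1] at n1
    rw [e2, Nat.eq_of_mul_eq_mul_right pI n1]
  · have t1 := hT R c ys γ I J hx hf lγ rγ kγ ht
    exact hT R c ys β J _ hx hf lβ rβ kβ.symm t1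

end Build

end Pool.Agent.LCB
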