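import Mathlib
import Pool.Agent.LCB.Com

/-!
The operation `(c, d, t) ↦ (c, d + 1, t)` for `t ≥ 2`.
-/

namespace Pool.Agent.LCB

open Pool.Agent.Helper40.Licci RingTheory.Sequence IsLocalRing

section

variable {R : Type} [CommRing R]

lemma c_span_mul_mem {z v : R} {X : Ideal R} (hv : v ∈ X) : z * v ∈ Ideal.span {z} * X :=
  Ideal.mul_mem_mul (Ideal.mem_span_singleton_self z) hv

/-- cancelling `z` -/
lemma c_cancel {K X : Ideal R} {z v : R} (hz : ∀ r, z * r ∈ K → r ∈ K)
    (h : z * v ∈ K ⊔ Ideal.span {z} * X) : v ∈ K ⊔ X := by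
  obtain ⟨k, hk, w, hw, hkw⟩ := Submodule.mem_sup.mp h
  obtain ⟨x, hx, rfl⟩ := Ideal.mem_span_singleton_mul.mp hw
  have h1 : v - x ∈ K := hz _ (by
    have : z * (v - x) = k := by rw [mul_sub, ← hkw]; ring
    rw [this]; exact hk)
  have h2 : v = (v - x) + x := by ring
  rw [h2]
  exact Submodule.add_mem_sup h1 hx

end

section Main

variable {R : Type} [CommRing R] [IsRegularLocalRing R]

lemma c_card_step (hO : St_One) {V J : Ideal R} (hV : maximalIdeal R * J ≤ V) {a : R}
    (ha : a ∈ J) (hn : a ∉ V) :
    Nat.card (R ⧸ V) = Nat.card (R ⧸ maximalIdeal R) * Nat.card (R ⧸ (V ⊔ Ideal.span {a})) :=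
  hO R V a hn (fun _ hr => hV (Ideal.mul_mem_mul hr ha))

/-- choosing an element -/
lemma c_choose (hO : St_One) {V J : Ideal R} (hV : maximalIdeal R * J ≤ V) (hVJ : V ≤ J)
    (hf : Finite (R ⧸ maximalIdeal R)) {n : ℕ} (hfJ : Finite (R ⧸ J))
    (h : Nat.card (R ⧸ V) = Nat.card (R ⧸ maximalIdeal R) ^ (n + 1) * Nat.card (R ⧸ J)) :
    ∃ u ∈ J, u ∉ V ∧ Nat.card (R ⧸ (V ⊔ Ideal.span {u})) =
      Nat.card (R ⧸ maximalIdeal R) ^ n * Nat.card (R ⧸ J) := by
  have hq : 1 < Nat.card (R ⧸ maximalIdeal R) := by
    have : Nontrivial (R ⧸ maximalIdeal R) :=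
      Ideal.Quotient.nontrivial_iff.mpr (maximalIdeal.isMaximal R).ne_top
    exact Finite.one_lt_card
  have hJp : 0 < Nat.card (R ⧸ J) := Nat.card_pos
  have hex : ∃ u ∈ J, u ∉ V := by
    by_contra hcon
    push Not at hcon
    have e : V = J := le_antisymm hVJ hcon
    rw [e] at h
    have h1 : 1 < Nat.card (R ⧸ maximalIdeal R) ^ (n + 1) := Nat.one_lt_pow (by omega) hq
    nlinarith
  obtain ⟨u, hu, hn⟩ := hex
  refine ⟨u, hu, hn, ?_⟩
  have h1 := c_card_step hO hV hu hn
  rw [h, pow_succ'] at h1
  have h2 : 0 < Nat.card (R ⧸ maximalIdeal R) := by omega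
  rw [mul_assoc] at h1
  exact (Nat.eq_of_mul_eq_mul_left h2 h1).symm

theorem thm_C (hD : St_Dual) (hTy : St_Type) (hO : St_One) (hRs : St_Rsm) (hRg : St_Rg1)
    (hKF : St_KF) (hD0 : St_D0) (hMZ : St_MZ) (hT : St_Tau) : St_C := by
  intro R _ _ c d t ys rs I J hx hf hc ht W
  obtain ⟨lrs, reg, lk, neI, neJ, indI, indJ, cI, cJ, tau⟩ := W
  have hf' : Finite (ResidueField R) := hf
  -- the shape of the list
  obtain ⟨z, q, p, A, rfl⟩ : ∃ z q p A, rs = z :: q :: p :: A := by
    rcases rs with _ | ⟨z, _ | ⟨q, _ | ⟨p, A⟩⟩⟩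
    · simp at lrs; omega
    · simp at lrs; omega
    · simp at lrs; omega
    · exact ⟨z, q, p, A, rfl⟩
  have hmem := mem_max_of_isRegular _ reg
  have hzm : z ∈ maximalIdeal R := hmem z (by simp)
  have hqm : q ∈ maximalIdeal R := hmem q (by simp)
  have hpm : p ∈ maximalIdeal R := hmem p (by simp)
  set K : Ideal R := Ideal.ofList (q :: p :: A) with hK
  have hKz : Ideal.ofList (z :: q :: p :: A) = K ⊔ Ideal.span {z} := by
    rw [Ideal.ofList_cons, sup_comm]
  have nz : ∀ r, z * r ∈ K → r ∈ K := nzd reg
  have hzJ : z ∈ J := lk.leJ (mem_ofList (by simp))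
  have hzI : z ∈ I := lk.leI (mem_ofList (by simp))
  have hKJ : K ≤ J := le_trans (by rw [hKz]; exact le_sup_left) lk.leJ
  have hKI : K ≤ I := le_trans (by rw [hKz]; exact le_sup_left) lk.leI
  have hIm : I ≤ maximalIdeal R := le_maximalIdeal neI
  have hJm : J ≤ maximalIdeal R := le_maximalIdeal neJ
  have hAK : ∀ a ∈ A, a ∈ K := fun a ha => mem_ofList (by simp [ha])
  have hqK : q ∈ K := mem_ofList (by simp)
  have hpK : p ∈ K := mem_ofList (by simp)
  -- the double link
  set J1 : Ideal R := K ⊔ Ideal.span {z} * J with hJ1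
  have lk1 : Lk (z * z :: q :: p :: A) I J1 := hD0 R (q :: p :: A) z I J nz lk
  have regγ : IsRegular R (z * z :: q :: p :: A) :=
    hRg R z (z * z) 1 2 (q :: p :: A) reg (Ideal.mul_mem_left _ _ hzm)
      (by rw [mul_one, pow_two, sub_self]; exact Ideal.zero_mem _)
  have hKJ1 : K ≤ J1 := le_sup_left
  have hzJ1 : ∀ v ∈ J, z * v ∈ J1 := fun v hv => Ideal.mem_sup_right (c_span_mul_mem hv)
  -- finiteness
  obtain ⟨f0, s0⟩ := hx.goodRing _ lrs reg
  have fJ : Finite (R ⧸ J) := Finite.of_surjective _ (fac_surjective lk.leJ)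
  have fI : Finite (R ⧸ I) := Finite.of_surjective _ (fac_surjective lk.leI)
  -- the generators u1, u2
  set V : Ideal R := maximalIdeal R * J ⊔ K with hV
  have hV0 : maximalIdeal R * J ≤ V := le_sup_left
  have hVJ : V ≤ J := sup_le Ideal.mul_le_right hKJ
  have e0 : maximalIdeal R * J ⊔ Ideal.ofList (z :: q :: p :: A) = V ⊔ Ideal.span {z} := by
    rw [hKz, ← sup_assoc]
  obtain ⟨t', rfl⟩ : ∃ t', t = t' + 1 + 1 := ⟨t - 2, by omega⟩
  rw [e0] at cJ
  have hVz : maximalIdeal R * J ≤ V ⊔ Ideal.span {z} := le_trans hV0 le_sup_left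
  have hVzJ : V ⊔ Ideal.span {z} ≤ J :=
    sup_le hVJ ((Ideal.span_singleton_le_iff_mem _).mpr hzJ)
  obtain ⟨u1, hu1, hn1, c1⟩ := c_choose hO hVz hVzJ hf fJ cJ
  have hVu : maximalIdeal R * J ≤ V ⊔ Ideal.span {z} ⊔ Ideal.span {u1} :=
    le_trans hVz le_sup_left
  have hVuJ : V ⊔ Ideal.span {z} ⊔ Ideal.span {u1} ≤ J :=
    sup_le hVzJ ((Ideal.span_singleton_le_iff_mem _).mpr hu1)
  obtain ⟨u2, hu2, hn2, c2⟩ := c_choose hO hVu hVuJ hf fJ c1
  have hzV : z ∉ V := indJ z (q :: p :: A) (List.Perm.refl _)
  -- independence of z, u1, u2 modulo V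
  have n_u2 : u2 ∉ V ⊔ Ideal.span {z} ⊔ Ideal.span {u1} := hn2
  have n_u1 : u1 ∉ V ⊔ Ideal.span {z} ⊔ Ideal.span {u2} := exch hVz hu2 hn1 hn2
  have n_z : z ∉ V ⊔ Ideal.span {u1} ⊔ Ideal.span {u2} := by
    have h1 : z ∉ V ⊔ Ideal.span {u1} := exch hV0 hu1 hzV hn1
    refine exch (le_trans hV0 le_sup_left) hu2 h1 ?_
    rw [sup_right_comm]
    exact hn2
  -- the new complete intersection
  set x1 : R := z * u1 + p * p with hx1
  set x2 : R := z * u2 + q * q with hx2
  have hx1m : x1 ∈ maximalIdeal R :=
    Ideal.add_mem _ (Ideal.mul_mem_right _ _ hzm) (Ideal.mul_mem_right _ _ hpm)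
  have hx2m : x2 ∈ maximalIdeal R :=
    Ideal.add_mem _ (Ideal.mul_mem_right _ _ hzm) (Ideal.mul_mem_right _ _ hqm)
  have regβ : IsRegular R (z * z :: x1 :: x2 :: A) := by
    have r1 : IsRegular R (q :: z * z :: p :: A) :=
      isRegular_of_perm regγ (List.Perm.swap _ _ _)
    have r2 : IsRegular R (x2 :: z * z :: p :: A) :=
      hRg R q x2 (q * q - z * u2) 4 _ r1 hx2m (by
        have : x2 * (q * q - z * u2) - q ^ 4 = (- (u2 * u2)) * (z * z) := by
          rw [hx2]; ring
        rw [this]
        exact Ideal.mul_mem_left _ _ (mem_ofList (by simp)))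
    have r3 : IsRegular R (p :: z * z :: x2 :: A) :=
      isRegular_of_perm r2 (by
        have h1 : (x2 :: z * z :: p :: A).Perm (x2 :: p :: z * z :: A) :=
          (List.perm_cons x2).mpr (List.Perm.swap _ _ _)
        have h2 : (x2 :: p :: z * z :: A).Perm (p :: x2 :: z * z :: A) := List.Perm.swap _ _ _
        exact (h1.trans h2).trans ((List.perm_cons p).mpr (List.Perm.swap _ _ _)))
    have r4 : IsRegular R (x1 :: z * z :: x2 :: A) :=
      hRg R p x1 (p * p - z * u1) 4 _ r3 hx1m (by
        have : x1 * (p * p - z * u1) - p ^ 4 = (- (u1 * u1)) * (z * z) := by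
          rw [hx1]; ring
        rw [this]
        exact Ideal.mul_mem_left _ _ (mem_ofList (by simp)))
    exact isRegular_of_perm r4 (List.Perm.swap _ _ _)
  set β : List R := z * z :: x1 :: x2 :: A with hβ
  have hzz1 : z * z ∈ J1 := hzJ1 z hzJ
  have hpp : p * p ∈ maximalIdeal R * J1 := Ideal.mul_mem_mul hpm (hKJ1 hpK)
  have hqq : q * q ∈ maximalIdeal R * J1 := Ideal.mul_mem_mul hqm (hKJ1 hqK)
  have hx11 : x1 ∈ J1 := J1.add_mem (hzJ1 u1 hu1) (Ideal.mul_le_right hpp)
  have hx21 : x2 ∈ J1 := J1.add_mem (hzJ1 u2 hu2) (Ideal.mul_le_right hqq)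
  have hA1 : ∀ a ∈ A, a ∈ J1 := fun a ha => hKJ1 (hAK a ha)
  have hβ1 : Ideal.ofList β ≤ J1 := by
    refine ofList_le ?_
    intro a ha
    rw [hβ] at ha
    simp only [List.mem_cons] at ha
    rcases ha with rfl | rfl | rfl | ha
    · exact hzz1
    · exact hx11
    · exact hx21
    · exact hA1 a ha
  -- bounds for mJ1
  have hmJ1 : maximalIdeal R * J1 ≤ K ⊔ Ideal.span {z} * (maximalIdeal R * J) := by
    rw [hJ1, Ideal.mul_sup]
    refine sup_le (le_trans Ideal.mul_le_right le_sup_left) ?_
    rw [← mul_assoc, mul_comm (maximalIdeal R) (Ideal.span {z}), mul_assoc]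
    exact le_sup_right
  have hmJ1' : maximalIdeal R * J1 ≤ maximalIdeal R * K ⊔ Ideal.span {z} := by
    rw [hJ1, Ideal.mul_sup]
    refine sup_le le_sup_left ?_
    refine le_trans ?_ le_sup_right
    rw [← mul_assoc, mul_comm (maximalIdeal R) (Ideal.span {z}), mul_assoc]
    exact Ideal.mul_le_left
  have hAle : ∀ (X : Ideal R), Ideal.ofList A ≤ K ⊔ X :=
    fun X => ofList_le (fun a ha => Ideal.mem_sup_left (hAK a ha))
  -- independence in J1
  have indJ1 : Ind β J1 := by
    refine ind_cons3 ?_ ?_ ?_ ?_
    · -- z * z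
      intro h
      have h1 : z * z ∈ K ⊔ Ideal.span {z} * (maximalIdeal R * J ⊔ Ideal.span {u1}
          ⊔ Ideal.span {u2}) := by
        refine (sup_le (le_trans hmJ1 (sup_le_sup_left (Ideal.mul_mono_right
          (le_trans le_sup_left le_sup_left)) _)) ?_) h
        refine ofList_le ?_
        intro a ha
        simp only [List.mem_cons] at ha
        rcases ha with rfl | rfl | ha
        · rw [hx1, add_comm]
          exact Submodule.add_mem_sup (K.mul_mem_left _ hpK) (c_span_mul_mem
            (Ideal.mem_sup_left (Ideal.mem_sup_right (Ideal.mem_span_singleton_self u1))))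
        · rw [hx2, add_comm]
          exact Submodule.add_mem_sup (K.mul_mem_left _ hqK) (c_span_mul_mem
            (Ideal.mem_sup_right (Ideal.mem_span_singleton_self u2)))
        · exact Ideal.mem_sup_left (hAK a ha)
      have h2 := c_cancel nz h1
      apply n_z
      rw [hV, sup_right_comm (maximalIdeal R * J), sup_right_comm _ K, sup_comm _ K]
      exact h2
    · -- x1
      intro h
      have h1 : z * u1 ∈ K ⊔ Ideal.span {z} * (maximalIdeal R * J ⊔ Ideal.span {z}
          ⊔ Ideal.span {u2}) := by
        have h3 : z * u1 = x1 - p * p := by rw [hx1]; ring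
        rw [h3]
        refine Ideal.sub_mem _ ?_ (Ideal.mem_sup_left (K.mul_mem_left _ hpK))
        refine (sup_le (le_trans hmJ1 (sup_le_sup_left (Ideal.mul_mono_right
          (le_trans le_sup_left le_sup_left)) _)) ?_) h
        refine ofList_le ?_
        intro a ha
        simp only [List.mem_cons] at ha
        rcases ha with rfl | rfl | ha
        · exact Ideal.mem_sup_right (c_span_mul_mem
            (Ideal.mem_sup_left (Ideal.mem_sup_right (Ideal.mem_span_singleton_self z))))
        · rw [hx2, add_comm]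
          exact Submodule.add_mem_sup (K.mul_mem_left _ hqK) (c_span_mul_mem
            (Ideal.mem_sup_right (Ideal.mem_span_singleton_self u2)))
        · exact Ideal.mem_sup_left (hAK a ha)
      have h2 := c_cancel nz h1
      apply n_u1
      rw [hV, sup_right_comm (maximalIdeal R * J), sup_right_comm _ K, sup_comm _ K]
      exact h2
    · -- x2
      intro h
      have h1 : z * u2 ∈ K ⊔ Ideal.span {z} * (maximalIdeal R * J ⊔ Ideal.span {z}
          ⊔ Ideal.span {u1}) := by
        have h3 : z * u2 = x2 - q * q := by rw [hx2]; ring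
        rw [h3]
        refine Ideal.sub_mem _ ?_ (Ideal.mem_sup_left (K.mul_mem_left _ hqK))
        refine (sup_le (le_trans hmJ1 (sup_le_sup_left (Ideal.mul_mono_right
          (le_trans le_sup_left le_sup_left)) _)) ?_) h
        refine ofList_le ?_
        intro a ha
        simp only [List.mem_cons] at ha
        rcases ha with rfl | rfl | ha
        · exact Ideal.mem_sup_right (c_span_mul_mem
            (Ideal.mem_sup_left (Ideal.mem_sup_right (Ideal.mem_span_singleton_self z))))
        · rw [hx1, add_comm]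
          exact Submodule.add_mem_sup (K.mul_mem_left _ hpK) (c_span_mul_mem
            (Ideal.mem_sup_right (Ideal.mem_span_singleton_self u1)))
        · exact Ideal.mem_sup_left (hAK a ha)
      have h2 := c_cancel nz h1
      apply n_u2
      rw [hV, sup_right_comm (maximalIdeal R * J), sup_right_comm _ K, sup_comm _ K]
      exact h2
    · -- a in A
      intro A1 a A2 hA h
      have hperm : (z :: q :: p :: A).Perm (a :: z :: q :: p :: (A1 ++ A2)) := by
        rw [hA]
        have : (z :: q :: p :: (A1 ++ a :: A2)).Perm (z :: q :: p :: a :: (A1 ++ A2)) := by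
          refine (List.perm_cons z).mpr ((List.perm_cons q).mpr ((List.perm_cons p).mpr ?_))
          exact List.perm_middle
        refine this.trans ?_
        exact (List.perm_middle (l₁ := [z, q, p]))
      have r1 := isRegular_of_perm reg hperm
      apply hRs R a _ r1
      refine (sup_le (le_trans hmJ1' (sup_le ?_ ?_)) ?_) h
      · rw [hK, hA]
        rw [Ideal.ofList_cons, Ideal.ofList_cons, Ideal.ofList_append, Ideal.ofList_cons,
          Ideal.mul_sup, Ideal.mul_sup, Ideal.mul_sup, Ideal.mul_sup]
        rw [Ideal.ofList_cons, Ideal.ofList_cons, Ideal.ofList_cons, Ideal.ofList_append]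
        refine sup_le ?_ (sup_le ?_ (sup_le ?_ (sup_le ?_ ?_)))
        · exact le_trans Ideal.mul_le_right (le_trans (le_trans le_sup_left le_sup_right)
            le_sup_right)
        · exact le_trans Ideal.mul_le_right (le_trans (le_trans (le_trans le_sup_left le_sup_right)
            le_sup_right) le_sup_right)
        · exact le_trans Ideal.mul_le_right (le_trans (le_trans (le_trans
            (le_trans le_sup_left le_sup_right) le_sup_right) le_sup_right) le_sup_right)
        · exact le_sup_left
        · exact le_trans Ideal.mul_le_right (le_trans (le_trans (le_trans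
            (le_trans le_sup_right le_sup_right) le_sup_right) le_sup_right) le_sup_right)
      · refine le_trans ?_ le_sup_right
        rw [Ideal.ofList_cons]
        exact le_sup_left
      · refine ofList_le ?_
        intro b hb
        simp only [List.mem_cons] at hb
        have hz' : z ∈ maximalIdeal R * Ideal.span {a} ⊔
            Ideal.ofList (z :: q :: p :: (A1 ++ A2)) :=
          Ideal.mem_sup_right (mem_ofList (by simp))
        have hq' : q ∈ maximalIdeal R * Ideal.span {a} ⊔
            Ideal.ofList (z :: q :: p :: (A1 ++ A2)) :=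
          Ideal.mem_sup_right (mem_ofList (by simp))
        have hp' : p ∈ maximalIdeal R * Ideal.span {a} ⊔
            Ideal.ofList (z :: q :: p :: (A1 ++ A2)) :=
          Ideal.mem_sup_right (mem_ofList (by simp))
        rcases hb with rfl | rfl | rfl | hb
        · exact Ideal.mul_mem_left _ _ hz'
        · exact Ideal.add_mem _ (Ideal.mul_mem_right _ _ hz') (Ideal.mul_mem_right _ _ hp')
        · exact Ideal.add_mem _ (Ideal.mul_mem_right _ _ hz') (Ideal.mul_mem_right _ _ hq')
        · exact Ideal.mem_sup_right (mem_ofList (by simp only [List.mem_cons]; tauto))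
  have hJ1m : J1 ≤ maximalIdeal R :=
    sup_le (le_trans hKJ hJm) (le_trans Ideal.mul_le_right hJm)
  have hb3 : x1 - z * u1 ∈ maximalIdeal R * J1 := by
    have : x1 - z * u1 = p * p := by rw [hx1]; ring
    rw [this]; exact hpp
  have hb4 : x2 - z * u2 ∈ maximalIdeal R * J1 := by
    have : x2 - z * u2 = q * q := by rw [hx2]; ring
    rw [this]; exact hqq
  have hb2 : z * z - z * z ∈ maximalIdeal R * J1 := by
    rw [sub_self]; exact Ideal.zero_mem _
  -- independence in the new ideal
  have indI2 : Ind β (col (Ideal.ofList β) J1) := by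
    have hzzm : z * z ∈ maximalIdeal R := Ideal.mul_mem_right _ _ hzm
    refine ind_cons3 ?_ ?_ ?_ ?_
    · have hp1 : β.Perm (x1 :: x2 :: A ++ [z * z]) :=
        (List.perm_append_singleton _ _).symm
      have r1 := isRegular_of_perm regβ hp1
      have := hKF R J1 x1 x2 (z * z) z u1 u2 A hJ1m (by
        intro b hb
        simp only [List.mem_cons] at hb
        rcases hb with rfl | rfl | hb
        · exact hx11
        · exact hx21
        · exact hA1 b hb) hzzm r1.toIsWeaklyRegular hzm hb3 hb4
      rw [← ofList_perm hp1] at this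
      exact this
    · have hp1 : β.Perm (z * z :: x2 :: A ++ [x1]) :=
        ((List.Perm.swap _ _ _).trans (List.perm_append_singleton _ _).symm)
      have r1 := isRegular_of_perm regβ hp1
      have := hKF R J1 (z * z) x2 x1 z z u2 A hJ1m (by
        intro b hb
        simp only [List.mem_cons] at hb
        rcases hb with rfl | rfl | hb
        · exact hzz1
        · exact hx21
        · exact hA1 b hb) hx1m r1.toIsWeaklyRegular hzm hb2 hb4
      rw [← ofList_perm hp1] at this
      exact this
    · have hp1 : β.Perm (z * z :: x1 :: A ++ [x2]) := by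
        have h1 : β.Perm (z * z :: x2 :: x1 :: A) :=
          (List.perm_cons _).mpr (List.Perm.swap _ _ _)
        exact (h1.trans (List.Perm.swap _ _ _)).trans (List.perm_append_singleton _ _).symm
      have r1 := isRegular_of_perm regβ hp1
      have := hKF R J1 (z * z) x1 x2 z z u1 A hJ1m (by
        intro b hb
        simp only [List.mem_cons] at hb
        rcases hb with rfl | rfl | hb
        · exact hzz1
        · exact hx11
        · exact hA1 b hb) hx2m r1.toIsWeaklyRegular hzm hb2 hb3
      rw [← ofList_perm hp1] at this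
      exact this
    · intro A1 a A2 hA
      have hp1 : β.Perm (z * z :: x1 :: (x2 :: (A1 ++ A2)) ++ [a]) := by
        rw [hβ, hA]
        have h1 : (z * z :: x1 :: x2 :: (A1 ++ a :: A2)).Perm
            (z * z :: x1 :: x2 :: a :: (A1 ++ A2)) := by
          refine (List.perm_cons _).mpr ((List.perm_cons _).mpr ((List.perm_cons _).mpr ?_))
          exact List.perm_middle
        refine h1.trans ?_
        have h2 : (z * z :: x1 :: x2 :: a :: (A1 ++ A2)).Perm
            (a :: z * z :: x1 :: x2 :: (A1 ++ A2)) :=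
          List.perm_middle (l₁ := [z * z, x1, x2])
        exact h2.trans (List.perm_append_singleton _ _).symm
      have r1 := isRegular_of_perm regβ hp1
      have ham : a ∈ maximalIdeal R := hmem a (by rw [hA]; simp)
      have := hKF R J1 (z * z) x1 a z z u1 (x2 :: (A1 ++ A2)) hJ1m (by
        intro b hb
        simp only [List.mem_cons] at hb
        rcases hb with rfl | rfl | rfl | hb
        · exact hzz1
        · exact hx11
        · exact hx21
        · refine hA1 b ?_
          rw [hA]
          simp only [List.mem_append, List.mem_cons] at hb ⊢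
          tauto) ham r1.toIsWeaklyRegular hzm hb2 hb3
      rw [← ofList_perm hp1] at this
      exact this
  -- the numbers
  have n1 : Nat.card (R ⧸ (maximalIdeal R * I ⊔ Ideal.ofList (z * z :: q :: p :: A))) =
      Nat.card (R ⧸ maximalIdeal R) ^ (d + 1) * Nat.card (R ⧸ I) := by
    have h1 : maximalIdeal R * I ⊔ Ideal.ofList (z * z :: q :: p :: A) =
        maximalIdeal R * I ⊔ K := by
      rw [Ideal.ofList_cons, ← sup_assoc]
      congr 1
      exact sup_eq_left.mpr ((Ideal.span_singleton_le_iff_mem _).mpr
        (Ideal.mul_mem_mul hzm hzI))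
    have h2 := c_card_step hO (V := maximalIdeal R * I ⊔ K) le_sup_left hzI
      (indI z (q :: p :: A) (List.Perm.refl _))
    have h3 : maximalIdeal R * I ⊔ Ideal.ofList (z :: q :: p :: A) =
        maximalIdeal R * I ⊔ K ⊔ Ideal.span {z} := by
      rw [hKz, ← sup_assoc]
    rw [h3] at cI
    rw [h1, h2, cI, pow_succ']
    ring
  have n2 : Nat.card (R ⧸ (maximalIdeal R * J1 ⊔ Ideal.ofList β)) =
      Nat.card (R ⧸ maximalIdeal R) ^ (t' + 1 + 1) * Nat.card (R ⧸ J1) := by
    set X : Ideal R := V ⊔ Ideal.span {z} ⊔ Ideal.span {u1} ⊔ Ideal.span {u2} with hX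
    have hKX : K ≤ X := by
      rw [hX, hV]
      exact le_trans (le_trans (le_trans le_sup_right le_sup_left) le_sup_left) le_sup_left
    set N : Ideal R := maximalIdeal R * J1 ⊔ Ideal.ofList β with hN
    have eN : N ⊔ Ideal.span {p} ⊔ Ideal.span {q} = K ⊔ Ideal.span {z} * X := by
      apply le_antisymm
      · refine sup_le (sup_le (sup_le ?_ ?_) ?_) ?_
        · refine le_trans hmJ1 (sup_le_sup_left (Ideal.mul_mono_right ?_) _)
          rw [hX, hV]
          exact le_trans (le_trans (le_trans le_sup_left le_sup_left) le_sup_left) le_sup_left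
        · refine ofList_le ?_
          intro a ha
          rw [hβ] at ha
          simp only [List.mem_cons] at ha
          have hzX : z ∈ X := Ideal.mem_sup_left (Ideal.mem_sup_left (Ideal.mem_sup_right
            (Ideal.mem_span_singleton_self z)))
          have hu1X : u1 ∈ X := Ideal.mem_sup_left (Ideal.mem_sup_right
            (Ideal.mem_span_singleton_self u1))
          have hu2X : u2 ∈ X := Ideal.mem_sup_right (Ideal.mem_span_singleton_self u2)
          rcases ha with rfl | rfl | rfl | ha
          · exact Ideal.mem_sup_right (c_span_mul_mem hzX)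
          · rw [hx1, add_comm]
            exact Submodule.add_mem_sup (K.mul_mem_left _ hpK) (c_span_mul_mem hu1X)
          · rw [hx2, add_comm]
            exact Submodule.add_mem_sup (K.mul_mem_left _ hqK) (c_span_mul_mem hu2X)
          · exact Ideal.mem_sup_left (hAK a ha)
        · rw [Ideal.span_singleton_le_iff_mem]; exact Ideal.mem_sup_left hpK
        · rw [Ideal.span_singleton_le_iff_mem]; exact Ideal.mem_sup_left hqK
      · have hA' : ∀ a ∈ A, a ∈ N ⊔ Ideal.span {p} ⊔ Ideal.span {q} := fun a ha =>
          Ideal.mem_sup_left (Ideal.mem_sup_left (Ideal.mem_sup_right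
            (mem_ofList (by rw [hβ]; simp [ha]))))
        have hp' : p ∈ N ⊔ Ideal.span {p} ⊔ Ideal.span {q} :=
          Ideal.mem_sup_left (Ideal.mem_sup_right (Ideal.mem_span_singleton_self p))
        have hq' : q ∈ N ⊔ Ideal.span {p} ⊔ Ideal.span {q} :=
          Ideal.mem_sup_right (Ideal.mem_span_singleton_self q)
        have hK' : K ≤ N ⊔ Ideal.span {p} ⊔ Ideal.span {q} := by
          refine ofList_le ?_
          intro a ha
          simp only [List.mem_cons] at ha
          rcases ha with rfl | rfl | ha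
          · exact hq'
          · exact hp'
          · exact hA' a ha
        refine sup_le hK' ?_
        rw [Ideal.span_singleton_mul_le_iff]
        have hb' : ∀ b ∈ β, b ∈ N ⊔ Ideal.span {p} ⊔ Ideal.span {q} := fun b hb =>
          Ideal.mem_sup_left (Ideal.mem_sup_left (Ideal.mem_sup_right (mem_ofList hb)))
        have key : X ≤ Submodule.comap (LinearMap.mulLeft R z)
            (N ⊔ Ideal.span {p} ⊔ Ideal.span {q}) := by
          rw [hX, hV]
          refine sup_le (sup_le (sup_le (sup_le ?_ ?_) ?_) ?_) ?_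
          · rw [Ideal.mul_le]
            intro r hr s hs
            change z * (r * s) ∈ (N ⊔ Ideal.span {p} ⊔ Ideal.span {q} : Ideal R)
            have : z * (r * s) = r * (z * s) := by ring
            rw [this]
            exact Ideal.mem_sup_left (Ideal.mem_sup_left (Ideal.mem_sup_left
              (Ideal.mul_mem_mul hr (hzJ1 s hs))))
          · intro k hk
            exact Ideal.mul_mem_left _ _ (hK' hk)
          · rw [Ideal.span_singleton_le_iff_mem]
            exact hb' _ (by rw [hβ]; simp)
          · rw [Ideal.span_singleton_le_iff_mem]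
            change z * u1 ∈ (N ⊔ Ideal.span {p} ⊔ Ideal.span {q} : Ideal R)
            have : z * u1 = x1 - p * p := by rw [hx1]; ring
            rw [this]
            exact Ideal.sub_mem _ (hb' _ (by rw [hβ]; simp)) (Ideal.mul_mem_left _ _ hp')
          · rw [Ideal.span_singleton_le_iff_mem]
            change z * u2 ∈ (N ⊔ Ideal.span {p} ⊔ Ideal.span {q} : Ideal R)
            have : z * u2 = x2 - q * q := by rw [hx2]; ring
            rw [this]
            exact Ideal.sub_mem _ (hb' _ (by rw [hβ]; simp)) (Ideal.mul_mem_left _ _ hq')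
        exact fun v hv => key hv
    -- p, q are new
    have hmK : maximalIdeal R * K ≤ maximalIdeal R * Ideal.span {p} ⊔ Ideal.span {q} ⊔
        Ideal.ofList A := by
      rw [hK, Ideal.ofList_cons, Ideal.ofList_cons, Ideal.mul_sup, Ideal.mul_sup]
      refine sup_le ?_ (sup_le ?_ ?_)
      · exact le_trans Ideal.mul_le_right (le_trans le_sup_right le_sup_left)
      · exact le_trans le_sup_left le_sup_left
      · exact le_trans Ideal.mul_le_right le_sup_right
    have hmK' : maximalIdeal R * K ≤ maximalIdeal R * Ideal.span {q} ⊔ Ideal.span {p} ⊔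
        Ideal.ofList A := by
      rw [hK, Ideal.ofList_cons, Ideal.ofList_cons, Ideal.mul_sup, Ideal.mul_sup]
      refine sup_le ?_ (sup_le ?_ ?_)
      · exact le_trans le_sup_left le_sup_left
      · exact le_trans Ideal.mul_le_right (le_trans le_sup_right le_sup_left)
      · exact le_trans Ideal.mul_le_right le_sup_right
    have np : p ∉ N := by
      intro h
      have r1 : IsRegular R (p :: z :: q :: A) :=
        isRegular_of_perm reg (by
          have h1 : (z :: q :: p :: A).Perm (z :: p :: q :: A) :=
            (List.perm_cons z).mpr (List.Perm.swap _ _ _)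
          exact h1.trans (List.Perm.swap _ _ _))
      apply hRs R p _ r1
      have hz' : z ∈ maximalIdeal R * Ideal.span {p} ⊔ Ideal.ofList (z :: q :: A) :=
        Ideal.mem_sup_right (mem_ofList (by simp))
      have hq' : q ∈ maximalIdeal R * Ideal.span {p} ⊔ Ideal.ofList (z :: q :: A) :=
        Ideal.mem_sup_right (mem_ofList (by simp))
      have hA' : ∀ a ∈ A, a ∈ maximalIdeal R * Ideal.span {p} ⊔ Ideal.ofList (z :: q :: A) :=
        fun a ha => Ideal.mem_sup_right (mem_ofList (by simp [ha]))
      refine (sup_le (le_trans hmJ1' (sup_le (le_trans hmK (sup_le (sup_le le_sup_left ?_) ?_))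
        ?_)) ?_) h
      · rw [Ideal.span_singleton_le_iff_mem]; exact hq'
      · exact ofList_le hA'
      · rw [Ideal.span_singleton_le_iff_mem]; exact hz'
      · refine ofList_le ?_
        intro b hb
        rw [hβ] at hb
        simp only [List.mem_cons] at hb
        rcases hb with rfl | rfl | rfl | hb
        · exact Ideal.mul_mem_left _ _ hz'
        · exact Ideal.add_mem _ (Ideal.mul_mem_right _ _ hz') (Ideal.mem_sup_left
            (Ideal.mul_mem_mul hpm (Ideal.mem_span_singleton_self p)))
        · exact Ideal.add_mem _ (Ideal.mul_mem_right _ _ hz') (Ideal.mul_mem_right _ _ hq')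
        · exact hA' b hb
    have nq : q ∉ N ⊔ Ideal.span {p} := by
      intro h
      have r1 : IsRegular R (q :: z :: p :: A) :=
        isRegular_of_perm reg (List.Perm.swap _ _ _)
      apply hRs R q _ r1
      have hz' : z ∈ maximalIdeal R * Ideal.span {q} ⊔ Ideal.ofList (z :: p :: A) :=
        Ideal.mem_sup_right (mem_ofList (by simp))
      have hp' : p ∈ maximalIdeal R * Ideal.span {q} ⊔ Ideal.ofList (z :: p :: A) :=
        Ideal.mem_sup_right (mem_ofList (by simp))
      have hA' : ∀ a ∈ A, a ∈ maximalIdeal R * Ideal.span {q} ⊔ Ideal.ofList (z :: p :: A) :=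
        fun a ha => Ideal.mem_sup_right (mem_ofList (by simp [ha]))
      refine (sup_le (sup_le (le_trans hmJ1' (sup_le (le_trans hmK' (sup_le
        (sup_le le_sup_left ?_) ?_)) ?_)) ?_) ?_) h
      · rw [Ideal.span_singleton_le_iff_mem]; exact hp'
      · exact ofList_le hA'
      · rw [Ideal.span_singleton_le_iff_mem]; exact hz'
      · refine ofList_le ?_
        intro b hb
        rw [hβ] at hb
        simp only [List.mem_cons] at hb
        rcases hb with rfl | rfl | rfl | hb
        · exact Ideal.mul_mem_left _ _ hz'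
        · exact Ideal.add_mem _ (Ideal.mul_mem_right _ _ hz') (Ideal.mul_mem_right _ _ hp')
        · exact Ideal.add_mem _ (Ideal.mul_mem_right _ _ hz') (Ideal.mem_sup_left
            (Ideal.mul_mem_mul hqm (Ideal.mem_span_singleton_self q)))
        · exact hA' b hb
      · rw [Ideal.span_singleton_le_iff_mem]; exact hp'
    have m1 := c_card_step hO (V := N) (J := J1) le_sup_left (hKJ1 hpK) np
    have m2 := c_card_step hO (V := N ⊔ Ideal.span {p}) (J := J1)
      (le_trans le_sup_left le_sup_left) (hKJ1 hqK) nq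
    have m3 := hMZ R K X z hKX nz
    have m4 := hMZ R K J z hKJ nz
    rw [m1, m2, eN, m3, c2, hJ1, m4, pow_succ', pow_succ']
    ring
  have hl : β.length = c := by rw [hβ]; simpa using lrs
  exact ⟨β, _, J1, wit_mk hD hTy hT hx hf (by omega) (by simpa using lrs) regγ lk1 hl regβ hβ1
    indI2 indJ1 n1 n2 tau⟩

end Main

end Pool.Agent.LCB
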