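import Mathlib
import Pool.Agent.LCB.C

/-!
The operation `(c, d, t) ↦ (c, d + 2, t)`.
-/

namespace Pool.Agent.LCB

open Pool.Agent.Helper40.Licci RingTheory.Sequence IsLocalRing

section Main

variable {R : Type} [CommRing R] [IsRegularLocalRing R]

/-- multiplying the basic double link by the maximal ideal, first bound -/
lemma b_bound1 (K J : Ideal R) (z : R) : maximalIdeal R * (K ⊔ Ideal.span {z} * J) ≤
    K ⊔ Ideal.span {z} * (maximalIdeal R * J) := by
  rw [Ideal.mul_sup]
  refine sup_le (le_trans Ideal.mul_le_right le_sup_left) ?_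
  rw [← mul_assoc, mul_comm (maximalIdeal R) (Ideal.span {z}), mul_assoc]
  exact le_sup_right

lemma b_bound2 (K J : Ideal R) (z : R) : maximalIdeal R * (K ⊔ Ideal.span {z} * J) ≤
    maximalIdeal R * K ⊔ Ideal.span {z} := by
  rw [Ideal.mul_sup]
  refine sup_le le_sup_left ?_
  refine le_trans ?_ le_sup_right
  rw [← mul_assoc, mul_comm (maximalIdeal R) (Ideal.span {z}), mul_assoc]
  exact Ideal.mul_le_left

/-- `𝔪 (L)` is contained in an ideal which contains all members of the list but one, and `𝔪`
times this one -/
lemma b_mul_le {L : List R} {T : Ideal R} (h : ∀ a ∈ L, a ∈ T ∨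
    maximalIdeal R * Ideal.span {a} ≤ T) : maximalIdeal R * Ideal.ofList L ≤ T := by
  unfold Ideal.ofList
  rw [Ideal.mul_le]
  intro r hr s hs
  induction hs using Submodule.span_induction with
  | mem x hx =>
    rcases h x hx with h1 | h1
    · exact T.mul_mem_left _ h1
    · exact h1 (Ideal.mul_mem_mul hr (Ideal.mem_span_singleton_self x))
  | zero => rw [mul_zero]; exact T.zero_mem
  | add x y _ _ hx hy => rw [mul_add]; exact T.add_mem hx hy
  | smul a x _ hx =>
    have : r * (a • x) = a * (r * x) := by rw [smul_eq_mul]; ring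
    rw [this]; exact T.mul_mem_left _ hx

theorem thm_B (hD : St_Dual) (hTy : St_Type) (hO : St_One) (hRs : St_Rsm) (hRg : St_Rg1)
    (hKF : St_KF) (hE : St_Ex) (hD0 : St_D0) (hMZ : St_MZ) (hT : St_Tau) : St_B := by
  intro R _ _ c d t ys rs I J hx hf hc ht W
  obtain ⟨lrs, reg, lk, neI, neJ, indI, indJ, cI, cJ, tau⟩ := W
  have hf' : Finite (ResidueField R) := hf
  -- the shape of the list
  obtain ⟨z, y, p, A, rfl⟩ : ∃ z y p A, rs = z :: y :: p :: A := by
    rcases rs with _ | ⟨z, _ | ⟨q, _ | ⟨p, A⟩⟩⟩
    · simp at lrs; omega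
    · simp at lrs; omega
    · simp at lrs; omega
    · exact ⟨z, q, p, A, rfl⟩
  have hmem := mem_max_of_isRegular _ reg
  have hzm : z ∈ maximalIdeal R := hmem z (by simp)
  have hym : y ∈ maximalIdeal R := hmem y (by simp)
  have hpm : p ∈ maximalIdeal R := hmem p (by simp)
  set K1 : Ideal R := Ideal.ofList (y :: p :: A) with hK1
  set K2 : Ideal R := Ideal.ofList (z * z :: p :: A) with hK2
  have hKz : Ideal.ofList (z :: y :: p :: A) = K1 ⊔ Ideal.span {z} := by
    rw [Ideal.ofList_cons, sup_comm]
  have nz : ∀ r, z * r ∈ K1 → r ∈ K1 := nzd reg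
  have hzJ : z ∈ J := lk.leJ (mem_ofList (by simp))
  have hzI : z ∈ I := lk.leI (mem_ofList (by simp))
  have hyI : y ∈ I := lk.leI (mem_ofList (by simp))
  have hK1J : K1 ≤ J := le_trans (by rw [hKz]; exact le_sup_left) lk.leJ
  have hJm : J ≤ maximalIdeal R := le_maximalIdeal neJ
  have hAK1 : ∀ a ∈ A, a ∈ K1 := fun a ha => mem_ofList (by simp [ha])
  have hAK2 : ∀ a ∈ A, a ∈ K2 := fun a ha => mem_ofList (by simp [ha])
  have hyK1 : y ∈ K1 := mem_ofList (by simp)
  have hpK1 : p ∈ K1 := mem_ofList (by simp)
  have hpK2 : p ∈ K2 := mem_ofList (by simp)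
  have hzK2 : z * z ∈ K2 := mem_ofList (by simp)
  -- the first double link
  set J' : Ideal R := K1 ⊔ Ideal.span {z} * J with hJ'
  have lk1 : Lk (z * z :: y :: p :: A) I J' := hD0 R (y :: p :: A) z I J nz lk
  have reg1 : IsRegular R (z * z :: y :: p :: A) :=
    hRg R z (z * z) 1 2 (y :: p :: A) reg (Ideal.mul_mem_left _ _ hzm)
      (by rw [mul_one, pow_two, sub_self]; exact Ideal.zero_mem _)
  have hswap : (z * z :: y :: p :: A).Perm (y :: z * z :: p :: A) := List.Perm.swap _ _ _
  have reg1' : IsRegular R (y :: z * z :: p :: A) := isRegular_of_perm reg1 hswap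
  have lk1' : Lk (y :: z * z :: p :: A) I J' := lk1.congr (ofList_perm hswap)
  have ny : ∀ r, y * r ∈ K2 → r ∈ K2 := nzd reg1'
  -- the second double link
  set J2 : Ideal R := K2 ⊔ Ideal.span {y} * J' with hJ2
  have lk2 : Lk (y * y :: z * z :: p :: A) I J2 := hD0 R (z * z :: p :: A) y I J' ny lk1'
  have regα : IsRegular R (y * y :: z * z :: p :: A) :=
    hRg R y (y * y) 1 2 (z * z :: p :: A) reg1' (Ideal.mul_mem_left _ _ hym)
      (by rw [mul_one, pow_two, sub_self]; exact Ideal.zero_mem _)
  have hK1J' : K1 ≤ J' := le_sup_left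
  have hK2J2 : K2 ≤ J2 := le_sup_left
  have hzJ' : ∀ v ∈ J, z * v ∈ J' := fun v hv => Ideal.mem_sup_right (c_span_mul_mem hv)
  have hyJ2 : ∀ v ∈ J', y * v ∈ J2 := fun v hv => Ideal.mem_sup_right (c_span_mul_mem hv)
  have hK2J' : K2 ≤ J' := by
    refine ofList_le ?_
    intro a ha
    simp only [List.mem_cons] at ha
    rcases ha with rfl | rfl | ha
    · exact hzJ' z hzJ
    · exact hK1J' hpK1
    · exact hK1J' (hAK1 a ha)
  -- finiteness
  obtain ⟨f0, s0⟩ := hx.goodRing _ lrs reg
  have fJ : Finite (R ⧸ J) := Finite.of_surjective _ (fac_surjective lk.leJ)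
  -- the generator u
  set V : Ideal R := maximalIdeal R * J ⊔ K1 with hV
  have hV0 : maximalIdeal R * J ≤ V := le_sup_left
  have hVJ : V ≤ J := sup_le Ideal.mul_le_right hK1J
  have e0 : maximalIdeal R * J ⊔ Ideal.ofList (z :: y :: p :: A) = V ⊔ Ideal.span {z} := by
    rw [hKz, ← sup_assoc]
  obtain ⟨t', rfl⟩ : ∃ t', t = t' + 1 := ⟨t - 1, by omega⟩
  rw [e0] at cJ
  have hVz : maximalIdeal R * J ≤ V ⊔ Ideal.span {z} := le_trans hV0 le_sup_left
  have hVzJ : V ⊔ Ideal.span {z} ≤ J :=
    sup_le hVJ ((Ideal.span_singleton_le_iff_mem _).mpr hzJ)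
  obtain ⟨u, hu, hn, c1⟩ := c_choose hO hVz hVzJ hf fJ cJ
  -- the new complete intersection
  set x : R := y * (z * u) + p * p with hxd
  have hxm : x ∈ maximalIdeal R :=
    Ideal.add_mem _ (Ideal.mul_mem_right _ _ hym) (Ideal.mul_mem_right _ _ hpm)
  have r3 : IsRegular R (p :: y * y :: z * z :: A) :=
    isRegular_of_perm regα (by
      have h1 : (y * y :: z * z :: p :: A).Perm (y * y :: p :: z * z :: A) :=
        (List.perm_cons _).mpr (List.Perm.swap _ _ _)
      exact h1.trans (List.Perm.swap _ _ _))
  have r4 : IsRegular R (x :: y * y :: z * z :: A) :=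
    hRg R p x (p * p - y * (z * u)) 4 _ r3 hxm (by
      have : x * (p * p - y * (z * u)) - p ^ 4 = (- ((z * u) * (z * u))) * (y * y) := by
        rw [hxd]; ring
      rw [this]
      exact Ideal.mul_mem_left _ _ (mem_ofList (by simp)))
  have hperm0 : (x :: y * y :: z * z :: A).Perm (y * y :: z * z :: x :: A) :=
    (List.perm_middle (l₁ := [y * y, z * z])).symm
  have regβ : IsRegular R (y * y :: z * z :: x :: A) := isRegular_of_perm r4 hperm0
  set β : List R := y * y :: z * z :: x :: A with hβ
  have hyy2 : y * y ∈ J2 := hyJ2 y (hK1J' hyK1)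
  have hzz2 : z * z ∈ J2 := hK2J2 hzK2
  have hpJ2 : p ∈ J2 := hK2J2 hpK2
  have hpp : p * p ∈ maximalIdeal R * J2 := Ideal.mul_mem_mul hpm hpJ2
  have hx2 : x ∈ J2 := J2.add_mem (hyJ2 _ (hzJ' u hu)) (Ideal.mul_le_right hpp)
  have hA2 : ∀ a ∈ A, a ∈ J2 := fun a ha => hK2J2 (hAK2 a ha)
  have hβ2 : Ideal.ofList β ≤ J2 := by
    refine ofList_le ?_
    intro a ha
    rw [hβ] at ha
    simp only [List.mem_cons] at ha
    rcases ha with rfl | rfl | rfl | ha
    · exact hyy2
    · exact hzz2
    · exact hx2
    · exact hA2 a ha
  -- bounds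
  have bd1 : maximalIdeal R * J2 ≤ K2 ⊔ Ideal.span {y} * (maximalIdeal R * J') := b_bound1 _ _ _
  have bd2 : maximalIdeal R * J2 ≤ maximalIdeal R * K2 ⊔ Ideal.span {y} := b_bound2 _ _ _
  have bd3 : maximalIdeal R * J' ≤ K1 ⊔ Ideal.span {z} * (maximalIdeal R * J) := b_bound1 _ _ _
  have bd4 : maximalIdeal R * J' ≤ maximalIdeal R * K1 ⊔ Ideal.span {z} := b_bound2 _ _ _
  -- independence in J2
  have indJ2 : Ind β J2 := by
    refine ind_cons3 ?_ ?_ ?_ ?_
    · -- y * y
      intro h
      have h1 : y * y ∈ K2 ⊔ Ideal.span {y} * (maximalIdeal R * J' ⊔ Ideal.span {z * u}) := by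
        refine (sup_le (le_trans bd1 (sup_le_sup_left (Ideal.mul_mono_right
          le_sup_left) _)) ?_) h
        refine ofList_le ?_
        intro a ha
        simp only [List.mem_cons] at ha
        rcases ha with rfl | rfl | ha
        · exact Ideal.mem_sup_left hzK2
        · rw [hxd, add_comm]
          exact Submodule.add_mem_sup (K2.mul_mem_left _ hpK2) (c_span_mul_mem
            (Ideal.mem_sup_right (Ideal.mem_span_singleton_self _)))
        · exact Ideal.mem_sup_left (hAK2 a ha)
      have h2 := c_cancel ny h1
      have r1 : IsRegular R (y :: z :: p :: A) := isRegular_of_perm reg (List.Perm.swap _ _ _)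
      apply hRs R y _ r1
      have hz' : z ∈ maximalIdeal R * Ideal.span {y} ⊔ Ideal.ofList (z :: p :: A) :=
        Ideal.mem_sup_right (mem_ofList (by simp))
      have hp' : p ∈ maximalIdeal R * Ideal.span {y} ⊔ Ideal.ofList (z :: p :: A) :=
        Ideal.mem_sup_right (mem_ofList (by simp))
      have hA' : ∀ a ∈ A, a ∈ maximalIdeal R * Ideal.span {y} ⊔ Ideal.ofList (z :: p :: A) :=
        fun a ha => Ideal.mem_sup_right (mem_ofList (by simp [ha]))
      refine (sup_le ?_ (sup_le (le_trans bd4 (sup_le (b_mul_le ?_) ?_)) ?_)) h2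
      · refine ofList_le ?_
        intro a ha
        simp only [List.mem_cons] at ha
        rcases ha with rfl | rfl | ha
        · exact Ideal.mul_mem_left _ _ hz'
        · exact hp'
        · exact hA' a ha
      · intro a ha
        simp only [List.mem_cons] at ha
        rcases ha with rfl | rfl | ha
        · right; exact le_sup_left
        · left; exact hp'
        · left; exact hA' a ha
      · rw [Ideal.span_singleton_le_iff_mem]; exact hz'
      · rw [Ideal.span_singleton_le_iff_mem]; exact Ideal.mul_mem_right _ _ hz'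
    · -- z * z
      intro h
      apply hRs R (z * z) _ reg1
      have hy' : y ∈ maximalIdeal R * Ideal.span {z * z} ⊔ Ideal.ofList (y :: p :: A) :=
        Ideal.mem_sup_right (mem_ofList (by simp))
      have hp' : p ∈ maximalIdeal R * Ideal.span {z * z} ⊔ Ideal.ofList (y :: p :: A) :=
        Ideal.mem_sup_right (mem_ofList (by simp))
      have hA' : ∀ a ∈ A, a ∈ maximalIdeal R * Ideal.span {z * z} ⊔
          Ideal.ofList (y :: p :: A) :=
        fun a ha => Ideal.mem_sup_right (mem_ofList (by simp [ha]))
      refine (sup_le (le_trans bd2 (sup_le (b_mul_le ?_) ?_)) (ofList_le ?_)) h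
      · intro a ha
        simp only [List.mem_cons] at ha
        rcases ha with rfl | rfl | ha
        · right; exact le_sup_left
        · left; exact hp'
        · left; exact hA' a ha
      · rw [Ideal.span_singleton_le_iff_mem]; exact hy'
      · intro a ha
        simp only [List.mem_cons] at ha
        rcases ha with rfl | rfl | ha
        · exact Ideal.mul_mem_left _ _ hy'
        · exact Ideal.add_mem _ (Ideal.mul_mem_right _ _ hy') (Ideal.mul_mem_right _ _ hp')
        · exact hA' a ha
    · -- x
      intro h
      have h1 : y * (z * u) ∈ K2 ⊔ Ideal.span {y} * (maximalIdeal R * J' ⊔ Ideal.span {y}) := by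
        have h3 : y * (z * u) = x - p * p := by rw [hxd]; ring
        rw [h3]
        refine Ideal.sub_mem _ ?_ (Ideal.mem_sup_left (K2.mul_mem_left _ hpK2))
        refine (sup_le (le_trans bd1 (sup_le_sup_left (Ideal.mul_mono_right
          le_sup_left) _)) ?_) h
        refine ofList_le ?_
        intro a ha
        simp only [List.mem_cons] at ha
        rcases ha with rfl | rfl | ha
        · exact Ideal.mem_sup_right (c_span_mul_mem
            (Ideal.mem_sup_right (Ideal.mem_span_singleton_self _)))
        · exact Ideal.mem_sup_left hzK2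
        · exact Ideal.mem_sup_left (hAK2 a ha)
      have h2 := c_cancel ny h1
      have h3 : z * u ∈ K1 ⊔ Ideal.span {z} * (maximalIdeal R * J ⊔ Ideal.span {z}) := by
        refine (sup_le ?_ (sup_le (le_trans bd3 (sup_le_sup_left (Ideal.mul_mono_right
          le_sup_left) _)) ?_)) h2
        · refine ofList_le ?_
          intro a ha
          simp only [List.mem_cons] at ha
          rcases ha with rfl | rfl | ha
          · exact Ideal.mem_sup_right (c_span_mul_mem
              (Ideal.mem_sup_right (Ideal.mem_span_singleton_self _)))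
          · exact Ideal.mem_sup_left hpK1
          · exact Ideal.mem_sup_left (hAK1 a ha)
        · rw [Ideal.span_singleton_le_iff_mem]; exact Ideal.mem_sup_left hyK1
      have h4 := c_cancel nz h3
      apply hn
      rw [hV, sup_comm _ K1, sup_assoc]
      exact h4
    · -- a in A
      intro A1 a A2 hA h
      have hperm : (z :: y :: p :: A).Perm (a :: z :: y :: p :: (A1 ++ A2)) := by
        rw [hA]
        have : (z :: y :: p :: (A1 ++ a :: A2)).Perm (z :: y :: p :: a :: (A1 ++ A2)) := by
          refine (List.perm_cons z).mpr ((List.perm_cons y).mpr ((List.perm_cons p).mpr ?_))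
          exact List.perm_middle
        refine this.trans ?_
        exact (List.perm_middle (l₁ := [z, y, p]))
      have r1 := isRegular_of_perm reg hperm
      apply hRs R a _ r1
      have hz' : z ∈ maximalIdeal R * Ideal.span {a} ⊔
          Ideal.ofList (z :: y :: p :: (A1 ++ A2)) :=
        Ideal.mem_sup_right (mem_ofList (by simp))
      have hy' : y ∈ maximalIdeal R * Ideal.span {a} ⊔
          Ideal.ofList (z :: y :: p :: (A1 ++ A2)) :=
        Ideal.mem_sup_right (mem_ofList (by simp))
      have hp' : p ∈ maximalIdeal R * Ideal.span {a} ⊔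
          Ideal.ofList (z :: y :: p :: (A1 ++ A2)) :=
        Ideal.mem_sup_right (mem_ofList (by simp))
      have hA' : ∀ b ∈ A1 ++ A2, b ∈ maximalIdeal R * Ideal.span {a} ⊔
          Ideal.ofList (z :: y :: p :: (A1 ++ A2)) := fun b hb =>
        Ideal.mem_sup_right (mem_ofList (by
          simp only [List.mem_cons]
          right; right; right; exact hb))
      refine (sup_le (le_trans bd2 (sup_le (b_mul_le ?_) ?_)) (ofList_le ?_)) h
      · intro b hb
        simp only [List.mem_cons] at hb
        rcases hb with rfl | rfl | hb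
        · left; exact Ideal.mul_mem_left _ _ hz'
        · left; exact hp'
        · rw [hA, List.mem_append, List.mem_cons] at hb
          rcases hb with hb | rfl | hb
          · left; exact hA' b (List.mem_append.mpr (Or.inl hb))
          · right; exact le_sup_left
          · left; exact hA' b (List.mem_append.mpr (Or.inr hb))
      · rw [Ideal.span_singleton_le_iff_mem]; exact hy'
      · intro b hb
        simp only [List.mem_cons] at hb
        rcases hb with rfl | rfl | rfl | hb
        · exact Ideal.mul_mem_left _ _ hy'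
        · exact Ideal.mul_mem_left _ _ hz'
        · exact Ideal.add_mem _ (Ideal.mul_mem_right _ _ hy') (Ideal.mul_mem_right _ _ hp')
        · exact hA' b hb
  have hJ2m : J2 ≤ maximalIdeal R := by
    refine sup_le (le_trans hK2J' ?_) (le_trans Ideal.mul_le_right ?_) <;>
    exact sup_le (le_trans hK1J hJm) (le_trans Ideal.mul_le_right hJm)
  have hb1 : y * y - y * y ∈ maximalIdeal R * J2 := by rw [sub_self]; exact Ideal.zero_mem _
  have hb2 : z * z - z * z ∈ maximalIdeal R * J2 := by rw [sub_self]; exact Ideal.zero_mem _
  have hb3 : x - y * (z * u) ∈ maximalIdeal R * J2 := by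
    have : x - y * (z * u) = p * p := by rw [hxd]; ring
    rw [this]; exact hpp
  have hb4 : x - z * (y * u) ∈ maximalIdeal R * J2 := by
    have : x - z * (y * u) = p * p := by rw [hxd]; ring
    rw [this]; exact hpp
  -- independence in the new ideal
  have indI2 : Ind β (col (Ideal.ofList β) J2) := by
    have hyym : y * y ∈ maximalIdeal R := Ideal.mul_mem_right _ _ hym
    have hzzm : z * z ∈ maximalIdeal R := Ideal.mul_mem_right _ _ hzm
    refine ind_cons3 ?_ ?_ ?_ ?_
    · have hp1 : β.Perm (z * z :: x :: A ++ [y * y]) := (List.perm_append_singleton _ _).symm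
      have r1 := isRegular_of_perm regβ hp1
      have := hKF R J2 (z * z) x (y * y) z z (y * u) A hJ2m (by
        intro b hb
        simp only [List.mem_cons] at hb
        rcases hb with rfl | rfl | hb
        · exact hzz2
        · exact hx2
        · exact hA2 b hb) hyym r1.toIsWeaklyRegular hzm hb2 hb4
      rw [← ofList_perm hp1] at this
      exact this
    · have hp1 : β.Perm (y * y :: x :: A ++ [z * z]) :=
        ((List.Perm.swap _ _ _).trans (List.perm_append_singleton _ _).symm)
      have r1 := isRegular_of_perm regβ hp1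
      have := hKF R J2 (y * y) x (z * z) y y (z * u) A hJ2m (by
        intro b hb
        simp only [List.mem_cons] at hb
        rcases hb with rfl | rfl | hb
        · exact hyy2
        · exact hx2
        · exact hA2 b hb) hzzm r1.toIsWeaklyRegular hym hb1 hb3
      rw [← ofList_perm hp1] at this
      exact this
    · -- the exchange
      intro h
      set K3 : Ideal R := Ideal.ofList (y * y :: z * z :: A) with hK3
      have nx : ∀ r, x * r ∈ K3 → r ∈ K3 := nzd r4
      have e1 : Ideal.ofList β = K3 ⊔ Ideal.span {x} := by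
        rw [hβ, ofList_perm hperm0.symm, Ideal.ofList_cons, sup_comm]
      have e2 : Ideal.ofList (y * y :: z * z :: p :: A) = K3 ⊔ Ideal.span {p} := by
        have hperm1 : (y * y :: z * z :: p :: A).Perm (p :: y * y :: z * z :: A) :=
          List.perm_middle (l₁ := [y * y, z * z])
        rw [ofList_perm hperm1, Ideal.ofList_cons, sup_comm]
      rw [e1] at h
      have h1 := hE R (maximalIdeal R) K3 J2 p x hpJ2 nx h
      have e3 : col (K3 ⊔ Ideal.span {p}) J2 = I := by
        ext v
        rw [mem_col, ← e2]
        exact (lk2.hI v).symm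
      rw [e3] at h1
      apply indI p (z :: y :: A) (by
        have h2 : (z :: y :: p :: A).Perm (z :: p :: y :: A) :=
          (List.perm_cons _).mpr (List.Perm.swap _ _ _)
        have h3 : (z :: p :: y :: A).Perm (p :: z :: y :: A) := List.Perm.swap _ _ _
        exact h2.trans h3)
      have hle : maximalIdeal R * I ⊔ K3 ≤ maximalIdeal R * I ⊔ Ideal.ofList (z :: y :: A) := by
        refine sup_le le_sup_left (ofList_le ?_)
        intro b hb
        simp only [List.mem_cons] at hb
        rcases hb with rfl | rfl | hb
        · exact Ideal.mem_sup_left (Ideal.mul_mem_mul hym hyI)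
        · exact Ideal.mem_sup_left (Ideal.mul_mem_mul hzm hzI)
        · exact Ideal.mem_sup_right (mem_ofList (by simp [hb]))
      exact hle h1
    · intro A1 a A2 hA
      have hp1 : β.Perm (y * y :: x :: (z * z :: (A1 ++ A2)) ++ [a]) := by
        rw [hβ, hA]
        have h1 : (y * y :: z * z :: x :: (A1 ++ a :: A2)).Perm
            (y * y :: z * z :: x :: a :: (A1 ++ A2)) := by
          refine (List.perm_cons _).mpr ((List.perm_cons _).mpr ((List.perm_cons _).mpr ?_))
          exact List.perm_middle
        refine h1.trans ?_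
        have h2 : (y * y :: z * z :: x :: a :: (A1 ++ A2)).Perm
            (a :: y * y :: z * z :: x :: (A1 ++ A2)) :=
          List.perm_middle (l₁ := [y * y, z * z, x])
        have h3 : (a :: y * y :: z * z :: x :: (A1 ++ A2)).Perm
            (a :: y * y :: x :: z * z :: (A1 ++ A2)) :=
          (List.perm_cons _).mpr ((List.perm_cons _).mpr (List.Perm.swap _ _ _))
        exact (h2.trans h3).trans (List.perm_append_singleton _ _).symm
      have r1 := isRegular_of_perm regβ hp1
      have ham : a ∈ maximalIdeal R := hmem a (by rw [hA]; simp)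
      have := hKF R J2 (y * y) x a y y (z * u) (z * z :: (A1 ++ A2)) hJ2m (by
        intro b hb
        simp only [List.mem_cons] at hb
        rcases hb with rfl | rfl | rfl | hb
        · exact hyy2
        · exact hx2
        · exact hzz2
        · refine hA2 b ?_
          rw [hA]
          simp only [List.mem_append, List.mem_cons] at hb ⊢
          tauto) ham r1.toIsWeaklyRegular hym hb1 hb3
      rw [← ofList_perm hp1, ofList_perm ((List.perm_cons (y * y)).mpr
        (List.Perm.swap (z * z) x (A1 ++ A2)))] at this
      exact this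
  -- the numbers
  have n1 : Nat.card (R ⧸ (maximalIdeal R * I ⊔ Ideal.ofList (y * y :: z * z :: p :: A))) =
      Nat.card (R ⧸ maximalIdeal R) ^ (d + 2) * Nat.card (R ⧸ I) := by
    set V0 : Ideal R := maximalIdeal R * I ⊔ Ideal.ofList (p :: A) with hV0'
    have h1 : maximalIdeal R * I ⊔ Ideal.ofList (y * y :: z * z :: p :: A) = V0 := by
      rw [Ideal.ofList_cons, Ideal.ofList_cons, ← sup_assoc, ← sup_assoc, hV0']
      congr 1
      rw [sup_eq_left.mpr, sup_eq_left.mpr]
      · exact (Ideal.span_singleton_le_iff_mem _).mpr (Ideal.mul_mem_mul hym hyI)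
      · exact (Ideal.span_singleton_le_iff_mem _).mpr
          (Ideal.mem_sup_left (Ideal.mul_mem_mul hzm hzI))
    have hVy : V0 ⊔ Ideal.span {y} = maximalIdeal R * I ⊔ Ideal.ofList (y :: p :: A) := by
      rw [hV0', Ideal.ofList_cons y, sup_assoc, sup_comm (Ideal.span {y})]
    have hVyz : V0 ⊔ Ideal.span {y} ⊔ Ideal.span {z} =
        maximalIdeal R * I ⊔ Ideal.ofList (z :: y :: p :: A) := by
      rw [hVy, hKz, ← sup_assoc]
    have ny0 : y ∉ V0 := by
      intro h
      apply indI y (z :: p :: A) (List.Perm.swap _ _ _)
      have hle : V0 ≤ maximalIdeal R * I ⊔ Ideal.ofList (z :: p :: A) := by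
        refine sup_le le_sup_left ?_
        rw [Ideal.ofList_cons z]
        exact le_trans le_sup_right le_sup_right
      exact hle h
    have nz0 : z ∉ V0 ⊔ Ideal.span {y} := by
      rw [hVy]
      exact indI z (y :: p :: A) (List.Perm.refl _)
    have h2 := c_card_step hO (V := V0) le_sup_left hyI ny0
    have h3 := c_card_step hO (V := V0 ⊔ Ideal.span {y})
      (le_trans le_sup_left le_sup_left) hzI nz0
    rw [h1, h2, h3, hVyz, cI, pow_succ', pow_succ']
    ring
  have n2 : Nat.card (R ⧸ (maximalIdeal R * J2 ⊔ Ideal.ofList β)) =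
      Nat.card (R ⧸ maximalIdeal R) ^ (t' + 1) * Nat.card (R ⧸ J2) := by
    set X : Ideal R := V ⊔ Ideal.span {z} ⊔ Ideal.span {u} with hX
    set X' : Ideal R := K1 ⊔ Ideal.span {z} * X with hX'
    have hK1X : K1 ≤ X := by
      rw [hX, hV]
      exact le_trans (le_trans le_sup_right le_sup_left) le_sup_left
    have hzX : z ∈ X := Ideal.mem_sup_left (Ideal.mem_sup_right
      (Ideal.mem_span_singleton_self z))
    have huX : u ∈ X := Ideal.mem_sup_right (Ideal.mem_span_singleton_self u)
    have hK2X' : K2 ≤ X' := by
      refine ofList_le ?_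
      intro a ha
      simp only [List.mem_cons] at ha
      rcases ha with rfl | rfl | ha
      · exact Ideal.mem_sup_right (c_span_mul_mem hzX)
      · exact Ideal.mem_sup_left hpK1
      · exact Ideal.mem_sup_left (hAK1 a ha)
    set N : Ideal R := maximalIdeal R * J2 ⊔ Ideal.ofList β with hN
    have eN : N ⊔ Ideal.span {p} = K2 ⊔ Ideal.span {y} * X' := by
      apply le_antisymm
      · refine sup_le (sup_le ?_ ?_) ?_
        · refine le_trans bd1 (sup_le_sup_left (Ideal.mul_mono_right ?_) _)
          refine le_trans bd3 (sup_le_sup_left (Ideal.mul_mono_right ?_) _)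
          rw [hX, hV]
          exact le_trans (le_trans le_sup_left le_sup_left) le_sup_left
        · refine ofList_le ?_
          intro a ha
          rw [hβ] at ha
          simp only [List.mem_cons] at ha
          rcases ha with rfl | rfl | rfl | ha
          · exact Ideal.mem_sup_right (c_span_mul_mem (Ideal.mem_sup_left hyK1))
          · exact Ideal.mem_sup_left hzK2
          · rw [hxd, add_comm]
            exact Submodule.add_mem_sup (K2.mul_mem_left _ hpK2) (c_span_mul_mem
              (Ideal.mem_sup_right (c_span_mul_mem huX)))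
          · exact Ideal.mem_sup_left (hAK2 a ha)
        · rw [Ideal.span_singleton_le_iff_mem]; exact Ideal.mem_sup_left hpK2
      · have hb' : ∀ b ∈ β, b ∈ N ⊔ Ideal.span {p} := fun b hb =>
          Ideal.mem_sup_left (Ideal.mem_sup_right (mem_ofList hb))
        have hp' : p ∈ N ⊔ Ideal.span {p} :=
          Ideal.mem_sup_right (Ideal.mem_span_singleton_self p)
        have hyy' : y * y ∈ N ⊔ Ideal.span {p} := hb' _ (by rw [hβ]; simp)
        have hzz' : z * z ∈ N ⊔ Ideal.span {p} := hb' _ (by rw [hβ]; simp)
        have hA' : ∀ a ∈ A, a ∈ N ⊔ Ideal.span {p} := fun a ha =>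
          hb' _ (by rw [hβ]; simp [ha])
        have hK2' : K2 ≤ N ⊔ Ideal.span {p} := by
          refine ofList_le ?_
          intro a ha
          simp only [List.mem_cons] at ha
          rcases ha with rfl | rfl | ha
          · exact hzz'
          · exact hp'
          · exact hA' a ha
        have hyK : ∀ v ∈ K1, y * v ∈ N ⊔ Ideal.span {p} := by
          intro v hv
          have : K1 ≤ Submodule.comap (LinearMap.mulLeft R y) (N ⊔ Ideal.span {p}) := by
            refine ofList_le ?_
            intro a ha
            simp only [List.mem_cons] at ha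
            rcases ha with rfl | rfl | ha
            · exact hyy'
            · exact Ideal.mul_mem_left _ _ hp'
            · exact Ideal.mul_mem_left _ _ (hA' a ha)
          exact this hv
        have hXX : ∀ v ∈ X, y * (z * v) ∈ N ⊔ Ideal.span {p} := by
          intro v hv
          have key : X ≤ Submodule.comap (LinearMap.mulLeft R (y * z)) (N ⊔ Ideal.span {p}) := by
            rw [hX, hV]
            refine sup_le (sup_le (sup_le ?_ ?_) ?_) ?_
            · rw [Ideal.mul_le]
              intro r hr s hs
              change (y * z) * (r * s) ∈ (N ⊔ Ideal.span {p} : Ideal R)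
              have : (y * z) * (r * s) = r * (y * (z * s)) := by ring
              rw [this]
              exact Ideal.mem_sup_left (Ideal.mem_sup_left
                (Ideal.mul_mem_mul hr (hyJ2 _ (hzJ' s hs))))
            · intro k hk
              change (y * z) * k ∈ (N ⊔ Ideal.span {p} : Ideal R)
              have : (y * z) * k = z * (y * k) := by ring
              rw [this]
              exact Ideal.mul_mem_left _ _ (hyK k hk)
            · rw [Ideal.span_singleton_le_iff_mem]
              change (y * z) * z ∈ (N ⊔ Ideal.span {p} : Ideal R)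
              have : (y * z) * z = y * (z * z) := by ring
              rw [this]
              exact Ideal.mul_mem_left _ _ hzz'
            · rw [Ideal.span_singleton_le_iff_mem]
              change (y * z) * u ∈ (N ⊔ Ideal.span {p} : Ideal R)
              have : (y * z) * u = x - p * p := by rw [hxd]; ring
              rw [this]
              exact Ideal.sub_mem _ (hb' _ (by rw [hβ]; simp)) (Ideal.mul_mem_left _ _ hp')
          have h1 := key hv
          change (y * z) * v ∈ (N ⊔ Ideal.span {p} : Ideal R) at h1
          rwa [mul_assoc] at h1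
        refine sup_le hK2' ?_
        rw [Ideal.span_singleton_mul_le_iff]
        intro v hv
        obtain ⟨k, hk, w, hw, rfl⟩ := Submodule.mem_sup.mp hv
        obtain ⟨s, hs, rfl⟩ := Ideal.mem_span_singleton_mul.mp hw
        rw [mul_add]
        exact Ideal.add_mem _ (hyK k hk) (hXX s hs)
    have np : p ∉ N := by
      intro h
      have r1 : IsRegular R (p :: z :: y :: A) :=
        isRegular_of_perm reg (by
          have h1 : (z :: y :: p :: A).Perm (z :: p :: y :: A) :=
            (List.perm_cons z).mpr (List.Perm.swap _ _ _)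
          exact h1.trans (List.Perm.swap _ _ _))
      apply hRs R p _ r1
      have hz' : z ∈ maximalIdeal R * Ideal.span {p} ⊔ Ideal.ofList (z :: y :: A) :=
        Ideal.mem_sup_right (mem_ofList (by simp))
      have hy' : y ∈ maximalIdeal R * Ideal.span {p} ⊔ Ideal.ofList (z :: y :: A) :=
        Ideal.mem_sup_right (mem_ofList (by simp))
      have hA' : ∀ a ∈ A, a ∈ maximalIdeal R * Ideal.span {p} ⊔ Ideal.ofList (z :: y :: A) :=
        fun a ha => Ideal.mem_sup_right (mem_ofList (by simp [ha]))
      refine (sup_le (le_trans bd2 (sup_le (b_mul_le ?_) ?_)) (ofList_le ?_)) h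
      · intro a ha
        simp only [List.mem_cons] at ha
        rcases ha with rfl | rfl | ha
        · left; exact Ideal.mul_mem_left _ _ hz'
        · right; exact le_sup_left
        · left; exact hA' a ha
      · rw [Ideal.span_singleton_le_iff_mem]; exact hy'
      · intro b hb
        rw [hβ] at hb
        simp only [List.mem_cons] at hb
        rcases hb with rfl | rfl | rfl | hb
        · exact Ideal.mul_mem_left _ _ hy'
        · exact Ideal.mul_mem_left _ _ hz'
        · exact Ideal.add_mem _ (Ideal.mul_mem_right _ _ hy') (Ideal.mem_sup_left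
            (Ideal.mul_mem_mul hpm (Ideal.mem_span_singleton_self p)))
        · exact hA' b hb
    have m1 := c_card_step hO (V := N) (J := J2) le_sup_left hpJ2 np
    have m2 := hMZ R K2 X' y hK2X' ny
    have m3 := hMZ R K1 X z hK1X nz
    have m4 := hMZ R K2 J' y hK2J' ny
    have m5 := hMZ R K1 J z hK1J nz
    rw [m1, eN, m2, hX', m3, c1, hJ2, m4, hJ', m5, pow_succ']
    ring
  have hl : β.length = c := by rw [hβ]; simpa using lrs
  exact ⟨β, _, J2, wit_mk hD hTy hT hx hf (by omega) (by simpa using lrs) regα lk2 hl regβ hβ2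
    indI2 indJ2 n1 n2 tau⟩

end Main

end Pool.Agent.LCB
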