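import Pool.Agent.LCB.BSt

/-!
The colon ideal of the example of type `(5, 2, 2)`: coefficients at the 32 squarefree monomials in
the first five coordinates.
-/

namespace Pool.Agent.LCB

open Pool.Agent.Helper40.Licci MvPolynomial

section ex

variable {c : ℕ}

/-- the exponents of the squarefree monomials, indexed by bit masks -/
noncomputable def B5A_ex (c : ℕ) (s : Fin 32) : Fin c →₀ ℕ :=
  Finsupp.equivFunOnFinite.symm fun v => (s.val.testBit v.val).toNat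

lemma B5A_ex_apply (s : Fin 32) (v : Fin c) :
    B5A_ex c s v = (s.val.testBit v.val).toNat := rfl

lemma B5A_high (s : Fin 32) {k : ℕ} (hk : 5 ≤ k) : s.val.testBit k = false := by
  apply Nat.testBit_lt_two_pow
  have h1 : 2 ^ 5 ≤ 2 ^ k := Nat.pow_le_pow_right (by norm_num) hk
  have h2 := s.isLt
  omega

lemma B5A_range : Set.range (ba 5 : Fin c → PP c) =
    (fun s => monomial s (1 : ZMod 7)) ''
      (Set.range (fun v : Fin c => Finsupp.single v (bx 5 v))) := by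
  rw [← Set.range_comp]
  congr 1
  funext v
  simp [ba, X_pow_eq_monomial]

lemma B5A_mem (u : PP c) : u ∈ bA 5 c ↔ ∀ m ∈ u.support, ∃ v, bx 5 v ≤ m v := by
  rw [bA, B5A_range, mem_ideal_span_monomial_image]
  apply forall₂_congr
  intro m _
  constructor
  · rintro ⟨_, ⟨v, rfl⟩, h⟩
    refine ⟨v, ?_⟩
    have := h v
    simpa using this
  · rintro ⟨v, hv⟩
    refine ⟨_, ⟨v, rfl⟩, ?_⟩
    exact Finsupp.single_le_iff.mpr hv

lemma B5A_bits : ∀ f : Fin 5 → Bool, ∃ s : Fin 32, ∀ j : Fin 5, s.val.testBit j.val = f j := by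
  decide +kernel

lemma B5A_exists (hc : 5 ≤ c) (m : Fin c →₀ ℕ) (hm : ∀ v, m v < bx 5 v) :
    ∃ s, m = B5A_ex c s := by
  obtain ⟨s, hs⟩ := B5A_bits (fun j => decide (m (Fin.castLE hc j) = 1))
  refine ⟨s, ?_⟩
  ext v
  have hmv := hm v
  unfold bx at hmv
  rw [B5A_ex_apply]
  by_cases h5 : v.val < 5
  · rw [if_pos h5] at hmv
    have h1 := hs ⟨v.val, h5⟩
    have h2 : Fin.castLE hc ⟨v.val, h5⟩ = v := rfl
    rw [h2] at h1
    change s.val.testBit v.val = _ at h1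
    rw [h1]
    have h3 : m v = 0 ∨ m v = 1 := by omega
    rcases h3 with h3 | h3 <;> simp [h3]
  · rw [if_neg h5] at hmv
    rw [B5A_high s (by omega)]
    change m v = 0
    omega

lemma B5A_lt (s : Fin 32) (v : Fin c) : B5A_ex c s v < bx 5 v := by
  rw [B5A_ex_apply]
  unfold bx
  by_cases h5 : v.val < 5
  · rw [if_pos h5]
    exact lt_of_le_of_lt (Bool.toNat_le _) (by omega)
  · rw [if_neg h5, B5A_high s (by omega)]
    exact Nat.zero_lt_one

/-- the coefficients -/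
noncomputable def B5A_cf (u : PP c) : Fin 32 → ZMod 7 := fun s => coeff (B5A_ex c s) u

lemma B5A_mem_iff (hc : 5 ≤ c) (u : PP c) : u ∈ bA 5 c ↔ ∀ s, B5A_cf u s = 0 := by
  rw [B5A_mem]
  constructor
  · intro h s
    by_contra hne
    obtain ⟨v, hv⟩ := h (B5A_ex c s) (by rw [mem_support_iff]; exact hne)
    exact absurd hv (not_le.mpr (B5A_lt s v))
  · intro h m hm
    by_contra hcon
    push Not at hcon
    obtain ⟨s, rfl⟩ := B5A_exists hc m hcon
    rw [mem_support_iff] at hm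
    exact hm (h s)

lemma B5A_cf_add (u v : PP c) (s : Fin 32) : B5A_cf (u + v) s = B5A_cf u s + B5A_cf v s := by
  simp [B5A_cf]

lemma B5A_cf_sub (u v : PP c) (s : Fin 32) : B5A_cf (u - v) s = B5A_cf u s - B5A_cf v s := by
  simp [B5A_cf]

/-- multiplication by a coordinate -/
def B5A_sh (i : Fin 5) (a : Fin 32 → ZMod 7) (s : Fin 32) : ZMod 7 :=
  if s.val.testBit i.val = true then
    a ⟨s.val - 2 ^ i.val, lt_of_le_of_lt (Nat.sub_le _ _) s.isLt⟩ else 0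

lemma B5A_sub : ∀ (s : Fin 32) (i j : Fin 5), s.val.testBit i.val = true →
    (s.val - 2 ^ i.val).testBit j.val = if j = i then false else s.val.testBit j.val := by
  decide +kernel

lemma B5A_ex_sub (hc : 5 ≤ c) (s : Fin 32) (i : Fin 5) (hs : s.val.testBit i.val = true) :
    B5A_ex c s - Finsupp.single (Fin.castLE hc i) 1 =
      B5A_ex c ⟨s.val - 2 ^ i.val, lt_of_le_of_lt (Nat.sub_le _ _) s.isLt⟩ := by
  ext v
  rw [Finsupp.tsub_apply, Finsupp.single_apply, B5A_ex_apply, B5A_ex_apply]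
  by_cases hv : Fin.castLE hc i = v
  · subst hv
    rw [if_pos rfl]
    have h1 := B5A_sub s i i hs
    rw [if_pos rfl] at h1
    change (s.val.testBit i.val).toNat - 1 = ((s.val - 2 ^ i.val).testBit i.val).toNat
    rw [h1, hs]
    rfl
  · rw [if_neg hv]
    by_cases h5 : v.val < 5
    · have h1 := B5A_sub s i ⟨v.val, h5⟩ hs
      have hne : (⟨v.val, h5⟩ : Fin 5) ≠ i := by
        intro he
        apply hv
        rw [← he]
        rfl
      rw [if_neg hne] at h1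
      change (s.val.testBit v.val).toNat - 0 = ((s.val - 2 ^ i.val).testBit v.val).toNat
      change (s.val - 2 ^ i.val).testBit v.val = s.val.testBit v.val at h1
      rw [h1]
      rfl
    · rw [B5A_high s (by omega), B5A_high ⟨s.val - 2 ^ i.val, _⟩ (by omega)]
      rfl

lemma B5A_cf_X (hc : 5 ≤ c) (i : Fin 5) (u : PP c) :
    B5A_cf (xP hc i * u) = B5A_sh i (B5A_cf u) := by
  funext s
  unfold B5A_sh
  change coeff (B5A_ex c s) (X (Fin.castLE hc i) * u) = _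
  rw [coeff_X_mul']
  by_cases hs : s.val.testBit i.val = true
  · rw [if_pos hs, if_pos, B5A_ex_sub hc s i hs]
    · rfl
    · rw [Finsupp.mem_support_iff, B5A_ex_apply]
      change (s.val.testBit i.val).toNat ≠ 0
      rw [hs]
      decide
  · rw [if_neg hs, if_neg]
    rw [Finsupp.mem_support_iff, B5A_ex_apply]
    change ¬ ((s.val.testBit i.val).toNat ≠ 0)
    simp [hs]

lemma B5A_inj0 : ∀ s t : Fin 32, (∀ j : Fin 5, s.val.testBit j.val = t.val.testBit j.val) →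
    s = t := by
  decide +kernel

lemma B5A_inj (hc : 5 ≤ c) {s t : Fin 32} (h : B5A_ex c s = B5A_ex c t) : s = t := by
  refine B5A_inj0 s t fun j => ?_
  have h1 := DFunLike.congr_fun h (Fin.castLE hc j)
  rw [B5A_ex_apply, B5A_ex_apply] at h1
  change (s.val.testBit j.val).toNat = (t.val.testBit j.val).toNat at h1
  cases h2 : s.val.testBit j.val <;> cases h3 : t.val.testBit j.val <;> simp_all

/-- the polynomial with given coefficients -/
noncomputable def B5A_pm (a : Fin 32 → ZMod 7) : PP c := ∑ s, monomial (B5A_ex c s) (a s)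

lemma B5A_cf_pm (hc : 5 ≤ c) (a : Fin 32 → ZMod 7) : B5A_cf (B5A_pm a : PP c) = a := by
  funext s
  change coeff (B5A_ex c s) (∑ t, monomial (B5A_ex c t) (a t)) = a s
  rw [coeff_sum, Finset.sum_eq_single s]
  · rw [coeff_monomial, if_pos rfl]
  · intro t _ ht
    rw [coeff_monomial, if_neg]
    intro h
    exact ht (B5A_inj hc h)
  · intro h
    exact absurd (Finset.mem_univ _) h

end ex

/-- the first coefficient -/
def B5A_U (a : Fin 32 → ZMod 7) (s : Fin 32) : ZMod 7 :=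
  if s.val = 0 then a 5 else
  if s.val = 2 then a 7 else
  if s.val = 8 then a 13 - a 19 + a 21 - a 22 else
  if s.val = 10 then a 15 else
  if s.val = 16 then a 21 else
  if s.val = 18 then a 23 else
  if s.val = 24 then a 29 else
  if s.val = 26 then a 31 else 0

/-- the second coefficient -/
def B5A_V (a : Fin 32 → ZMod 7) (s : Fin 32) : ZMod 7 :=
  if s.val = 0 then a 18 else
  if s.val = 1 then a 19 - a 21 else
  if s.val = 2 then a 14 else
  if s.val = 4 then a 22 else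
  if s.val = 8 then a 26 else
  if s.val = 9 then a 27 - a 29 else
  if s.val = 12 then a 30 else
  if s.val = 16 then a 28 else 0

/-- the linear algebra -/
lemma B5A_solve (a : Fin 32 → ZMod 7)
    (h0 : ∀ s, B5A_sh 1 (B5A_sh 2 a) s - B5A_sh 0 (B5A_sh 1 a) s = 0)
    (h1 : ∀ s, B5A_sh 0 (B5A_sh 3 a) s + B5A_sh 2 (B5A_sh 3 a) s - B5A_sh 1 (B5A_sh 3 a) s +
      B5A_sh 2 (B5A_sh 4 a) s - B5A_sh 0 (B5A_sh 4 a) s - B5A_sh 1 (B5A_sh 4 a) s = 0) (s : Fin 32) :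
    a s = (B5A_sh 0 (B5A_sh 1 (B5A_U a)) s + B5A_sh 0 (B5A_sh 2 (B5A_U a)) s) +
      (B5A_sh 0 (B5A_sh 3 (B5A_V a)) s + B5A_sh 1 (B5A_sh 4 (B5A_V a)) s +
        B5A_sh 2 (B5A_sh 3 (B5A_V a)) s) := by
  have h7 : (7 : ZMod 7) = 0 := rfl
  have e3 : 0 - a 0 = 0 := h0 3
  have e7 : a 1 - a 4 = 0 := h0 7
  have e11 : 0 - a 8 = 0 := h0 11
  have e15 : a 9 - a 12 = 0 := h0 15
  have e19 : 0 - a 16 = 0 := h0 19
  have e23 : a 17 - a 20 = 0 := h0 23
  have e27 : 0 - a 24 = 0 := h0 27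
  have e31 : a 25 - a 28 = 0 := h0 31
  have e43 : a 2 + 0 - a 1 + 0 - 0 - 0 = 0 := h1 11
  have e45 : a 4 + a 1 - 0 + 0 - 0 - 0 = 0 := h1 13
  have e47 : a 6 + a 3 - a 5 + 0 - 0 - 0 = 0 := h1 15
  have e51 : 0 + 0 - 0 + 0 - a 2 - a 1 = 0 := h1 19
  have e55 : 0 + 0 - 0 + a 3 - a 6 - a 5 = 0 := h1 23
  have e59 : a 18 + 0 - a 17 + 0 - a 10 - a 9 = 0 := h1 27
  have e61 : a 20 + a 17 - 0 + a 9 - a 12 - 0 = 0 := h1 29
  have e62 : 0 + a 18 - a 20 + a 10 - 0 - a 12 = 0 := h1 30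
  have e63 : a 22 + a 19 - a 21 + a 11 - a 14 - a 13 = 0 := h1 31
  have k0 : a 0 = (0 + 0) + (0 + 0 + 0) := by
    linear_combination -e3
  have k1 : a 1 = (0 + 0) + (0 + 0 + 0) := by
    linear_combination -3 * e7 - 3 * e45 + (a 1) * h7
  have k2 : a 2 = (0 + 0) + (0 + 0 + 0) := by
    linear_combination -3 * e43 + 3 * e51 + (a 2) * h7
  have k3 : a 3 = (a 5 + 0) + (0 + 0 + 0) := by
    linear_combination -3 * e47 - 3 * e55 + (a 3 - a 5) * h7
  have k4 : a 4 = (0 + 0) + (0 + 0 + 0) := by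
    linear_combination 3 * e7 - 3 * e45 + (a 4) * h7
  have k5 : a 5 = (0 + a 5) + (0 + 0 + 0) := by ring
  have k6 : a 6 = (0 + 0) + (0 + 0 + 0) := by
    linear_combination -3 * e47 + 3 * e55 + (a 6) * h7
  have k7 : a 7 = (0 + a 7) + (0 + 0 + 0) := by ring
  have k8 : a 8 = (0 + 0) + (0 + 0 + 0) := by
    linear_combination -e11
  have k9 : a 9 = (0 + 0) + (a 18 + 0 + 0) := by
    linear_combination e15 + 3 * e59 + 3 * e61 + 3 * e62 + (a 12 - a 18) * h7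
  have k10 : a 10 = (0 + 0) + (0 + 0 + 0) := by
    linear_combination 3 * e15 + 3 * e23 + 3 * e59 - 3 * e62 + (a 10) * h7
  have k11 : a 11 = ((a 13 - a 19 + a 21 - a 22) + 0) + (a 14 + 0 + 0) := by
    linear_combination e63
  have k12 : a 12 = (0 + 0) + (0 + 0 + a 18) := by
    linear_combination 3 * e59 + 3 * e61 + 3 * e62 + (a 12 - a 18) * h7
  have k13 : a 13 = (0 + (a 13 - a 19 + a 21 - a 22)) + (a 22 + 0 + (a 19 - a 21)) := by ring
  have k14 : a 14 = (0 + 0) + (0 + 0 + a 14) := by ring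
  have k15 : a 15 = (0 + a 15) + (0 + 0 + 0) := by ring
  have k16 : a 16 = (0 + 0) + (0 + 0 + 0) := by
    linear_combination -e19
  have k17 : a 17 = (0 + 0) + (0 + 0 + 0) := by
    linear_combination 3 * e15 - 3 * e23 - 3 * e61 + (a 17) * h7
  have k18 : a 18 = (0 + 0) + (0 + a 18 + 0) := by ring
  have k19 : a 19 = (a 21 + 0) + (0 + (a 19 - a 21) + 0) := by ring
  have k20 : a 20 = (0 + 0) + (0 + 0 + 0) := by
    linear_combination 3 * e15 + 3 * e23 - 3 * e61 + (a 20) * h7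
  have k21 : a 21 = (0 + a 21) + (0 + 0 + 0) := by ring
  have k22 : a 22 = (0 + 0) + (0 + a 22 + 0) := by ring
  have k23 : a 23 = (0 + a 23) + (0 + 0 + 0) := by ring
  have k24 : a 24 = (0 + 0) + (0 + 0 + 0) := by
    linear_combination -e27
  have k25 : a 25 = (0 + 0) + (a 28 + 0 + 0) := by
    linear_combination e31
  have k26 : a 26 = (0 + 0) + (0 + a 26 + 0) := by ring
  have k27 : a 27 = (a 29 + 0) + (0 + (a 27 - a 29) + 0) := by ring
  have k28 : a 28 = (0 + 0) + (0 + 0 + a 28) := by ring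
  have k29 : a 29 = (0 + a 29) + (0 + 0 + 0) := by ring
  have k30 : a 30 = (0 + 0) + (0 + a 30 + 0) := by ring
  have k31 : a 31 = (0 + a 31) + (0 + 0 + 0) := by ring
  fin_cases s
  exacts [k0, k1, k2, k3, k4, k5, k6, k7, k8, k9, k10, k11, k12, k13, k14, k15, k16, k17, k18, k19, k20, k21, k22, k23, k24, k25, k26, k27, k28, k29, k30, k31]

lemma B5A_sq {c : ℕ} (hc : 5 ≤ c) (i : Fin 5) : xP hc i ^ 2 ∈ bA 5 c := by
  refine Ideal.subset_span ⟨Fin.castLE hc i, ?_⟩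
  have h1 : bx 5 (Fin.castLE hc i) = 2 := if_pos i.isLt
  unfold ba xP
  rw [h1]

lemma B5A_prod {A : Type} [CommRing A] (x : Fin 5 → A) (K : Ideal A) (hK : ∀ i, x i ^ 2 ∈ K)
    (k l : Fin 2) : h5 x k * g5 x l ∈ K := by
  have m := fun i (z : A) => K.mul_mem_left z (hK i)
  fin_cases k <;> fin_cases l
  · change (x 1 * x 2 - x 0 * x 1) * (x 0 * x 1 + x 0 * x 2) ∈ K
    have e : (x 1 * x 2 - x 0 * x 1) * (x 0 * x 1 + x 0 * x 2) =
      (-(x 1 ^ 2) - x 1 * x 2) * x 0 ^ 2 + (x 0 * x 2) * x 1 ^ 2 + (x 0 * x 1) * x 2 ^ 2 := by ring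
    rw [e]
    exact K.add_mem (K.add_mem (m 0 _) (m 1 _)) (m 2 _)
  · change (x 1 * x 2 - x 0 * x 1) * (x 0 * x 3 + x 1 * x 4 + x 2 * x 3) ∈ K
    have e : (x 1 * x 2 - x 0 * x 1) * (x 0 * x 3 + x 1 * x 4 + x 2 * x 3) =
      (-(x 1 * x 3)) * x 0 ^ 2 + (x 2 * x 4 - x 0 * x 4) * x 1 ^ 2 + (x 1 * x 3) * x 2 ^ 2 := by ring
    rw [e]
    exact K.add_mem (K.add_mem (m 0 _) (m 1 _)) (m 2 _)
  · change (x 0 * x 3 + x 2 * x 3 - x 1 * x 3 + x 2 * x 4 - x 0 * x 4 - x 1 * x 4) *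
      (x 0 * x 1 + x 0 * x 2) ∈ K
    have e : (x 0 * x 3 + x 2 * x 3 - x 1 * x 3 + x 2 * x 4 - x 0 * x 4 - x 1 * x 4) *
      (x 0 * x 1 + x 0 * x 2) =
      (x 1 * x 3 + x 2 * x 3 - x 1 * x 4 - x 2 * x 4) * x 0 ^ 2 + (-(x 0 * x 3) - x 0 * x 4) * x 1 ^ 2 + (x 0 * x 3 + x 0 * x 4) * x 2 ^ 2 := by ring
    rw [e]
    exact K.add_mem (K.add_mem (m 0 _) (m 1 _)) (m 2 _)
  · change (x 0 * x 3 + x 2 * x 3 - x 1 * x 3 + x 2 * x 4 - x 0 * x 4 - x 1 * x 4) *
      (x 0 * x 3 + x 1 * x 4 + x 2 * x 3) ∈ K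
    have e : (x 0 * x 3 + x 2 * x 3 - x 1 * x 3 + x 2 * x 4 - x 0 * x 4 - x 1 * x 4) *
      (x 0 * x 3 + x 1 * x 4 + x 2 * x 3) =
      (x 3 ^ 2 - x 3 * x 4) * x 0 ^ 2 + (-(x 3 * x 4) - x 4 ^ 2) * x 1 ^ 2 + (x 3 ^ 2 + x 3 * x 4) * x 2 ^ 2 + (2 * (x 0 * x 2) - x 0 * x 1 - x 1 * x 2) * x 3 ^ 2 + (x 1 * x 2 - x 0 * x 1) * x 4 ^ 2 := by ring
    rw [e]
    exact K.add_mem (K.add_mem (K.add_mem (K.add_mem (m 0 _) (m 1 _)) (m 2 _)) (m 3 _)) (m 4 _)

/-- [B5A] -/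
theorem B5A : St_B5A := by
  intro c hc u
  constructor
  · intro hu k
    have h1 : bI 5 (g5 (xP hc)) ≤
        Submodule.comap (LinearMap.mulLeft (PP c) (h5 (xP hc) k)) (bA 5 c) := by
      refine sup_le ?_ (Ideal.span_le.2 ?_)
      · intro v hv
        exact (bA 5 c).mul_mem_left _ hv
      · rintro _ ⟨l, rfl⟩
        exact B5A_prod (xP hc) (bA 5 c) (B5A_sq hc) k l
    exact h1 hu
  · intro hu
    have h0 : ∀ s, B5A_sh 1 (B5A_sh 2 (B5A_cf u)) s - B5A_sh 0 (B5A_sh 1 (B5A_cf u)) s = 0 := by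
      intro s
      have h1 := (B5A_mem_iff hc _).1 (hu 0) s
      have h2 : h5 (xP hc) 0 * u = xP hc 1 * (xP hc 2 * u) - xP hc 0 * (xP hc 1 * u) := by
        change (xP hc 1 * xP hc 2 - xP hc 0 * xP hc 1) * u = _
        ring
      rw [h2, B5A_cf_sub] at h1
      simpa only [B5A_cf_X] using h1
    have h1 : ∀ s, B5A_sh 0 (B5A_sh 3 (B5A_cf u)) s + B5A_sh 2 (B5A_sh 3 (B5A_cf u)) s -
        B5A_sh 1 (B5A_sh 3 (B5A_cf u)) s + B5A_sh 2 (B5A_sh 4 (B5A_cf u)) s -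
        B5A_sh 0 (B5A_sh 4 (B5A_cf u)) s - B5A_sh 1 (B5A_sh 4 (B5A_cf u)) s = 0 := by
      intro s
      have h1 := (B5A_mem_iff hc _).1 (hu 1) s
      have h2 : h5 (xP hc) 1 * u = xP hc 0 * (xP hc 3 * u) + xP hc 2 * (xP hc 3 * u) -
          xP hc 1 * (xP hc 3 * u) + xP hc 2 * (xP hc 4 * u) - xP hc 0 * (xP hc 4 * u) -
          xP hc 1 * (xP hc 4 * u) := by
        change (xP hc 0 * xP hc 3 + xP hc 2 * xP hc 3 - xP hc 1 * xP hc 3 + xP hc 2 * xP hc 4 -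
          xP hc 0 * xP hc 4 - xP hc 1 * xP hc 4) * u = _
        ring
      rw [h2] at h1
      simpa only [B5A_cf_X, B5A_cf_sub, B5A_cf_add] using h1
    have h2 := B5A_solve (B5A_cf u) h0 h1
    set U : PP c := B5A_pm (B5A_U (B5A_cf u)) with hU
    set V : PP c := B5A_pm (B5A_V (B5A_cf u)) with hV
    have h3 : u - (g5 (xP hc) 0 * U + g5 (xP hc) 1 * V) ∈ bA 5 c := by
      rw [B5A_mem_iff hc]
      intro s
      have h4 : g5 (xP hc) 0 * U + g5 (xP hc) 1 * V =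
          (xP hc 0 * (xP hc 1 * U) + xP hc 0 * (xP hc 2 * U)) +
          (xP hc 0 * (xP hc 3 * V) + xP hc 1 * (xP hc 4 * V) + xP hc 2 * (xP hc 3 * V)) := by
        change (xP hc 0 * xP hc 1 + xP hc 0 * xP hc 2) * U +
          (xP hc 0 * xP hc 3 + xP hc 1 * xP hc 4 + xP hc 2 * xP hc 3) * V = _
        ring
      rw [B5A_cf_sub, h4, h2 s]
      simp only [B5A_cf_X, B5A_cf_add]
      rw [hU, hV, B5A_cf_pm hc, B5A_cf_pm hc, sub_self]
    have h5 : u = (u - (g5 (xP hc) 0 * U + g5 (xP hc) 1 * V)) +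
        (g5 (xP hc) 0 * U + g5 (xP hc) 1 * V) := by ring
    rw [h5]
    refine Submodule.add_mem_sup h3 ?_
    exact Ideal.add_mem _ (Ideal.mul_mem_right _ _ (Ideal.subset_span ⟨0, rfl⟩))
      (Ideal.mul_mem_right _ _ (Ideal.subset_span ⟨1, rfl⟩))

end Pool.Agent.LCB
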