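import Mathlib
import Pool.Agent.LCB.Defs
import Pool.Agent.Helper40.Licci.LocalEx

/-!
The base examples over the local ring of affine `c`-space at the origin, over the field with
seven elements. The regular sequence consists of the squares of the first `n` coordinates and
of the other coordinates themselves.
-/

namespace Pool.Agent.LCB

open Pool.Agent.Helper40.Licci RingTheory.Sequence IsLocalRing MvPolynomial

/-- The exponent of a coordinate. -/
def bx (n : ℕ) {c : ℕ} (v : Fin c) : ℕ := if v.val < n then 2 else 1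

/-- The regular sequence, as polynomials. -/
noncomputable def ba (n : ℕ) {c : ℕ} (v : Fin c) : PP c := X v ^ bx n v

/-- The regular sequence in the local ring. -/
noncomputable def bR (n : ℕ) {c : ℕ} (v : Fin c) : RR c := toR c (ba n v)

/-- The ideal of the regular sequence in the polynomial ring. -/
noncomputable def bA (n c : ℕ) : Ideal (PP c) := Ideal.span (Set.range (ba n : Fin c → PP c))

/-- The ideal of the regular sequence in the local ring. -/
noncomputable def bL (n c : ℕ) : Ideal (RR c) := Ideal.span (Set.range (bR n : Fin c → RR c))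

/-- The ideal of the polynomial ring generated by the regular sequence and the members of `g`. -/
noncomputable def bI (n : ℕ) {c m : ℕ} (g : Fin m → PP c) : Ideal (PP c) :=
  bA n c ⊔ Ideal.span (Set.range g)

/-- The corresponding ideal of the local ring. -/
noncomputable def bJ (n : ℕ) {c m : ℕ} (g : Fin m → PP c) : Ideal (RR c) :=
  bL n c ⊔ Ideal.span (Set.range (fun k => toR c (g k)))

/-- Linear combinations of products of two different coordinates among the first `n`. -/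
def SQ (n : ℕ) {c : ℕ} (f : PP c) : Prop :=
  f ∈ Submodule.span (ZMod 7) {p : PP c | ∃ a b : Fin c, a ≠ b ∧ a.val < n ∧ b.val < n ∧
    p = X a * X b}

/-- The first `n` coordinates as polynomials. -/
noncomputable def xP {n c : ℕ} (hn : n ≤ c) (i : Fin n) : PP c := X (Fin.castLE hn i)

/-- The first `n` coordinates in the local ring. -/
noncomputable def xR {n c : ℕ} (hn : n ≤ c) (i : Fin n) : RR c := toR c (xP hn i)

section Five

variable {A : Type} [CommRing A]

/-- The two extra generators of `I` in the example of type `(5, 2, 2)`. -/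
def g5 (x : Fin 5 → A) : Fin 2 → A :=
  ![x 0 * x 1 + x 0 * x 2, x 0 * x 3 + x 1 * x 4 + x 2 * x 3]

/-- The two extra generators of `J`. -/
def h5 (x : Fin 5 → A) : Fin 2 → A :=
  ![x 1 * x 2 - x 0 * x 1,
    x 0 * x 3 + x 2 * x 3 - x 1 * x 3 + x 2 * x 4 - x 0 * x 4 - x 1 * x 4]

/-- Ten relations between `g5 x 0`, `g5 x 1` modulo the squares: the coefficients of the two
generators. -/
def r5 (x : Fin 5 → A) : Fin 10 → Fin 2 → A :=
  ![![x 0, 0],
    ![x 1 - x 2, 0],
    ![-(x 1 * x 3), x 0 * x 1],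
    ![-(x 1 * x 3), x 1 * x 2],
    ![0, x 1 * x 3],
    ![0, x 3 * x 4],
    ![-(x 3 * x 4), x 0 * x 3 + x 0 * x 4],
    ![0, x 0 * x 4 - x 2 * x 4],
    ![0, x 1 * x 4 - x 0 * x 3 - x 2 * x 3],
    ![x 0 * x 3 + x 1 * x 4 + x 2 * x 3, -(x 0 * x 1 + x 0 * x 2)]]

/-- The coefficients of the five squares in the ten relations:
`∑ k, r5 x j k * g5 x k = ∑ i, v5 x j i * x i ^ 2`. -/
def v5 (x : Fin 5 → A) : Fin 10 → Fin 5 → A :=
  ![![x 1 + x 2, 0, 0, 0, 0],
    ![0, x 0, -x 0, 0, 0],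
    ![x 1 * x 3, x 0 * x 4 - x 0 * x 3, 0, 0, 0],
    ![0, x 2 * x 4 - x 0 * x 3, x 1 * x 3, 0, 0],
    ![0, x 3 * x 4, 0, x 0 * x 1 + x 1 * x 2, 0],
    ![0, 0, 0, x 0 * x 4 + x 2 * x 4, x 1 * x 3],
    ![x 3 * x 4 + x 3 ^ 2, 0, 0, x 0 * x 2, x 0 * x 1],
    ![x 3 * x 4, 0, -(x 3 * x 4), 0, x 0 * x 1 - x 1 * x 2],
    ![0, 0, 0, -(x 0 ^ 2) - 2 * (x 0 * x 2) - x 2 ^ 2, x 1 ^ 2],
    ![0, 0, 0, 0, 0]]

/-- The columns of the relation matrix: minus the coefficients of the squares, then the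
coefficients of the two extra generators. -/
def c5 (x : Fin 5 → A) (j : Fin 10) : Fin 7 → A :=
  ![-(v5 x j 0), -(v5 x j 1), -(v5 x j 2), -(v5 x j 3), -(v5 x j 4), r5 x j 0, r5 x j 1]

/-- Fifteen vectors of linear forms, as matrices of coefficients: `z5 s k i` is the coefficient
of `x i` in the `k`-th entry of the `s`-th vector. -/
def z5 : Fin 15 → Fin 7 → Fin 5 → ℤ :=
  ![![![1, -1, 1, 0, 0], 0, 0, 0, 0, 0, 0],
    ![0, ![1, 1, 1, 0, 0], 0, 0, 0, 0, 0],
    ![0, ![0, 1, 0, 0, 0], ![0, 1, 0, 0, 0], 0, 0, 0, 0],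
    ![0, ![0, -1, 0, 0, 0], ![1, 0, 1, 0, 0], 0, 0, 0, 0],
    ![0, 0, 0, ![2, 1, 0, 0, 0], 0, 0, 0],
    ![0, 0, 0, ![-1, 0, 1, 0, 0], 0, 0, 0],
    ![0, 0, 0, ![1, 0, 0, 0, 0], ![1, 0, 0, 0, 0], 0, 0],
    ![0, 0, 0, 0, ![0, 1, 0, 0, 0], 0, 0],
    ![0, 0, 0, ![-1, 0, 0, 0, 0], ![0, 0, 1, 0, 0], 0, 0],
    ![![-1, 0, 0, 0, 0], ![0, 2, 0, 0, 0], ![-1, 0, 0, 0, 0], 0, 0, ![1, 0, 0, 0, 0], 0],
    ![![1, 0, 0, 0, 0], 0, ![1, 0, 0, 0, 0], 0, 0, ![0, 1, 1, 0, 0], 0],
    ![0, 0, 0, 0, ![0, 0, 0, 0, 2], 0, ![0, 1, 0, 0, 0]],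
    ![0, 0, 0, ![0, 0, 0, 2, 0], 0, 0, ![1, 0, 1, 0, 0]],
    ![![1, 0, 0, 0, 0], 0, ![-1, 0, 0, 0, 0], 0, 0, 0, ![0, 0, 0, 1, 0]],
    ![![1, 0, 0, 0, 0], 0, ![1, 0, 0, 0, 0], 0, 0, 0, ![0, 0, 0, 0, 1]]]

end Five

section Six

variable {A : Type} [CommRing A]

/-- The last four of six coordinates. -/
def y6 (x : Fin 6 → A) : Fin 4 → A := fun i => x ⟨i.val + 2, by omega⟩

/-- The three extra generators of `I` in the example of type `(6, 3, 1)`. -/
def g6 (x : Fin 6 → A) : Fin 3 → A :=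
  ![x 0 * x 1 + quad (y6 x), x 0 * lin (y6 x), x 1 * lin (y6 x)]

/-- The extra generator of `J`. -/
def h6 (x : Fin 6 → A) : Fin 1 → A := ![x 0 * x 1 - quad (y6 x)]

end Six

section Eight

variable {A : Type} [CommRing A]

/-- The first four of eight coordinates. -/
def x8 (x : Fin 8 → A) : Fin 4 → A := fun i => x ⟨i.val, by omega⟩

/-- The last four of eight coordinates. -/
def y8 (x : Fin 8 → A) : Fin 4 → A := fun i => x ⟨i.val + 4, by omega⟩

/-- The two extra generators of `I` in the example of type `(8, 2, 1)`. -/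
def g8 (x : Fin 8 → A) : Fin 2 → A :=
  ![quad (x8 x) + quad (y8 x), lin (x8 x) * lin (y8 x)]

/-- The extra generator of `J`. -/
def h8 (x : Fin 8 → A) : Fin 1 → A := ![quad (x8 x) - quad (y8 x)]

end Eight

end Pool.Agent.LCB
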