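import Mathlib
import Pool.Agent.LCB.BDefs
import Pool.Agent.LCB.St

/-!
Statements of the modules for the base examples. Everything is over `RR c`, the local ring of
affine `c`-space at the origin over the field with seven elements; see `BDefs`.
-/

namespace Pool.Agent.LCB

open Pool.Agent.Helper40.Licci RingTheory.Sequence IsLocalRing MvPolynomial

/-! ### General facts on the regular sequence -/

/-- [BG1] The basic facts on the regular sequence. All of them are short applications of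
helper40's files: `isRegular_pow`, `ofList_ofFn`, `coeffMem_of_isRegular_ofFn`, `params`,
`Params.finite`, `Params.goodRing`, `finite_res`, `Params.card_soc`; see `Final.lean`
(`isRegular_ar`, `finite_ar`, `card_soc_ar`) for the same with `n = 8`. The last clause:
the residue field is `ZMod 7`. -/
def St_BG1 : Prop := ∀ n c : ℕ, n ≤ c →
  IsRegular (RR c) (List.ofFn (bR n : Fin c → RR c)) ∧
  CoeffMem (bR n : Fin c → RR c) ∧
  Ideal.ofList (List.ofFn (bR n : Fin c → RR c)) = bL n c ∧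
  Finite (RR c ⧸ bL n c) ∧
  Nat.card (soc (RR c) (RR c ⧸ bL n c)) ≤ Nat.card (RR c ⧸ maximalIdeal (RR c)) ∧
  Nat.card (RR c ⧸ maximalIdeal (RR c)) = 7

/-- [BG2] Transfer between the polynomial ring and the local ring. `K` contains the regular
sequence.
(1) `bL n c = (bA n c).map (toR c)` (`span_range_map`), and `(bI n g).map (toR c) = bJ n g`.
(2) If `toR u ∈ K.map` then there is `m` outside `org c` with `m * u ∈ K`
(`IsLocalization.algebraMap_mem_map_algebraMap_iff`); `m = λ + m'` with `λ ≠ 0` constant and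
`m'` in `org c`, and `org c ^ N ≤ bA n c` for `N = 2 * c + 1` (pigeon hole on exponents), so `m`
is a unit modulo `K` and `u ∈ K`.
(3) `x = u / s` and `s` is a unit of the polynomial ring modulo `bA n c`: if `s * t - 1 ∈ bA`
then `x - toR (u * t) ∈ bL`. -/
def St_BG2 : Prop := ∀ n c : ℕ, n ≤ c →
  (∀ (m : ℕ) (g : Fin m → PP c), (bI n g).map (toR c) = bJ n g) ∧
  (bA n c).map (toR c) = bL n c ∧
  (∀ (K : Ideal (PP c)), bA n c ≤ K → ∀ u : PP c, toR c u ∈ K.map (toR c) ↔ u ∈ K) ∧
  (∀ x : RR c, ∃ u : PP c, x - toR c u ∈ bL n c)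

/-- [BG3] The quotient by the regular sequence has `7 ^ (2 ^ n)` elements. By BG2 it is the
quotient of the polynomial ring by `bA n c` (the map `u ↦ toR u` is injective and surjective
modulo the ideals). A polynomial is in `bA n c` iff its coefficients at the squarefree monomials
in the first `n` coordinates vanish (`mem_pow_iff` with `s = Set.univ`), so the quotient is in
bijection with the functions from the subsets of `Fin n` to `ZMod 7`. -/
def St_BG3 : Prop := St_BG2 → ∀ n c : ℕ, n ≤ c → Nat.card (RR c ⧸ bL n c) = 7 ^ (2 ^ n)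

/-- [BG4] Linkage. It is enough to know one colon ideal in the polynomial ring. Let
`L = bL n c`, `I = bJ n g`, `J = bJ n h`. By BG2 `x ∈ I ↔ ∀ y ∈ J, x * y ∈ L` for all `x` in the
local ring (write `x = toR u + l`; `J = L + (h k)`). So `I = col L J`, and `St_Dual` for
`K = J` gives `col L (col L J) = J`, which is the other half. -/
def St_BG4 : Prop := St_Dual → St_BG1 → St_BG2 → ∀ (n c d t : ℕ) (g : Fin d → PP c)
  (h : Fin t → PP c), n ≤ c →
  (∀ u : PP c, u ∈ bI n g ↔ ∀ k, h k * u ∈ bA n c) →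
  Lk (List.ofFn (bR n : Fin c → RR c)) (bJ n g) (bJ n h)

/-- [BG5] Independence of the regular sequence. Let `rs = List.ofFn (bR n)` be a permutation of
`a :: L`; then `a = bR n v` for some `v` and every member of `L` is some `bR n w` with `w ≠ v`
(the `bR n v` are pairwise different, as `toR` is injective; count multiplicities). Let `e = bx n v`
and let `T = (ZMod 7)[X] / (X ^ (e + 1))` (or the polynomial ring modulo that ideal, or the local
ring itself modulo the other coordinates and `X v ^ (e + 1)`). The ring homomorphism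
`PP c → T`, `X v ↦ X`, `X w ↦ 0` for `w ≠ v`, extends to `RR c` (elements with nonzero constant
term become units). It kills `L`, sends `bR n v` to `X ^ e ≠ 0`, sends `bJ n g` into `(X ^ e)`
(each `g k` is a combination of `X a * X b` with `a ≠ b`, which goes to `0`) and the maximal ideal
into `(X)`, so it kills `maximalIdeal * bJ n g` but not `a`. -/
def St_BG5 : Prop := ∀ (n c m : ℕ) (g : Fin m → PP c), n ≤ c → (∀ k, SQ n (g k)) →
  Ind (List.ofFn (bR n : Fin c → RR c)) (bJ n g)

/-- [BG6] Counting generators. Let `𝔪` be the maximal ideal, `I = bJ n g`, `L = bL n c`. The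
quotient of `I` by `𝔪 I + L` is spanned over the residue field by the classes of the `g k`; they
are independent: if `∑ λ k * g k ∈ 𝔪 I + L` with `λ k ∈ ZMod 7`, use that for `a ≠ b` with
`a, b < n` the coefficient of a polynomial at `X a * X b` vanishes on
`org c * bI n g ⊔ bA n c` (by BG2 one can work in the polynomial ring: this ideal contains
`bA n c`, and its image generates `𝔪 I + L`): the members of `bI n g` have no constant and no
linear terms in the coordinates below `n`. As the `g k` are combinations of such `X a * X b` and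
are linearly independent, all `λ k = 0`. So `I / (𝔪 I + L)` has `7 ^ m` elements. -/
def St_BG6 : Prop := St_BG1 → St_BG2 → ∀ (n c m : ℕ) (g : Fin m → PP c), n ≤ c →
  (∀ k, SQ n (g k)) → LinearIndependent (ZMod 7) g →
  Nat.card (RR c ⧸ (maximalIdeal (RR c) * bJ n g ⊔
    Ideal.ofList (List.ofFn (bR n : Fin c → RR c)))) =
  Nat.card (RR c ⧸ maximalIdeal (RR c)) ^ m * Nat.card (RR c ⧸ bJ n g)

/-- [BG7] Assembly of the witness. `bJ n g ≠ ⊤` as it lies in the maximal ideal (every generator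
has constant term `0`). The field `neJ` in the same way. `len` is `List.length_ofFn`. -/
def St_BG7 : Prop := St_BG1 → St_BG4 → St_BG5 → St_BG6 → St_Dual → St_BG2 →
  ∀ (n c d t : ℕ) (g : Fin d → PP c) (h : Fin t → PP c), n ≤ c → 1 ≤ c →
  (∀ k, SQ n (g k)) → (∀ k, SQ n (h k)) →
  LinearIndependent (ZMod 7) g → LinearIndependent (ZMod 7) h →
  (∀ u : PP c, u ∈ bI n g ↔ ∀ k, h k * u ∈ bA n c) →
  Nat.card (bJ n g →ₗ[RR c] (RR c ⧸ bJ n g)) ≠ Nat.card (RR c ⧸ bJ n g) ^ c →
  Wit (RR c) c d t (List.ofFn (bR n : Fin c → RR c)) (bJ n g) (bJ n h)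

/-! ### General facts on the number of homomorphisms -/

/-- [BT1] A lower bound for the number of homomorphisms `I → S = R/I` from the relations. Let
`Ψ : S^n × S^d → S^r`, `Ψ(z, ζ) j = ∑ k, rel j k ζ k - ∑ i, v j i z i`. Its image lies in `W`.
For `(z, ζ)` in the kernel there is a homomorphism `φ : I → S` with `φ (α i) = z i`,
`φ (g k) = ζ k`: if `∑ a i α i + ∑ b k g k = 0` then `∑ b k g k ∈ (α)`, so
`b k = ∑ s j rel j k + c k`, `c k = ∑ i, e k i α i`; then
`∑ i (a i + ∑ j, s j v j i + ∑ k, e k i g k) α i = 0`, so by `CoeffMem` (`Link.lean`)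
`a i ≡ - ∑ j, s j v j i` modulo `I`, and `∑ a i z i + ∑ b k ζ k = ∑ j, s j Ψ(z, ζ) j = 0`. Use
`exists_descend` of `Link.lean` as in `NonSyz.lean`. Hence
`|S|^(n+d) = |ker Ψ| |im Ψ| ≤ |Hom| |W|`; all sets are finite (`finite_hom_of_fg`-like: a
homomorphism is determined by its values on the `n + d` generators). -/
def St_BT1 : Prop := ∀ (R : Type) [CommRing R] (n d r : ℕ) (α : Fin n → R) (g : Fin d → R)
  (I : Ideal R) (rel : Fin r → Fin d → R) (v : Fin r → Fin n → R)
  (W : Submodule R (Fin r → R ⧸ I)),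
  CoeffMem α → I = Ideal.span (Set.range α) ⊔ Ideal.span (Set.range g) →
  Finite (R ⧸ Ideal.span (Set.range α)) →
  (∀ j, ∑ k, rel j k * g k = ∑ i, v j i * α i) →
  (∀ x : Fin d → R, ∑ k, x k * g k ∈ Ideal.span (Set.range α) →
    ∃ s : Fin r → R, ∀ k, x k - ∑ j, s j * rel j k ∈ Ideal.span (Set.range α)) →
  (∀ i, (fun j => Ideal.Quotient.mk I (v j i)) ∈ W) →
  (∀ k, (fun j => Ideal.Quotient.mk I (rel j k)) ∈ W) →
  Nat.card (R ⧸ I) ^ (n + d) ≤ Nat.card (I →ₗ[R] (R ⧸ I)) * Nat.card W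

/-- [BT3] Homomorphisms into a Gorenstein quotient. `S = R/I` is finite and its socle is at most
one-dimensional, so `|Hom(K, S)| ≤ |K|` for every submodule `K` of `S^m` (`card_hom_le` in
`Count.lean`). `I` is generated by `m` elements; let `p : S^m → I/I^2` be the surjection and `K`
its kernel. A vector `z ∈ S^m` with `∑ k, w k * z k = 0` for all `w ∈ K` defines a homomorphism
`I → I/I^2 → S`, and these vectors are the kernel of `S^m → Hom(K, S)`, so there are at least
`|S|^m / |K| = |I/I^2|` of them; `|R/I^2| = |R/I| |I/I^2|`. -/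
def St_BT3 : Prop := ∀ (R : Type) [CommRing R] [IsLocalRing R] (I : Ideal R), I.FG →
  Finite (R ⧸ I) → Nat.card (soc R (R ⧸ I)) ≤ Nat.card (R ⧸ maximalIdeal R) →
  Nat.card (R ⧸ (I * I)) ≤ Nat.card (I →ₗ[R] (R ⧸ I)) * Nat.card (R ⧸ I)

/-- [BT4] For `(α) ≤ I` the map `R^n → (α)/(α)I`, `a ↦ ∑ a i α i`, is surjective with kernel
`I^n` (if `∑ a i α i = ∑ b i α i` with `b i ∈ I` then `a i - b i ∈ (α)` by `CoeffMem`). So
`|(α)/(α)I| = |R/I|^n`. -/
def St_BT4 : Prop := ∀ (R : Type) [CommRing R] (n : ℕ) (α : Fin n → R) (I : Ideal R),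
  CoeffMem α → Ideal.span (Set.range α) ≤ I → Finite (R ⧸ Ideal.span (Set.range α)) →
  Nat.card (R ⧸ (Ideal.span (Set.range α) * I)) =
    Nat.card (R ⧸ Ideal.span (Set.range α)) * Nat.card (R ⧸ I) ^ n

/-! ### The example of type `(5, 2, 2)` -/

/-- [B5R] The ten relations, and the fifteen vectors of linear forms which they annihilate.
(1) is ten identities (`ring`). (2): for all `15 * 10` pairs the sum is in the ideal `K` which
contains the squares and `g5 x 0`, `g5 x 1` (and nothing else is needed): machine-checked over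
the integers modulo 7 and true over the integers; useful consequences in degree 3: `x0x1x2`,
`x1x3x4 ∈ K`; with `p = x0x1x3`: `x0x2x3 ≡ -p`, `x0x1x4 ≡ p`, `x0x2x4 ≡ -p`, `x1x2x3 ≡ -p`,
`x1x2x4 ≡ p`; with `r = x0x3x4`: `x2x3x4 ≡ -r`. -/
def St_B5R : Prop := ∀ (A : Type) [CommRing A] (x : Fin 5 → A),
  (∀ j, ∑ k, r5 x j k * g5 x k = ∑ i, v5 x j i * x i ^ 2) ∧
  ∀ K : Ideal A, (∀ i, x i ^ 2 ∈ K) → (∀ k, g5 x k ∈ K) →
    ∀ s j, ∑ k, c5 x j k * (∑ i, (z5 s k i : A) * x i) ∈ K

/-- [B5S] Cubic and quartic monomials modulo the ideal. See B5R for the values of the cubic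
monomials; every quartic one is in `K`. -/
def St_B5S : Prop := ∀ (A : Type) [CommRing A] (x : Fin 5 → A) (K : Ideal A),
  (∀ i, x i ^ 2 ∈ K) → (∀ k, g5 x k ∈ K) →
  (∀ a b e : Fin 5, ∃ l m : ℤ,
    x a * x b * x e - (l : A) * (x 0 * x 1 * x 3) - (m : A) * (x 0 * x 3 * x 4) ∈ K) ∧
  ∀ a b e f : Fin 5, x a * x b * x e * x f ∈ K

/-- [B5A] The colon ideal: `(α) : (h5) = (α, g5)`. Work with the coefficients at the `32`
squarefree monomials in the first five coordinates; multiplication by a coordinate is an explicit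
`0/1`-matrix. The products `h5 k * g5 l` are combinations of squares. For the converse: there are
`32 × 32` matrices over `ZMod 7` with `1 = G₁ P₁ + G₂ P₂ + P₃ H₁ + P₄ H₂`, where `G`, `H` are the
matrices of multiplication by the four quadrics (linear algebra by machine, check by
`decide`), or solve the equations degree by degree (the ideals are homogeneous; in the squarefree
algebra with dimensions `1, 5, 10, 10, 5, 1` the ideal `(g5)` has dimensions `0, 0, 2, 8, 5, 1`
and so has `(h5)`). -/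
def St_B5A : Prop := ∀ (c : ℕ) (hc : 5 ≤ c) (u : PP c),
  u ∈ bI 5 (g5 (xP hc)) ↔ ∀ k, h5 (xP hc) k * u ∈ bA 5 c

/-- [B5K] The ten relations generate all relations modulo the squares. In the squarefree algebra
`A` (dimension 32) the kernel of `(x, y) ↦ x g5 0 + y g5 1` has dimension 48 and is generated as
an `A`-module by the rows of `r5` (machine-checked). Split: (i) if `y g5 1 ∈ (g5 0)` in `A` then
`y` is in the ideal generated by the second entries of the rows; (ii) the annihilator of `g5 0` in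
`A` is `(x 0, x 1 - x 2)`. Each is an identity of `32 × 32` matrices of the kind
`1 = ∑ Y k P k + P' G`. -/
def St_B5K : Prop := ∀ (c : ℕ) (hc : 5 ≤ c) (w : Fin 2 → PP c),
  ∑ k, w k * g5 (xP hc) k ∈ bA 5 c →
  ∃ s : Fin 10 → PP c, ∀ k, w k - ∑ j, s j * r5 (xP hc) j k ∈ bA 5 c

/-- [B5C] The quotient has `7 ^ 16` elements (`h`-vector `1, 5, 8, 2`). Upper bound: it is
spanned over `ZMod 7` by `1`, the five coordinates, eight squarefree quadratic monomials and two
cubic ones (B5S). Lower bound: the same upper bound holds for `h5`, and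
`|R/I| |R/J| = 7 ^ 32` (`St_Dual` with `K₀ = bL`, St_BG3, St_B5A); or a direct argument with
coefficients. -/
def St_B5C : Prop := St_Dual → St_BG1 → St_BG2 → St_BG3 → St_B5A → St_B5S →
  ∀ (c : ℕ) (hc : 5 ≤ c), Nat.card (RR c ⧸ bJ 5 (g5 (xP hc))) = 7 ^ 16

/-- [B5W] The submodule generated by the seven columns has at most `7 ^ 31` elements. Let
`S = R/I`, `C k` the columns in `S^10`. Every element of `R` is a combination over `ZMod 7` of
`1` and the five coordinates, modulo `𝔪^2 + L` (BG2). So the submodule is spanned over `ZMod 7`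
by the `7` columns, the `35` elements `x i * C k` and by `𝔪^2 C k`. By St_B5R the vectors `z5`
give `15` linear relations `∑ k i, z5 s k i (x i * C k) = 0` between the `35` elements. For
`s = 0, …, 14` the entry `(k, i)` = (0,1), (1,0), (2,1), (2,2), (3,1), (3,2), (4,0), (4,1), (4,2),
(5,0), (5,1), (6,1), (6,0), (6,3), (6,4) of `z5 s` is `-1` (for `s = 0`) or `1`, and the entries of
the other fourteen vectors at this place are `0`, so the `15` elements `x i * C k` at these places
are combinations of the `20` others. The elements of `𝔪^2 C k` have entries in `𝔪^3 S`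
at the places `0, 1` and `0` at the other places (St_B5S), and `𝔪^3 S` has at most `7 ^ 2`
elements. Total `7 + 20 + 4 = 31`. -/
def St_B5W : Prop := St_BG1 → St_BG2 → St_B5R → St_B5S → ∀ (c : ℕ) (hc : 5 ≤ c),
  Nat.card (Submodule.span (RR c) (Set.range (fun (k : Fin 7) (j : Fin 10) =>
    Ideal.Quotient.mk (bJ 5 (g5 (xP hc))) (c5 (xR hc) j k)))) ≤ 7 ^ 31

/-- [B5T] Assembly: BT1 with `α = bR 5`, `rel = r5 (xR hc)`, `v j i = v5 (xR hc) j i` for
`i < 5` and `0` for `i ≥ 5`; the hypothesis on generation comes from B5K by BG2, `W` is the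
submodule of B5W. So `|S|^(c+2) ≤ |Hom| 7^31` and `|S| = 7^16`, hence `|Hom| ≥ 7 |S|^c`. -/
def St_B5T : Prop := St_BG1 → St_BG2 → St_BT1 → St_B5R → St_B5K → St_B5W → St_B5C →
  St_Dual → St_BG3 → St_B5A → St_B5S →
  ∀ (c : ℕ) (hc : 5 ≤ c), Nat.card (bJ 5 (g5 (xP hc)) →ₗ[RR c] (RR c ⧸ bJ 5 (g5 (xP hc)))) ≠
    Nat.card (RR c ⧸ bJ 5 (g5 (xP hc))) ^ c

/-- [B5Q] The quadrics are squarefree and linearly independent. -/
def St_B5Q : Prop := ∀ (c : ℕ) (hc : 5 ≤ c),
  (∀ k, SQ 5 (g5 (xP hc) k)) ∧ (∀ k, SQ 5 (h5 (xP hc) k)) ∧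
  LinearIndependent (ZMod 7) (g5 (xP hc)) ∧ LinearIndependent (ZMod 7) (h5 (xP hc))

/-! ### The example of type `(6, 3, 1)` -/

/-- [B6A] The colon ideal: `(α) : (h6) = (α, g6)`. The products are in `(α)` by `quad_sq_mem`,
`quad_lin_mem` of `Special.lean` (`7 = 0`). Conversely let `h6 * u ∈ (α)`. Modulo `(α)` write
`u = u00 + x0 u10 + x1 u01 + x0 x1 u11` with `u..` in the squarefree algebra `C` in the four
coordinates `y`; the four components of `h6 * u` are `-q u00`, `-q u10`, `-q u01`,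
`u00 - q u11`. So `u00 = q u11` and `q u10 = q u01 = 0`, and the annihilator of `q` in `C` is
`(q, l)`: with the matrices `qT, lT, aT, bT, cT` of `Mats.lean`,
`qT * aT + lT * bT + cT * qT = 1` (`one_eq`), see `solve_ring`, `solve_mat` in `Poly.lean`.
Then `u = (x0 x1 + q) u11 + x0 u10 + x1 u01` and `x0 q = x0 (x0 x1 + q) - x1 x0^2`. The files
`Poly.lean`, `Ann.lean` do the same for eight coordinates (with two factors `16 × 16`; here the
first factor is `4`). -/
def St_B6A : Prop := ∀ (c : ℕ) (hc : 6 ≤ c) (u : PP c),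
  u ∈ bI 6 (g6 (xP hc)) ↔ ∀ k, h6 (xP hc) k * u ∈ bA 6 c

/-- [B6S] Bound for the quotient, and the monomials of degree 4, 5. The quotient by
`I = bJ 6 (g6)` has `h`-vector `1, 6, 12, 6, 1`. It is `C + x0 C + x1 C` with `x0 (q, l) = 0`,
`x1 (q, l) = 0`, where `C` is the squarefree algebra in the four `y` (dimension 16) and
`C / (q, l)` is spanned by `1, y0, y1, y2, y0 y1` (dimension 5): `16 + 5 + 5 = 26`. Every product
of four coordinates is congruent to a multiple of `y0 y1 y2 y3`, every product of five is `0`.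
(`7 = 0` in `A` is used for `q l ∈ (α)`, `q^2 ∈ (α)`.) -/
def St_B6S : Prop := (∀ (A : Type) [CommRing A] (x : Fin 6 → A) (K : Ideal A), (7 : A) = 0 →
  (∀ i, x i ^ 2 ∈ K) → (∀ k, g6 x k ∈ K) →
  (∀ a b e f : Fin 6, ∃ l : ℤ,
    x a * x b * x e * x f - (l : A) * (x 2 * x 3 * x 4 * x 5) ∈ K) ∧
  ∀ a b e f g : Fin 6, x a * x b * x e * x f * x g ∈ K)

/-- [B6C] `|R/I| ≤ 7 ^ 26`, see B6S. -/
def St_B6C : Prop := St_BG1 → St_BG2 → St_B6S →
  ∀ (c : ℕ) (hc : 6 ≤ c), Nat.card (RR c ⧸ bJ 6 (g6 (xP hc))) ≤ 7 ^ 26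

/-- [B6M] `|I^2 / (α) I| ≤ 7 ^ 37`. Let `u1, u2, u3` be the members of `g6`. `I^2` is generated
modulo `(α) I` by the six products `u_k u_l`. Every element of the local ring is a combination
over `ZMod 7` of `1` and the six coordinates modulo `𝔪^2 + (the other coordinates)`, and the
other coordinates are in `(α)`. So `I^2 / (α) I` is spanned over `ZMod 7` by
(i) the `6` products; (ii) the `36` elements `x_m u_k u_l`; (iii) `𝔪^6`.
For (ii): modulo `(α) I`, `x0 u2 = x0^2 l` gives `x0 u2 u_k = 0`, `x1 u3 u_k = 0`,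
`x0 u3 u_k = x1 u2 u_k`, and `l u1 = x1 u2 + l q` with `l q ∈ (α)` gives
`l u1 u_k = x1 u2 u_k`. So (ii) is spanned by the `24` elements `u1u1 (x0, x1, y1, y2, y3)`,
`u1u2 (x1, y1, y2, y3)`, `u1u3 (y1, y2, y3)`, `u2u2 (y0..y3)`, `u2u3 (y0..y3)`,
`u3u3 (y0..y3)` (machine-checked).
For (iii): a monomial of degree 6 in the six coordinates is `x0x1y0y1y2y3` or a square `x_i^2`
times a monomial of degree 4, which is congruent to a multiple of `y0y1y2y3` modulo `I` (B6S), so
`𝔪^6` is spanned modulo `(α) I + 𝔪^7` by `7` elements, and a monomial of degree at least 7 is a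
square times a monomial of degree at least 5, so `𝔪^7 ≤ (α) I`. Total `6 + 24 + 7 = 37`. -/
def St_B6M : Prop := St_BG1 → St_BG2 → St_B6S → ∀ (c : ℕ) (hc : 6 ≤ c),
  Nat.card (RR c ⧸ (bL 6 c * bJ 6 (g6 (xP hc)))) ≤
    7 ^ 37 * Nat.card (RR c ⧸ (bJ 6 (g6 (xP hc)) * bJ 6 (g6 (xP hc))))

/-- [B6T] Assembly. `|A| = 7^64` (BG3), `|R/(α)I| = |A| |S|^c` (BT4), `|R/I^2| ≤ |Hom| |S|`
(BT3), so `7^64 |S|^c ≤ 7^37 |Hom| |S|` and `|S| ≤ 7^26`, hence `|Hom| ≥ 7 |S|^c`. The socle of
`S = R/I`: `I = (α) : (h6)`, so multiplication by `h6` embeds `R/I` into `R/(α)`, whose socle has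
at most `7` elements (BG1). -/
def St_B6T : Prop := St_BG1 → St_BG2 → St_BG3 → St_BT3 → St_BT4 → St_B6A → St_B6S → St_B6C →
  St_B6M → ∀ (c : ℕ) (hc : 6 ≤ c),
  Nat.card (bJ 6 (g6 (xP hc)) →ₗ[RR c] (RR c ⧸ bJ 6 (g6 (xP hc)))) ≠
    Nat.card (RR c ⧸ bJ 6 (g6 (xP hc))) ^ c

/-- [B6Q] The quadrics are squarefree and linearly independent. -/
def St_B6Q : Prop := ∀ (c : ℕ) (hc : 6 ≤ c),
  (∀ k, SQ 6 (g6 (xP hc) k)) ∧ (∀ k, SQ 6 (h6 (xP hc) k)) ∧
  LinearIndependent (ZMod 7) (g6 (xP hc)) ∧ LinearIndependent (ZMod 7) (h6 (xP hc))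

/-! ### The example of type `(8, 2, 1)` -/

/-- [B8A] The colon ideal, from `ann_poly` of `Ann.lean` and `quad_sq_mem`, `quad_lin_mem`
(`ba 8` is `alp`, `bA 8 c` is the span of its range). -/
def St_B8A : Prop := ∀ (c : ℕ) (hc : 8 ≤ c) (u : PP c),
  u ∈ bI 8 (g8 (xP hc)) ↔ ∀ k, h8 (xP hc) k * u ∈ bA 8 c

/-- [B8T] The number of homomorphisms, from `card_pow_lt` exactly as in the proof of
`not_licci` in `Final.lean` (`bJ 8 (g8 (xP hc))` is `II hc`). -/
def St_B8T : Prop := ∀ (c : ℕ) (hc : 8 ≤ c),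
  Nat.card (bJ 8 (g8 (xP hc)) →ₗ[RR c] (RR c ⧸ bJ 8 (g8 (xP hc)))) ≠
    Nat.card (RR c ⧸ bJ 8 (g8 (xP hc))) ^ c

/-- [B8Q] The quadrics are squarefree and linearly independent. -/
def St_B8Q : Prop := ∀ (c : ℕ) (hc : 8 ≤ c),
  (∀ k, SQ 8 (g8 (xP hc) k)) ∧ (∀ k, SQ 8 (h8 (xP hc) k)) ∧
  LinearIndependent (ZMod 7) (g8 (xP hc)) ∧ LinearIndependent (ZMod 7) (h8 (xP hc))

end Pool.Agent.LCB
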