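import Mathlib
import Pool.Agent.LCB.BSt

/-!
Module B5C: the quotient has `7 ^ 16` elements.
-/

namespace Pool.Agent.LCB

open Pool.Agent.Helper40.Licci RingTheory.Sequence IsLocalRing MvPolynomial

namespace B5Cx

lemma moe {A : Type} [CommRing A] {W : Submodule ℤ A} {a b : A} (h : a = b) (hb : b ∈ W) : a ∈ W :=
  h ▸ hb

/-- The spanning set for `g5`. -/
def I5b {A : Type} [CommRing A] (x : Fin 5 → A) : Fin 16 → A :=
  ![1,
    x 0,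
    x 1,
    x 2,
    x 3,
    x 4,
    x 0 * x 1,
    x 0 * x 3,
    x 0 * x 4,
    x 1 * x 2,
    x 1 * x 3,
    x 1 * x 4,
    x 2 * x 4,
    x 3 * x 4,
    x 0 * x 1 * x 3,
    x 0 * x 3 * x 4]

lemma I5_cl {A : Type} [CommRing A] (x : Fin 5 → A) (K : Ideal A) (h7 : (7 : A) = 0)
    (hs : ∀ i, x i ^ 2 ∈ K) (hg : ∀ k, g5 x k ∈ K) (W : Submodule ℤ A) (hK : ∀ y ∈ K, y ∈ W)
    (hb : ∀ k, I5b x k ∈ W) : ∀ (k : Fin 16) (v : Fin 5), I5b x k * x v ∈ W := by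
  have hg0 : x 0 * x 1 + x 0 * x 2 ∈ K := hg 0
  have hg1 : x 0 * x 3 + x 1 * x 4 + x 2 * x 3 ∈ K := hg 1
  have b0 : (1 : A) ∈ W := hb 0
  have b1 : x 0 ∈ W := hb 1
  have b2 : x 1 ∈ W := hb 2
  have b3 : x 2 ∈ W := hb 3
  have b4 : x 3 ∈ W := hb 4
  have b5 : x 4 ∈ W := hb 5
  have b6 : x 0 * x 1 ∈ W := hb 6
  have b7 : x 0 * x 3 ∈ W := hb 7
  have b8 : x 0 * x 4 ∈ W := hb 8
  have b9 : x 1 * x 2 ∈ W := hb 9
  have b10 : x 1 * x 3 ∈ W := hb 10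
  have b11 : x 1 * x 4 ∈ W := hb 11
  have b12 : x 2 * x 4 ∈ W := hb 12
  have b13 : x 3 * x 4 ∈ W := hb 13
  have b14 : x 0 * x 1 * x 3 ∈ W := hb 14
  have b15 : x 0 * x 3 * x 4 ∈ W := hb 15
  have mk : ∀ s0 s1 s2 s3 s4 t0 t1 w : A, s0 * x 0 ^ 2 + s1 * x 1 ^ 2 + s2 * x 2 ^ 2 + s3 * x 3 ^ 2 +
      s4 * x 4 ^ 2 + t0 * (x 0 * x 1 + x 0 * x 2) + t1 * (x 0 * x 3 + x 1 * x 4 + x 2 * x 3) + w * 7 ∈ W := by
    intro s0 s1 s2 s3 s4 t0 t1 w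
    refine hK _ (K.add_mem (K.add_mem (K.add_mem (K.add_mem (K.add_mem (K.add_mem (K.add_mem
      (K.mul_mem_left _ (hs 0)) (K.mul_mem_left _ (hs 1))) (K.mul_mem_left _ (hs 2)))
      (K.mul_mem_left _ (hs 3))) (K.mul_mem_left _ (hs 4))) (K.mul_mem_left _ hg0))
      (K.mul_mem_left _ hg1)) ?_)
    rw [h7, mul_zero]
    exact K.zero_mem
  intro k v
  fin_cases k <;> fin_cases v
  · change (1 : A) * x 0 ∈ W
    exact moe (by ring) (W.add_mem (W.smul_mem (1 : ℤ) b1) (mk (0) (0) (0) (0) (0) (0) (0) (0)))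
  · change (1 : A) * x 1 ∈ W
    exact moe (by ring) (W.add_mem (W.smul_mem (1 : ℤ) b2) (mk (0) (0) (0) (0) (0) (0) (0) (0)))
  · change (1 : A) * x 2 ∈ W
    exact moe (by ring) (W.add_mem (W.smul_mem (1 : ℤ) b3) (mk (0) (0) (0) (0) (0) (0) (0) (0)))
  · change (1 : A) * x 3 ∈ W
    exact moe (by ring) (W.add_mem (W.smul_mem (1 : ℤ) b4) (mk (0) (0) (0) (0) (0) (0) (0) (0)))
  · change (1 : A) * x 4 ∈ W
    exact moe (by ring) (W.add_mem (W.smul_mem (1 : ℤ) b5) (mk (0) (0) (0) (0) (0) (0) (0) (0)))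
  · change x 0 * x 0 ∈ W
    exact moe (by ring) (mk (1) (0) (0) (0) (0) (0) (0) (0))
  · change x 0 * x 1 ∈ W
    exact moe (by ring) (W.add_mem (W.smul_mem (1 : ℤ) b6) (mk (0) (0) (0) (0) (0) (0) (0) (0)))
  · change x 0 * x 2 ∈ W
    exact moe (by ring) (W.add_mem (W.smul_mem (-1 : ℤ) b6) (mk (0) (0) (0) (0) (0) (1) (0) (0)))
  · change x 0 * x 3 ∈ W
    exact moe (by ring) (W.add_mem (W.smul_mem (1 : ℤ) b7) (mk (0) (0) (0) (0) (0) (0) (0) (0)))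
  · change x 0 * x 4 ∈ W
    exact moe (by ring) (W.add_mem (W.smul_mem (1 : ℤ) b8) (mk (0) (0) (0) (0) (0) (0) (0) (0)))
  · change x 1 * x 0 ∈ W
    exact moe (by ring) (W.add_mem (W.smul_mem (1 : ℤ) b6) (mk (0) (0) (0) (0) (0) (0) (0) (0)))
  · change x 1 * x 1 ∈ W
    exact moe (by ring) (mk (0) (1) (0) (0) (0) (0) (0) (0))
  · change x 1 * x 2 ∈ W
    exact moe (by ring) (W.add_mem (W.smul_mem (1 : ℤ) b9) (mk (0) (0) (0) (0) (0) (0) (0) (0)))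
  · change x 1 * x 3 ∈ W
    exact moe (by ring) (W.add_mem (W.smul_mem (1 : ℤ) b10) (mk (0) (0) (0) (0) (0) (0) (0) (0)))
  · change x 1 * x 4 ∈ W
    exact moe (by ring) (W.add_mem (W.smul_mem (1 : ℤ) b11) (mk (0) (0) (0) (0) (0) (0) (0) (0)))
  · change x 2 * x 0 ∈ W
    exact moe (by ring) (W.add_mem (W.smul_mem (-1 : ℤ) b6) (mk (0) (0) (0) (0) (0) (1) (0) (0)))
  · change x 2 * x 1 ∈ W
    exact moe (by ring) (W.add_mem (W.smul_mem (1 : ℤ) b9) (mk (0) (0) (0) (0) (0) (0) (0) (0)))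
  · change x 2 * x 2 ∈ W
    exact moe (by ring) (mk (0) (0) (1) (0) (0) (0) (0) (0))
  · change x 2 * x 3 ∈ W
    exact moe (by ring) (W.add_mem (W.smul_mem (-1 : ℤ) b11) (W.add_mem (W.smul_mem (-1 : ℤ) b7) (mk (0) (0) (0) (0) (0) (0) (1) (0))))
  · change x 2 * x 4 ∈ W
    exact moe (by ring) (W.add_mem (W.smul_mem (1 : ℤ) b12) (mk (0) (0) (0) (0) (0) (0) (0) (0)))
  · change x 3 * x 0 ∈ W
    exact moe (by ring) (W.add_mem (W.smul_mem (1 : ℤ) b7) (mk (0) (0) (0) (0) (0) (0) (0) (0)))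
  · change x 3 * x 1 ∈ W
    exact moe (by ring) (W.add_mem (W.smul_mem (1 : ℤ) b10) (mk (0) (0) (0) (0) (0) (0) (0) (0)))
  · change x 3 * x 2 ∈ W
    exact moe (by ring) (W.add_mem (W.smul_mem (-1 : ℤ) b11) (W.add_mem (W.smul_mem (-1 : ℤ) b7) (mk (0) (0) (0) (0) (0) (0) (1) (0))))
  · change x 3 * x 3 ∈ W
    exact moe (by ring) (mk (0) (0) (0) (1) (0) (0) (0) (0))
  · change x 3 * x 4 ∈ W
    exact moe (by ring) (W.add_mem (W.smul_mem (1 : ℤ) b13) (mk (0) (0) (0) (0) (0) (0) (0) (0)))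
  · change x 4 * x 0 ∈ W
    exact moe (by ring) (W.add_mem (W.smul_mem (1 : ℤ) b8) (mk (0) (0) (0) (0) (0) (0) (0) (0)))
  · change x 4 * x 1 ∈ W
    exact moe (by ring) (W.add_mem (W.smul_mem (1 : ℤ) b11) (mk (0) (0) (0) (0) (0) (0) (0) (0)))
  · change x 4 * x 2 ∈ W
    exact moe (by ring) (W.add_mem (W.smul_mem (1 : ℤ) b12) (mk (0) (0) (0) (0) (0) (0) (0) (0)))
  · change x 4 * x 3 ∈ W
    exact moe (by ring) (W.add_mem (W.smul_mem (1 : ℤ) b13) (mk (0) (0) (0) (0) (0) (0) (0) (0)))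
  · change x 4 * x 4 ∈ W
    exact moe (by ring) (mk (0) (0) (0) (0) (1) (0) (0) (0))
  · change x 0 * x 1 * x 0 ∈ W
    exact moe (by ring) (mk (x 1) (0) (0) (0) (0) (0) (0) (0))
  · change x 0 * x 1 * x 1 ∈ W
    exact moe (by ring) (mk (0) (x 0) (0) (0) (0) (0) (0) (0))
  · change x 0 * x 1 * x 2 ∈ W
    exact moe (by ring) (mk (0) (-(x 0)) (0) (0) (0) (x 1) (0) (0))
  · change x 0 * x 1 * x 3 ∈ W
    exact moe (by ring) (W.add_mem (W.smul_mem (1 : ℤ) b14) (mk (0) (0) (0) (0) (0) (0) (0) (0)))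
  · change x 0 * x 1 * x 4 ∈ W
    exact moe (by ring) (W.add_mem (W.smul_mem (1 : ℤ) b14) (mk (-(x 3)) (0) (0) (0) (0) (-(x 3)) (x 0) (0)))
  · change x 0 * x 3 * x 0 ∈ W
    exact moe (by ring) (mk (x 3) (0) (0) (0) (0) (0) (0) (0))
  · change x 0 * x 3 * x 1 ∈ W
    exact moe (by ring) (W.add_mem (W.smul_mem (1 : ℤ) b14) (mk (0) (0) (0) (0) (0) (0) (0) (0)))
  · change x 0 * x 3 * x 2 ∈ W
    exact moe (by ring) (W.add_mem (W.smul_mem (-1 : ℤ) b14) (mk (0) (0) (0) (0) (0) (x 3) (0) (0)))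
  · change x 0 * x 3 * x 3 ∈ W
    exact moe (by ring) (mk (0) (0) (0) (x 0) (0) (0) (0) (0))
  · change x 0 * x 3 * x 4 ∈ W
    exact moe (by ring) (W.add_mem (W.smul_mem (1 : ℤ) b15) (mk (0) (0) (0) (0) (0) (0) (0) (0)))
  · change x 0 * x 4 * x 0 ∈ W
    exact moe (by ring) (mk (x 4) (0) (0) (0) (0) (0) (0) (0))
  · change x 0 * x 4 * x 1 ∈ W
    exact moe (by ring) (W.add_mem (W.smul_mem (1 : ℤ) b14) (mk (-(x 3)) (0) (0) (0) (0) (-(x 3)) (x 0) (0)))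
  · change x 0 * x 4 * x 2 ∈ W
    exact moe (by ring) (W.add_mem (W.smul_mem (-1 : ℤ) b14) (mk (x 3) (0) (0) (0) (0) (x 3 + x 4) (-(x 0)) (0)))
  · change x 0 * x 4 * x 3 ∈ W
    exact moe (by ring) (W.add_mem (W.smul_mem (1 : ℤ) b15) (mk (0) (0) (0) (0) (0) (0) (0) (0)))
  · change x 0 * x 4 * x 4 ∈ W
    exact moe (by ring) (mk (0) (0) (0) (0) (x 0) (0) (0) (0))
  · change x 1 * x 2 * x 0 ∈ W
    exact moe (by ring) (mk (0) (-(x 0)) (0) (0) (0) (x 1) (0) (0))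
  · change x 1 * x 2 * x 1 ∈ W
    exact moe (by ring) (mk (0) (x 2) (0) (0) (0) (0) (0) (0))
  · change x 1 * x 2 * x 2 ∈ W
    exact moe (by ring) (mk (0) (0) (x 1) (0) (0) (0) (0) (0))
  · change x 1 * x 2 * x 3 ∈ W
    exact moe (by ring) (W.add_mem (W.smul_mem (-1 : ℤ) b14) (mk (0) (-(x 4)) (0) (0) (0) (0) (x 1) (0)))
  · change x 1 * x 2 * x 4 ∈ W
    exact moe (by ring) (W.add_mem (W.smul_mem (1 : ℤ) b14) (mk (0) (0) (-(x 3)) (0) (0) (-(x 3)) (x 2) (0)))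
  · change x 1 * x 3 * x 0 ∈ W
    exact moe (by ring) (W.add_mem (W.smul_mem (1 : ℤ) b14) (mk (0) (0) (0) (0) (0) (0) (0) (0)))
  · change x 1 * x 3 * x 1 ∈ W
    exact moe (by ring) (mk (0) (x 3) (0) (0) (0) (0) (0) (0))
  · change x 1 * x 3 * x 2 ∈ W
    exact moe (by ring) (W.add_mem (W.smul_mem (-1 : ℤ) b14) (mk (0) (-(x 4)) (0) (0) (0) (0) (x 1) (0)))
  · change x 1 * x 3 * x 3 ∈ W
    exact moe (by ring) (mk (0) (0) (0) (x 1) (0) (0) (0) (0))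
  · change x 1 * x 3 * x 4 ∈ W
    exact moe (by ring) (mk (0) (0) (0) (-(x 0) - x 2) (0) (0) (x 3) (0))
  · change x 1 * x 4 * x 0 ∈ W
    exact moe (by ring) (W.add_mem (W.smul_mem (1 : ℤ) b14) (mk (-(x 3)) (0) (0) (0) (0) (-(x 3)) (x 0) (0)))
  · change x 1 * x 4 * x 1 ∈ W
    exact moe (by ring) (mk (0) (x 4) (0) (0) (0) (0) (0) (0))
  · change x 1 * x 4 * x 2 ∈ W
    exact moe (by ring) (W.add_mem (W.smul_mem (1 : ℤ) b14) (mk (0) (0) (-(x 3)) (0) (0) (-(x 3)) (x 2) (0)))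
  · change x 1 * x 4 * x 3 ∈ W
    exact moe (by ring) (mk (0) (0) (0) (-(x 0) - x 2) (0) (0) (x 3) (0))
  · change x 1 * x 4 * x 4 ∈ W
    exact moe (by ring) (mk (0) (0) (0) (0) (x 1) (0) (0) (0))
  · change x 2 * x 4 * x 0 ∈ W
    exact moe (by ring) (W.add_mem (W.smul_mem (-1 : ℤ) b14) (mk (x 3) (0) (0) (0) (0) (x 3 + x 4) (-(x 0)) (0)))
  · change x 2 * x 4 * x 1 ∈ W
    exact moe (by ring) (W.add_mem (W.smul_mem (1 : ℤ) b14) (mk (0) (0) (-(x 3)) (0) (0) (-(x 3)) (x 2) (0)))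
  · change x 2 * x 4 * x 2 ∈ W
    exact moe (by ring) (mk (0) (0) (x 4) (0) (0) (0) (0) (0))
  · change x 2 * x 4 * x 3 ∈ W
    exact moe (by ring) (W.add_mem (W.smul_mem (-1 : ℤ) b15) (mk (0) (0) (0) (0) (-(x 1)) (0) (x 4) (0)))
  · change x 2 * x 4 * x 4 ∈ W
    exact moe (by ring) (mk (0) (0) (0) (0) (x 2) (0) (0) (0))
  · change x 3 * x 4 * x 0 ∈ W
    exact moe (by ring) (W.add_mem (W.smul_mem (1 : ℤ) b15) (mk (0) (0) (0) (0) (0) (0) (0) (0)))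
  · change x 3 * x 4 * x 1 ∈ W
    exact moe (by ring) (mk (0) (0) (0) (-(x 0) - x 2) (0) (0) (x 3) (0))
  · change x 3 * x 4 * x 2 ∈ W
    exact moe (by ring) (W.add_mem (W.smul_mem (-1 : ℤ) b15) (mk (0) (0) (0) (0) (-(x 1)) (0) (x 4) (0)))
  · change x 3 * x 4 * x 3 ∈ W
    exact moe (by ring) (mk (0) (0) (0) (x 4) (0) (0) (0) (0))
  · change x 3 * x 4 * x 4 ∈ W
    exact moe (by ring) (mk (0) (0) (0) (0) (x 3) (0) (0) (0))
  · change x 0 * x 1 * x 3 * x 0 ∈ W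
    exact moe (by ring) (mk (x 1 * x 3) (0) (0) (0) (0) (0) (0) (0))
  · change x 0 * x 1 * x 3 * x 1 ∈ W
    exact moe (by ring) (mk (0) (x 0 * x 3) (0) (0) (0) (0) (0) (0))
  · change x 0 * x 1 * x 3 * x 2 ∈ W
    exact moe (by ring) (mk (0) (-(x 0 * x 3)) (0) (0) (0) (x 1 * x 3) (0) (0))
  · change x 0 * x 1 * x 3 * x 3 ∈ W
    exact moe (by ring) (mk (0) (0) (0) (x 0 * x 1) (0) (0) (0) (0))
  · change x 0 * x 1 * x 3 * x 4 ∈ W
    exact moe (by ring) (mk (-(x 3 * x 3)) (0) (0) (-(x 0 * x 2)) (0) (0) (x 0 * x 3) (0))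
  · change x 0 * x 3 * x 4 * x 0 ∈ W
    exact moe (by ring) (mk (x 3 * x 4) (0) (0) (0) (0) (0) (0) (0))
  · change x 0 * x 3 * x 4 * x 1 ∈ W
    exact moe (by ring) (mk (-(x 3 * x 3)) (0) (0) (-(x 0 * x 2)) (0) (0) (x 0 * x 3) (0))
  · change x 0 * x 3 * x 4 * x 2 ∈ W
    exact moe (by ring) (mk (x 3 * x 3) (0) (0) (x 0 * x 2) (0) (x 3 * x 4) (-(x 0 * x 3)) (0))
  · change x 0 * x 3 * x 4 * x 3 ∈ W
    exact moe (by ring) (mk (0) (0) (0) (x 0 * x 4) (0) (0) (0) (0))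
  · change x 0 * x 3 * x 4 * x 4 ∈ W
    exact moe (by ring) (mk (0) (0) (0) (0) (x 0 * x 3) (0) (0) (0))

/-- The spanning set for `h5`. -/
def J5b {A : Type} [CommRing A] (x : Fin 5 → A) : Fin 16 → A :=
  ![1,
    x 0,
    x 1,
    x 2,
    x 3,
    x 4,
    x 0 * x 1,
    x 0 * x 2,
    x 0 * x 3,
    x 0 * x 4,
    x 1 * x 3,
    x 1 * x 4,
    x 2 * x 3,
    x 3 * x 4,
    x 0 * x 1 * x 4,
    x 1 * x 3 * x 4]

lemma J5_cl {A : Type} [CommRing A] (x : Fin 5 → A) (K : Ideal A) (h7 : (7 : A) = 0)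
    (hs : ∀ i, x i ^ 2 ∈ K) (hg : ∀ k, h5 x k ∈ K) (W : Submodule ℤ A) (hK : ∀ y ∈ K, y ∈ W)
    (hb : ∀ k, J5b x k ∈ W) : ∀ (k : Fin 16) (v : Fin 5), J5b x k * x v ∈ W := by
  have hg0 : x 1 * x 2 - x 0 * x 1 ∈ K := hg 0
  have hg1 : x 0 * x 3 + x 2 * x 3 - x 1 * x 3 + x 2 * x 4 - x 0 * x 4 - x 1 * x 4 ∈ K := hg 1
  have b0 : (1 : A) ∈ W := hb 0
  have b1 : x 0 ∈ W := hb 1
  have b2 : x 1 ∈ W := hb 2
  have b3 : x 2 ∈ W := hb 3
  have b4 : x 3 ∈ W := hb 4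
  have b5 : x 4 ∈ W := hb 5
  have b6 : x 0 * x 1 ∈ W := hb 6
  have b7 : x 0 * x 2 ∈ W := hb 7
  have b8 : x 0 * x 3 ∈ W := hb 8
  have b9 : x 0 * x 4 ∈ W := hb 9
  have b10 : x 1 * x 3 ∈ W := hb 10
  have b11 : x 1 * x 4 ∈ W := hb 11
  have b12 : x 2 * x 3 ∈ W := hb 12
  have b13 : x 3 * x 4 ∈ W := hb 13
  have b14 : x 0 * x 1 * x 4 ∈ W := hb 14
  have b15 : x 1 * x 3 * x 4 ∈ W := hb 15
  have mk : ∀ s0 s1 s2 s3 s4 t0 t1 w : A, s0 * x 0 ^ 2 + s1 * x 1 ^ 2 + s2 * x 2 ^ 2 + s3 * x 3 ^ 2 +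
      s4 * x 4 ^ 2 + t0 * (x 1 * x 2 - x 0 * x 1) + t1 * (x 0 * x 3 + x 2 * x 3 - x 1 * x 3 + x 2 * x 4 - x 0 * x 4 - x 1 * x 4) + w * 7 ∈ W := by
    intro s0 s1 s2 s3 s4 t0 t1 w
    refine hK _ (K.add_mem (K.add_mem (K.add_mem (K.add_mem (K.add_mem (K.add_mem (K.add_mem
      (K.mul_mem_left _ (hs 0)) (K.mul_mem_left _ (hs 1))) (K.mul_mem_left _ (hs 2)))
      (K.mul_mem_left _ (hs 3))) (K.mul_mem_left _ (hs 4))) (K.mul_mem_left _ hg0))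
      (K.mul_mem_left _ hg1)) ?_)
    rw [h7, mul_zero]
    exact K.zero_mem
  intro k v
  fin_cases k <;> fin_cases v
  · change (1 : A) * x 0 ∈ W
    exact moe (by ring) (W.add_mem (W.smul_mem (1 : ℤ) b1) (mk (0) (0) (0) (0) (0) (0) (0) (0)))
  · change (1 : A) * x 1 ∈ W
    exact moe (by ring) (W.add_mem (W.smul_mem (1 : ℤ) b2) (mk (0) (0) (0) (0) (0) (0) (0) (0)))
  · change (1 : A) * x 2 ∈ W
    exact moe (by ring) (W.add_mem (W.smul_mem (1 : ℤ) b3) (mk (0) (0) (0) (0) (0) (0) (0) (0)))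
  · change (1 : A) * x 3 ∈ W
    exact moe (by ring) (W.add_mem (W.smul_mem (1 : ℤ) b4) (mk (0) (0) (0) (0) (0) (0) (0) (0)))
  · change (1 : A) * x 4 ∈ W
    exact moe (by ring) (W.add_mem (W.smul_mem (1 : ℤ) b5) (mk (0) (0) (0) (0) (0) (0) (0) (0)))
  · change x 0 * x 0 ∈ W
    exact moe (by ring) (mk (1) (0) (0) (0) (0) (0) (0) (0))
  · change x 0 * x 1 ∈ W
    exact moe (by ring) (W.add_mem (W.smul_mem (1 : ℤ) b6) (mk (0) (0) (0) (0) (0) (0) (0) (0)))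
  · change x 0 * x 2 ∈ W
    exact moe (by ring) (W.add_mem (W.smul_mem (1 : ℤ) b7) (mk (0) (0) (0) (0) (0) (0) (0) (0)))
  · change x 0 * x 3 ∈ W
    exact moe (by ring) (W.add_mem (W.smul_mem (1 : ℤ) b8) (mk (0) (0) (0) (0) (0) (0) (0) (0)))
  · change x 0 * x 4 ∈ W
    exact moe (by ring) (W.add_mem (W.smul_mem (1 : ℤ) b9) (mk (0) (0) (0) (0) (0) (0) (0) (0)))
  · change x 1 * x 0 ∈ W
    exact moe (by ring) (W.add_mem (W.smul_mem (1 : ℤ) b6) (mk (0) (0) (0) (0) (0) (0) (0) (0)))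
  · change x 1 * x 1 ∈ W
    exact moe (by ring) (mk (0) (1) (0) (0) (0) (0) (0) (0))
  · change x 1 * x 2 ∈ W
    exact moe (by ring) (W.add_mem (W.smul_mem (1 : ℤ) b6) (mk (0) (0) (0) (0) (0) (1) (0) (0)))
  · change x 1 * x 3 ∈ W
    exact moe (by ring) (W.add_mem (W.smul_mem (1 : ℤ) b10) (mk (0) (0) (0) (0) (0) (0) (0) (0)))
  · change x 1 * x 4 ∈ W
    exact moe (by ring) (W.add_mem (W.smul_mem (1 : ℤ) b11) (mk (0) (0) (0) (0) (0) (0) (0) (0)))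
  · change x 2 * x 0 ∈ W
    exact moe (by ring) (W.add_mem (W.smul_mem (1 : ℤ) b7) (mk (0) (0) (0) (0) (0) (0) (0) (0)))
  · change x 2 * x 1 ∈ W
    exact moe (by ring) (W.add_mem (W.smul_mem (1 : ℤ) b6) (mk (0) (0) (0) (0) (0) (1) (0) (0)))
  · change x 2 * x 2 ∈ W
    exact moe (by ring) (mk (0) (0) (1) (0) (0) (0) (0) (0))
  · change x 2 * x 3 ∈ W
    exact moe (by ring) (W.add_mem (W.smul_mem (1 : ℤ) b12) (mk (0) (0) (0) (0) (0) (0) (0) (0)))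
  · change x 2 * x 4 ∈ W
    exact moe (by ring) (W.add_mem (W.smul_mem (-1 : ℤ) b12) (W.add_mem (W.smul_mem (1 : ℤ) b11) (W.add_mem (W.smul_mem (1 : ℤ) b10) (W.add_mem (W.smul_mem (1 : ℤ) b9) (W.add_mem (W.smul_mem (-1 : ℤ) b8) (mk (0) (0) (0) (0) (0) (0) (1) (0)))))))
  · change x 3 * x 0 ∈ W
    exact moe (by ring) (W.add_mem (W.smul_mem (1 : ℤ) b8) (mk (0) (0) (0) (0) (0) (0) (0) (0)))
  · change x 3 * x 1 ∈ W
    exact moe (by ring) (W.add_mem (W.smul_mem (1 : ℤ) b10) (mk (0) (0) (0) (0) (0) (0) (0) (0)))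
  · change x 3 * x 2 ∈ W
    exact moe (by ring) (W.add_mem (W.smul_mem (1 : ℤ) b12) (mk (0) (0) (0) (0) (0) (0) (0) (0)))
  · change x 3 * x 3 ∈ W
    exact moe (by ring) (mk (0) (0) (0) (1) (0) (0) (0) (0))
  · change x 3 * x 4 ∈ W
    exact moe (by ring) (W.add_mem (W.smul_mem (1 : ℤ) b13) (mk (0) (0) (0) (0) (0) (0) (0) (0)))
  · change x 4 * x 0 ∈ W
    exact moe (by ring) (W.add_mem (W.smul_mem (1 : ℤ) b9) (mk (0) (0) (0) (0) (0) (0) (0) (0)))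
  · change x 4 * x 1 ∈ W
    exact moe (by ring) (W.add_mem (W.smul_mem (1 : ℤ) b11) (mk (0) (0) (0) (0) (0) (0) (0) (0)))
  · change x 4 * x 2 ∈ W
    exact moe (by ring) (W.add_mem (W.smul_mem (-1 : ℤ) b12) (W.add_mem (W.smul_mem (1 : ℤ) b11) (W.add_mem (W.smul_mem (1 : ℤ) b10) (W.add_mem (W.smul_mem (1 : ℤ) b9) (W.add_mem (W.smul_mem (-1 : ℤ) b8) (mk (0) (0) (0) (0) (0) (0) (1) (0)))))))
  · change x 4 * x 3 ∈ W
    exact moe (by ring) (W.add_mem (W.smul_mem (1 : ℤ) b13) (mk (0) (0) (0) (0) (0) (0) (0) (0)))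
  · change x 4 * x 4 ∈ W
    exact moe (by ring) (mk (0) (0) (0) (0) (1) (0) (0) (0))
  · change x 0 * x 1 * x 0 ∈ W
    exact moe (by ring) (mk (x 1) (0) (0) (0) (0) (0) (0) (0))
  · change x 0 * x 1 * x 1 ∈ W
    exact moe (by ring) (mk (0) (x 0) (0) (0) (0) (0) (0) (0))
  · change x 0 * x 1 * x 2 ∈ W
    exact moe (by ring) (mk (x 1) (0) (0) (0) (0) (x 0) (0) (0))
  · change x 0 * x 1 * x 3 ∈ W
    exact moe (by ring) (mk (0) (4 * (x 3) + 4 * (x 4)) (0) (0) (0) (-(4 * (x 3)) - 4 * (x 4)) (4 * (x 1)) (-(x 0 * x 1 * x 3)))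
  · change x 0 * x 1 * x 4 ∈ W
    exact moe (by ring) (W.add_mem (W.smul_mem (1 : ℤ) b14) (mk (0) (0) (0) (0) (0) (0) (0) (0)))
  · change x 0 * x 2 * x 0 ∈ W
    exact moe (by ring) (mk (x 2) (0) (0) (0) (0) (0) (0) (0))
  · change x 0 * x 2 * x 1 ∈ W
    exact moe (by ring) (mk (x 1) (0) (0) (0) (0) (x 0) (0) (0))
  · change x 0 * x 2 * x 2 ∈ W
    exact moe (by ring) (mk (0) (0) (x 0) (0) (0) (0) (0) (0))
  · change x 0 * x 2 * x 3 ∈ W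
    exact moe (by ring) (W.add_mem (W.smul_mem (8 : ℤ) b14) (mk (-(4 * (x 3)) + 4 * (x 4)) (4 * (x 3) + 4 * (x 4)) (-(4 * (x 3)) - 4 * (x 4)) (0) (0) (0) (4 * (x 0) + 4 * (x 1) + 4 * (x 2)) (-(x 0 * x 2 * x 3))))
  · change x 0 * x 2 * x 4 ∈ W
    exact moe (by ring) (mk (-(4 * (x 3)) + 4 * (x 4)) (0) (4 * (x 3) + 4 * (x 4)) (0) (0) (-(4 * (x 3)) - 4 * (x 4)) (4 * (x 0) - 4 * (x 2)) (-(x 0 * x 2 * x 4)))
  · change x 0 * x 3 * x 0 ∈ W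
    exact moe (by ring) (mk (x 3) (0) (0) (0) (0) (0) (0) (0))
  · change x 0 * x 3 * x 1 ∈ W
    exact moe (by ring) (mk (0) (4 * (x 3) + 4 * (x 4)) (0) (0) (0) (-(4 * (x 3)) - 4 * (x 4)) (4 * (x 1)) (-(x 0 * x 1 * x 3)))
  · change x 0 * x 3 * x 2 ∈ W
    exact moe (by ring) (W.add_mem (W.smul_mem (8 : ℤ) b14) (mk (-(4 * (x 3)) + 4 * (x 4)) (4 * (x 3) + 4 * (x 4)) (-(4 * (x 3)) - 4 * (x 4)) (0) (0) (0) (4 * (x 0) + 4 * (x 1) + 4 * (x 2)) (-(x 0 * x 2 * x 3))))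
  · change x 0 * x 3 * x 3 ∈ W
    exact moe (by ring) (mk (0) (0) (0) (x 0) (0) (0) (0) (0))
  · change x 0 * x 3 * x 4 ∈ W
    exact moe (by ring) (mk (0) (0) (0) (4 * (x 0) - 4 * (x 1) + 4 * (x 2)) (4 * (x 0) + 4 * (x 1) - 4 * (x 2)) (0) (-(4 * (x 3)) + 4 * (x 4)) (-(x 0 * x 3 * x 4)))
  · change x 0 * x 4 * x 0 ∈ W
    exact moe (by ring) (mk (x 4) (0) (0) (0) (0) (0) (0) (0))
  · change x 0 * x 4 * x 1 ∈ W
    exact moe (by ring) (W.add_mem (W.smul_mem (1 : ℤ) b14) (mk (0) (0) (0) (0) (0) (0) (0) (0)))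
  · change x 0 * x 4 * x 2 ∈ W
    exact moe (by ring) (mk (-(4 * (x 3)) + 4 * (x 4)) (0) (4 * (x 3) + 4 * (x 4)) (0) (0) (-(4 * (x 3)) - 4 * (x 4)) (4 * (x 0) - 4 * (x 2)) (-(x 0 * x 2 * x 4)))
  · change x 0 * x 4 * x 3 ∈ W
    exact moe (by ring) (mk (0) (0) (0) (4 * (x 0) - 4 * (x 1) + 4 * (x 2)) (4 * (x 0) + 4 * (x 1) - 4 * (x 2)) (0) (-(4 * (x 3)) + 4 * (x 4)) (-(x 0 * x 3 * x 4)))
  · change x 0 * x 4 * x 4 ∈ W
    exact moe (by ring) (mk (0) (0) (0) (0) (x 0) (0) (0) (0))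
  · change x 1 * x 3 * x 0 ∈ W
    exact moe (by ring) (mk (0) (4 * (x 3) + 4 * (x 4)) (0) (0) (0) (-(4 * (x 3)) - 4 * (x 4)) (4 * (x 1)) (-(x 0 * x 1 * x 3)))
  · change x 1 * x 3 * x 1 ∈ W
    exact moe (by ring) (mk (0) (x 3) (0) (0) (0) (0) (0) (0))
  · change x 1 * x 3 * x 2 ∈ W
    exact moe (by ring) (mk (0) (4 * (x 3) + 4 * (x 4)) (0) (0) (0) (4 * (x 3) - 4 * (x 4)) (4 * (x 1)) (-(x 1 * x 2 * x 3)))
  · change x 1 * x 3 * x 3 ∈ W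
    exact moe (by ring) (mk (0) (0) (0) (x 1) (0) (0) (0) (0))
  · change x 1 * x 3 * x 4 ∈ W
    exact moe (by ring) (W.add_mem (W.smul_mem (1 : ℤ) b15) (mk (0) (0) (0) (0) (0) (0) (0) (0)))
  · change x 1 * x 4 * x 0 ∈ W
    exact moe (by ring) (W.add_mem (W.smul_mem (1 : ℤ) b14) (mk (0) (0) (0) (0) (0) (0) (0) (0)))
  · change x 1 * x 4 * x 1 ∈ W
    exact moe (by ring) (mk (0) (x 4) (0) (0) (0) (0) (0) (0))
  · change x 1 * x 4 * x 2 ∈ W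
    exact moe (by ring) (W.add_mem (W.smul_mem (1 : ℤ) b14) (mk (0) (0) (0) (0) (0) (x 4) (0) (0)))
  · change x 1 * x 4 * x 3 ∈ W
    exact moe (by ring) (W.add_mem (W.smul_mem (1 : ℤ) b15) (mk (0) (0) (0) (0) (0) (0) (0) (0)))
  · change x 1 * x 4 * x 4 ∈ W
    exact moe (by ring) (mk (0) (0) (0) (0) (x 1) (0) (0) (0))
  · change x 2 * x 3 * x 0 ∈ W
    exact moe (by ring) (W.add_mem (W.smul_mem (8 : ℤ) b14) (mk (-(4 * (x 3)) + 4 * (x 4)) (4 * (x 3) + 4 * (x 4)) (-(4 * (x 3)) - 4 * (x 4)) (0) (0) (0) (4 * (x 0) + 4 * (x 1) + 4 * (x 2)) (-(x 0 * x 2 * x 3))))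
  · change x 2 * x 3 * x 1 ∈ W
    exact moe (by ring) (mk (0) (4 * (x 3) + 4 * (x 4)) (0) (0) (0) (4 * (x 3) - 4 * (x 4)) (4 * (x 1)) (-(x 1 * x 2 * x 3)))
  · change x 2 * x 3 * x 2 ∈ W
    exact moe (by ring) (mk (0) (0) (x 3) (0) (0) (0) (0) (0))
  · change x 2 * x 3 * x 3 ∈ W
    exact moe (by ring) (mk (0) (0) (0) (x 2) (0) (0) (0) (0))
  · change x 2 * x 3 * x 4 ∈ W
    exact moe (by ring) (W.add_mem (W.smul_mem (8 : ℤ) b15) (mk (0) (0) (0) (-(4 * (x 0)) + 4 * (x 1) - 4 * (x 2)) (4 * (x 0) + 4 * (x 1) - 4 * (x 2)) (0) (4 * (x 3) + 4 * (x 4)) (-(x 2 * x 3 * x 4))))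
  · change x 3 * x 4 * x 0 ∈ W
    exact moe (by ring) (mk (0) (0) (0) (4 * (x 0) - 4 * (x 1) + 4 * (x 2)) (4 * (x 0) + 4 * (x 1) - 4 * (x 2)) (0) (-(4 * (x 3)) + 4 * (x 4)) (-(x 0 * x 3 * x 4)))
  · change x 3 * x 4 * x 1 ∈ W
    exact moe (by ring) (W.add_mem (W.smul_mem (1 : ℤ) b15) (mk (0) (0) (0) (0) (0) (0) (0) (0)))
  · change x 3 * x 4 * x 2 ∈ W
    exact moe (by ring) (W.add_mem (W.smul_mem (8 : ℤ) b15) (mk (0) (0) (0) (-(4 * (x 0)) + 4 * (x 1) - 4 * (x 2)) (4 * (x 0) + 4 * (x 1) - 4 * (x 2)) (0) (4 * (x 3) + 4 * (x 4)) (-(x 2 * x 3 * x 4))))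
  · change x 3 * x 4 * x 3 ∈ W
    exact moe (by ring) (mk (0) (0) (0) (x 4) (0) (0) (0) (0))
  · change x 3 * x 4 * x 4 ∈ W
    exact moe (by ring) (mk (0) (0) (0) (0) (x 3) (0) (0) (0))
  · change x 0 * x 1 * x 4 * x 0 ∈ W
    exact moe (by ring) (mk (x 1 * x 4) (0) (0) (0) (0) (0) (0) (0))
  · change x 0 * x 1 * x 4 * x 1 ∈ W
    exact moe (by ring) (mk (0) (x 0 * x 4) (0) (0) (0) (0) (0) (0))
  · change x 0 * x 1 * x 4 * x 2 ∈ W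
    exact moe (by ring) (mk (x 1 * x 4) (0) (0) (0) (0) (x 0 * x 4) (0) (0))
  · change x 0 * x 1 * x 4 * x 3 ∈ W
    exact moe (by ring) (mk (0) (4 * (x 3 * x 4) + 4 * (x 4 * x 4)) (0) (0) (4 * (x 0 * x 1) - 4 * (x 1 * x 2)) (-(4 * (x 3 * x 4))) (4 * (x 1 * x 4)) (-(x 0 * x 1 * x 3 * x 4)))
  · change x 0 * x 1 * x 4 * x 4 ∈ W
    exact moe (by ring) (mk (0) (0) (0) (0) (x 0 * x 1) (0) (0) (0))
  · change x 1 * x 3 * x 4 * x 0 ∈ W
    exact moe (by ring) (mk (0) (4 * (x 3 * x 4) + 4 * (x 4 * x 4)) (0) (0) (4 * (x 0 * x 1) - 4 * (x 1 * x 2)) (-(4 * (x 3 * x 4))) (4 * (x 1 * x 4)) (-(x 0 * x 1 * x 3 * x 4)))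
  · change x 1 * x 3 * x 4 * x 1 ∈ W
    exact moe (by ring) (mk (0) (x 3 * x 4) (0) (0) (0) (0) (0) (0))
  · change x 1 * x 3 * x 4 * x 2 ∈ W
    exact moe (by ring) (mk (0) (4 * (x 3 * x 4) + 4 * (x 4 * x 4)) (0) (0) (4 * (x 0 * x 1) - 4 * (x 1 * x 2)) (4 * (x 3 * x 4)) (4 * (x 1 * x 4)) (-(x 1 * x 2 * x 3 * x 4)))
  · change x 1 * x 3 * x 4 * x 3 ∈ W
    exact moe (by ring) (mk (0) (0) (0) (x 1 * x 4) (0) (0) (0) (0))
  · change x 1 * x 3 * x 4 * x 4 ∈ W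
    exact moe (by ring) (mk (0) (0) (0) (0) (x 1 * x 3) (0) (0) (0))

/-- The bound for the number of elements of the quotient. -/
lemma card_le (h2 : St_BG2) {c : ℕ} (hc : 5 ≤ c) (K : Ideal (PP c)) (hK : bA 5 c ≤ K) (b : Fin 16 → PP c)
    (h1 : (1 : PP c) ∈ Submodule.span ℤ (Set.range b) ⊔ K.restrictScalars ℤ)
    (hcl : ∀ k v, b k * xP hc v ∈ Submodule.span ℤ (Set.range b) ⊔ K.restrictScalars ℤ) :
    Nat.card (RR c ⧸ K.map (toR c)) ≤ 7 ^ 16 := by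
  obtain ⟨-, h22, -, h24⟩ := h2 5 c hc
  set W : Submodule ℤ (PP c) := Submodule.span ℤ (Set.range b) ⊔ K.restrictScalars ℤ with hW
  have hKW : ∀ y ∈ K, y ∈ W := fun y hy => Submodule.mem_sup_right hy
  have hX : ∀ v : Fin c, ∀ u ∈ W, u * X v ∈ W := by
    intro v u hu
    by_cases hv : v.val < 5
    · have e : (X v : PP c) = xP hc ⟨v.val, hv⟩ := rfl
      rw [e]
      obtain ⟨y, hy, z, hz, rfl⟩ := Submodule.mem_sup.1 hu
      rw [add_mul]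
      refine W.add_mem ?_ (hKW _ (K.mul_mem_right _ hz))
      refine Submodule.span_induction (p := fun t _ => t * xP hc ⟨v.val, hv⟩ ∈ W) ?_ ?_ ?_ ?_ hy
      · rintro _ ⟨k, rfl⟩
        exact hcl k _
      · rw [zero_mul]
        exact W.zero_mem
      · intro s t _ _ hs ht
        rw [add_mul]
        exact W.add_mem hs ht
      · intro n t _ ht
        rw [smul_mul_assoc]
        exact W.smul_mem n ht
    · refine hKW _ (K.mul_mem_left _ (hK (Ideal.subset_span ⟨v, ?_⟩)))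
      unfold ba bx
      rw [if_neg hv, pow_one]
  have hall : ∀ u : PP c, u ∈ W := by
    intro u
    refine MvPolynomial.induction_on u ?_ ?_ ?_
    · intro a
      have e : (C a : PP c) = ((a.val : ℤ)) • (1 : PP c) := by
        rw [zsmul_eq_mul, mul_one, Int.cast_natCast, ← map_natCast (C : ZMod 7 →+* PP c),
          ZMod.natCast_zmod_val]
      rw [e]
      exact W.smul_mem _ h1
    · intro p q hp hq
      exact W.add_mem hp hq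
    · intro p v hp
      exact hX v p hp
  have hsur : Function.Surjective (fun l : Fin 16 → ZMod 7 =>
      Ideal.Quotient.mk (K.map (toR c)) (toR c (∑ k, C (l k) * b k))) := by
    intro q
    obtain ⟨x, rfl⟩ := Ideal.Quotient.mk_surjective q
    obtain ⟨u, hu⟩ := h24 x
    have hu' : x - toR c u ∈ K.map (toR c) := by
      rw [← h22] at hu
      exact Ideal.map_mono hK hu
    obtain ⟨y, hy, z, hz, hyz⟩ := Submodule.mem_sup.1 (hall u)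
    obtain ⟨n, hn⟩ := (Submodule.mem_span_range_iff_exists_fun ℤ).1 hy
    refine ⟨fun k => (n k : ZMod 7), ?_⟩
    have e1 : (∑ k, C ((n k : ℤ) : ZMod 7) * b k : PP c) = y := by
      rw [← hn]
      refine Finset.sum_congr rfl fun k _ => ?_
      rw [map_intCast, zsmul_eq_mul]
    change Ideal.Quotient.mk (K.map (toR c)) (toR c (∑ k, C ((n k : ℤ) : ZMod 7) * b k)) = _
    rw [e1]
    refine (Ideal.Quotient.eq.2 ?_).symm
    have e2 : x - toR c y = (x - toR c u) + toR c z := by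
      rw [← hyz, map_add]
      ring
    rw [e2]
    exact Ideal.add_mem _ hu' (Ideal.mem_map_of_mem _ hz)
  have h3 := Nat.card_le_card_of_surjective _ hsur
  refine h3.trans (le_of_eq ?_)
  rw [Nat.card_fun, Nat.card_zmod, Nat.card_fin]

lemma seven (c : ℕ) : (7 : PP c) = 0 := by
  have h : ((7 : ℕ) : PP c) = 0 := CharP.cast_eq_zero (PP c) 7
  exact_mod_cast h

lemma sq_mem {c : ℕ} (hc : 5 ≤ c) (i : Fin 5) : xP hc i ^ 2 ∈ bA 5 c := by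
  refine Ideal.subset_span ⟨Fin.castLE hc i, ?_⟩
  unfold ba bx xP
  rw [if_pos (by simp)]

end B5Cx

open B5Cx in
theorem B5C : St_B5C := by
  intro hD h1 h2 h3 hA _ c hc
  obtain ⟨-, -, -, hfin, hsoc, -⟩ := h1 5 c hc
  obtain ⟨hmap, hL, hmem, hrep⟩ := h2 5 c hc
  have hbI : ∀ {m : ℕ} (g : Fin m → PP c), bA 5 c ≤ bI 5 g := fun g => le_sup_left
  have hgI : ∀ {m : ℕ} (g : Fin m → PP c) (k : Fin m), g k ∈ bI 5 g := fun g k =>
    Ideal.mem_sup_right (Ideal.subset_span ⟨k, rfl⟩)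
  have uI : Nat.card (RR c ⧸ bJ 5 (g5 (xP hc))) ≤ 7 ^ 16 := by
    rw [← hmap 2 (g5 (xP hc))]
    refine card_le h2 hc _ (hbI _) (I5b (xP hc)) ?_ ?_
    · exact Submodule.mem_sup_left (Submodule.subset_span ⟨0, rfl⟩)
    · refine I5_cl (xP hc) (bI 5 (g5 (xP hc))) (seven c) (fun i => hbI _ (sq_mem hc i)) (hgI _) _ ?_ ?_
      · intro y hy
        exact Submodule.mem_sup_right hy
      · intro k
        exact Submodule.mem_sup_left (Submodule.subset_span ⟨k, rfl⟩)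
  have uJ : Nat.card (RR c ⧸ bJ 5 (h5 (xP hc))) ≤ 7 ^ 16 := by
    rw [← hmap 2 (h5 (xP hc))]
    refine card_le h2 hc _ (hbI _) (J5b (xP hc)) ?_ ?_
    · exact Submodule.mem_sup_left (Submodule.subset_span ⟨0, rfl⟩)
    · refine J5_cl (xP hc) (bI 5 (h5 (xP hc))) (seven c) (fun i => hbI _ (sq_mem hc i)) (hgI _) _ ?_ ?_
      · intro y hy
        exact Submodule.mem_sup_right hy
      · intro k
        exact Submodule.mem_sup_left (Submodule.subset_span ⟨k, rfl⟩)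
  have hcol : col (bL 5 c) (bJ 5 (h5 (xP hc))) = bJ 5 (g5 (xP hc)) := by
    have hLA : ∀ u : PP c, toR c u ∈ bL 5 c ↔ u ∈ bA 5 c := by
      intro u
      rw [← hL]
      exact hmem (bA 5 c) le_rfl u
    have hLJ : bL 5 c ≤ bJ 5 (g5 (xP hc)) := le_sup_left
    have key : ∀ u : PP c, toR c u ∈ bJ 5 (g5 (xP hc)) ↔
        ∀ k, toR c (h5 (xP hc) k) * toR c u ∈ bL 5 c := by
      intro u
      rw [← hmap 2 (g5 (xP hc)), hmem _ (hbI _) u, hA c hc u]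
      refine forall_congr' fun k => ?_
      rw [← map_mul, hLA]
    ext x
    obtain ⟨u, hu⟩ := hrep x
    have e1 : x = toR c u + (x - toR c u) := by ring
    rw [mem_col]
    constructor
    · intro h
      have h4 : toR c u ∈ bJ 5 (g5 (xP hc)) := by
        rw [key]
        intro k
        have h5' := h (toR c (h5 (xP hc) k)) (Ideal.mem_sup_right (Ideal.subset_span ⟨k, rfl⟩))
        have h6 : toR c (h5 (xP hc) k) * toR c u = x * toR c (h5 (xP hc) k) -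
            (x - toR c u) * toR c (h5 (xP hc) k) := by ring
        rw [h6]
        exact Ideal.sub_mem _ h5' (Ideal.mul_mem_right _ _ hu)
      rw [e1]
      exact Ideal.add_mem _ h4 (hLJ hu)
    · intro hx y hy
      have h4 : toR c u ∈ bJ 5 (g5 (xP hc)) := by
        have e2 : toR c u = x - (x - toR c u) := by ring
        rw [e2]
        exact Ideal.sub_mem _ hx (hLJ hu)
      rw [key] at h4
      obtain ⟨a, ha, z, hz, rfl⟩ := Submodule.mem_sup.1 hy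
      rw [mul_add]
      refine Ideal.add_mem _ (Ideal.mul_mem_left _ _ ha) ?_
      refine Submodule.span_induction (p := fun t _ => x * t ∈ bL 5 c) ?_ ?_ ?_ ?_ hz
      · rintro _ ⟨k, rfl⟩
        have h6 : x * toR c (h5 (xP hc) k) = toR c (h5 (xP hc) k) * toR c u +
            (x - toR c u) * toR c (h5 (xP hc) k) := by ring
        rw [h6]
        exact Ideal.add_mem _ (h4 k) (Ideal.mul_mem_right _ _ hu)
      · rw [mul_zero]
        exact Ideal.zero_mem _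
      · intro s t _ _ hs ht
        rw [mul_add]
        exact Ideal.add_mem _ hs ht
      · intro r t _ ht
        rw [smul_eq_mul, mul_left_comm]
        exact Ideal.mul_mem_left _ _ ht
  have hprod := (hD (RR c) (bL 5 c) (bJ 5 (h5 (xP hc))) le_sup_left hfin hsoc).1
  rw [hcol, h3 h2 5 c hc] at hprod
  refine le_antisymm uI ?_
  by_contra hlt
  rw [not_le] at hlt
  have h7 : Nat.card (RR c ⧸ bJ 5 (h5 (xP hc))) * Nat.card (RR c ⧸ bJ 5 (g5 (xP hc))) <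
      7 ^ 16 * 7 ^ 16 :=
    lt_of_le_of_lt (Nat.mul_le_mul_right _ uJ) (Nat.mul_lt_mul_of_pos_left hlt (by norm_num))
  rw [hprod] at h7
  norm_num at h7

end Pool.Agent.LCB
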