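import Mathlib
import Pool.Agent.LCB.BSt

/-!
Module B5K: the ten relations generate all relations modulo the squares. Everything is done in
the quotient by the regular sequence, where the squares of the five coordinates vanish.
-/

namespace Pool.Agent.LCB.B5KAux

open Pool.Agent.Helper40.Licci MvPolynomial

variable {A : Type} [CommRing A] (ι : ZMod 7 →+* A)

/-- The normal form of the first entry. -/
def NA (b d e : A) (n : Fin 8 → ZMod 7) : A :=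
  ι (n 0) + ι (n 1) * b + ι (n 2) * d + ι (n 3) * e + ι (n 4) * (b * d) + ι (n 5) * (b * e)
    + ι (n 6) * (d * e) + ι (n 7) * (b * d * e)

/-- The normal form of the second entry. -/
def NB (a b c d e : A) (m : Fin 8 → ZMod 7) : A :=
  ι (m 0) + ι (m 1) * a + ι (m 2) * b + ι (m 3) * c + ι (m 4) * d + ι (m 5) * e
    + ι (m 6) * (a * d) + ι (m 7) * (c * d)

/-- The first entry of a combination of the ten rows. -/
def RA (a b c d e : A) (s : Fin 10 → A) : A :=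
  s 0 * a + s 1 * (b - c) - s 2 * (b * d) - s 3 * (b * d) - s 6 * (d * e)
    + s 9 * (a * d + b * e + c * d)

/-- The second entry of a combination of the ten rows. -/
def RB (a b c d e : A) (s : Fin 10 → A) : A :=
  s 2 * (a * b) + s 3 * (b * c) + s 4 * (b * d) + s 5 * (d * e) + s 6 * (a * d + a * e)
    + s 7 * (a * e - c * e) + s 8 * (b * e - a * d - c * d) - s 9 * (a * b + a * c)

/-- A pair is congruent to a pair in normal form. -/
def P (a b c d e : A) (f h : A) : Prop :=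
  ∃ (s : Fin 10 → A) (n m : Fin 8 → ZMod 7),
    f = RA a b c d e s + NA ι b d e n ∧ h = RB a b c d e s + NB ι a b c d e m

variable {ι}
variable {a b c d e : A}

lemma P_add {f h f' h' : A} (h1 : P ι a b c d e f h) (h2 : P ι a b c d e f' h') :
    P ι a b c d e (f + f') (h + h') := by
  obtain ⟨s, n, m, e1, e2⟩ := h1
  obtain ⟨s', n', m', e1', e2'⟩ := h2
  refine ⟨s + s', n + n', m + m', ?_, ?_⟩
  · rw [e1, e1']
    simp only [RA, NA, Pi.add_apply, map_add]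
    ring
  · rw [e2, e2']
    simp only [RB, NB, Pi.add_apply, map_add]
    ring

lemma P_sub {f h f' h' : A} (h1 : P ι a b c d e f h) (h2 : P ι a b c d e f' h') :
    P ι a b c d e (f - f') (h - h') := by
  obtain ⟨s, n, m, e1, e2⟩ := h1
  obtain ⟨s', n', m', e1', e2'⟩ := h2
  refine ⟨s - s', n - n', m - m', ?_, ?_⟩
  · rw [e1, e1']
    simp only [RA, NA, Pi.sub_apply, map_sub]
    ring
  · rw [e2, e2']
    simp only [RB, NB, Pi.sub_apply, map_sub]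
    ring

lemma P_cast {f h f' h' : A} (h1 : P ι a b c d e f h) (e1 : f' = f) (e2 : h' = h) :
    P ι a b c d e f' h' := by
  subst e1 e2
  exact h1

/-- The rows. -/
lemma P_row (s : Fin 10 → A) : P ι a b c d e (RA a b c d e s) (RB a b c d e s) :=
  ⟨s, 0, 0, by simp [NA], by simp [NB]⟩

lemma P_nA (n : Fin 8 → ZMod 7) : P ι a b c d e (NA ι b d e n) 0 :=
  ⟨0, n, 0, by simp [RA], by simp [RB, NB]⟩

lemma P_nB (m : Fin 8 → ZMod 7) : P ι a b c d e 0 (NB ι a b c d e m) :=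
  ⟨0, 0, m, by simp [RA, NA], by simp [RB]⟩

/-- Every pair has a normal form. -/
lemma P_all (ha : a ^ 2 = 0) (hb : b ^ 2 = 0) (hc : c ^ 2 = 0) (hd : d ^ 2 = 0) (he : e ^ 2 = 0)
    (dec : ∀ f : A, ∃ (α : ZMod 7) (g0 g1 g2 g3 g4 : A),
      f = ι α + a * g0 + b * g1 + c * g2 + d * g3 + e * g4) (f h : A) :
    P ι a b c d e f h := by
  -- the rows one by one
  have r0 : ∀ s, P ι a b c d e (s * a) 0 := fun s =>
    P_cast (P_row ![s, 0, 0, 0, 0, 0, 0, 0, 0, 0]) (by simp [RA]) (by simp [RB])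
  have r1 : ∀ s, P ι a b c d e (s * (b - c)) 0 := fun s =>
    P_cast (P_row ![0, s, 0, 0, 0, 0, 0, 0, 0, 0]) (by simp [RA]) (by simp [RB])
  have r2 : ∀ s, P ι a b c d e (-(s * (b * d))) (s * (a * b)) := fun s =>
    P_cast (P_row ![0, 0, s, 0, 0, 0, 0, 0, 0, 0]) (by simp [RA]) (by simp [RB])
  have r3 : ∀ s, P ι a b c d e (-(s * (b * d))) (s * (b * c)) := fun s =>
    P_cast (P_row ![0, 0, 0, s, 0, 0, 0, 0, 0, 0]) (by simp [RA]) (by simp [RB])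
  have r4 : ∀ s, P ι a b c d e 0 (s * (b * d)) := fun s =>
    P_cast (P_row ![0, 0, 0, 0, s, 0, 0, 0, 0, 0]) (by simp [RA]) (by simp [RB])
  have r5 : ∀ s, P ι a b c d e 0 (s * (d * e)) := fun s =>
    P_cast (P_row ![0, 0, 0, 0, 0, s, 0, 0, 0, 0]) (by simp [RA]) (by simp [RB])
  have r6 : ∀ s, P ι a b c d e (-(s * (d * e))) (s * (a * d + a * e)) := fun s =>
    P_cast (P_row ![0, 0, 0, 0, 0, 0, s, 0, 0, 0]) (by simp [RA]) (by simp [RB])
  have r7 : ∀ s, P ι a b c d e 0 (s * (a * e - c * e)) := fun s =>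
    P_cast (P_row ![0, 0, 0, 0, 0, 0, 0, s, 0, 0]) (by simp [RA]) (by simp [RB])
  have r8 : ∀ s, P ι a b c d e 0 (s * (b * e - a * d - c * d)) := fun s =>
    P_cast (P_row ![0, 0, 0, 0, 0, 0, 0, 0, s, 0]) (by simp [RA]) (by simp [RB])
  have r9 : ∀ s, P ι a b c d e (s * (a * d + b * e + c * d)) (-(s * (a * b + a * c))) := fun s =>
    P_cast (P_row ![0, 0, 0, 0, 0, 0, 0, 0, 0, s]) (by simp [RA]) (by simp [RB])
  -- the normal forms one by one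
  have n0 : ∀ t, P ι a b c d e (ι t) 0 := fun t =>
    P_cast (P_nA ![t, 0, 0, 0, 0, 0, 0, 0]) (by simp [NA]) rfl
  have n1 : ∀ t, P ι a b c d e (ι t * b) 0 := fun t =>
    P_cast (P_nA ![0, t, 0, 0, 0, 0, 0, 0]) (by simp [NA]) rfl
  have n2 : ∀ t, P ι a b c d e (ι t * d) 0 := fun t =>
    P_cast (P_nA ![0, 0, t, 0, 0, 0, 0, 0]) (by simp [NA]) rfl
  have n3 : ∀ t, P ι a b c d e (ι t * e) 0 := fun t =>
    P_cast (P_nA ![0, 0, 0, t, 0, 0, 0, 0]) (by simp [NA]) rfl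
  have n4 : ∀ t, P ι a b c d e (ι t * (b * d)) 0 := fun t =>
    P_cast (P_nA ![0, 0, 0, 0, t, 0, 0, 0]) (by simp [NA]) rfl
  have n5 : ∀ t, P ι a b c d e (ι t * (b * e)) 0 := fun t =>
    P_cast (P_nA ![0, 0, 0, 0, 0, t, 0, 0]) (by simp [NA]) rfl
  have n6 : ∀ t, P ι a b c d e (ι t * (d * e)) 0 := fun t =>
    P_cast (P_nA ![0, 0, 0, 0, 0, 0, t, 0]) (by simp [NA]) rfl
  have n7 : ∀ t, P ι a b c d e (ι t * (b * d * e)) 0 := fun t =>
    P_cast (P_nA ![0, 0, 0, 0, 0, 0, 0, t]) (by simp [NA]) rfl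
  have m0 : ∀ t, P ι a b c d e 0 (ι t) := fun t =>
    P_cast (P_nB ![t, 0, 0, 0, 0, 0, 0, 0]) rfl (by simp [NB])
  have m1 : ∀ t, P ι a b c d e 0 (ι t * a) := fun t =>
    P_cast (P_nB ![0, t, 0, 0, 0, 0, 0, 0]) rfl (by simp [NB])
  have m2 : ∀ t, P ι a b c d e 0 (ι t * b) := fun t =>
    P_cast (P_nB ![0, 0, t, 0, 0, 0, 0, 0]) rfl (by simp [NB])
  have m3 : ∀ t, P ι a b c d e 0 (ι t * c) := fun t =>
    P_cast (P_nB ![0, 0, 0, t, 0, 0, 0, 0]) rfl (by simp [NB])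
  have m4 : ∀ t, P ι a b c d e 0 (ι t * d) := fun t =>
    P_cast (P_nB ![0, 0, 0, 0, t, 0, 0, 0]) rfl (by simp [NB])
  have m5 : ∀ t, P ι a b c d e 0 (ι t * e) := fun t =>
    P_cast (P_nB ![0, 0, 0, 0, 0, t, 0, 0]) rfl (by simp [NB])
  have m6 : ∀ t, P ι a b c d e 0 (ι t * (a * d)) := fun t =>
    P_cast (P_nB ![0, 0, 0, 0, 0, 0, t, 0]) rfl (by simp [NB])
  have m7 : ∀ t, P ι a b c d e 0 (ι t * (c * d)) := fun t =>
    P_cast (P_nB ![0, 0, 0, 0, 0, 0, 0, t]) rfl (by simp [NB])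
  -- first entries
  have A3 : ∀ f, P ι a b c d e (b * d * e * f) 0 := by
    intro f
    obtain ⟨α, g0, g1, g2, g3, g4, hf⟩ := dec f
    refine P_cast (P_sub (P_add (n7 α) (r0 (b * d * e * g0))) (r1 (b * d * e * g2))) ?_ (by ring)
    rw [hf]
    linear_combination (d * e * g1 + d * e * g2) * hb + (b * e * g3) * hd + (b * d * g4) * he
  have Abd : ∀ f, P ι a b c d e (b * d * f) 0 := by
    intro f
    obtain ⟨α, g0, g1, g2, g3, g4, hf⟩ := dec f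
    refine P_cast (P_add (P_sub (P_add (n4 α) (r0 (b * d * g0))) (r1 (b * d * g2))) (A3 g4)) ?_
      (by ring)
    rw [hf]
    linear_combination (d * g1 + d * g2) * hb + (b * g3) * hd
  have Abe : ∀ f, P ι a b c d e (b * e * f) 0 := by
    intro f
    obtain ⟨α, g0, g1, g2, g3, g4, hf⟩ := dec f
    refine P_cast (P_add (P_sub (P_add (n5 α) (r0 (b * e * g0))) (r1 (b * e * g2))) (A3 g3)) ?_
      (by ring)
    rw [hf]
    linear_combination (e * g1 + e * g2) * hb + (b * g4) * he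
  have Ade : ∀ f, P ι a b c d e (d * e * f) 0 := by
    intro f
    obtain ⟨α, g0, g1, g2, g3, g4, hf⟩ := dec f
    refine P_cast (P_add (P_sub (P_add (n6 α) (r0 (d * e * g0))) (r1 (d * e * g2)))
      (A3 (g1 + g2))) ?_ (by ring)
    rw [hf]
    linear_combination (e * g3) * hd + (d * g4) * he
  have Ab : ∀ f, P ι a b c d e (b * f) 0 := by
    intro f
    obtain ⟨α, g0, g1, g2, g3, g4, hf⟩ := dec f
    refine P_cast (P_add (P_add (P_sub (P_add (n1 α) (r0 (b * g0))) (r1 (b * g2))) (Abd g3))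
      (Abe g4)) ?_ (by ring)
    rw [hf]
    linear_combination (g1 + g2) * hb
  have Ad : ∀ f, P ι a b c d e (d * f) 0 := by
    intro f
    obtain ⟨α, g0, g1, g2, g3, g4, hf⟩ := dec f
    refine P_cast (P_add (P_add (P_sub (P_add (n2 α) (r0 (d * g0))) (r1 (d * g2)))
      (Abd (g1 + g2))) (Ade g4)) ?_ (by ring)
    rw [hf]
    linear_combination g3 * hd
  have Ae : ∀ f, P ι a b c d e (e * f) 0 := by
    intro f
    obtain ⟨α, g0, g1, g2, g3, g4, hf⟩ := dec f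
    refine P_cast (P_add (P_add (P_sub (P_add (n3 α) (r0 (e * g0))) (r1 (e * g2)))
      (Abe (g1 + g2))) (Ade g3)) ?_ (by ring)
    rw [hf]
    linear_combination g4 * he
  have A0 : ∀ f, P ι a b c d e f 0 := by
    intro f
    obtain ⟨α, g0, g1, g2, g3, g4, hf⟩ := dec f
    refine P_cast (P_add (P_add (P_add (P_sub (P_add (n0 α) (r0 g0)) (r1 g2))
      (Ab (g1 + g2))) (Ad g3)) (Ae g4)) ?_ (by ring)
    rw [hf]
    ring
  -- second entries
  have Bab : ∀ f, P ι a b c d e 0 (a * b * f) := fun f =>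
    P_cast (P_add (r2 f) (A0 (b * d * f))) (by ring) (by ring)
  have Bbc : ∀ f, P ι a b c d e 0 (b * c * f) := fun f =>
    P_cast (P_add (r3 f) (A0 (b * d * f))) (by ring) (by ring)
  have Bbd : ∀ f, P ι a b c d e 0 (b * d * f) := fun f =>
    P_cast (r4 f) (by ring) (by ring)
  have Bde : ∀ f, P ι a b c d e 0 (d * e * f) := fun f =>
    P_cast (r5 f) (by ring) (by ring)
  have Bac : ∀ f, P ι a b c d e 0 (a * c * f) := fun f =>
    P_cast (P_sub (P_sub (A0 ((a * d + b * e + c * d) * f)) (r9 f)) (Bab f)) (by ring) (by ring)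
  have Bad : ∀ f, P ι a b c d e 0 (a * d * f) := by
    intro f
    obtain ⟨α, g0, g1, g2, g3, g4, hf⟩ := dec f
    refine P_cast (P_add (P_add (P_add (m6 α) (Bab (d * g1))) (Bac (d * g2))) (Bde (a * g4)))
      (by ring) ?_
    rw [hf]
    linear_combination (d * g0) * ha + (a * g3) * hd
  have Bcd : ∀ f, P ι a b c d e 0 (c * d * f) := by
    intro f
    obtain ⟨α, g0, g1, g2, g3, g4, hf⟩ := dec f
    refine P_cast (P_add (P_add (P_add (m7 α) (Bac (d * g0))) (Bbc (d * g1))) (Bde (c * g4)))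
      (by ring) ?_
    rw [hf]
    linear_combination (d * g2) * hc + (c * g3) * hd
  have Bae : ∀ f, P ι a b c d e 0 (a * e * f) := fun f =>
    P_cast (P_sub (P_add (r6 f) (A0 (d * e * f))) (Bad f)) (by ring) (by ring)
  have Bce : ∀ f, P ι a b c d e 0 (c * e * f) := fun f =>
    P_cast (P_sub (Bae f) (r7 f)) (by ring) (by ring)
  have Bbe : ∀ f, P ι a b c d e 0 (b * e * f) := fun f =>
    P_cast (P_add (P_add (r8 f) (Bad f)) (Bcd f)) (by ring) (by ring)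
  have Ba : ∀ f, P ι a b c d e 0 (a * f) := by
    intro f
    obtain ⟨α, g0, g1, g2, g3, g4, hf⟩ := dec f
    refine P_cast (P_add (P_add (P_add (P_add (m1 α) (Bab g1)) (Bac g2)) (Bad g3)) (Bae g4))
      (by ring) ?_
    rw [hf]
    linear_combination g0 * ha
  have Bb : ∀ f, P ι a b c d e 0 (b * f) := by
    intro f
    obtain ⟨α, g0, g1, g2, g3, g4, hf⟩ := dec f
    refine P_cast (P_add (P_add (P_add (P_add (m2 α) (Bab g0)) (Bbc g2)) (Bbd g3)) (Bbe g4))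
      (by ring) ?_
    rw [hf]
    linear_combination g1 * hb
  have Bc : ∀ f, P ι a b c d e 0 (c * f) := by
    intro f
    obtain ⟨α, g0, g1, g2, g3, g4, hf⟩ := dec f
    refine P_cast (P_add (P_add (P_add (P_add (m3 α) (Bac g0)) (Bbc g1)) (Bcd g3)) (Bce g4))
      (by ring) ?_
    rw [hf]
    linear_combination g2 * hc
  have Bd : ∀ f, P ι a b c d e 0 (d * f) := by
    intro f
    obtain ⟨α, g0, g1, g2, g3, g4, hf⟩ := dec f
    refine P_cast (P_add (P_add (P_add (P_add (m4 α) (Bad g0)) (Bbd g1)) (Bcd g2)) (Bde g4))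
      (by ring) ?_
    rw [hf]
    linear_combination g3 * hd
  have Be : ∀ f, P ι a b c d e 0 (e * f) := by
    intro f
    obtain ⟨α, g0, g1, g2, g3, g4, hf⟩ := dec f
    refine P_cast (P_add (P_add (P_add (P_add (m5 α) (Bae g0)) (Bbe g1)) (Bce g2)) (Bde g3))
      (by ring) ?_
    rw [hf]
    linear_combination g4 * he
  have B0 : ∀ f, P ι a b c d e 0 f := by
    intro f
    obtain ⟨α, g0, g1, g2, g3, g4, hf⟩ := dec f
    refine P_cast (P_add (P_add (P_add (P_add (P_add (m0 α) (Ba g0)) (Bb g1)) (Bc g2)) (Bd g3))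
      (Be g4)) (by ring) ?_
    rw [hf]
  exact P_cast (P_add (A0 f) (B0 h)) (by ring) (by ring)

/-- A pair in normal form which is a relation vanishes. -/
lemma N_zero (ha : a ^ 2 = 0) (hb : b ^ 2 = 0) (hc : c ^ 2 = 0) (hd : d ^ 2 = 0) (he : e ^ 2 = 0)
    (top : ∀ t : ZMod 7, ι t * (a * b * c * d * e) = 0 → t = 0) (n m : Fin 8 → ZMod 7)
    (hN : NA ι b d e n * (a * b + a * c) + NB ι a b c d e m * (a * d + b * e + c * d) = 0) :
    NA ι b d e n = 0 ∧ NB ι a b c d e m = 0 := by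
  unfold NA NB at hN ⊢
  have zn0 : ι (n 0) = 0 := by
    have q := top (n 0) (by linear_combination (c * d * e) * hN - (ι (m 0) * d ^ 2 * e + ι (m 1) * a * d ^ 2 * e + ι (m 2) * b * d ^ 2 * e + ι (m 3) * c * d ^ 2 * e + ι (m 3) * b * d * e ^ 2 + ι (m 3) * a * d ^ 2 * e + ι (m 4) * d ^ 3 * e + ι (m 5) * d ^ 2 * e ^ 2 + ι (m 6) * a * d ^ 3 * e + ι (m 7) * c * d ^ 3 * e + ι (m 7) * b * d ^ 2 * e ^ 2 + ι (m 7) * a * d ^ 3 * e + ι (n 0) * a * d * e + ι (n 1) * a * b * d * e + ι (n 2) * a * d ^ 2 * e + ι (n 3) * a * d * e ^ 2 + ι (n 4) * a * b * d ^ 2 * e + ι (n 5) * a * b * d * e ^ 2 + ι (n 6) * a * d ^ 2 * e ^ 2 + ι (n 7) * a * b * d ^ 2 * e ^ 2) * hc - (ι (m 0) * b * c * d + ι (m 1) * a * b * c * d + ι (m 5) * b * c * d * e + ι (n 3) * a * b * c * d) * he - (ι (m 0) * a * c * e + ι (m 2) * a * b * c * e + ι (m 4) * b * c * e ^ 2 + ι (m 4) * a * c * d * e + ι (m 5) * a * c * e ^ 2 +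 ι (m 6) * a * b * c * e ^ 2 + ι (n 2) * a * b * c * e + ι (n 6) * a * b * c * e ^ 2) * hd - (ι (m 1) * c * d ^ 2 * e + ι (m 6) * c * d ^ 3 * e) * ha - (ι (m 2) * c * d * e ^ 2 + ι (n 1) * a * c * d * e + ι (n 4) * a * c * d ^ 2 * e + ι (n 5) * a * c * d * e ^ 2 + ι (n 7) * a * c * d ^ 2 * e ^ 2) * hb)
    rw [q, map_zero]
  have zm0 : ι (m 0) = 0 := by
    have q := top (m 0) (by linear_combination (b * c * e) * hN - (a * b * c ^ 2 * e + a * b ^ 2 * c * e) * zn0 - (ι (m 0) * b * d * e + ι (m 1) * a * b * d * e + ι (m 3) * b * c * d * e + ι (m 3) * a * b * d * e + ι (m 4) * b * d ^ 2 * e + ι (m 5) * b * d * e ^ 2 + ι (m 6) * a * b * d ^ 2 * e + ι (m 7) * b * c * d ^ 2 * e + ι (m 7) * a * b * d ^ 2 * e + ι (n 2) * a * b * d * e + ι (n 3) * a * b * e ^ 2 + ι (n 6) * a * b * d * e ^ 2) * hc - (ι (m 0) * c * e ^ 2 + ι (m 1) * a * c * e ^ 2 + ι (m 2) * c ^ 2 * d * e + ι (m 2) * b * c *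 e ^ 2 + ι (m 2) * a * c * d * e + ι (m 3) * c ^ 2 * e ^ 2 + ι (m 4) * c * d * e ^ 2 + ι (m 5) * c * e ^ 3 + ι (m 6) * a * c * d * e ^ 2 + ι (m 7) * c ^ 2 * d * e ^ 2 + ι (n 1) * a * c ^ 2 * e + ι (n 1) * a * b * c * e + ι (n 2) * a * c * d * e + ι (n 3) * a * c * e ^ 2 + ι (n 4) * a * c ^ 2 * d * e + ι (n 4) * a * b * c * d * e + ι (n 5) * a * c ^ 2 * e ^ 2 + ι (n 5) * a * b * c * e ^ 2 + ι (n 6) * a * c * d * e ^ 2 + ι (n 7) * a * c ^ 2 * d * e ^ 2 + ι (n 7) * a * b * c * d * e ^ 2) * hb - (ι (m 1) * b * c * d * e + ι (m 6) * b * c * d ^ 2 * e) * ha - (ι (m 4) * a * b * c * e) * hd - (ι (m 5) * a * b * c * d) * he)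
    rw [q, map_zero]
  have zn1 : ι (n 1) = 0 := by
    have q := top (n 1) (by linear_combination (d * e) * hN - (c * d ^ 2 * e + b * d * e ^ 2 + a * d ^ 2 * e) * zm0 - (a * c * d * e + a * b * d * e) * zn0 - (ι (m 1) * a * c * e + ι (m 2) * b * c * e + ι (m 2) * a * b * e + ι (m 3) * a * c * e + ι (m 4) * c * d * e + ι (m 4) * b * e ^ 2 + ι (m 4) * a * d * e + ι (m 5) * c * e ^ 2 + ι (m 5) * a * e ^ 2 + ι (m 6) * a * c * d * e + ι (m 6) * a * b * e ^ 2 + ι (m 7) * b * c * e ^ 2 + ι (m 7) * a * c * d * e + ι (n 2) * a * c * e + ι (n 2) * a * b * e + ι (n 4) * a * b * c * e + ι (n 6) * a * c * e ^ 2 + ι (n 6) * a * b * e ^ 2 + ι (n 7) * a * b * c * e ^ 2) * hd - (ι (m 1) * a * b * d + ι (m 3) * b * c * d + ι (m 5) * b * d * e + ι (n 3) * a * c * d + ι (n 3) * a * b * d + ι (n 5) * a * b * c * d) * he - (ι (m 1) * d ^ 2 * e + ι (m 6) * d ^ 3 * e) * ha - (ι (m 2) * d * e ^ 2 + ι (n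 1) * a * d * e + ι (n 4) * a * d ^ 2 * e + ι (n 5) * a * d * e ^ 2 + ι (n 7) * a * d ^ 2 * e ^ 2) * hb - (ι (m 3) * d ^ 2 * e + ι (m 7) * d ^ 3 * e) * hc)
    rw [q, map_zero]
  have zm2 : ι (m 2) = 0 := by
    have q := top (m 2) (by linear_combination (a * e) * hN - (a * c * d * e + a * b * e ^ 2 + a ^ 2 * d * e) * zm0 - (a ^ 2 * c * e + a ^ 2 * b * e) * zn0 - (a ^ 2 * b * c * e + a ^ 2 * b ^ 2 * e) * zn1 - (ι (m 1) * c * d * e + ι (m 1) * b * e ^ 2 + ι (m 1) * a * d * e + ι (m 2) * b * d * e + ι (m 3) * c * d * e + ι (m 4) * d ^ 2 * e + ι (m 5) * d * e ^ 2 + ι (m 6) * c * d ^ 2 * e + ι (m 6) * b * d * e ^ 2 + ι (m 6) * a * d ^ 2 * e + ι (m 7) * c * d ^ 2 * e + ι (n 2) * c * d * e + ι (n 2) * b * d * e + ι (n 3) * c * e ^ 2 + ι (n 3) * b * e ^ 2 + ι (n 4) * b * c * d * e + ι (n 4) * b ^ 2 * d * e + ι (n 5) * b * c * e ^ 2 + ι (n 5) * b ^ 2 * e ^ 2 + ι (n 6) * c * d * e ^ 2 + ι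 (n 6) * b * d * e ^ 2 + ι (n 7) * b * c * d * e ^ 2 + ι (n 7) * b ^ 2 * d * e ^ 2) * ha - (ι (m 2) * a * e ^ 2) * hb - (ι (m 3) * a * d * e + ι (m 7) * a * d ^ 2 * e) * hc - (ι (m 3) * a * b * c + ι (m 4) * a * b * d + ι (m 5) * a * c * d + ι (m 5) * a * b * e + ι (m 7) * a * b * c * d) * he - (ι (m 4) * a * c * e) * hd)
    rw [q, map_zero]
  have zm3 : ι (m 3) = 0 := by
    have q := top (m 3) (by linear_combination (a * d) * hN - (a * c * d ^ 2 + a * b * d * e + a ^ 2 * d ^ 2) * zm0 - (a * b * c * d ^ 2 + a * b ^ 2 * d * e + a ^ 2 * b * d ^ 2) * zm2 - (a ^ 2 * c * d + a ^ 2 * b * d) * zn0 - (a ^ 2 * b * c * d + a ^ 2 * b ^ 2 * d) * zn1 - (ι (m 1) * c * d ^ 2 + ι (m 1) * b * d * e + ι (m 1) * a * d ^ 2 + ι (m 3) * c * d ^ 2 + ι (m 4) * d ^ 3 + ι (m 5) * d ^ 2 * e + ι (m 6) * c * d ^ 3 + ι (m 6) * b * d ^ 2 * e + ι (m 6) * a * d ^ 3 + ι (m 7) * c * d ^ 3 + ι (n 2) * c * d ^ 2 +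 ι (n 2) * b * d ^ 2 + ι (n 3) * c * d * e + ι (n 3) * b * d * e + ι (n 4) * b * c * d ^ 2 + ι (n 4) * b ^ 2 * d ^ 2 + ι (n 5) * b * c * d * e + ι (n 5) * b ^ 2 * d * e + ι (n 6) * c * d ^ 2 * e + ι (n 6) * b * d ^ 2 * e + ι (n 7) * b * c * d ^ 2 * e + ι (n 7) * b ^ 2 * d ^ 2 * e) * ha - (ι (m 3) * a * d ^ 2 + ι (m 7) * a * d ^ 3) * hc - (ι (m 4) * a * c * d + ι (m 4) * a * b * e + ι (m 5) * a * c * e + ι (m 7) * a * b * c * e) * hd - (ι (m 5) * a * b * d) * he)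
    rw [q, map_zero]
  have zn2 : ι (n 2) = 0 := by
    have q := top (n 2) (by linear_combination (c * e) * hN - (c ^ 2 * d * e + b * c * e ^ 2 + a * c * d * e) * zm0 - (b * c ^ 2 * d * e + b ^ 2 * c * e ^ 2 + a * b * c * d * e) * zm2 - (c ^ 3 * d * e + b * c ^ 2 * e ^ 2 + a * c ^ 2 * d * e) * zm3 - (a * c ^ 2 * e + a * b * c * e) * zn0 - (a * b * c ^ 2 * e + a * b ^ 2 * c * e) * zn1 - (ι (m 1) * a * d * e + ι (m 4) * d ^ 2 * e + ι (m 5) * d * e ^ 2 + ι (m 6) * a * d ^ 2 * e + ι (m 7) * c * d ^ 2 * e + ι (m 7) * b * d * e ^ 2 + ι (m 7) * a * d ^ 2 * e + ι (n 2) * a * d * e + ι (n 3) * a * e ^ 2 + ι (n 4) * a * b * d * e + ι (n 5) * a * b * e ^ 2 + ι (n 6) * a * d * e ^ 2 + ι (n 7) * a * b * d * e ^ 2) * hc - (ι (m 1) * a * b * c + ι (m 4) * b * c * d + ι (m 5) * b * c * e + ι (m 5) * a * c * d + ι (m 6) * a * b * c * d + ι (n 3) * a * b * c + ι (n 6) * a * b * c * d) * he - (ι (m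 1) * c * d * e + ι (m 6) * c * d ^ 2 * e) * ha - (ι (m 4) * a * c * e) * hd - (ι (n 4) * a * c * d * e + ι (n 5) * a * c * e ^ 2 + ι (n 7) * a * c * d * e ^ 2) * hb)
    rw [q, map_zero]
  have zn3 : ι (n 3) = 0 := by
    have q := top (n 3) (by linear_combination (b * d) * hN - (b * c * d ^ 2 + b ^ 2 * d * e + a * b * d ^ 2) * zm0 - (b ^ 2 * c * d ^ 2 + b ^ 3 * d * e + a * b ^ 2 * d ^ 2) * zm2 - (b * c ^ 2 * d ^ 2 + b ^ 2 * c * d * e + a * b * c * d ^ 2) * zm3 - (a * b * c * d + a * b ^ 2 * d) * zn0 - (a * b ^ 2 * c * d + a * b ^ 3 * d) * zn1 - (a * b * c * d ^ 2 + a * b ^ 2 * d ^ 2) * zn2 - (ι (m 1) * a * b * c + ι (m 4) * b * c * d + ι (m 4) * a * b * d + ι (m 5) * b * c * e + ι (m 5) * a * b * e + ι (m 6) * a * b * c * d + ι (m 7) * a * b * c * d + ι (n 6) * a * b * c * e) * hd - (ι (m 1) * a * d * e + ι (m 4) * d ^ 2 * e + ι (m 5) * d * e ^ 2 + ι (m 6) * a * d ^ 2 * e + ι (m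 7) * c * d ^ 2 * e + ι (n 3) * a * d * e + ι (n 4) * a * c * d ^ 2 + ι (n 4) * a * b * d ^ 2 + ι (n 5) * a * c * d * e + ι (n 5) * a * b * d * e + ι (n 6) * a * d ^ 2 * e + ι (n 7) * a * c * d ^ 2 * e + ι (n 7) * a * b * d ^ 2 * e) * hb - (ι (m 1) * b * d ^ 2 + ι (m 6) * b * d ^ 3) * ha - (ι (m 7) * b * d ^ 3) * hc)
    rw [q, map_zero]
  have zm1 : ι (m 1) = 0 := by
    have q := top (m 1) (by linear_combination (c * d) * hN - (c ^ 2 * d ^ 2 + b * c * d * e + a * c * d ^ 2) * zm0 - (b * c ^ 2 * d ^ 2 + b ^ 2 * c * d * e + a * b * c * d ^ 2) * zm2 - (c ^ 3 * d ^ 2 + b * c ^ 2 * d * e + a * c ^ 2 * d ^ 2) * zm3 - (a * c ^ 2 * d + a * b * c * d) * zn0 - (a * b * c ^ 2 * d + a * b ^ 2 * c * d) * zn1 - (a * c ^ 2 * d ^ 2 + a * b * c * d ^ 2) * zn2 - (a * c ^ 2 * d * e + a * b * c * d * e) * zn3 - (ι (m 1) * a * d ^ 2 + ι (m 4) * d ^ 3 + ι (m 5) * d ^ 2 * e + ι (m 6) * a * d ^ 3 + ι (m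 7) * c * d ^ 3 + ι (m 7) * b * d ^ 2 * e + ι (m 7) * a * d ^ 3 + ι (n 4) * a * b * d ^ 2 + ι (n 5) * a * b * d * e + ι (n 6) * a * d ^ 2 * e + ι (n 7) * a * b * d ^ 2 * e) * hc - (ι (m 1) * c * d ^ 2 + ι (m 6) * c * d ^ 3) * ha - (ι (m 4) * b * c * e + ι (m 4) * a * c * d + ι (m 5) * a * c * e + ι (m 6) * a * b * c * e + ι (n 6) * a * b * c * e) * hd - (ι (m 5) * b * c * d) * he - (ι (n 4) * a * c * d ^ 2 + ι (n 5) * a * c * d * e + ι (n 7) * a * c * d ^ 2 * e) * hb)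
    rw [q, map_zero]
  have zm4 : ι (m 4) = 0 := by
    have q := top (m 4) (by linear_combination (a * c) * hN - (a * c ^ 2 * d + a * b * c * e + a ^ 2 * c * d) * zm0 - (a ^ 2 * c ^ 2 * d + a ^ 2 * b * c * e + a ^ 3 * c * d) * zm1 - (a * b * c ^ 2 * d + a * b ^ 2 * c * e + a ^ 2 * b * c * d) * zm2 - (a * c ^ 3 * d + a * b * c ^ 2 * e + a ^ 2 * c ^ 2 * d) * zm3 - (a ^ 2 * c ^ 2 + a ^ 2 * b * c) * zn0 - (a ^ 2 * b * c ^ 2 + a ^ 2 * b ^ 2 * c) * zn1 - (a ^ 2 * c ^ 2 * d + a ^ 2 * b * c * d) * zn2 - (a ^ 2 * c ^ 2 * e + a ^ 2 * b * c * e) * zn3 - (ι (m 4) * a * d ^ 2 + ι (m 5) * a * d * e + ι (m 7) * a * c * d ^ 2 + ι (m 7) * a * b * d * e) * hc - (ι (m 4) * c * d ^ 2 + ι (m 5) * c * d * e + ι (m 6) * c ^ 2 * d ^ 2 + ι (m 6) * b * c * d * e + ι (m 6) * a * c * d ^ 2 + ι (m 7) * c ^ 2 * d ^ 2 + ι (n 4) * b * c ^ 2 * d + ι (n 4) * b ^ 2 * c * d + ι (n 5) * b * c ^ 2 * e + ι (n 5) * b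 ^ 2 * c * e + ι (n 6) * c ^ 2 * d * e + ι (n 6) * b * c * d * e + ι (n 7) * b * c ^ 2 * d * e + ι (n 7) * b ^ 2 * c * d * e) * ha - (ι (m 5) * a * b * c) * he)
    rw [q, map_zero]
  have zm5 : ι (m 5) = 0 := by
    have q := top (m 5) (by linear_combination (b * c) * hN - (b * c ^ 2 * d + b ^ 2 * c * e + a * b * c * d) * zm0 - (a * b * c ^ 2 * d + a * b ^ 2 * c * e + a ^ 2 * b * c * d) * zm1 - (b ^ 2 * c ^ 2 * d + b ^ 3 * c * e + a * b ^ 2 * c * d) * zm2 - (b * c ^ 3 * d + b ^ 2 * c ^ 2 * e + a * b * c ^ 2 * d) * zm3 - (b * c ^ 2 * d ^ 2 + b ^ 2 * c * d * e + a * b * c * d ^ 2) * zm4 - (a * b * c ^ 2 + a * b ^ 2 * c) * zn0 - (a * b ^ 2 * c ^ 2 + a * b ^ 3 * c) * zn1 - (a * b * c ^ 2 * d + a * b ^ 2 * c * d) * zn2 - (a * b * c ^ 2 * e + a * b ^ 2 * c * e) * zn3 - (ι (m 5) * b * d * e + ι (m 6) * a * b * d ^ 2 + ι (m 7) * b * c * d ^ 2 + ι (m 7) * a * b * d ^ 2 + ι (n 6) * a * b *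 d * e) * hc - (ι (m 5) * c * e ^ 2 + ι (m 6) * a * c * d * e + ι (m 7) * c ^ 2 * d * e + ι (n 4) * a * c ^ 2 * d + ι (n 4) * a * b * c * d + ι (n 5) * a * c ^ 2 * e + ι (n 5) * a * b * c * e + ι (n 6) * a * c * d * e + ι (n 7) * a * c ^ 2 * d * e + ι (n 7) * a * b * c * d * e) * hb - (ι (m 6) * b * c * d ^ 2) * ha)
    rw [q, map_zero]
  have zn4 : ι (n 4) = 0 := by
    have q := top (n 4) (by linear_combination (e) * hN - (c * d * e + b * e ^ 2 + a * d * e) * zm0 - (a * c * d * e + a * b * e ^ 2 + a ^ 2 * d * e) * zm1 - (b * c * d * e + b ^ 2 * e ^ 2 + a * b * d * e) * zm2 - (c ^ 2 * d * e + b * c * e ^ 2 + a * c * d * e) * zm3 - (c * d ^ 2 * e + b * d * e ^ 2 + a * d ^ 2 * e) * zm4 - (c * d * e ^ 2 + b * e ^ 3 + a * d * e ^ 2) * zm5 - (a * c * e + a * b * e) * zn0 - (a * b * c * e + a * b ^ 2 * e) * zn1 - (a * c * d * e + a * b * d * e) * zn2 - (a * c * e ^ 2 + a * b * e ^ 2) *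 zn3 - (ι (m 6) * a * c * e + ι (m 7) * a * c * e) * hd - (ι (m 6) * a * b * d + ι (m 7) * b * c * d + ι (n 5) * a * b * c + ι (n 6) * a * c * d + ι (n 6) * a * b * d + ι (n 7) * a * b * c * d) * he - (ι (m 6) * d ^ 2 * e) * ha - (ι (m 7) * d ^ 2 * e) * hc - (ι (n 4) * a * d * e + ι (n 5) * a * e ^ 2 + ι (n 7) * a * d * e ^ 2) * hb)
    rw [q, map_zero]
  have zn5 : ι (n 5) = 0 := by
    have q := top (n 5) (by linear_combination (d) * hN - (c * d ^ 2 + b * d * e + a * d ^ 2) * zm0 - (a * c * d ^ 2 + a * b * d * e + a ^ 2 * d ^ 2) * zm1 - (b * c * d ^ 2 + b ^ 2 * d * e + a * b * d ^ 2) * zm2 - (c ^ 2 * d ^ 2 + b * c * d * e + a * c * d ^ 2) * zm3 - (c * d ^ 3 + b * d ^ 2 * e + a * d ^ 3) * zm4 - (c * d ^ 2 * e + b * d * e ^ 2 + a * d ^ 2 * e) * zm5 - (a * c * d + a * b * d) * zn0 - (a * b * c * d + a * b ^ 2 * d) * zn1 - (a * c * d ^ 2 + a * b * d ^ 2) * zn2 - (a * c * d * e + a *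 b * d * e) * zn3 - (a * b * c * d ^ 2 + a * b ^ 2 * d ^ 2) * zn4 - (ι (m 6) * a * c * d + ι (m 6) * a * b * e + ι (m 7) * b * c * e + ι (m 7) * a * c * d + ι (n 6) * a * c * e + ι (n 6) * a * b * e + ι (n 7) * a * b * c * e) * hd - (ι (m 6) * d ^ 3) * ha - (ι (m 7) * d ^ 3) * hc - (ι (n 5) * a * d * e + ι (n 7) * a * d ^ 2 * e) * hb)
    rw [q, map_zero]
  have zn6 : ι (n 6) = 0 := by
    have q := top (n 6) (by linear_combination (b) * hN - (b * c * d + b ^ 2 * e + a * b * d) * zm0 - (a * b * c * d + a * b ^ 2 * e + a ^ 2 * b * d) * zm1 - (b ^ 2 * c * d + b ^ 3 * e + a * b ^ 2 * d) * zm2 - (b * c ^ 2 * d + b ^ 2 * c * e + a * b * c * d) * zm3 - (b * c * d ^ 2 + b ^ 2 * d * e + a * b * d ^ 2) * zm4 - (b * c * d * e + b ^ 2 * e ^ 2 + a * b * d * e) * zm5 - (a * b * c + a * b ^ 2) * zn0 - (a * b ^ 2 * c + a * b ^ 3) * zn1 - (a * b * c * d + a * b ^ 2 * d) * zn2 - (a * b * c * e + a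 * b ^ 2 * e) * zn3 - (a * b ^ 2 * c * d + a * b ^ 3 * d) * zn4 - (a * b ^ 2 * c * e + a * b ^ 3 * e) * zn5 - (ι (m 6) * a * b * c + ι (m 7) * a * b * c) * hd - (ι (m 6) * a * d * e + ι (m 7) * c * d * e + ι (n 6) * a * d * e + ι (n 7) * a * c * d * e + ι (n 7) * a * b * d * e) * hb - (ι (m 6) * b * d ^ 2) * ha - (ι (m 7) * b * d ^ 2) * hc)
    rw [q, map_zero]
  have zm6 : ι (m 6) = 0 := by
    have q := top (m 6) (by linear_combination (c) * hN - (c ^ 2 * d + b * c * e + a * c * d) * zm0 - (a * c ^ 2 * d + a * b * c * e + a ^ 2 * c * d) * zm1 - (b * c ^ 2 * d + b ^ 2 * c * e + a * b * c * d) * zm2 - (c ^ 3 * d + b * c ^ 2 * e + a * c ^ 2 * d) * zm3 - (c ^ 2 * d ^ 2 + b * c * d * e + a * c * d ^ 2) * zm4 - (c ^ 2 * d * e + b * c * e ^ 2 + a * c * d * e) * zm5 - (a * c ^ 2 + a * b * c) * zn0 - (a * b * c ^ 2 + a * b ^ 2 * c) * zn1 - (a * c ^ 2 * d + a * b * c * d) * zn2 - (a * c ^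 2 * e + a * b * c * e) * zn3 - (a * b * c ^ 2 * d + a * b ^ 2 * c * d) * zn4 - (a * b * c ^ 2 * e + a * b ^ 2 * c * e) * zn5 - (a * c ^ 2 * d * e + a * b * c * d * e) * zn6 - (ι (m 6) * a * d ^ 2 + ι (m 7) * c * d ^ 2 + ι (m 7) * b * d * e + ι (m 7) * a * d ^ 2 + ι (n 7) * a * b * d * e) * hc - (ι (m 6) * c * d ^ 2) * ha - (ι (n 7) * a * c * d * e) * hb)
    rw [q, map_zero]
  have zm7 : ι (m 7) = 0 := by
    have q := top (m 7) (by linear_combination (a) * hN - (a * c * d + a * b * e + a ^ 2 * d) * zm0 - (a ^ 2 * c * d + a ^ 2 * b * e + a ^ 3 * d) * zm1 - (a * b * c * d + a * b ^ 2 * e + a ^ 2 * b * d) * zm2 - (a * c ^ 2 * d + a * b * c * e + a ^ 2 * c * d) * zm3 - (a * c * d ^ 2 + a * b * d * e + a ^ 2 * d ^ 2) * zm4 - (a * c * d * e + a * b * e ^ 2 + a ^ 2 * d * e) * zm5 - (a ^ 2 * c * d ^ 2 + a ^ 2 * b * d * e + a ^ 3 * d ^ 2) * zm6 - (a ^ 2 * c + a ^ 2 * b) * zn0 - (a ^ 2 *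 b * c + a ^ 2 * b ^ 2) * zn1 - (a ^ 2 * c * d + a ^ 2 * b * d) * zn2 - (a ^ 2 * c * e + a ^ 2 * b * e) * zn3 - (a ^ 2 * b * c * d + a ^ 2 * b ^ 2 * d) * zn4 - (a ^ 2 * b * c * e + a ^ 2 * b ^ 2 * e) * zn5 - (a ^ 2 * c * d * e + a ^ 2 * b * d * e) * zn6 - (ι (m 7) * a * d ^ 2) * hc - (ι (m 7) * c * d ^ 2 + ι (n 7) * b * c * d * e + ι (n 7) * b ^ 2 * d * e) * ha)
    rw [q, map_zero]
  have zn7 : ι (n 7) = 0 := by
    have q := top (n 7) (by linear_combination (1) * hN - (c * d + b * e + a * d) * zm0 - (a * c * d + a * b * e + a ^ 2 * d) * zm1 - (b * c * d + b ^ 2 * e + a * b * d) * zm2 - (c ^ 2 * d + b * c * e + a * c * d) * zm3 - (c * d ^ 2 + b * d * e + a * d ^ 2) * zm4 - (c * d * e + b * e ^ 2 + a * d * e) * zm5 - (a * c * d ^ 2 + a * b * d * e + a ^ 2 * d ^ 2) * zm6 - (c ^ 2 * d ^ 2 + b * c * d * e + a * c * d ^ 2) * zm7 - (a * c + a * b) * zn0 - (a * b * c + a * b ^ 2) * zn1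 - (a * c * d + a * b * d) * zn2 - (a * c * e + a * b * e) * zn3 - (a * b * c * d + a * b ^ 2 * d) * zn4 - (a * b * c * e + a * b ^ 2 * e) * zn5 - (a * c * d * e + a * b * d * e) * zn6 - (ι (n 7) * a * d * e) * hb)
    rw [q, map_zero]
  constructor
  · rw [zn0, zn1, zn2, zn3, zn4, zn5, zn6, zn7]
    ring
  · rw [zm0, zm1, zm2, zm3, zm4, zm5, zm6, zm7]
    ring

/-- The ten relations generate all relations, in a ring generated by five elements of square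
zero whose product is not torsion. -/
lemma ker5 {x : Fin 5 → A} (hx : ∀ i, x i ^ 2 = 0)
    (dec : ∀ f : A, ∃ (α : ZMod 7) (g : Fin 5 → A), f = ι α + ∑ i, x i * g i)
    (top : ∀ t : ZMod 7, ι t * (x 0 * x 1 * x 2 * x 3 * x 4) = 0 → t = 0) (w : Fin 2 → A)
    (hw : ∑ k, w k * g5 x k = 0) :
    ∃ s : Fin 10 → A, ∀ k, w k = ∑ j, s j * r5 x j k := by
  have hP : P ι (x 0) (x 1) (x 2) (x 3) (x 4) (w 0) (w 1) := by
    refine P_all (hx 0) (hx 1) (hx 2) (hx 3) (hx 4) ?_ (w 0) (w 1)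
    intro f
    obtain ⟨α, g, hf⟩ := dec f
    refine ⟨α, g 0, g 1, g 2, g 3, g 4, ?_⟩
    rw [hf, Fin.sum_univ_five]
    ring
  obtain ⟨s, n, m, e0, e1⟩ := hP
  have hr0 : RA (x 0) (x 1) (x 2) (x 3) (x 4) s = ∑ j, s j * r5 x j 0 := by
    simp [RA, r5, Fin.sum_univ_succ]
    ring
  have hr1 : RB (x 0) (x 1) (x 2) (x 3) (x 4) s = ∑ j, s j * r5 x j 1 := by
    simp [RB, r5, Fin.sum_univ_succ]
    ring
  rw [Fin.sum_univ_two] at hw
  have hg0 : g5 x 0 = x 0 * x 1 + x 0 * x 2 := rfl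
  have hg1 : g5 x 1 = x 0 * x 3 + x 1 * x 4 + x 2 * x 3 := rfl
  rw [e0, e1, hg0, hg1] at hw
  have hN := N_zero (hx 0) (hx 1) (hx 2) (hx 3) (hx 4) top n m (by
    unfold RA RB at hw
    linear_combination hw
      - (s 0 * (x 1 + x 2) + s 2 * (x 1 * x 3) + s 6 * (x 3 * x 4 + x 3 ^ 2)
          + s 7 * (x 3 * x 4)) * hx 0
      - (s 1 * x 0 + s 2 * (x 0 * x 4 - x 0 * x 3) + s 3 * (x 2 * x 4 - x 0 * x 3)
          + s 4 * (x 3 * x 4)) * hx 1
      - (-(s 1 * x 0) + s 3 * (x 1 * x 3) - s 7 * (x 3 * x 4)) * hx 2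
      - (s 4 * (x 0 * x 1 + x 1 * x 2) + s 5 * (x 0 * x 4 + x 2 * x 4) + s 6 * (x 0 * x 2)
          + s 8 * (-(x 0 ^ 2) - 2 * (x 0 * x 2) - x 2 ^ 2)) * hx 3
      - (s 5 * (x 1 * x 3) + s 6 * (x 0 * x 1) + s 7 * (x 0 * x 1 - x 1 * x 2)
          + s 8 * x 1 ^ 2) * hx 4)
  refine ⟨s, fun k => ?_⟩
  fin_cases k
  · change w 0 = _
    rw [e0, hN.1, add_zero]
    exact hr0
  · change w 1 = _
    rw [e1, hN.2, add_zero]
    exact hr1

end Pool.Agent.LCB.B5KAux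

namespace Pool.Agent.LCB

open Pool.Agent.Helper40.Licci MvPolynomial B5KAux

lemma b5k_X_mem {c : ℕ} (v : Fin c) : (X v : PP c) ^ bx 5 v ∈ bA 5 c :=
  Ideal.subset_span ⟨v, rfl⟩

lemma b5k_sq {c : ℕ} (hc : 5 ≤ c) (i : Fin 5) :
    (Ideal.Quotient.mk (bA 5 c) (xP hc i)) ^ 2 = 0 := by
  rw [← map_pow, Ideal.Quotient.eq_zero_iff_mem]
  have h := b5k_X_mem (Fin.castLE hc i)
  have h2 : bx 5 (Fin.castLE hc i) = 2 := if_pos i.2
  rw [h2] at h
  exact h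

lemma b5k_dec {c : ℕ} (hc : 5 ≤ c) (f : PP c ⧸ bA 5 c) :
    ∃ (α : ZMod 7) (g : Fin 5 → PP c ⧸ bA 5 c),
      f = ((Ideal.Quotient.mk (bA 5 c)).comp C) α
        + ∑ i, Ideal.Quotient.mk (bA 5 c) (xP hc i) * g i := by
  obtain ⟨u, rfl⟩ := Ideal.Quotient.mk_surjective f
  induction u using MvPolynomial.induction_on with
  | C a => exact ⟨a, 0, by simp⟩
  | add p q hp hq =>
    obtain ⟨α, g, h1⟩ := hp
    obtain ⟨β, g', h2⟩ := hq
    refine ⟨α + β, g + g', ?_⟩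
    rw [map_add, h1, h2]
    simp only [map_add, Pi.add_apply, mul_add, Finset.sum_add_distrib]
    ring
  | mul_X p v _ =>
    by_cases hv : v.val < 5
    · refine ⟨0, Pi.single ⟨v.val, hv⟩ (Ideal.Quotient.mk (bA 5 c) p), ?_⟩
      rw [map_zero, zero_add, Finset.sum_eq_single ⟨v.val, hv⟩]
      · rw [Pi.single_eq_same, map_mul, mul_comm]
        rfl
      · intro b _ hb
        rw [Pi.single_eq_of_ne hb, mul_zero]
      · intro h
        exact absurd (Finset.mem_univ _) h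
    · refine ⟨0, 0, ?_⟩
      have h := b5k_X_mem v
      have h2 : bx 5 v = 1 := if_neg hv
      rw [h2, pow_one] at h
      rw [map_mul, Ideal.Quotient.eq_zero_iff_mem.mpr h]
      simp

lemma b5k_top {c : ℕ} (hc : 5 ≤ c) (t : ZMod 7)
    (h : C t * (xP hc 0 * xP hc 1 * xP hc 2 * xP hc 3 * xP hc 4) ∈ bA 5 c) : t = 0 := by
  by_contra ht
  have h0 : bA 5 c = Ideal.span ((fun v : Fin c => (X v ^ bx 5 v : PP c)) '' Set.univ) := by
    rw [Set.image_univ]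
    rfl
  rw [h0, mem_pow_iff] at h
  set m : Fin c →₀ ℕ := Finsupp.single (Fin.castLE hc 0) 1 + Finsupp.single (Fin.castLE hc 1) 1
    + Finsupp.single (Fin.castLE hc 2) 1 + Finsupp.single (Fin.castLE hc 3) 1
    + Finsupp.single (Fin.castLE hc 4) 1 with hm
  have h1 : C t * (xP hc 0 * xP hc 1 * xP hc 2 * xP hc 3 * xP hc 4) = monomial m t := by
    rw [hm]
    simp only [xP, X, monomial_mul, C_mul_monomial, mul_one]
  rw [h1] at h
  obtain ⟨v, -, hv⟩ := h m (by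
    rw [mem_support_iff, coeff_monomial, if_pos rfl]
    exact ht)
  have h2 : ∀ i : Fin 5, (Finsupp.single (Fin.castLE hc i) 1 : Fin c →₀ ℕ) v
      = if v.val = i.val then 1 else 0 := by
    intro i
    rw [Finsupp.single_apply]
    by_cases hvi : v.val = i.val
    · rw [if_pos hvi, if_pos (Fin.ext hvi.symm)]
    · rw [if_neg hvi, if_neg (fun h => hvi (congrArg Fin.val h).symm)]
  simp only [hm, Finsupp.add_apply, h2] at hv
  unfold bx at hv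
  have e0 : ((0 : Fin 5) : ℕ) = 0 := rfl
  have e1 : ((1 : Fin 5) : ℕ) = 1 := rfl
  have e2 : ((2 : Fin 5) : ℕ) = 2 := rfl
  have e3 : ((3 : Fin 5) : ℕ) = 3 := rfl
  have e4 : ((4 : Fin 5) : ℕ) = 4 := rfl
  rw [e0, e1, e2, e3, e4] at hv
  split_ifs at hv <;> omega

/-- The ten relations generate all relations modulo the squares. -/
theorem B5K : St_B5K := by
  intro c hc w hw
  set π := Ideal.Quotient.mk (bA 5 c) with hπ
  set x : Fin 5 → PP c ⧸ bA 5 c := fun i => π (xP hc i) with hx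
  have hg : ∀ k, π (g5 (xP hc) k) = g5 x k := by
    intro k
    fin_cases k <;> simp [g5, hx]
  have hr : ∀ j k, π (r5 (xP hc) j k) = r5 x j k := by
    intro j k
    fin_cases j <;> fin_cases k <;> simp [r5, hx]
  have h1 : ∑ k, π (w k) * g5 x k = 0 := by
    rw [← Ideal.Quotient.eq_zero_iff_mem, map_sum] at hw
    rw [← hw]
    refine Finset.sum_congr rfl fun k _ => ?_
    rw [map_mul, hg]
  obtain ⟨s, hs⟩ := ker5 (ι := π.comp C) (x := x) (b5k_sq hc) (b5k_dec hc) (fun t ht => by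
    refine b5k_top hc t ?_
    rw [← Ideal.Quotient.eq_zero_iff_mem]
    simpa [hx] using ht) (fun k => π (w k)) h1
  choose s' hs' using fun j => Ideal.Quotient.mk_surjective (s j)
  refine ⟨s', fun k => ?_⟩
  rw [← Ideal.Quotient.eq_zero_iff_mem, map_sub, map_sum, sub_eq_zero]
  refine (hs k).trans (Finset.sum_congr rfl fun j _ => ?_)
  rw [map_mul, hr, hs' j]

end Pool.Agent.LCB
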