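import Mathlib
import Pool.Agent.LCB.BSt

/-!
Module B5Q: the quadrics of the example of type `(5, 2, 2)` are squarefree and linearly independent.
-/

namespace Pool.Agent.LCB

open Pool.Agent.Helper40.Licci RingTheory.Sequence IsLocalRing MvPolynomial

private lemma B5Q_mul {n c : ℕ} (hn : n ≤ c) (i j : Fin n) (hij : i ≠ j) : SQ n (xP hn i * xP hn j) := by
  refine Submodule.subset_span ⟨Fin.castLE hn i, Fin.castLE hn j, ?_, i.2, j.2, rfl⟩
  intro h
  exact hij (Fin.castLE_injective hn h)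

private lemma B5Q_add {n c : ℕ} {f g : PP c} (hf : SQ n f) (hg : SQ n g) : SQ n (f + g) :=
  Submodule.add_mem _ hf hg

private lemma B5Q_sub {n c : ℕ} {f g : PP c} (hf : SQ n f) (hg : SQ n g) : SQ n (f - g) :=
  Submodule.sub_mem _ hf hg

/-- the point with value `1` at the two places `a, b` -/
private def B5Q_p {c : ℕ} (a b : Fin 5) (v : Fin c) : ZMod 7 :=
  if v.val = a.val ∨ v.val = b.val then 1 else 0

private lemma B5Q_ev {c : ℕ} (hc : 5 ≤ c) (a b i : Fin 5) :
    MvPolynomial.eval (B5Q_p a b) (xP hc i) = if i = a ∨ i = b then 1 else 0 := by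
  unfold xP
  rw [eval_X]
  simp only [B5Q_p, Fin.val_castLE, Fin.val_inj]

private lemma B5Q_g {c : ℕ} (f : Fin 2 → PP c) (p q : Fin c → ZMod 7)
    (h1 : MvPolynomial.eval p (f 0) = 1) (h2 : MvPolynomial.eval p (f 1) = 0)
    (h3 : MvPolynomial.eval q (f 0) = 0) (h4 : MvPolynomial.eval q (f 1) = 1) :
    LinearIndependent (ZMod 7) f := by
  rw [Fintype.linearIndependent_iff]
  intro v hv
  rw [Fin.sum_univ_two] at hv
  have e1 := congrArg (MvPolynomial.eval p) hv
  have e2 := congrArg (MvPolynomial.eval q) hv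
  simp only [map_add, MvPolynomial.smul_eval, map_zero, h1, h2, h3, h4, mul_one, mul_zero, add_zero,
    zero_add] at e1 e2
  intro i
  fin_cases i
  · exact e1
  · exact e2

theorem B5Q : St_B5Q := by
  intro c hc
  have hm : ∀ i j : Fin 5, i ≠ j → SQ 5 (xP hc i * xP hc j) := fun i j hij => B5Q_mul hc i j hij
  refine ⟨?_, ?_, ?_, ?_⟩
  · intro k
    fin_cases k
    · exact B5Q_add (hm 0 1 (by decide)) (hm 0 2 (by decide))
    · exact B5Q_add (B5Q_add (hm 0 3 (by decide)) (hm 1 4 (by decide))) (hm 2 3 (by decide))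
  · intro k
    fin_cases k
    · exact B5Q_sub (hm 1 2 (by decide)) (hm 0 1 (by decide))
    · exact B5Q_sub (B5Q_sub (B5Q_add (B5Q_sub (B5Q_add (hm 0 3 (by decide)) (hm 2 3 (by decide)))
        (hm 1 3 (by decide))) (hm 2 4 (by decide))) (hm 0 4 (by decide))) (hm 1 4 (by decide))
  · refine B5Q_g _ (B5Q_p 0 1) (B5Q_p 0 3) ?_ ?_ ?_ ?_
    · change MvPolynomial.eval _ (xP hc 0 * xP hc 1 + xP hc 0 * xP hc 2) = _
      simp only [map_add, map_mul, B5Q_ev]
      decide
    · change MvPolynomial.eval _ (xP hc 0 * xP hc 3 + xP hc 1 * xP hc 4 + xP hc 2 * xP hc 3) = _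
      simp only [map_add, map_mul, B5Q_ev]
      decide
    · change MvPolynomial.eval _ (xP hc 0 * xP hc 1 + xP hc 0 * xP hc 2) = _
      simp only [map_add, map_mul, B5Q_ev]
      decide
    · change MvPolynomial.eval _ (xP hc 0 * xP hc 3 + xP hc 1 * xP hc 4 + xP hc 2 * xP hc 3) = _
      simp only [map_add, map_mul, B5Q_ev]
      decide
  · refine B5Q_g _ (B5Q_p 1 2) (B5Q_p 0 3) ?_ ?_ ?_ ?_
    · change MvPolynomial.eval _ (xP hc 1 * xP hc 2 - xP hc 0 * xP hc 1) = _
      simp only [map_sub, map_mul, B5Q_ev]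
      decide
    · change MvPolynomial.eval _ (xP hc 0 * xP hc 3 + xP hc 2 * xP hc 3 - xP hc 1 * xP hc 3 +
        xP hc 2 * xP hc 4 - xP hc 0 * xP hc 4 - xP hc 1 * xP hc 4) = _
      simp only [map_sub, map_add, map_mul, B5Q_ev]
      decide
    · change MvPolynomial.eval _ (xP hc 1 * xP hc 2 - xP hc 0 * xP hc 1) = _
      simp only [map_sub, map_mul, B5Q_ev]
      decide
    · change MvPolynomial.eval _ (xP hc 0 * xP hc 3 + xP hc 2 * xP hc 3 - xP hc 1 * xP hc 3 +
        xP hc 2 * xP hc 4 - xP hc 0 * xP hc 4 - xP hc 1 * xP hc 4) = _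
      simp only [map_sub, map_add, map_mul, B5Q_ev]
      decide

end Pool.Agent.LCB
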