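import Mathlib
import Pool.Agent.LCB.BSt

/-!
Ten relations and fifteen vectors of linear forms which annihilate the columns of the relation
matrix, for the example of type `(5, 2, 2)`.
-/

namespace Pool.Agent.LCB

open Pool.Agent.Helper40.Licci RingTheory.Sequence IsLocalRing MvPolynomial

private lemma B5R_mem {A : Type} [CommRing A] (x : Fin 5 → A) (K : Ideal A)
    (hs : ∀ i, x i ^ 2 ∈ K) (hg : ∀ k, g5 x k ∈ K) (p a0 a1 a2 a3 a4 b0 b1 : A)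
    (hp : p = a0 * x 0 ^ 2 + a1 * x 1 ^ 2 + a2 * x 2 ^ 2 + a3 * x 3 ^ 2 + a4 * x 4 ^ 2 +
      b0 * (x 0 * x 1 + x 0 * x 2) + b1 * (x 0 * x 3 + x 1 * x 4 + x 2 * x 3)) : p ∈ K := by
  rw [hp]
  have h0 : x 0 * x 1 + x 0 * x 2 ∈ K := hg 0
  have h1 : x 0 * x 3 + x 1 * x 4 + x 2 * x 3 ∈ K := hg 1
  exact K.add_mem (K.add_mem (K.add_mem (K.add_mem (K.add_mem (K.add_mem
    (K.mul_mem_left _ (hs 0)) (K.mul_mem_left _ (hs 1))) (K.mul_mem_left _ (hs 2)))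
    (K.mul_mem_left _ (hs 3))) (K.mul_mem_left _ (hs 4))) (K.mul_mem_left _ h0))
    (K.mul_mem_left _ h1)

/-- The vectors of linear forms. -/
private def B5R_lin {A : Type} [CommRing A] (x : Fin 5 → A) (s : Fin 15) (k : Fin 7) : A :=
  ∑ i, (z5 s k i : A) * x i

private lemma B5R_l0 {A : Type} [CommRing A] (x : Fin 5 → A) :
    B5R_lin x 0 = ![x 0 - x 1 + x 2, 0, 0, 0, 0, 0, 0] := by
  funext k
  fin_cases k <;> simp [B5R_lin, z5, Fin.sum_univ_succ]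
  ring

private lemma B5R_l1 {A : Type} [CommRing A] (x : Fin 5 → A) :
    B5R_lin x 1 = ![0, x 0 + x 1 + x 2, 0, 0, 0, 0, 0] := by
  funext k
  fin_cases k <;> simp [B5R_lin, z5, Fin.sum_univ_succ]
  ring

private lemma B5R_l2 {A : Type} [CommRing A] (x : Fin 5 → A) :
    B5R_lin x 2 = ![0, x 1, x 1, 0, 0, 0, 0] := by
  funext k
  fin_cases k <;> simp [B5R_lin, z5, Fin.sum_univ_succ]

private lemma B5R_l3 {A : Type} [CommRing A] (x : Fin 5 → A) :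
    B5R_lin x 3 = ![0, -x 1, x 0 + x 2, 0, 0, 0, 0] := by
  funext k
  fin_cases k <;> simp [B5R_lin, z5, Fin.sum_univ_succ]

private lemma B5R_l4 {A : Type} [CommRing A] (x : Fin 5 → A) :
    B5R_lin x 4 = ![0, 0, 0, 2 * x 0 + x 1, 0, 0, 0] := by
  funext k
  fin_cases k <;> simp [B5R_lin, z5, Fin.sum_univ_succ]

private lemma B5R_l5 {A : Type} [CommRing A] (x : Fin 5 → A) :
    B5R_lin x 5 = ![0, 0, 0, -x 0 + x 2, 0, 0, 0] := by
  funext k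
  fin_cases k <;> simp [B5R_lin, z5, Fin.sum_univ_succ]

private lemma B5R_l6 {A : Type} [CommRing A] (x : Fin 5 → A) :
    B5R_lin x 6 = ![0, 0, 0, x 0, x 0, 0, 0] := by
  funext k
  fin_cases k <;> simp [B5R_lin, z5, Fin.sum_univ_succ]

private lemma B5R_l7 {A : Type} [CommRing A] (x : Fin 5 → A) :
    B5R_lin x 7 = ![0, 0, 0, 0, x 1, 0, 0] := by
  funext k
  fin_cases k <;> simp [B5R_lin, z5, Fin.sum_univ_succ]

private lemma B5R_l8 {A : Type} [CommRing A] (x : Fin 5 → A) :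
    B5R_lin x 8 = ![0, 0, 0, -x 0, x 2, 0, 0] := by
  funext k
  fin_cases k <;> simp [B5R_lin, z5, Fin.sum_univ_succ]

private lemma B5R_l9 {A : Type} [CommRing A] (x : Fin 5 → A) :
    B5R_lin x 9 = ![-x 0, 2 * x 1, -x 0, 0, 0, x 0, 0] := by
  funext k
  fin_cases k <;> simp [B5R_lin, z5, Fin.sum_univ_succ]

private lemma B5R_l10 {A : Type} [CommRing A] (x : Fin 5 → A) :
    B5R_lin x 10 = ![x 0, 0, x 0, 0, 0, x 1 + x 2, 0] := by
  funext k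
  fin_cases k <;> simp [B5R_lin, z5, Fin.sum_univ_succ]

private lemma B5R_l11 {A : Type} [CommRing A] (x : Fin 5 → A) :
    B5R_lin x 11 = ![0, 0, 0, 0, 2 * x 4, 0, x 1] := by
  funext k
  fin_cases k <;> simp [B5R_lin, z5, Fin.sum_univ_succ]

private lemma B5R_l12 {A : Type} [CommRing A] (x : Fin 5 → A) :
    B5R_lin x 12 = ![0, 0, 0, 2 * x 3, 0, 0, x 0 + x 2] := by
  funext k
  fin_cases k <;> simp [B5R_lin, z5, Fin.sum_univ_succ]

private lemma B5R_l13 {A : Type} [CommRing A] (x : Fin 5 → A) :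
    B5R_lin x 13 = ![x 0, 0, -x 0, 0, 0, 0, x 3] := by
  funext k
  fin_cases k <;> simp [B5R_lin, z5, Fin.sum_univ_succ]

private lemma B5R_l14 {A : Type} [CommRing A] (x : Fin 5 → A) :
    B5R_lin x 14 = ![x 0, 0, x 0, 0, 0, 0, x 4] := by
  funext k
  fin_cases k <;> simp [B5R_lin, z5, Fin.sum_univ_succ]

private lemma B5R_s0 {A : Type} [CommRing A] (x : Fin 5 → A) (K : Ideal A)
    (hs : ∀ i, x i ^ 2 ∈ K) (hg : ∀ k, g5 x k ∈ K) (j : Fin 10) :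
    ∑ k, c5 x j k * B5R_lin x 0 k ∈ K := by
  rw [B5R_l0, Fin.sum_univ_seven]
  fin_cases j
  · exact B5R_mem x K hs hg _ 0 (1) (-1) 0 0 (-1) 0
      (by simp [c5, v5, r5]; try ring)
  · exact B5R_mem x K hs hg _ 0 0 0 0 0 0 0
      (by simp [c5, v5, r5]; try ring)
  · exact B5R_mem x K hs hg _ 0 (x 3 + x 4) 0 0 0 0 (-x 1)
      (by simp [c5, v5, r5]; try ring)
  · exact B5R_mem x K hs hg _ 0 0 0 0 0 0 0
      (by simp [c5, v5, r5]; try ring)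
  · exact B5R_mem x K hs hg _ 0 0 0 0 0 0 0
      (by simp [c5, v5, r5]; try ring)
  · exact B5R_mem x K hs hg _ 0 0 0 0 0 0 0
      (by simp [c5, v5, r5]; try ring)
  · exact B5R_mem x K hs hg _ 0 0 0 (-2 * x 0 + x 1 - 2 * x 2) (x 1) 0 (x 3 - x 4)
      (by simp [c5, v5, r5]; try ring)
  · exact B5R_mem x K hs hg _ 0 0 0 (-x 0 - x 2) (x 1) 0 (x 3 - x 4)
      (by simp [c5, v5, r5]; try ring)
  · exact B5R_mem x K hs hg _ 0 0 0 0 0 0 0
      (by simp [c5, v5, r5]; try ring)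
  · exact B5R_mem x K hs hg _ 0 0 0 0 0 0 0
      (by simp [c5, v5, r5]; try ring)

private lemma B5R_s1 {A : Type} [CommRing A] (x : Fin 5 → A) (K : Ideal A)
    (hs : ∀ i, x i ^ 2 ∈ K) (hg : ∀ k, g5 x k ∈ K) (j : Fin 10) :
    ∑ k, c5 x j k * B5R_lin x 1 k ∈ K := by
  rw [B5R_l1, Fin.sum_univ_seven]
  fin_cases j
  · exact B5R_mem x K hs hg _ 0 0 0 0 0 0 0
      (by simp [c5, v5, r5]; try ring)
  · exact B5R_mem x K hs hg _ (-1) 0 0 0 0 (-1) 0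
      (by simp [c5, v5, r5]; try ring)
  · exact B5R_mem x K hs hg _ (x 3 - x 4) 0 0 0 0 (x 3 - x 4) 0
      (by simp [c5, v5, r5]; try ring)
  · exact B5R_mem x K hs hg _ 0 0 (x 3 - x 4) 0 0 (x 3 - x 4) (x 0 - x 2)
      (by simp [c5, v5, r5]; try ring)
  · exact B5R_mem x K hs hg _ 0 0 0 (x 0 + x 2) (x 1) 0 (-x 3 - x 4)
      (by simp [c5, v5, r5]; try ring)
  · exact B5R_mem x K hs hg _ 0 0 0 0 0 0 0
      (by simp [c5, v5, r5]; try ring)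
  · exact B5R_mem x K hs hg _ 0 0 0 0 0 0 0
      (by simp [c5, v5, r5]; try ring)
  · exact B5R_mem x K hs hg _ 0 0 0 0 0 0 0
      (by simp [c5, v5, r5]; try ring)
  · exact B5R_mem x K hs hg _ 0 0 0 0 0 0 0
      (by simp [c5, v5, r5]; try ring)
  · exact B5R_mem x K hs hg _ 0 0 0 0 0 0 0
      (by simp [c5, v5, r5]; try ring)

private lemma B5R_s2 {A : Type} [CommRing A] (x : Fin 5 → A) (K : Ideal A)
    (hs : ∀ i, x i ^ 2 ∈ K) (hg : ∀ k, g5 x k ∈ K) (j : Fin 10) :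
    ∑ k, c5 x j k * B5R_lin x 2 k ∈ K := by
  rw [B5R_l2, Fin.sum_univ_seven]
  fin_cases j
  · exact B5R_mem x K hs hg _ 0 0 0 0 0 0 0
      (by simp [c5, v5, r5]; try ring)
  · exact B5R_mem x K hs hg _ 0 0 0 0 0 0 0
      (by simp [c5, v5, r5]; try ring)
  · exact B5R_mem x K hs hg _ (x 3) 0 0 0 0 (x 3) (-x 0)
      (by simp [c5, v5, r5]; try ring)
  · exact B5R_mem x K hs hg _ 0 (-x 3) (x 3) 0 0 (x 3) (-x 2)
      (by simp [c5, v5, r5]; try ring)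
  · exact B5R_mem x K hs hg _ 0 0 0 (x 0 + x 2) 0 0 (-x 3)
      (by simp [c5, v5, r5]; try ring)
  · exact B5R_mem x K hs hg _ 0 0 0 0 0 0 0
      (by simp [c5, v5, r5]; try ring)
  · exact B5R_mem x K hs hg _ 0 0 0 0 0 0 0
      (by simp [c5, v5, r5]; try ring)
  · exact B5R_mem x K hs hg _ 0 0 0 (-x 0 - x 2) 0 0 (x 3)
      (by simp [c5, v5, r5]; try ring)
  · exact B5R_mem x K hs hg _ 0 0 0 0 0 0 0
      (by simp [c5, v5, r5]; try ring)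
  · exact B5R_mem x K hs hg _ 0 0 0 0 0 0 0
      (by simp [c5, v5, r5]; try ring)

private lemma B5R_s3 {A : Type} [CommRing A] (x : Fin 5 → A) (K : Ideal A)
    (hs : ∀ i, x i ^ 2 ∈ K) (hg : ∀ k, g5 x k ∈ K) (j : Fin 10) :
    ∑ k, c5 x j k * B5R_lin x 3 k ∈ K := by
  rw [B5R_l3, Fin.sum_univ_seven]
  fin_cases j
  · exact B5R_mem x K hs hg _ 0 0 0 0 0 0 0
      (by simp [c5, v5, r5]; try ring)
  · exact B5R_mem x K hs hg _ (1) 0 0 0 0 (1) 0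
      (by simp [c5, v5, r5]; try ring)
  · exact B5R_mem x K hs hg _ (-x 3) 0 0 0 0 (-x 3) (x 0)
      (by simp [c5, v5, r5]; try ring)
  · exact B5R_mem x K hs hg _ 0 (x 4) (-x 3) 0 0 (-x 3) (-x 1 + x 2)
      (by simp [c5, v5, r5]; try ring)
  · exact B5R_mem x K hs hg _ 0 0 0 (-x 0 - x 2) 0 0 (x 3)
      (by simp [c5, v5, r5]; try ring)
  · exact B5R_mem x K hs hg _ 0 0 0 0 0 0 0
      (by simp [c5, v5, r5]; try ring)
  · exact B5R_mem x K hs hg _ 0 0 0 0 0 0 0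
      (by simp [c5, v5, r5]; try ring)
  · exact B5R_mem x K hs hg _ 0 0 0 0 (-x 1) 0 (x 4)
      (by simp [c5, v5, r5]; try ring)
  · exact B5R_mem x K hs hg _ 0 0 0 0 0 0 0
      (by simp [c5, v5, r5]; try ring)
  · exact B5R_mem x K hs hg _ 0 0 0 0 0 0 0
      (by simp [c5, v5, r5]; try ring)

private lemma B5R_s4 {A : Type} [CommRing A] (x : Fin 5 → A) (K : Ideal A)
    (hs : ∀ i, x i ^ 2 ∈ K) (hg : ∀ k, g5 x k ∈ K) (j : Fin 10) :
    ∑ k, c5 x j k * B5R_lin x 4 k ∈ K := by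
  rw [B5R_l4, Fin.sum_univ_seven]
  fin_cases j
  · exact B5R_mem x K hs hg _ 0 0 0 0 0 0 0
      (by simp [c5, v5, r5]; try ring)
  · exact B5R_mem x K hs hg _ 0 0 0 0 0 0 0
      (by simp [c5, v5, r5]; try ring)
  · exact B5R_mem x K hs hg _ 0 0 0 0 0 0 0
      (by simp [c5, v5, r5]; try ring)
  · exact B5R_mem x K hs hg _ 0 0 0 0 0 0 0
      (by simp [c5, v5, r5]; try ring)
  · exact B5R_mem x K hs hg _ (-2 * x 1) (x 0 - x 2) 0 0 0 (-2 * x 1) 0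
      (by simp [c5, v5, r5]; try ring)
  · exact B5R_mem x K hs hg _ (-x 3 - 2 * x 4) 0 (x 3) 0 0 (-2 * x 4) (x 0 - x 2)
      (by simp [c5, v5, r5]; try ring)
  · exact B5R_mem x K hs hg _ (-2 * x 2) (x 0) 0 0 0 (-x 1) 0
      (by simp [c5, v5, r5]; try ring)
  · exact B5R_mem x K hs hg _ 0 0 0 0 0 0 0
      (by simp [c5, v5, r5]; try ring)
  · exact B5R_mem x K hs hg _ (2 * x 0 + x 1 + 4 * x 2) (-2 * x 0) (2 * x 0 + x 1) 0 0 (2 * x 1) 0
      (by simp [c5, v5, r5]; try ring)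
  · exact B5R_mem x K hs hg _ 0 0 0 0 0 0 0
      (by simp [c5, v5, r5]; try ring)

private lemma B5R_s5 {A : Type} [CommRing A] (x : Fin 5 → A) (K : Ideal A)
    (hs : ∀ i, x i ^ 2 ∈ K) (hg : ∀ k, g5 x k ∈ K) (j : Fin 10) :
    ∑ k, c5 x j k * B5R_lin x 5 k ∈ K := by
  rw [B5R_l5, Fin.sum_univ_seven]
  fin_cases j
  · exact B5R_mem x K hs hg _ 0 0 0 0 0 0 0
      (by simp [c5, v5, r5]; try ring)
  · exact B5R_mem x K hs hg _ 0 0 0 0 0 0 0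
      (by simp [c5, v5, r5]; try ring)
  · exact B5R_mem x K hs hg _ 0 0 0 0 0 0 0
      (by simp [c5, v5, r5]; try ring)
  · exact B5R_mem x K hs hg _ 0 0 0 0 0 0 0
      (by simp [c5, v5, r5]; try ring)
  · exact B5R_mem x K hs hg _ (x 1) 0 (-x 1) 0 0 0 0
      (by simp [c5, v5, r5]; try ring)
  · exact B5R_mem x K hs hg _ (x 4) 0 (-x 4) 0 0 0 0
      (by simp [c5, v5, r5]; try ring)
  · exact B5R_mem x K hs hg _ (x 2) 0 (-x 0) 0 0 0 0
      (by simp [c5, v5, r5]; try ring)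
  · exact B5R_mem x K hs hg _ 0 0 0 0 0 0 0
      (by simp [c5, v5, r5]; try ring)
  · exact B5R_mem x K hs hg _ (-x 0 - x 2) 0 (x 0 + x 2) 0 0 0 0
      (by simp [c5, v5, r5]; try ring)
  · exact B5R_mem x K hs hg _ 0 0 0 0 0 0 0
      (by simp [c5, v5, r5]; try ring)

private lemma B5R_s6 {A : Type} [CommRing A] (x : Fin 5 → A) (K : Ideal A)
    (hs : ∀ i, x i ^ 2 ∈ K) (hg : ∀ k, g5 x k ∈ K) (j : Fin 10) :
    ∑ k, c5 x j k * B5R_lin x 6 k ∈ K := by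
  rw [B5R_l6, Fin.sum_univ_seven]
  fin_cases j
  · exact B5R_mem x K hs hg _ 0 0 0 0 0 0 0
      (by simp [c5, v5, r5]; try ring)
  · exact B5R_mem x K hs hg _ 0 0 0 0 0 0 0
      (by simp [c5, v5, r5]; try ring)
  · exact B5R_mem x K hs hg _ 0 0 0 0 0 0 0
      (by simp [c5, v5, r5]; try ring)
  · exact B5R_mem x K hs hg _ 0 0 0 0 0 0 0
      (by simp [c5, v5, r5]; try ring)
  · exact B5R_mem x K hs hg _ (-x 1) (x 0) 0 0 0 (-x 1) 0
      (by simp [c5, v5, r5]; try ring)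
  · exact B5R_mem x K hs hg _ (-x 3 - x 4) 0 0 0 0 (-x 3 - x 4) (x 0)
      (by simp [c5, v5, r5]; try ring)
  · exact B5R_mem x K hs hg _ (-x 1 - x 2) 0 0 0 0 0 0
      (by simp [c5, v5, r5]; try ring)
  · exact B5R_mem x K hs hg _ (-x 1) (-x 0) 0 0 0 (x 1) 0
      (by simp [c5, v5, r5]; try ring)
  · exact B5R_mem x K hs hg _ (x 0 + 2 * x 2) (-x 0) (x 0) 0 0 0 0
      (by simp [c5, v5, r5]; try ring)
  · exact B5R_mem x K hs hg _ 0 0 0 0 0 0 0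
      (by simp [c5, v5, r5]; try ring)

private lemma B5R_s7 {A : Type} [CommRing A] (x : Fin 5 → A) (K : Ideal A)
    (hs : ∀ i, x i ^ 2 ∈ K) (hg : ∀ k, g5 x k ∈ K) (j : Fin 10) :
    ∑ k, c5 x j k * B5R_lin x 7 k ∈ K := by
  rw [B5R_l7, Fin.sum_univ_seven]
  fin_cases j
  · exact B5R_mem x K hs hg _ 0 0 0 0 0 0 0
      (by simp [c5, v5, r5]; try ring)
  · exact B5R_mem x K hs hg _ 0 0 0 0 0 0 0
      (by simp [c5, v5, r5]; try ring)
  · exact B5R_mem x K hs hg _ 0 0 0 0 0 0 0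
      (by simp [c5, v5, r5]; try ring)
  · exact B5R_mem x K hs hg _ 0 0 0 0 0 0 0
      (by simp [c5, v5, r5]; try ring)
  · exact B5R_mem x K hs hg _ 0 0 0 0 0 0 0
      (by simp [c5, v5, r5]; try ring)
  · exact B5R_mem x K hs hg _ 0 (-x 3) 0 0 0 0 0
      (by simp [c5, v5, r5]; try ring)
  · exact B5R_mem x K hs hg _ 0 (-x 0) 0 0 0 0 0
      (by simp [c5, v5, r5]; try ring)
  · exact B5R_mem x K hs hg _ 0 (-x 0 + x 2) 0 0 0 0 0
      (by simp [c5, v5, r5]; try ring)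
  · exact B5R_mem x K hs hg _ 0 (-x 1) 0 0 0 0 0
      (by simp [c5, v5, r5]; try ring)
  · exact B5R_mem x K hs hg _ 0 0 0 0 0 0 0
      (by simp [c5, v5, r5]; try ring)

private lemma B5R_s8 {A : Type} [CommRing A] (x : Fin 5 → A) (K : Ideal A)
    (hs : ∀ i, x i ^ 2 ∈ K) (hg : ∀ k, g5 x k ∈ K) (j : Fin 10) :
    ∑ k, c5 x j k * B5R_lin x 8 k ∈ K := by
  rw [B5R_l8, Fin.sum_univ_seven]
  fin_cases j
  · exact B5R_mem x K hs hg _ 0 0 0 0 0 0 0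
      (by simp [c5, v5, r5]; try ring)
  · exact B5R_mem x K hs hg _ 0 0 0 0 0 0 0
      (by simp [c5, v5, r5]; try ring)
  · exact B5R_mem x K hs hg _ 0 0 0 0 0 0 0
      (by simp [c5, v5, r5]; try ring)
  · exact B5R_mem x K hs hg _ 0 0 0 0 0 0 0
      (by simp [c5, v5, r5]; try ring)
  · exact B5R_mem x K hs hg _ (x 1) (-x 0) 0 0 0 (x 1) 0
      (by simp [c5, v5, r5]; try ring)
  · exact B5R_mem x K hs hg _ (x 3 + x 4) (x 4) 0 0 0 (x 3 + x 4) (-x 0 - x 1)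
      (by simp [c5, v5, r5]; try ring)
  · exact B5R_mem x K hs hg _ (x 2) (x 0) 0 0 0 (-x 1) 0
      (by simp [c5, v5, r5]; try ring)
  · exact B5R_mem x K hs hg _ 0 (x 0) (x 1) 0 0 (-x 1) 0
      (by simp [c5, v5, r5]; try ring)
  · exact B5R_mem x K hs hg _ (-x 0 - 2 * x 2) (-x 2) (-x 0) 0 0 0 0
      (by simp [c5, v5, r5]; try ring)
  · exact B5R_mem x K hs hg _ 0 0 0 0 0 0 0
      (by simp [c5, v5, r5]; try ring)

private lemma B5R_s9 {A : Type} [CommRing A] (x : Fin 5 → A) (K : Ideal A)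
    (hs : ∀ i, x i ^ 2 ∈ K) (hg : ∀ k, g5 x k ∈ K) (j : Fin 10) :
    ∑ k, c5 x j k * B5R_lin x 9 k ∈ K := by
  rw [B5R_l9, Fin.sum_univ_seven]
  fin_cases j
  · exact B5R_mem x K hs hg _ (1) 0 0 0 0 (1) 0
      (by simp [c5, v5, r5]; try ring)
  · exact B5R_mem x K hs hg _ (-1) 0 0 0 0 (-1) 0
      (by simp [c5, v5, r5]; try ring)
  · exact B5R_mem x K hs hg _ (2 * x 3) 0 0 0 0 (2 * x 3) (-2 * x 0)
      (by simp [c5, v5, r5]; try ring)
  · exact B5R_mem x K hs hg _ 0 0 (2 * x 3) 0 0 (2 * x 3) (-2 * x 2)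
      (by simp [c5, v5, r5]; try ring)
  · exact B5R_mem x K hs hg _ 0 0 0 (2 * x 0 + 2 * x 2) 0 0 (-2 * x 3)
      (by simp [c5, v5, r5]; try ring)
  · exact B5R_mem x K hs hg _ 0 0 0 0 0 0 0
      (by simp [c5, v5, r5]; try ring)
  · exact B5R_mem x K hs hg _ 0 0 0 (x 0) 0 0 0
      (by simp [c5, v5, r5]; try ring)
  · exact B5R_mem x K hs hg _ 0 0 0 0 0 0 0
      (by simp [c5, v5, r5]; try ring)
  · exact B5R_mem x K hs hg _ 0 0 0 0 0 0 0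
      (by simp [c5, v5, r5]; try ring)
  · exact B5R_mem x K hs hg _ 0 0 0 0 0 0 (x 0)
      (by simp [c5, v5, r5]; try ring)

private lemma B5R_s10 {A : Type} [CommRing A] (x : Fin 5 → A) (K : Ideal A)
    (hs : ∀ i, x i ^ 2 ∈ K) (hg : ∀ k, g5 x k ∈ K) (j : Fin 10) :
    ∑ k, c5 x j k * B5R_lin x 10 k ∈ K := by
  rw [B5R_l10, Fin.sum_univ_seven]
  fin_cases j
  · exact B5R_mem x K hs hg _ 0 0 0 0 0 0 0
      (by simp [c5, v5, r5]; try ring)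
  · exact B5R_mem x K hs hg _ (1) (1) (-1) 0 0 0 0
      (by simp [c5, v5, r5]; try ring)
  · exact B5R_mem x K hs hg _ 0 (-x 3 + x 4) 0 0 0 0 (-x 1)
      (by simp [c5, v5, r5]; try ring)
  · exact B5R_mem x K hs hg _ 0 (-x 3 + x 4) 0 0 0 0 (-x 1)
      (by simp [c5, v5, r5]; try ring)
  · exact B5R_mem x K hs hg _ 0 0 0 0 0 0 0
      (by simp [c5, v5, r5]; try ring)
  · exact B5R_mem x K hs hg _ 0 0 0 0 0 0 0
      (by simp [c5, v5, r5]; try ring)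
  · exact B5R_mem x K hs hg _ 0 0 0 (x 2) (x 1) 0 (-x 3 - x 4)
      (by simp [c5, v5, r5]; try ring)
  · exact B5R_mem x K hs hg _ 0 0 0 0 0 0 0
      (by simp [c5, v5, r5]; try ring)
  · exact B5R_mem x K hs hg _ 0 0 0 0 0 0 0
      (by simp [c5, v5, r5]; try ring)
  · exact B5R_mem x K hs hg _ 0 0 0 0 0 0 (x 1 + x 2)
      (by simp [c5, v5, r5]; try ring)

private lemma B5R_s11 {A : Type} [CommRing A] (x : Fin 5 → A) (K : Ideal A)
    (hs : ∀ i, x i ^ 2 ∈ K) (hg : ∀ k, g5 x k ∈ K) (j : Fin 10) :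
    ∑ k, c5 x j k * B5R_lin x 11 k ∈ K := by
  rw [B5R_l11, Fin.sum_univ_seven]
  fin_cases j
  · exact B5R_mem x K hs hg _ 0 0 0 0 0 0 0
      (by simp [c5, v5, r5]; try ring)
  · exact B5R_mem x K hs hg _ 0 0 0 0 0 0 0
      (by simp [c5, v5, r5]; try ring)
  · exact B5R_mem x K hs hg _ 0 (x 0) 0 0 0 0 0
      (by simp [c5, v5, r5]; try ring)
  · exact B5R_mem x K hs hg _ 0 (x 2) 0 0 0 0 0
      (by simp [c5, v5, r5]; try ring)
  · exact B5R_mem x K hs hg _ 0 (x 3) 0 0 0 0 0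
      (by simp [c5, v5, r5]; try ring)
  · exact B5R_mem x K hs hg _ 0 0 0 (x 0 + x 2) 0 0 (-x 3)
      (by simp [c5, v5, r5]; try ring)
  · exact B5R_mem x K hs hg _ (x 3) 0 0 0 0 (x 3) (-x 0)
      (by simp [c5, v5, r5]; try ring)
  · exact B5R_mem x K hs hg _ (x 3) 0 (-x 3) 0 0 0 (-x 0 + x 2)
      (by simp [c5, v5, r5]; try ring)
  · exact B5R_mem x K hs hg _ 0 0 0 0 0 0 (-x 1)
      (by simp [c5, v5, r5]; try ring)
  · exact B5R_mem x K hs hg _ 0 0 0 0 0 (-x 1) 0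
      (by simp [c5, v5, r5]; try ring)

private lemma B5R_s12 {A : Type} [CommRing A] (x : Fin 5 → A) (K : Ideal A)
    (hs : ∀ i, x i ^ 2 ∈ K) (hg : ∀ k, g5 x k ∈ K) (j : Fin 10) :
    ∑ k, c5 x j k * B5R_lin x 12 k ∈ K := by
  rw [B5R_l12, Fin.sum_univ_seven]
  fin_cases j
  · exact B5R_mem x K hs hg _ 0 0 0 0 0 0 0
      (by simp [c5, v5, r5]; try ring)
  · exact B5R_mem x K hs hg _ 0 0 0 0 0 0 0
      (by simp [c5, v5, r5]; try ring)
  · exact B5R_mem x K hs hg _ (x 1) (-x 0) 0 0 0 (x 1) 0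
      (by simp [c5, v5, r5]; try ring)
  · exact B5R_mem x K hs hg _ 0 (-x 0) (x 1) 0 0 (x 1) 0
      (by simp [c5, v5, r5]; try ring)
  · exact B5R_mem x K hs hg _ 0 (x 4) 0 0 0 0 (-x 1)
      (by simp [c5, v5, r5]; try ring)
  · exact B5R_mem x K hs hg _ 0 0 0 0 (x 1) 0 (-x 4)
      (by simp [c5, v5, r5]; try ring)
  · exact B5R_mem x K hs hg _ (2 * x 3 + x 4) 0 0 0 0 (x 4) (-x 0)
      (by simp [c5, v5, r5]; try ring)
  · exact B5R_mem x K hs hg _ (x 4) 0 (-x 4) 0 0 0 0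
      (by simp [c5, v5, r5]; try ring)
  · exact B5R_mem x K hs hg _ 0 0 0 0 0 0 (x 0 + x 2)
      (by simp [c5, v5, r5]; try ring)
  · exact B5R_mem x K hs hg _ (-x 1 - x 2) (x 0) (-x 0) 0 0 (-x 1) 0
      (by simp [c5, v5, r5]; try ring)

private lemma B5R_s13 {A : Type} [CommRing A] (x : Fin 5 → A) (K : Ideal A)
    (hs : ∀ i, x i ^ 2 ∈ K) (hg : ∀ k, g5 x k ∈ K) (j : Fin 10) :
    ∑ k, c5 x j k * B5R_lin x 13 k ∈ K := by
  rw [B5R_l13, Fin.sum_univ_seven]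
  fin_cases j
  · exact B5R_mem x K hs hg _ 0 0 0 0 0 (-1) 0
      (by simp [c5, v5, r5]; try ring)
  · exact B5R_mem x K hs hg _ (-1) 0 0 0 0 0 0
      (by simp [c5, v5, r5]; try ring)
  · exact B5R_mem x K hs hg _ 0 0 0 0 0 0 0
      (by simp [c5, v5, r5]; try ring)
  · exact B5R_mem x K hs hg _ 0 (-x 4) 0 0 0 0 (x 1)
      (by simp [c5, v5, r5]; try ring)
  · exact B5R_mem x K hs hg _ 0 0 0 (x 1) 0 0 0
      (by simp [c5, v5, r5]; try ring)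
  · exact B5R_mem x K hs hg _ 0 0 0 (x 4) 0 0 0
      (by simp [c5, v5, r5]; try ring)
  · exact B5R_mem x K hs hg _ 0 0 0 0 0 0 0
      (by simp [c5, v5, r5]; try ring)
  · exact B5R_mem x K hs hg _ 0 0 0 0 (x 1) 0 (-x 4)
      (by simp [c5, v5, r5]; try ring)
  · exact B5R_mem x K hs hg _ 0 0 0 (-2 * x 0 - 2 * x 2) 0 0 (x 3)
      (by simp [c5, v5, r5]; try ring)
  · exact B5R_mem x K hs hg _ 0 0 0 0 0 (-x 3) 0
      (by simp [c5, v5, r5]; try ring)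

private lemma B5R_s14 {A : Type} [CommRing A] (x : Fin 5 → A) (K : Ideal A)
    (hs : ∀ i, x i ^ 2 ∈ K) (hg : ∀ k, g5 x k ∈ K) (j : Fin 10) :
    ∑ k, c5 x j k * B5R_lin x 14 k ∈ K := by
  rw [B5R_l14, Fin.sum_univ_seven]
  fin_cases j
  · exact B5R_mem x K hs hg _ 0 0 0 0 0 (-1) 0
      (by simp [c5, v5, r5]; try ring)
  · exact B5R_mem x K hs hg _ (1) 0 0 0 0 0 0
      (by simp [c5, v5, r5]; try ring)
  · exact B5R_mem x K hs hg _ (-x 3) 0 0 0 0 (-x 3) (x 0)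
      (by simp [c5, v5, r5]; try ring)
  · exact B5R_mem x K hs hg _ 0 0 (-x 3) 0 0 (-x 3) (x 2)
      (by simp [c5, v5, r5]; try ring)
  · exact B5R_mem x K hs hg _ 0 0 0 (-x 0 - x 2) 0 0 (x 3)
      (by simp [c5, v5, r5]; try ring)
  · exact B5R_mem x K hs hg _ 0 0 0 0 (x 3) 0 0
      (by simp [c5, v5, r5]; try ring)
  · exact B5R_mem x K hs hg _ 0 0 0 (-x 0) (x 0) 0 0
      (by simp [c5, v5, r5]; try ring)
  · exact B5R_mem x K hs hg _ 0 0 0 0 (x 0 - x 2) 0 0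
      (by simp [c5, v5, r5]; try ring)
  · exact B5R_mem x K hs hg _ 0 0 0 0 (2 * x 1) 0 (-x 4)
      (by simp [c5, v5, r5]; try ring)
  · exact B5R_mem x K hs hg _ 0 0 0 0 0 (-x 4) 0
      (by simp [c5, v5, r5]; try ring)

private lemma B5R_all {A : Type} [CommRing A] (x : Fin 5 → A) (K : Ideal A)
    (hs : ∀ i, x i ^ 2 ∈ K) (hg : ∀ k, g5 x k ∈ K) (s : Fin 15) (j : Fin 10) :
    ∑ k, c5 x j k * B5R_lin x s k ∈ K := by
  fin_cases s
  · exact B5R_s0 x K hs hg j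
  · exact B5R_s1 x K hs hg j
  · exact B5R_s2 x K hs hg j
  · exact B5R_s3 x K hs hg j
  · exact B5R_s4 x K hs hg j
  · exact B5R_s5 x K hs hg j
  · exact B5R_s6 x K hs hg j
  · exact B5R_s7 x K hs hg j
  · exact B5R_s8 x K hs hg j
  · exact B5R_s9 x K hs hg j
  · exact B5R_s10 x K hs hg j
  · exact B5R_s11 x K hs hg j
  · exact B5R_s12 x K hs hg j
  · exact B5R_s13 x K hs hg j
  · exact B5R_s14 x K hs hg j

theorem B5R : St_B5R := by
  intro A _ x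
  refine ⟨fun j => ?_, fun K hs hg s j => B5R_all x K hs hg s j⟩
  rw [Fin.sum_univ_two, Fin.sum_univ_five]
  fin_cases j <;> simp [r5, g5, v5] <;> ring

end Pool.Agent.LCB
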