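import Mathlib
import Pool.Agent.LCB.BSt

/-!
Cubic and quartic monomials modulo the ideal of the example of type `(5, 2, 2)`.
-/

namespace Pool.Agent.LCB

namespace B5Saux

variable {Q : Type*} [CommRing Q] (y : Fin 5 → Q) (s : ∀ i, y i ^ 2 = 0)
  (G1 : y 0 * y 1 + y 0 * y 2 = 0) (G2 : y 0 * y 3 + y 1 * y 4 + y 2 * y 3 = 0)

include s G1 G2

lemma cub (a b e : Fin 5) : ∃ l m : ℤ,
    y a * y b * y e = (l : Q) * (y 0 * y 1 * y 3) + (m : Q) * (y 0 * y 3 * y 4) := by
  fin_cases a <;> fin_cases b <;> fin_cases e <;> dsimp only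
  · exact ⟨0, 0, by push_cast; linear_combination y 0 * s 0⟩
  · exact ⟨0, 0, by push_cast; linear_combination y 1 * s 0⟩
  · exact ⟨0, 0, by push_cast; linear_combination y 2 * s 0⟩
  · exact ⟨0, 0, by push_cast; linear_combination y 3 * s 0⟩
  · exact ⟨0, 0, by push_cast; linear_combination y 4 * s 0⟩
  · exact ⟨0, 0, by push_cast; linear_combination y 1 * s 0⟩
  · exact ⟨0, 0, by push_cast; linear_combination y 0 * s 1⟩
  · exact ⟨0, 0, by push_cast; linear_combination y 1 * G1 - y 0 * s 1⟩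
  · exact ⟨1, 0, by push_cast; linear_combination 0⟩
  · exact ⟨1, 0, by push_cast; linear_combination y 0 * G2 - y 3 * s 0 - y 3 * G1⟩
  · exact ⟨0, 0, by push_cast; linear_combination y 2 * s 0⟩
  · exact ⟨0, 0, by push_cast; linear_combination y 1 * G1 - y 0 * s 1⟩
  · exact ⟨0, 0, by push_cast; linear_combination y 0 * s 2⟩
  · exact ⟨-1, 0, by push_cast; linear_combination y 3 * G1⟩
  · exact ⟨-1, 0, by push_cast; linear_combination y 4 * G1 - (y 0 * G2 - y 3 * s 0 - y 3 * G1)⟩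
  · exact ⟨0, 0, by push_cast; linear_combination y 3 * s 0⟩
  · exact ⟨1, 0, by push_cast; linear_combination 0⟩
  · exact ⟨-1, 0, by push_cast; linear_combination y 3 * G1⟩
  · exact ⟨0, 0, by push_cast; linear_combination y 0 * s 3⟩
  · exact ⟨0, 1, by push_cast; linear_combination 0⟩
  · exact ⟨0, 0, by push_cast; linear_combination y 4 * s 0⟩
  · exact ⟨1, 0, by push_cast; linear_combination y 0 * G2 - y 3 * s 0 - y 3 * G1⟩
  · exact ⟨-1, 0, by push_cast; linear_combination y 4 * G1 - (y 0 * G2 - y 3 * s 0 - y 3 * G1)⟩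
  · exact ⟨0, 1, by push_cast; linear_combination 0⟩
  · exact ⟨0, 0, by push_cast; linear_combination y 0 * s 4⟩
  · exact ⟨0, 0, by push_cast; linear_combination y 1 * s 0⟩
  · exact ⟨0, 0, by push_cast; linear_combination y 0 * s 1⟩
  · exact ⟨0, 0, by push_cast; linear_combination y 1 * G1 - y 0 * s 1⟩
  · exact ⟨1, 0, by push_cast; linear_combination 0⟩
  · exact ⟨1, 0, by push_cast; linear_combination y 0 * G2 - y 3 * s 0 - y 3 * G1⟩
  · exact ⟨0, 0, by push_cast; linear_combination y 0 * s 1⟩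
  · exact ⟨0, 0, by push_cast; linear_combination y 1 * s 1⟩
  · exact ⟨0, 0, by push_cast; linear_combination y 2 * s 1⟩
  · exact ⟨0, 0, by push_cast; linear_combination y 3 * s 1⟩
  · exact ⟨0, 0, by push_cast; linear_combination y 4 * s 1⟩
  · exact ⟨0, 0, by push_cast; linear_combination y 1 * G1 - y 0 * s 1⟩
  · exact ⟨0, 0, by push_cast; linear_combination y 2 * s 1⟩
  · exact ⟨0, 0, by push_cast; linear_combination y 1 * s 2⟩
  · exact ⟨-1, 0, by push_cast; linear_combination y 1 * G2 - y 4 * s 1⟩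
  · exact ⟨1, 0, by push_cast; linear_combination y 2 * G2 - y 3 * s 2 - y 3 * G1⟩
  · exact ⟨1, 0, by push_cast; linear_combination 0⟩
  · exact ⟨0, 0, by push_cast; linear_combination y 3 * s 1⟩
  · exact ⟨-1, 0, by push_cast; linear_combination y 1 * G2 - y 4 * s 1⟩
  · exact ⟨0, 0, by push_cast; linear_combination y 1 * s 3⟩
  · exact ⟨0, 0, by push_cast; linear_combination y 3 * G2 - (y 0 + y 2) * s 3⟩
  · exact ⟨1, 0, by push_cast; linear_combination y 0 * G2 - y 3 * s 0 - y 3 * G1⟩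
  · exact ⟨0, 0, by push_cast; linear_combination y 4 * s 1⟩
  · exact ⟨1, 0, by push_cast; linear_combination y 2 * G2 - y 3 * s 2 - y 3 * G1⟩
  · exact ⟨0, 0, by push_cast; linear_combination y 3 * G2 - (y 0 + y 2) * s 3⟩
  · exact ⟨0, 0, by push_cast; linear_combination y 1 * s 4⟩
  · exact ⟨0, 0, by push_cast; linear_combination y 2 * s 0⟩
  · exact ⟨0, 0, by push_cast; linear_combination y 1 * G1 - y 0 * s 1⟩
  · exact ⟨0, 0, by push_cast; linear_combination y 0 * s 2⟩
  · exact ⟨-1, 0, by push_cast; linear_combination y 3 * G1⟩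
  · exact ⟨-1, 0, by push_cast; linear_combination y 4 * G1 - (y 0 * G2 - y 3 * s 0 - y 3 * G1)⟩
  · exact ⟨0, 0, by push_cast; linear_combination y 1 * G1 - y 0 * s 1⟩
  · exact ⟨0, 0, by push_cast; linear_combination y 2 * s 1⟩
  · exact ⟨0, 0, by push_cast; linear_combination y 1 * s 2⟩
  · exact ⟨-1, 0, by push_cast; linear_combination y 1 * G2 - y 4 * s 1⟩
  · exact ⟨1, 0, by push_cast; linear_combination y 2 * G2 - y 3 * s 2 - y 3 * G1⟩
  · exact ⟨0, 0, by push_cast; linear_combination y 0 * s 2⟩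
  · exact ⟨0, 0, by push_cast; linear_combination y 1 * s 2⟩
  · exact ⟨0, 0, by push_cast; linear_combination y 2 * s 2⟩
  · exact ⟨0, 0, by push_cast; linear_combination y 3 * s 2⟩
  · exact ⟨0, 0, by push_cast; linear_combination y 4 * s 2⟩
  · exact ⟨-1, 0, by push_cast; linear_combination y 3 * G1⟩
  · exact ⟨-1, 0, by push_cast; linear_combination y 1 * G2 - y 4 * s 1⟩
  · exact ⟨0, 0, by push_cast; linear_combination y 3 * s 2⟩
  · exact ⟨0, 0, by push_cast; linear_combination y 2 * s 3⟩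
  · exact ⟨0, -1, by push_cast; linear_combination y 4 * G2 - y 1 * s 4⟩
  · exact ⟨-1, 0, by push_cast; linear_combination y 4 * G1 - (y 0 * G2 - y 3 * s 0 - y 3 * G1)⟩
  · exact ⟨1, 0, by push_cast; linear_combination y 2 * G2 - y 3 * s 2 - y 3 * G1⟩
  · exact ⟨0, 0, by push_cast; linear_combination y 4 * s 2⟩
  · exact ⟨0, -1, by push_cast; linear_combination y 4 * G2 - y 1 * s 4⟩
  · exact ⟨0, 0, by push_cast; linear_combination y 2 * s 4⟩
  · exact ⟨0, 0, by push_cast; linear_combination y 3 * s 0⟩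
  · exact ⟨1, 0, by push_cast; linear_combination 0⟩
  · exact ⟨-1, 0, by push_cast; linear_combination y 3 * G1⟩
  · exact ⟨0, 0, by push_cast; linear_combination y 0 * s 3⟩
  · exact ⟨0, 1, by push_cast; linear_combination 0⟩
  · exact ⟨1, 0, by push_cast; linear_combination 0⟩
  · exact ⟨0, 0, by push_cast; linear_combination y 3 * s 1⟩
  · exact ⟨-1, 0, by push_cast; linear_combination y 1 * G2 - y 4 * s 1⟩
  · exact ⟨0, 0, by push_cast; linear_combination y 1 * s 3⟩
  · exact ⟨0, 0, by push_cast; linear_combination y 3 * G2 - (y 0 + y 2) * s 3⟩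
  · exact ⟨-1, 0, by push_cast; linear_combination y 3 * G1⟩
  · exact ⟨-1, 0, by push_cast; linear_combination y 1 * G2 - y 4 * s 1⟩
  · exact ⟨0, 0, by push_cast; linear_combination y 3 * s 2⟩
  · exact ⟨0, 0, by push_cast; linear_combination y 2 * s 3⟩
  · exact ⟨0, -1, by push_cast; linear_combination y 4 * G2 - y 1 * s 4⟩
  · exact ⟨0, 0, by push_cast; linear_combination y 0 * s 3⟩
  · exact ⟨0, 0, by push_cast; linear_combination y 1 * s 3⟩
  · exact ⟨0, 0, by push_cast; linear_combination y 2 * s 3⟩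
  · exact ⟨0, 0, by push_cast; linear_combination y 3 * s 3⟩
  · exact ⟨0, 0, by push_cast; linear_combination y 4 * s 3⟩
  · exact ⟨0, 1, by push_cast; linear_combination 0⟩
  · exact ⟨0, 0, by push_cast; linear_combination y 3 * G2 - (y 0 + y 2) * s 3⟩
  · exact ⟨0, -1, by push_cast; linear_combination y 4 * G2 - y 1 * s 4⟩
  · exact ⟨0, 0, by push_cast; linear_combination y 4 * s 3⟩
  · exact ⟨0, 0, by push_cast; linear_combination y 3 * s 4⟩
  · exact ⟨0, 0, by push_cast; linear_combination y 4 * s 0⟩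
  · exact ⟨1, 0, by push_cast; linear_combination y 0 * G2 - y 3 * s 0 - y 3 * G1⟩
  · exact ⟨-1, 0, by push_cast; linear_combination y 4 * G1 - (y 0 * G2 - y 3 * s 0 - y 3 * G1)⟩
  · exact ⟨0, 1, by push_cast; linear_combination 0⟩
  · exact ⟨0, 0, by push_cast; linear_combination y 0 * s 4⟩
  · exact ⟨1, 0, by push_cast; linear_combination y 0 * G2 - y 3 * s 0 - y 3 * G1⟩
  · exact ⟨0, 0, by push_cast; linear_combination y 4 * s 1⟩
  · exact ⟨1, 0, by push_cast; linear_combination y 2 * G2 - y 3 * s 2 - y 3 * G1⟩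
  · exact ⟨0, 0, by push_cast; linear_combination y 3 * G2 - (y 0 + y 2) * s 3⟩
  · exact ⟨0, 0, by push_cast; linear_combination y 1 * s 4⟩
  · exact ⟨-1, 0, by push_cast; linear_combination y 4 * G1 - (y 0 * G2 - y 3 * s 0 - y 3 * G1)⟩
  · exact ⟨1, 0, by push_cast; linear_combination y 2 * G2 - y 3 * s 2 - y 3 * G1⟩
  · exact ⟨0, 0, by push_cast; linear_combination y 4 * s 2⟩
  · exact ⟨0, -1, by push_cast; linear_combination y 4 * G2 - y 1 * s 4⟩
  · exact ⟨0, 0, by push_cast; linear_combination y 2 * s 4⟩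
  · exact ⟨0, 1, by push_cast; linear_combination 0⟩
  · exact ⟨0, 0, by push_cast; linear_combination y 3 * G2 - (y 0 + y 2) * s 3⟩
  · exact ⟨0, -1, by push_cast; linear_combination y 4 * G2 - y 1 * s 4⟩
  · exact ⟨0, 0, by push_cast; linear_combination y 4 * s 3⟩
  · exact ⟨0, 0, by push_cast; linear_combination y 3 * s 4⟩
  · exact ⟨0, 0, by push_cast; linear_combination y 0 * s 4⟩
  · exact ⟨0, 0, by push_cast; linear_combination y 1 * s 4⟩
  · exact ⟨0, 0, by push_cast; linear_combination y 2 * s 4⟩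
  · exact ⟨0, 0, by push_cast; linear_combination y 3 * s 4⟩
  · exact ⟨0, 0, by push_cast; linear_combination y 4 * s 4⟩

lemma qp (f : Fin 5) : (y 0 * y 1 * y 3) * y f = 0 ∧ (y 0 * y 3 * y 4) * y f = 0 := by
  fin_cases f <;> simp only [Fin.zero_eta, Fin.mk_one, Fin.reduceFinMk]
  · exact ⟨by linear_combination (y 1 * y 3) * s 0, by linear_combination (y 3 * y 4) * s 0⟩
  · exact ⟨by linear_combination (y 0 * y 3) * s 1,
      by linear_combination y 0 * (y 3 * G2 - (y 0 + y 2) * s 3)⟩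
  · exact ⟨by linear_combination y 3 * (y 1 * G1 - y 0 * s 1),
      by linear_combination y 0 * (y 4 * G2 - y 1 * s 4) - (y 3 * y 4) * s 0⟩
  · exact ⟨by linear_combination (y 0 * y 1) * s 3, by linear_combination (y 0 * y 4) * s 3⟩
  · exact ⟨by linear_combination y 0 * (y 3 * G2 - (y 0 + y 2) * s 3),
      by linear_combination (y 0 * y 3) * s 4⟩

lemma qua (a b e f : Fin 5) : y a * y b * y e * y f = 0 := by
  obtain ⟨l, m, h⟩ := cub y s G1 G2 a b e
  obtain ⟨h1, h2⟩ := qp y s G1 G2 f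
  rw [h, add_mul, mul_assoc, h1, mul_assoc (m : Q), h2, mul_zero, mul_zero, add_zero]

end B5Saux

theorem B5S : St_B5S := by
  intro A _ x K hx hg
  let y : Fin 5 → A ⧸ K := fun i => Ideal.Quotient.mk K (x i)
  have s : ∀ i, y i ^ 2 = 0 := by
    intro i
    change Ideal.Quotient.mk K (x i) ^ 2 = 0
    rw [← map_pow, Ideal.Quotient.eq_zero_iff_mem]
    exact hx i
  have G1 : y 0 * y 1 + y 0 * y 2 = 0 := by
    change Ideal.Quotient.mk K (x 0) * Ideal.Quotient.mk K (x 1) +
      Ideal.Quotient.mk K (x 0) * Ideal.Quotient.mk K (x 2) = 0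
    rw [← map_mul, ← map_mul, ← map_add, Ideal.Quotient.eq_zero_iff_mem]
    exact hg 0
  have G2 : y 0 * y 3 + y 1 * y 4 + y 2 * y 3 = 0 := by
    change Ideal.Quotient.mk K (x 0) * Ideal.Quotient.mk K (x 3) +
      Ideal.Quotient.mk K (x 1) * Ideal.Quotient.mk K (x 4) +
      Ideal.Quotient.mk K (x 2) * Ideal.Quotient.mk K (x 3) = 0
    rw [← map_mul, ← map_mul, ← map_mul, ← map_add, ← map_add, Ideal.Quotient.eq_zero_iff_mem]
    exact hg 1
  constructor
  · intro a b e
    obtain ⟨l, m, h⟩ := B5Saux.cub y s G1 G2 a b e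
    refine ⟨l, m, ?_⟩
    rw [← Ideal.Quotient.eq_zero_iff_mem]
    simp only [map_sub, map_mul, map_intCast]
    change y a * y b * y e - (l : A ⧸ K) * (y 0 * y 1 * y 3) - (m : A ⧸ K) * (y 0 * y 3 * y 4) = 0
    rw [h]
    ring
  · intro a b e f
    rw [← Ideal.Quotient.eq_zero_iff_mem]
    simp only [map_mul]
    exact B5Saux.qua y s G1 G2 a b e f

end Pool.Agent.LCB
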