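import Mathlib
import Pool.Agent.LCB.BSt
import Pool.Agent.LCB.Com

/-!
The number of homomorphisms in the example `(5, 2, 2)`.
-/

namespace Pool.Agent.LCB

open Pool.Agent.Helper40.Licci RingTheory.Sequence IsLocalRing MvPolynomial

section

variable {c : ℕ} (hc : 5 ≤ c)

/-- the coefficients of the members of the regular sequence -/
noncomputable def b5tv (j : Fin 10) (i : Fin c) : RR c :=
  if h : i.val < 5 then v5 (xR hc) j ⟨i.val, h⟩ else 0

lemma b5t_bR (i : Fin 5) : bR 5 (Fin.castLE hc i) = xR hc i ^ 2 := by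
  unfold bR ba bx xR xP
  rw [map_pow, if_pos]
  change i.val < 5
  exact i.2

lemma b5t_sum (j : Fin 10) : ∑ i : Fin c, b5tv hc j i * bR 5 i =
    ∑ i : Fin 5, v5 (xR hc) j i * xR hc i ^ 2 := by
  classical
  have h1 : ∑ i : Fin 5, v5 (xR hc) j i * xR hc i ^ 2 =
      ∑ i : Fin 5, b5tv hc j (Fin.castLE hc i) * bR 5 (Fin.castLE hc i) := by
    refine Finset.sum_congr rfl (fun i _ => ?_)
    rw [b5t_bR]
    unfold b5tv
    rw [dif_pos (show (Fin.castLE hc i).val < 5 from i.2)]
    rfl
  rw [h1]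
  have h2 : ∑ i ∈ Finset.univ.map (Fin.castLEEmb hc), b5tv hc j i * bR 5 i =
      ∑ i : Fin 5, b5tv hc j (Fin.castLE hc i) * bR 5 (Fin.castLE hc i) := by
    rw [Finset.sum_map]
    rfl
  rw [← h2]
  symm
  apply Finset.sum_subset (Finset.subset_univ _)
  intro i _ hi
  have : ¬ i.val < 5 := by
    intro h
    apply hi
    rw [Finset.mem_map]
    exact ⟨⟨i.val, h⟩, Finset.mem_univ _, rfl⟩
  unfold b5tv
  rw [dif_neg this, zero_mul]

lemma b5t_map (k : Fin 2) : toR c (g5 (xP hc) k) = g5 (xR hc) k := by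
  fin_cases k
  · change toR c (xP hc 0 * xP hc 1 + xP hc 0 * xP hc 2) = _
    simp only [map_add, map_mul]
    rfl
  · change toR c (xP hc 0 * xP hc 3 + xP hc 1 * xP hc 4 + xP hc 2 * xP hc 3) = _
    simp only [map_add, map_mul]
    rfl

lemma b5t_r (j : Fin 10) (k : Fin 2) : toR c (r5 (xP hc) j k) = r5 (xR hc) j k := by
  unfold xR
  fin_cases j <;> fin_cases k <;> simp [r5]

end

theorem B5T : St_B5T := by
  intro g1 g2 t1 b5r b5k b5w b5c hD g3 b5a b5s c hc
  obtain ⟨reg, cm, eL, fL, sL, c7⟩ := g1 5 c hc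
  obtain ⟨mI, mA, tr, lift⟩ := g2 5 c hc
  set I : Ideal (RR c) := bJ 5 (g5 (xP hc)) with hI
  have memL : ∀ u : PP c, toR c u ∈ bL 5 c ↔ u ∈ bA 5 c := by
    intro u
    rw [← mA]
    exact tr _ le_rfl u
  have hLI : bL 5 c ≤ I := le_sup_left
  have fI : Finite (RR c ⧸ I) := Finite.of_surjective _ (fac_surjective hLI)
  have h16 : Nat.card (RR c ⧸ I) = 7 ^ 16 := b5c hD g1 g2 g3 b5a b5s c hc
  have hr := (b5r (RR c) (xR hc)).1
  set W : Submodule (RR c) (Fin 10 → RR c ⧸ I) := Submodule.span (RR c)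
    (Set.range (fun (k : Fin 7) (j : Fin 10) => Ideal.Quotient.mk I (c5 (xR hc) j k))) with hW
  have h31 : Nat.card W ≤ 7 ^ 31 := b5w g1 g2 b5r b5s c hc
  have hWc : ∀ k : Fin 7, (fun j => Ideal.Quotient.mk I (c5 (xR hc) j k)) ∈ W :=
    fun k => Submodule.subset_span ⟨k, rfl⟩
  have key := t1 (RR c) c 2 10 (bR 5) (g5 (xR hc)) I (r5 (xR hc)) (b5tv hc) W cm
    (by
      rw [hI]
      unfold bJ bL
      congr 2
      ext x
      constructor
      · rintro ⟨k, rfl⟩; exact ⟨k, (b5t_map hc k).symm⟩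
      · rintro ⟨k, rfl⟩; exact ⟨k, b5t_map hc k⟩)
    fL
    (by
      intro j
      rw [b5t_sum]
      exact hr j)
    (by
      intro x hx
      choose u hu using fun k => lift (x k)
      have h1 : ∑ k, u k * g5 (xP hc) k ∈ bA 5 c := by
        rw [← memL, map_sum]
        have h2 : ∑ k, toR c (u k * g5 (xP hc) k) = ∑ k, x k * g5 (xR hc) k -
            ∑ k, (x k - toR c (u k)) * g5 (xR hc) k := by
          rw [← Finset.sum_sub_distrib]
          refine Finset.sum_congr rfl (fun k _ => ?_)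
          rw [map_mul, b5t_map]
          ring
        rw [h2]
        exact Ideal.sub_mem _ hx (Ideal.sum_mem _ (fun k _ => Ideal.mul_mem_right _ _ (hu k)))
      obtain ⟨s, hs⟩ := b5k c hc u h1
      refine ⟨fun j => toR c (s j), fun k => ?_⟩
      have h3 := (memL _).mpr (hs k)
      rw [map_sub, map_sum] at h3
      have h4 : x k - ∑ j, toR c (s j) * r5 (xR hc) j k =
          (x k - toR c (u k)) + (toR c (u k) - ∑ j, toR c (s j * r5 (xP hc) j k)) := by
        have : ∑ j, toR c (s j * r5 (xP hc) j k) = ∑ j, toR c (s j) * r5 (xR hc) j k := by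
          refine Finset.sum_congr rfl (fun j _ => ?_)
          rw [map_mul, b5t_r]
        rw [this]
        ring
      rw [h4]
      exact Ideal.add_mem _ (hu k) h3)
    (by
      intro i
      by_cases hi : i.val < 5
      · have e : (fun j => Ideal.Quotient.mk I (b5tv hc j i)) =
            -(fun j => Ideal.Quotient.mk I (c5 (xR hc) j ⟨i.val, by omega⟩)) := by
          funext j
          rw [Pi.neg_apply]
          unfold b5tv
          rw [dif_pos hi, ← map_neg]
          congr 1
          obtain ⟨i, hi'⟩ := i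
          change i < 5 at hi
          interval_cases i <;> simp [c5]
        rw [e]
        exact W.neg_mem (hWc _)
      · have e : (fun j => Ideal.Quotient.mk I (b5tv hc j i)) = 0 := by
          funext j
          unfold b5tv
          rw [dif_neg hi, map_zero]
          rfl
        rw [e]
        exact W.zero_mem)
    (by
      intro k
      fin_cases k
      · exact hWc 5
      · exact hWc 6)
  intro heq
  rw [heq, h16] at key
  have h1 : (7 ^ 16) ^ (c + 2) ≤ (7 ^ 16) ^ c * 7 ^ 31 :=
    le_trans key (Nat.mul_le_mul_left _ h31)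
  rw [pow_add] at h1
  have h2 : 0 < ((7 : ℕ) ^ 16) ^ c := by positivity
  have h3 := Nat.le_of_mul_le_mul_left h1 h2
  norm_num at h3

end Pool.Agent.LCB
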