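import Mathlib
import Pool.Agent.LCB.BSt

/-!
Module B5W: the submodule generated by the seven columns has at most `7 ^ 31` elements.
-/

set_option autoImplicit false

namespace Pool.Agent.LCB

open Pool.Agent.Helper40.Licci RingTheory.Sequence IsLocalRing MvPolynomial

/-- The fifteen places. -/
private def B5Wpl : Fin 15 → Fin 7 × Fin 5 :=
  ![(0, 1), (1, 0), (2, 1), (2, 2), (3, 1), (3, 2), (4, 0), (4, 1), (4, 2), (5, 0), (5, 1), (6, 1),
    (6, 0), (6, 3), (6, 4)]

private lemma B5W_pl1 : ∀ s : Fin 15,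
    z5 s (B5Wpl s).1 (B5Wpl s).2 = 1 ∨ z5 s (B5Wpl s).1 (B5Wpl s).2 = -1 := by decide

private lemma B5W_pl2 : ∀ s t : Fin 15, t ≠ s → z5 s (B5Wpl t).1 (B5Wpl t).2 = 0 := by decide

private lemma B5W_pl3 : (Finset.univ.filter (fun p : Fin 7 × Fin 5 => ¬ ∃ s, B5Wpl s = p)).card = 20 := by
  decide

/-- Naturality of the columns. -/
private lemma B5W_map {A B : Type} [CommRing A] [CommRing B] (f : A →+* B) (x : Fin 5 → A) (j : Fin 10)
    (k : Fin 7) : f (c5 x j k) = c5 (fun i => f (x i)) j k := by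
  fin_cases j <;> fin_cases k <;> simp [c5, v5, r5, map_ofNat]

private lemma B5W_lin {A : Type} [CommRing A] (x : Fin 5 → A) (K : Ideal A) (h : ∀ i, x i ∈ K) (j : Fin 10)
    (k : Fin 7) : c5 x j k ∈ K := by
  rw [← Ideal.Quotient.eq_zero_iff_mem, B5W_map (Ideal.Quotient.mk K)]
  have h' : ∀ i, Ideal.Quotient.mk K (x i) = 0 := fun i => Ideal.Quotient.eq_zero_iff_mem.mpr (h i)
  have h2 : (fun i => Ideal.Quotient.mk K (x i)) = fun _ => 0 := funext h'
  rw [h2]
  fin_cases j <;> fin_cases k <;> simp [c5, v5, r5]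

private lemma B5W_quad {A : Type} [CommRing A] (x : Fin 5 → A) (K : Ideal A) (h : ∀ a b, x a * x b ∈ K)
    (j : Fin 10) (k : Fin 7) (hj : 2 ≤ j.val) : c5 x j k ∈ K := by
  rw [← Ideal.Quotient.eq_zero_iff_mem, B5W_map (Ideal.Quotient.mk K)]
  have h' : ∀ a b, Ideal.Quotient.mk K (x a) * Ideal.Quotient.mk K (x b) = 0 := by
    intro a b
    rw [← map_mul]
    exact Ideal.Quotient.eq_zero_iff_mem.mpr (h a b)
  fin_cases j
  · simp at hj
  · simp at hj
  all_goals fin_cases k <;> simp [c5, v5, r5, pow_two, h']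

/-- The core of the count. -/
private lemma B5W_core (S : Type) [CommRing S] [Algebra (ZMod 7) S] (y : Fin 5 → S)
    (hdec : ∀ s : S, ∃ (l : ZMod 7) (b : Fin 5 → S), s = algebraMap (ZMod 7) S l + ∑ i, b i * y i)
    (hcub : ∀ a b e, ∃ l m : ℤ, y a * y b * y e = (l : S) * (y 0 * y 1 * y 3) + (m : S) * (y 0 * y 3 * y 4))
    (hquart : ∀ a b e f, y a * y b * y e * y f = 0)
    (hrel : ∀ s j, ∑ k, c5 y j k * (∑ i, (z5 s k i : S) * y i) = 0) :
    ∃ U : Submodule (ZMod 7) (Fin 10 → S), Nat.card U ≤ 7 ^ 31 ∧ Finite U ∧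
      ∀ (s : S) (k : Fin 7), (fun j => s * c5 y j k) ∈ U := by
  classical
  obtain ⟨P, hP⟩ : ∃ P : S, P = y 0 * y 1 * y 3 := ⟨_, rfl⟩
  obtain ⟨Q, hQ⟩ : ∃ Q : S, Q = y 0 * y 3 * y 4 := ⟨_, rfl⟩
  have hint : ∀ (l : ℤ) (z : S), (l : S) * z = (l : ZMod 7) • z := by
    intro l z
    rw [Algebra.smul_def, map_intCast]
  -- products with three coordinates are in the span of the two cubic monomials
  have hP4 : ∀ f, P * y f = 0 := fun f => by rw [hP]; exact hquart 0 1 3 f
  have hQ4 : ∀ f, Q * y f = 0 := fun f => by rw [hQ]; exact hquart 0 3 4 f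
  have hc3 : ∀ a b e (d : S), ∃ α β : ZMod 7, y a * y b * y e * d = α • P + β • Q := by
    intro a b e d
    obtain ⟨l, m, hlm⟩ := hcub a b e
    obtain ⟨t, b', hd⟩ := hdec d
    refine ⟨t * (l : ZMod 7), t * (m : ZMod 7), ?_⟩
    have h1 : y a * y b * y e * d = t • (y a * y b * y e) := by
      rw [hd, mul_add, Finset.mul_sum]
      have h2 : ∀ i ∈ (Finset.univ : Finset (Fin 5)), y a * y b * y e * (b' i * y i) = 0 := by
        intro i _
        have := hquart a b e i
        calc y a * y b * y e * (b' i * y i) = b' i * (y a * y b * y e * y i) := by ring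
          _ = 0 := by rw [this, mul_zero]
      rw [Finset.sum_eq_zero h2, add_zero, Algebra.smul_def]
      ring
    rw [h1, hlm, ← hP, ← hQ, hint, hint, smul_add, smul_smul, smul_smul]
  have hc3' : ∀ a b (w : S), w ∈ Ideal.span (Set.range y) →
      ∃ α β : ZMod 7, y a * y b * w = α • P + β • Q := by
    intro a b w hw
    rw [Ideal.mem_span_range_iff_exists_fun] at hw
    obtain ⟨d, hd⟩ := hw
    choose α β hαβ using fun e => hc3 a b e (d e)
    refine ⟨∑ e, α e, ∑ e, β e, ?_⟩
    rw [← hd, Finset.mul_sum, Finset.sum_smul, Finset.sum_smul, ← Finset.sum_add_distrib]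
    apply Finset.sum_congr rfl
    intro e _
    rw [← hαβ e]
    ring
  have hc4 : ∀ a b (w : S), w ∈ Ideal.span (Set.range (fun p : Fin 5 × Fin 5 => y p.1 * y p.2)) →
      y a * y b * w = 0 := by
    intro a b w hw
    rw [Ideal.mem_span_range_iff_exists_fun] at hw
    obtain ⟨d, hd⟩ := hw
    rw [← hd, Finset.mul_sum]
    apply Finset.sum_eq_zero
    intro p _
    have := hquart a b p.1 p.2
    calc y a * y b * (d p * (y p.1 * y p.2)) = d p * (y a * y b * y p.1 * y p.2) := by ring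
      _ = 0 := by rw [this, mul_zero]
  have hlin : ∀ j k, c5 y j k ∈ Ideal.span (Set.range y) := fun j k =>
    B5W_lin y (Ideal.span (Set.range y)) (fun i => Ideal.subset_span (Set.mem_range_self i)) j k
  have hquad : ∀ (j : Fin 10) (k : Fin 7), 2 ≤ j.val →
      c5 y j k ∈ Ideal.span (Set.range (fun p : Fin 5 × Fin 5 => y p.1 * y p.2)) := fun j k hj =>
    B5W_quad y (Ideal.span (Set.range (fun p : Fin 5 × Fin 5 => y p.1 * y p.2)))
      (fun a b => Ideal.subset_span (Set.mem_range.mpr ⟨(a, b), rfl⟩)) j k hj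
  -- the vectors
  obtain ⟨e, he⟩ : ∃ e : Fin 7 × Fin 5 → Fin 10 → S, e = fun p j => y p.2 * c5 y j p.1 := ⟨_, rfl⟩
  obtain ⟨Cc, hCc⟩ : ∃ Cc : Fin 7 → Fin 10 → S, Cc = fun k j => c5 y j k := ⟨_, rfl⟩
  obtain ⟨T, hT⟩ : ∃ T : Finset (Fin 10 → S), T = (Finset.univ.image Cc ∪
      (Finset.univ.filter (fun p : Fin 7 × Fin 5 => ¬ ∃ s, B5Wpl s = p)).image e) ∪
      ({Pi.single 0 P, Pi.single 0 Q, Pi.single 1 P, Pi.single 1 Q} : Finset (Fin 10 → S)) := ⟨_, rfl⟩
  have hTc : T.card ≤ 31 := by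
    rw [hT]
    have h1 : (Finset.univ.image Cc).card ≤ 7 := le_trans Finset.card_image_le (by simp)
    have h2 : ((Finset.univ.filter (fun p : Fin 7 × Fin 5 => ¬ ∃ s, B5Wpl s = p)).image e).card ≤ 20 :=
      le_trans Finset.card_image_le (le_of_eq B5W_pl3)
    have h3 : ({Pi.single 0 P, Pi.single 0 Q, Pi.single 1 P, Pi.single 1 Q} :
        Finset (Fin 10 → S)).card ≤ 4 := Finset.card_le_four
    have h4 := Finset.card_union_le (Finset.univ.image Cc)
      ((Finset.univ.filter (fun p : Fin 7 × Fin 5 => ¬ ∃ s, B5Wpl s = p)).image e)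
    have h5 := Finset.card_union_le (Finset.univ.image Cc ∪
      (Finset.univ.filter (fun p : Fin 7 × Fin 5 => ¬ ∃ s, B5Wpl s = p)).image e)
      ({Pi.single 0 P, Pi.single 0 Q, Pi.single 1 P, Pi.single 1 Q} : Finset (Fin 10 → S))
    omega
  obtain ⟨U, hU⟩ : ∃ U : Submodule (ZMod 7) (Fin 10 → S), U = Submodule.span (ZMod 7) (T : Set (Fin 10 → S)) :=
    ⟨_, rfl⟩
  have hTU : ∀ t ∈ T, t ∈ U := fun t ht => by
    rw [hU]
    exact Submodule.subset_span ht
  have hUC : ∀ k, Cc k ∈ U := fun k => hTU _ (by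
    rw [hT]
    apply Finset.mem_union_left
    apply Finset.mem_union_left
    exact Finset.mem_image_of_mem _ (Finset.mem_univ k))
  have hUe0 : ∀ p, (¬ ∃ s, B5Wpl s = p) → e p ∈ U := fun p hp => hTU _ (by
    rw [hT]
    apply Finset.mem_union_left
    apply Finset.mem_union_right
    exact Finset.mem_image_of_mem _ (Finset.mem_filter.mpr ⟨Finset.mem_univ p, hp⟩))
  have hU0P : Pi.single 0 P ∈ U := hTU _ (by
    rw [hT]
    apply Finset.mem_union_right
    simp)
  have hU0Q : Pi.single 0 Q ∈ U := hTU _ (by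
    rw [hT]
    apply Finset.mem_union_right
    simp)
  have hU1P : Pi.single 1 P ∈ U := hTU _ (by
    rw [hT]
    apply Finset.mem_union_right
    simp)
  have hU1Q : Pi.single 1 Q ∈ U := hTU _ (by
    rw [hT]
    apply Finset.mem_union_right
    simp)
  -- the relations
  have hrel2 : ∀ s, ∑ p : Fin 7 × Fin 5, (z5 s p.1 p.2 : ℤ) • e p = 0 := by
    intro s
    funext j
    rw [Finset.sum_apply, Fintype.sum_prod_type]
    have h1 := hrel s j
    rw [Pi.zero_apply, ← h1]
    apply Finset.sum_congr rfl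
    intro k _
    rw [Finset.mul_sum]
    apply Finset.sum_congr rfl
    intro i _
    rw [he]
    simp only [Pi.smul_apply, zsmul_eq_mul]
    ring
  have hUe : ∀ p, e p ∈ U := by
    intro p
    by_cases hp : ∃ s, B5Wpl s = p
    · obtain ⟨s, hs⟩ := hp
      have h1 := hrel2 s
      rw [← Finset.add_sum_erase Finset.univ _ (Finset.mem_univ p)] at h1
      have h2 : ∑ q ∈ Finset.univ.erase p, (z5 s q.1 q.2 : ℤ) • e q ∈ U := by
        apply Submodule.sum_mem
        intro q hq
        have hqp : q ≠ p := (Finset.mem_erase.mp hq).1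
        by_cases hq2 : ∃ t, B5Wpl t = q
        · obtain ⟨t, ht⟩ := hq2
          have hts : t ≠ s := by
            intro h
            apply hqp
            rw [← ht, ← hs, h]
          have h3 := B5W_pl2 s t hts
          rw [ht] at h3
          rw [h3, zero_smul]
          exact U.zero_mem
        · exact U.toAddSubgroup.zsmul_mem (hUe0 q hq2) _
      have h4 : (z5 s p.1 p.2 : ℤ) • e p ∈ U := by
        rw [add_eq_zero_iff_eq_neg] at h1
        rw [h1]
        exact U.neg_mem h2
      have h5 := B5W_pl1 s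
      rw [hs] at h5
      rcases h5 with h5 | h5
      · rw [h5, one_smul] at h4
        exact h4
      · rw [h5, neg_smul, one_smul] at h4
        exact U.neg_mem_iff.mp h4
    · exact hUe0 p hp
  -- products with two coordinates
  have hsing : ∀ (j : Fin 10) (z : S) (α β : ZMod 7), z = α • P + β • Q → Pi.single j P ∈ U →
      Pi.single j Q ∈ U → (Pi.single j z : Fin 10 → S) ∈ U := by
    intro j z α β hz h1 h2
    have h3 : (Pi.single j z : Fin 10 → S) =
        α • (Pi.single j P : Fin 10 → S) + β • (Pi.single j Q : Fin 10 → S) := by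
      rw [hz, Pi.single_add, Pi.single_smul, Pi.single_smul]
    rw [h3]
    exact U.add_mem (U.smul_mem _ h1) (U.smul_mem _ h2)
  have hU2 : ∀ a b (k : Fin 7), (fun j => y a * y b * c5 y j k) ∈ U := by
    intro a b k
    have h1 : (fun j => y a * y b * c5 y j k) =
        Pi.single 0 (y a * y b * c5 y 0 k) + Pi.single 1 (y a * y b * c5 y 1 k) := by
      funext j
      by_cases hj : 2 ≤ j.val
      · have h2 : (j : Fin 10) ≠ 0 := by
          intro h
          rw [h] at hj
          simp at hj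
        have h3 : (j : Fin 10) ≠ 1 := by
          intro h
          rw [h] at hj
          simp at hj
        rw [Pi.add_apply, Pi.single_eq_of_ne h2, Pi.single_eq_of_ne h3, add_zero]
        exact hc4 a b _ (hquad j k hj)
      · have h2 : j = 0 ∨ j = 1 := by
          rcases j with ⟨j, hj10⟩
          simp only [not_le] at hj
          interval_cases j
          · left; rfl
          · right; rfl
        rcases h2 with h2 | h2
        · subst h2
          simp
        · subst h2
          simp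
    rw [h1]
    obtain ⟨α, β, h2⟩ := hc3' a b _ (hlin 0 k)
    obtain ⟨α', β', h3⟩ := hc3' a b _ (hlin 1 k)
    exact U.add_mem (hsing 0 _ α β h2 hU0P hU0Q) (hsing 1 _ α' β' h3 hU1P hU1Q)
  have hz3 : ∀ a b f (d : S) (k : Fin 7) , (fun j => d * y f * (y a * y b * c5 y j k)) = 0 := by
    intro a b f d k
    funext j
    have h1 := hlin j k
    rw [Ideal.mem_span_range_iff_exists_fun] at h1
    obtain ⟨g, hg⟩ := h1
    rw [← hg, Pi.zero_apply, Finset.mul_sum, Finset.mul_sum]
    apply Finset.sum_eq_zero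
    intro i _
    have := hquart a b f i
    calc d * y f * (y a * y b * (g i * y i)) = d * g i * (y a * y b * y f * y i) := by ring
      _ = 0 := by rw [this, mul_zero]
  -- the three steps
  have hA : ∀ (d : S) a b (k : Fin 7), (fun j => d * (y a * y b * c5 y j k)) ∈ U := by
    intro d a b k
    obtain ⟨t, g, hd⟩ := hdec d
    have h1 : (fun j => d * (y a * y b * c5 y j k)) = t • (fun j => y a * y b * c5 y j k) +
        ∑ i, (fun j => g i * y i * (y a * y b * c5 y j k)) := by
      funext j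
      rw [Pi.add_apply, Finset.sum_apply, Pi.smul_apply, Algebra.smul_def, ← Finset.sum_mul]
      rw [hd]
      ring
    rw [h1]
    apply U.add_mem (U.smul_mem _ (hU2 a b k))
    apply Submodule.sum_mem
    intro i _
    rw [hz3]
    exact U.zero_mem
  have hB : ∀ (d : S) a (k : Fin 7), (fun j => d * (y a * c5 y j k)) ∈ U := by
    intro d a k
    obtain ⟨t, g, hd⟩ := hdec d
    have h1 : (fun j => d * (y a * c5 y j k)) = t • e (k, a) +
        ∑ i, (fun j => g i * (y i * y a * c5 y j k)) := by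
      funext j
      rw [Pi.add_apply, Finset.sum_apply, Pi.smul_apply, Algebra.smul_def, he, hd, add_mul, Finset.sum_mul]
      congr 1
      apply Finset.sum_congr rfl
      intro i _
      ring
    rw [h1]
    apply U.add_mem (U.smul_mem _ (hUe _))
    apply Submodule.sum_mem
    intro i _
    exact hA (g i) i a k
  have hC : ∀ (d : S) (k : Fin 7), (fun j => d * c5 y j k) ∈ U := by
    intro d k
    obtain ⟨t, g, hd⟩ := hdec d
    have h1 : (fun j => d * c5 y j k) = t • Cc k + ∑ i, (fun j => g i * (y i * c5 y j k)) := by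
      funext j
      rw [Pi.add_apply, Finset.sum_apply, Pi.smul_apply, Algebra.smul_def, hCc, hd, add_mul, Finset.sum_mul]
      congr 1
      apply Finset.sum_congr rfl
      intro i _
      ring
    rw [h1]
    apply U.add_mem (U.smul_mem _ (hUC _))
    apply Submodule.sum_mem
    intro i _
    exact hB (g i) i k
  have hfin : Module.Finite (ZMod 7) U := by
    rw [hU]
    exact Module.Finite.span_of_finite (ZMod 7) (Finset.finite_toSet T)
  refine ⟨U, ?_, Module.finite_of_finite (ZMod 7), hC⟩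
  rw [Module.natCard_eq_pow_finrank (K := ZMod 7), Nat.card_zmod]
  apply Nat.pow_le_pow_right (by norm_num)
  have h1 := finrank_span_finset_le_card (R := ZMod 7) T
  rw [hU]
  exact le_trans h1 hTc

/-- The squares of the first five coordinates and the extra generators are in the ideal. -/
private lemma B5W_sq (c : ℕ) (hc : 5 ≤ c) (i : Fin 5) : xR hc i ^ 2 ∈ bJ 5 (g5 (xP hc)) := by
  have h1 : bR 5 (Fin.castLE hc i) = xR hc i ^ 2 := by
    have h2 : bx 5 (Fin.castLE hc i) = 2 := by
      unfold bx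
      rw [if_pos]
      simp
    unfold bR ba
    rw [h2, map_pow]
    rfl
  rw [← h1]
  exact Ideal.mem_sup_left (Ideal.subset_span (Set.mem_range_self _))

private lemma B5W_gen (c : ℕ) (hc : 5 ≤ c) (k : Fin 2) : g5 (xR hc) k ∈ bJ 5 (g5 (xP hc)) := by
  have h1 : toR c (g5 (xP hc) k) = g5 (xR hc) k := by
    fin_cases k <;> simp [g5, xR]
  rw [← h1]
  exact Ideal.mem_sup_right (Ideal.subset_span (Set.mem_range_self (f := fun k => toR c (g5 (xP hc) k)) k))

private lemma B5W_org (c : ℕ) (hc : 5 ≤ c) (w : PP c) (hw : w ∈ org c) :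
    toR c w ∈ Ideal.span (Set.range (xR hc)) ⊔ bJ 5 (g5 (xP hc)) := by
  have h0 : Ideal.span (Set.range (X : Fin c → PP c)) ≤
      (Ideal.span (Set.range (xR hc)) ⊔ bJ 5 (g5 (xP hc))).comap (toR c) := by
    rw [Ideal.span_le]
    rintro _ ⟨v, rfl⟩
    show toR c (X v) ∈ Ideal.span (Set.range (xR hc)) ⊔ bJ 5 (g5 (xP hc))
    by_cases hv : v.val < 5
    · apply Ideal.mem_sup_left
      exact Ideal.subset_span ⟨⟨v.val, hv⟩, rfl⟩
    · apply Ideal.mem_sup_right
      apply Ideal.mem_sup_left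
      have h2 : bR 5 v = toR c (X v) := by
        have h3 : bx 5 v = 1 := by
          unfold bx
          rw [if_neg hv]
        unfold bR ba
        rw [h3, pow_one]
      rw [← h2]
      exact Ideal.subset_span (Set.mem_range_self _)
  have h1 := org_eq c
  exact h0 (h1 ▸ hw)

private lemma B5W_dec (hBG2 : St_BG2) (c : ℕ) (hc : 5 ≤ c) (s : RR c ⧸ bJ 5 (g5 (xP hc))) :
    ∃ (l : ZMod 7) (b : Fin 5 → RR c ⧸ bJ 5 (g5 (xP hc))), s = algebraMap (ZMod 7) _ l +
      ∑ i, b i * Ideal.Quotient.mk (bJ 5 (g5 (xP hc))) (xR hc i) := by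
  obtain ⟨r, rfl⟩ := Ideal.Quotient.mk_surjective s
  obtain ⟨u, hu⟩ := (hBG2 5 c hc).2.2.2 r
  have h1 : u - C (constantCoeff u) ∈ org c := by
    rw [mem_org]
    simp
  have h2 := B5W_org c hc _ h1
  rw [Submodule.mem_sup] at h2
  obtain ⟨a, ha, z, hz, haz⟩ := h2
  rw [Ideal.mem_span_range_iff_exists_fun] at ha
  obtain ⟨d, hd⟩ := ha
  refine ⟨constantCoeff u, fun i => Ideal.Quotient.mk _ (d i), ?_⟩
  have h3 : Ideal.Quotient.mk (bJ 5 (g5 (xP hc))) r = Ideal.Quotient.mk (bJ 5 (g5 (xP hc))) (toR c u) := by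
    rw [Ideal.Quotient.eq]
    exact Ideal.mem_sup_left hu
  have h4 : algebraMap (ZMod 7) (RR c ⧸ bJ 5 (g5 (xP hc))) (constantCoeff u) =
      Ideal.Quotient.mk (bJ 5 (g5 (xP hc))) (toR c (C (constantCoeff u))) := rfl
  have h5 : Ideal.Quotient.mk (bJ 5 (g5 (xP hc))) z = 0 := Ideal.Quotient.eq_zero_iff_mem.mpr hz
  have h6 : toR c u = toR c (C (constantCoeff u)) + (a + z) := by
    rw [haz, map_sub]
    ring
  rw [h3, h4, h6, map_add, map_add, h5, add_zero, ← hd, map_sum]
  simp only [map_mul]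

theorem B5W : St_B5W := by
  intro _ hBG2 hB5R hB5S c hc
  obtain ⟨I, hI⟩ : ∃ I : Ideal (RR c), I = bJ 5 (g5 (xP hc)) := ⟨_, rfl⟩
  have hmap : ∀ j k, Ideal.Quotient.mk (bJ 5 (g5 (xP hc))) (c5 (xR hc) j k) =
      c5 (fun i => Ideal.Quotient.mk (bJ 5 (g5 (xP hc))) (xR hc i)) j k := by
    intro j k
    exact B5W_map (A := RR c) (B := RR c ⧸ bJ 5 (g5 (xP hc))) (Ideal.Quotient.mk (bJ 5 (g5 (xP hc)))) (xR hc) j k
  have hS := hB5S (RR c) (xR hc) (bJ 5 (g5 (xP hc))) (B5W_sq c hc) (B5W_gen c hc)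
  obtain ⟨U, hU1, hU2, hU3⟩ := B5W_core (RR c ⧸ bJ 5 (g5 (xP hc)))
    (fun i => Ideal.Quotient.mk (bJ 5 (g5 (xP hc))) (xR hc i)) (B5W_dec hBG2 c hc)
    (by
      intro a b e
      obtain ⟨l, m, hlm⟩ := hS.1 a b e
      refine ⟨l, m, ?_⟩
      have h1 := Ideal.Quotient.eq_zero_iff_mem.mpr hlm
      simp only [map_sub, map_mul, map_intCast] at h1
      linear_combination h1)
    (by
      intro a b e f
      have h1 := Ideal.Quotient.eq_zero_iff_mem.mpr (hS.2 a b e f)
      simpa only [map_mul] using h1)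
    (by
      intro s j
      have h1 := (hB5R (RR c) (xR hc)).2 (bJ 5 (g5 (xP hc))) (B5W_sq c hc) (B5W_gen c hc) s j
      have h2 := Ideal.Quotient.eq_zero_iff_mem.mpr h1
      rw [map_sum] at h2
      rw [← h2]
      apply Finset.sum_congr rfl
      intro k _
      rw [map_mul, hmap, map_sum]
      simp only [map_mul, map_intCast])
  have hsub : ∀ v ∈ Submodule.span (RR c) (Set.range (fun (k : Fin 7) (j : Fin 10) =>
      Ideal.Quotient.mk (bJ 5 (g5 (xP hc))) (c5 (xR hc) j k))), v ∈ U := by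
    intro v hv
    rw [Submodule.mem_span_range_iff_exists_fun] at hv
    obtain ⟨r, hr⟩ := hv
    rw [← hr]
    apply Submodule.sum_mem
    intro k _
    have h1 : (r k • fun (j : Fin 10) => Ideal.Quotient.mk (bJ 5 (g5 (xP hc))) (c5 (xR hc) j k)) =
        fun j => Ideal.Quotient.mk (bJ 5 (g5 (xP hc))) (r k) *
          c5 (fun i => Ideal.Quotient.mk (bJ 5 (g5 (xP hc))) (xR hc i)) j k := by
      funext j
      rw [Pi.smul_apply, ← hmap]
      rfl
    rw [h1]
    exact hU3 _ k
  refine le_trans ?_ hU1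
  exact Nat.card_le_card_of_injective (fun v => (⟨v.1, hsub v.1 v.2⟩ : U)) (by
    intro v w hvw
    apply Subtype.ext
    exact congrArg (fun z : U => z.1) hvw)

end Pool.Agent.LCB
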