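import Mathlib
import Pool.Agent.LCB.BSt
import Pool.Agent.Helper40.Licci.Ann
import Pool.Agent.Helper40.Licci.Special

/-!
Module B6A: the colon ideal of the example of type `(6, 3, 1)`.
-/

namespace Pool.Agent.LCB

open Pool.Agent.Helper40.Licci RingTheory.Sequence IsLocalRing MvPolynomial

namespace B6Ax

/-- exponent vector: `a`, `b` for the first two variables, the mask `t` for the next four -/
noncomputable def ex (c a b : ℕ) (t : Fin 16) : Fin c →₀ ℕ :=
  Finsupp.equivFunOnFinite.symm (fun v =>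
    if v.val = 0 then a else if v.val = 1 then b
    else if v.val < 6 then (t.val.testBit (v.val - 2)).toNat else 0)

lemma ex_apply (c a b : ℕ) (t : Fin 16) (v : Fin c) : ex c a b t v =
    if v.val = 0 then a else if v.val = 1 then b
    else if v.val < 6 then (t.val.testBit (v.val - 2)).toNat else 0 := rfl

variable {c : ℕ}

/-- the first variable -/
def v0 (hc : 6 ≤ c) : Fin c := Fin.castLE hc 0

/-- the second variable -/
def v1 (hc : 6 ≤ c) : Fin c := Fin.castLE hc 1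

/-- the next four variables -/
def vy (hc : 6 ≤ c) (i : Fin 4) : Fin c := Fin.castLE hc ⟨i.val + 2, by omega⟩

lemma v0_val (hc : 6 ≤ c) : (v0 hc).val = 0 := rfl

lemma v1_val (hc : 6 ≤ c) : (v1 hc).val = 1 := rfl

lemma ex_v0 (hc : 6 ≤ c) (a b : ℕ) (t : Fin 16) : ex c a b t (v0 hc) = a := by
  rw [ex_apply, if_pos (v0_val hc)]

lemma ex_v1 (hc : 6 ≤ c) (a b : ℕ) (t : Fin 16) : ex c a b t (v1 hc) = b := by
  rw [ex_apply, if_neg (by rw [v1_val]; exact one_ne_zero), if_pos (v1_val hc)]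

lemma vy_val (hc : 6 ≤ c) (i : Fin 4) : (vy hc i).val = i.val + 2 := rfl

lemma ex_vy (hc : 6 ≤ c) (a b : ℕ) (t : Fin 16) (i : Fin 4) :
    ex c a b t (vy hc i) = (t.val.testBit i.val).toNat := by
  have hi := i.2
  rw [ex_apply, if_neg (by rw [vy_val]; omega), if_neg (by rw [vy_val]; omega),
    if_pos (by rw [vy_val]; omega), vy_val]
  congr 2

lemma ex_inj (hc : 6 ≤ c) {a b a' b' : ℕ} {t t' : Fin 16} (h : ex c a b t = ex c a' b' t') :
    a = a' ∧ b = b' ∧ t = t' := by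
  refine ⟨?_, ?_, ?_⟩
  · have := DFunLike.congr_fun h (v0 hc)
    rwa [ex_v0, ex_v0] at this
  · have := DFunLike.congr_fun h (v1 hc)
    rwa [ex_v1, ex_v1] at this
  · apply bits_inj
    intro i
    have := DFunLike.congr_fun h (vy hc i)
    rw [ex_vy, ex_vy] at this
    cases h1 : t.val.testBit i.val <;> cases h2 : t'.val.testBit i.val <;> simp_all

/-- coefficient vectors -/
noncomputable def kf (a b : ℕ) (u : PP c) : Fin 16 → ZMod 7 := fun t => coeff (ex c a b t) u

lemma kf_add (a b : ℕ) (u v : PP c) : kf a b (u + v) = kf a b u + kf a b v := by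
  funext t
  exact coeff_add _ _ _

lemma kf_sub (a b : ℕ) (u v : PP c) : kf a b (u - v) = kf a b u - kf a b v := by
  funext t
  exact coeff_sub _ _ _ _

lemma kf_C_mul (a b : ℕ) (r : ZMod 7) (u : PP c) : kf a b (C r * u) = r • kf a b u := by
  funext t
  exact coeff_C_mul _ _ _

lemma kf_X0_zero (hc : 6 ≤ c) (b : ℕ) (u : PP c) : kf 0 b (X (v0 hc) * u) = 0 := by
  funext t
  change coeff (ex c 0 b t) (X (v0 hc) * u) = 0
  rw [coeff_X_mul', if_neg]
  rw [Finsupp.mem_support_iff, ex_v0]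
  exact fun h => h rfl

lemma kf_X1_zero (hc : 6 ≤ c) (a : ℕ) (u : PP c) : kf a 0 (X (v1 hc) * u) = 0 := by
  funext t
  change coeff (ex c a 0 t) (X (v1 hc) * u) = 0
  rw [coeff_X_mul', if_neg]
  rw [Finsupp.mem_support_iff, ex_v1]
  exact fun h => h rfl

lemma kf_X0_one (hc : 6 ≤ c) (b : ℕ) (u : PP c) : kf 1 b (X (v0 hc) * u) = kf 0 b u := by
  funext t
  change coeff (ex c 1 b t) (X (v0 hc) * u) = coeff (ex c 0 b t) u
  rw [coeff_X_mul', if_pos (by rw [Finsupp.mem_support_iff, ex_v0]; exact one_ne_zero)]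
  congr 1
  ext v
  rw [Finsupp.tsub_apply, Finsupp.single_apply]
  by_cases hv : v0 hc = v
  · subst hv
    rw [if_pos rfl, ex_v0, ex_v0]
  · rw [if_neg hv, ex_apply, ex_apply]
    have hv' : ¬ v.val = 0 := fun h => hv (Fin.ext h.symm)
    rw [if_neg hv', if_neg hv']
    rfl

lemma kf_X1_one (hc : 6 ≤ c) (a : ℕ) (u : PP c) : kf a 1 (X (v1 hc) * u) = kf a 0 u := by
  funext t
  change coeff (ex c a 1 t) (X (v1 hc) * u) = coeff (ex c a 0 t) u
  rw [coeff_X_mul', if_pos (by rw [Finsupp.mem_support_iff, ex_v1]; exact one_ne_zero)]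
  congr 1
  ext v
  rw [Finsupp.tsub_apply, Finsupp.single_apply]
  by_cases hv : v1 hc = v
  · subst hv
    rw [if_pos rfl, ex_v1, ex_v1]
  · rw [if_neg hv, ex_apply, ex_apply]
    have hv' : ¬ v.val = 1 := fun h => hv (Fin.ext h.symm)
    by_cases h0 : v.val = 0
    · rw [if_pos h0, if_pos h0]
      rfl
    · rw [if_neg h0, if_neg h0, if_neg hv', if_neg hv']
      rfl

lemma ex_sub_y (hc : 6 ≤ c) (a b : ℕ) (t t' : Fin 16) (i : Fin 4)
    (hs : t.val.testBit i.val = true)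
    (h : ∀ j : Fin 4, t'.val.testBit j.val = if j = i then false else t.val.testBit j.val) :
    ex c a b t - Finsupp.single (vy hc i) 1 = ex c a b t' := by
  ext v
  rw [Finsupp.tsub_apply, Finsupp.single_apply]
  by_cases hv : vy hc i = v
  · subst hv
    rw [if_pos rfl, ex_vy, ex_vy, h i, if_pos rfl, hs]
    rfl
  · rw [if_neg hv, ex_apply, ex_apply]
    by_cases h0 : v.val = 0
    · rw [if_pos h0, if_pos h0]; rfl
    rw [if_neg h0, if_neg h0]
    by_cases h1 : v.val = 1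
    · rw [if_pos h1, if_pos h1]; rfl
    rw [if_neg h1, if_neg h1]
    by_cases h6 : v.val < 6
    · rw [if_pos h6, if_pos h6]
      have h5 := h ⟨v.val - 2, by omega⟩
      have hne : (⟨v.val - 2, by omega⟩ : Fin 4) ≠ i := by
        intro he
        apply hv
        rw [← he]
        apply Fin.ext
        rw [vy_val]
        change v.val - 2 + 2 = v.val
        omega
      rw [if_neg hne] at h5
      change t'.val.testBit (v.val - 2) = t.val.testBit (v.val - 2) at h5
      rw [h5]; rfl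
    · rw [if_neg h6, if_neg h6]; rfl

lemma kf_X_y (hc : 6 ≤ c) (a b : ℕ) (i : Fin 4) (u : PP c) :
    kf a b (X (vy hc i) * u) = (eM i).mulVec (kf a b u) := by
  funext t
  change coeff (ex c a b t) (X (vy hc i) * u) = ∑ t', eM i t t' * kf a b u t'
  rw [coeff_X_mul']
  by_cases hs : t.val.testBit i.val = true
  · obtain ⟨t', hs', hbits⟩ := sub_bit t i hs
    rw [if_pos (by
      rw [Finsupp.mem_support_iff, ex_vy, hs]; decide), ex_sub_y hc a b t t' i hs hbits]
    rw [Finset.sum_eq_single t']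
    · change _ = (if _ ∧ _ then (1 : ZMod 7) else 0) * _
      rw [if_pos ⟨hs, hs'⟩, one_mul]; rfl
    · intro b' _ hb
      change (if _ ∧ _ then (1 : ZMod 7) else 0) * _ = 0
      rw [if_neg, zero_mul]
      rintro ⟨_, hb'⟩
      apply hb
      apply Fin.ext
      omega
    · intro h; exact absurd (Finset.mem_univ _) h
  · rw [if_neg (by
      rw [Finsupp.mem_support_iff, ex_vy]
      simp [hs])]
    symm
    apply Finset.sum_eq_zero
    intro b' _
    change (if _ ∧ _ then (1 : ZMod 7) else 0) * _ = 0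
    rw [if_neg, zero_mul]
    rintro ⟨hb, _⟩
    exact hs hb

/-- the four last variables -/
noncomputable abbrev YY (hc : 6 ≤ c) : Fin 4 → PP c := fun i => X (vy hc i)

lemma kf_quad (hc : 6 ≤ c) (a b : ℕ) (u : PP c) :
    kf a b (quad (YY hc) * u) = qT.mulVec (kf a b u) := by
  have h : quad (YY hc) * u
      = (X (vy hc 0) * (X (vy hc 1) * u) + X (vy hc 2) * (X (vy hc 3) * u))
      + C 2 * (X (vy hc 0) * (X (vy hc 2) * u) + X (vy hc 1) * (X (vy hc 3) * u))
      + C 4 * (X (vy hc 0) * (X (vy hc 3) * u) + X (vy hc 1) * (X (vy hc 2) * u)) := by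
    have e2 : (C 2 : PP c) = 2 := map_ofNat C 2
    have e4 : (C 4 : PP c) = 4 := map_ofNat C 4
    rw [e2, e4]
    unfold quad
    ring
  rw [h, ← qT_eq]
  simp only [kf_add, kf_C_mul, kf_X_y, Matrix.add_mulVec, Matrix.smul_mulVec,
    Matrix.mulVec_mulVec]

lemma kf_lin (hc : 6 ≤ c) (a b : ℕ) (u : PP c) :
    kf a b (lin (YY hc) * u) = lT.mulVec (kf a b u) := by
  rw [← lT_eq]
  simp only [lin, add_mul, kf_add, kf_X_y, Matrix.add_mulVec]

/-- polynomial in the last four variables with prescribed coefficients -/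
noncomputable def pk (c : ℕ) (w : Fin 16 → ZMod 7) : PP c := ∑ t, monomial (ex c 0 0 t) (w t)

lemma kf_pk (hc : 6 ≤ c) (w : Fin 16 → ZMod 7) : kf 0 0 (pk c w) = w := by
  funext t
  change coeff (ex c 0 0 t) (∑ t', monomial (ex c 0 0 t') (w t')) = w t
  rw [coeff_sum, Finset.sum_eq_single t]
  · rw [coeff_monomial, if_pos rfl]
  · intro t' _ ht'
    rw [coeff_monomial, if_neg]
    intro h
    exact ht' (ex_inj hc h).2.2
  · intro h; exact absurd (Finset.mem_univ _) h

lemma kf_pk_zero (hc : 6 ≤ c) (a b : ℕ) (hab : ¬ (a = 0 ∧ b = 0)) (w : Fin 16 → ZMod 7) :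
    kf a b (pk c w) = 0 := by
  funext t
  change coeff (ex c a b t) (∑ t', monomial (ex c 0 0 t') (w t')) = 0
  rw [coeff_sum]
  apply Finset.sum_eq_zero
  intro t' _
  rw [coeff_monomial, if_neg]
  intro h
  obtain ⟨h1, h2, -⟩ := ex_inj hc h
  exact hab ⟨h1.symm, h2.symm⟩

lemma ex_lt (a b : ℕ) (ha : a < 2) (hb : b < 2) (t : Fin 16) (v : Fin c) :
    ex c a b t v < bx 6 v := by
  rw [ex_apply]
  unfold bx
  by_cases h0 : v.val = 0
  · rw [if_pos h0, if_pos (by omega)]; exact ha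
  rw [if_neg h0]
  by_cases h1 : v.val = 1
  · rw [if_pos h1, if_pos (by omega)]; exact hb
  rw [if_neg h1]
  by_cases h6 : v.val < 6
  · rw [if_pos h6, if_pos h6]
    exact lt_of_le_of_lt (Bool.toNat_le _) (by omega)
  · rw [if_neg h6, if_neg h6]; omega

lemma exists_ex (hc : 6 ≤ c) (m : Fin c →₀ ℕ) (hm : ∀ v, m v < bx 6 v) :
    ∃ a b : ℕ, a < 2 ∧ b < 2 ∧ ∃ t, m = ex c a b t := by
  obtain ⟨t, ht⟩ := bits_surj (fun j => decide (m (vy hc j) = 1))
  refine ⟨m (v0 hc), m (v1 hc), ?_, ?_, t, ?_⟩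
  · have h := hm (v0 hc)
    unfold bx at h
    rwa [if_pos (show (v0 hc).val < 6 from Nat.zero_lt_succ 5)] at h
  · have h := hm (v1 hc)
    unfold bx at h
    rwa [if_pos (show (v1 hc).val < 6 from Nat.succ_lt_succ (Nat.zero_lt_succ 4))] at h
  ext v
  have hmv := hm v
  unfold bx at hmv
  rw [ex_apply]
  by_cases h0 : v.val = 0
  · rw [if_pos h0]
    congr 1
    exact Fin.ext h0
  rw [if_neg h0]
  by_cases h1 : v.val = 1
  · rw [if_pos h1]
    congr 1
    exact Fin.ext h1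
  rw [if_neg h1]
  by_cases h6 : v.val < 6
  · rw [if_pos h6]
    rw [if_pos h6] at hmv
    have h3 := ht ⟨v.val - 2, by omega⟩
    have h2 : vy hc ⟨v.val - 2, by omega⟩ = v := by
      apply Fin.ext
      rw [vy_val]
      change v.val - 2 + 2 = v.val
      omega
    rw [h2] at h3
    change t.val.testBit (v.val - 2) = _ at h3
    rw [h3]
    have h4 : m v = 0 ∨ m v = 1 := by omega
    rcases h4 with h4 | h4 <;> simp [h4]
  · rw [if_neg h6]
    rw [if_neg h6] at hmv
    omega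

lemma range_ba : Set.range (ba 6 : Fin c → PP c) =
    (fun s => monomial s (1 : ZMod 7)) '' (Set.range (fun v : Fin c => Finsupp.single v (bx 6 v))) := by
  rw [← Set.range_comp]
  congr 1
  funext v
  simp [ba, X_pow_eq_monomial]

lemma mem_iff (hc : 6 ≤ c) (u : PP c) :
    u ∈ bA 6 c ↔ ∀ a b : ℕ, a < 2 → b < 2 → kf a b u = 0 := by
  unfold bA
  rw [range_ba, mem_ideal_span_monomial_image]
  constructor
  · intro h a b ha hb
    funext t
    by_contra hne
    obtain ⟨_, ⟨v, rfl⟩, hv⟩ := h (ex c a b t) (by rw [mem_support_iff]; exact hne)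
    have h1 := hv v
    have h2 : bx 6 v ≤ ex c a b t v := by simpa using h1
    exact absurd h2 (not_le.mpr (ex_lt a b ha hb t v))
  · intro h m hm
    by_contra hcon
    have hcon' : ∀ v, m v < bx 6 v := by
      intro v
      by_contra hv
      exact hcon ⟨_, ⟨v, rfl⟩, Finsupp.single_le_iff.mpr (not_lt.mp hv)⟩
    obtain ⟨a, b, ha, hb, t, rfl⟩ := exists_ex hc m hcon'
    rw [mem_support_iff] at hm
    apply hm
    exact congrFun (h a b ha hb) t

/-- the annihilator of the quadric -/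
lemma ann (w : Fin 16 → ZMod 7) (h : qT.mulVec w = 0) :
    qT.mulVec (aT.mulVec w) + lT.mulVec (bT.mulVec w) = w := by
  have h1 : (qT * aT + lT * bT + cT * qT).mulVec w = w := by rw [one_eq, Matrix.one_mulVec]
  rw [Matrix.add_mulVec, Matrix.add_mulVec, ← Matrix.mulVec_mulVec, ← Matrix.mulVec_mulVec,
    ← Matrix.mulVec_mulVec, h, Matrix.mulVec_zero, add_zero] at h1
  exact h1

end B6Ax

open B6Ax in
theorem B6A : St_B6A := by
  intro c hc u
  have hX : ∀ i : Fin 6, xP hc i = X (Fin.castLE hc i) := fun i => rfl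
  have hy : y6 (xP hc) = YY hc := rfl
  have h60 : h6 (xP hc) 0 = X (v0 hc) * X (v1 hc) - quad (YY hc) := rfl
  have g60 : g6 (xP hc) 0 = X (v0 hc) * X (v1 hc) + quad (YY hc) := rfl
  have g61 : g6 (xP hc) 1 = X (v0 hc) * lin (YY hc) := rfl
  have g62 : g6 (xP hc) 2 = X (v1 hc) * lin (YY hc) := rfl
  have h7 : (7 : PP c) = 0 := by
    have h1 : (C (7 : ZMod 7) : PP c) = 7 := map_ofNat C 7
    rw [← h1]
    have h2 : (7 : ZMod 7) = 0 := by decide
    rw [h2, map_zero]
  have hsq : ∀ v : Fin c, v.val < 6 → (X v : PP c) ^ 2 ∈ bA 6 c := by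
    intro v hv
    have h1 : ba 6 v ∈ bA 6 c := Ideal.subset_span ⟨v, rfl⟩
    unfold ba bx at h1
    rwa [if_pos hv] at h1
  have hYsq : ∀ i, (YY hc i) ^ 2 ∈ bA 6 c := by
    intro i
    refine hsq _ ?_
    have := i.2
    rw [vy_val]
    omega
  have hq2 := quad_sq_mem h7 (YY hc) (bA 6 c) hYsq
  have hql := quad_lin_mem h7 (YY hc) (bA 6 c) hYsq
  have h00 : (X (v0 hc) : PP c) ^ 2 ∈ bA 6 c := hsq _ (Nat.zero_lt_succ 5)
  have h11 : (X (v1 hc) : PP c) ^ 2 ∈ bA 6 c := hsq _ (Nat.succ_lt_succ (Nat.zero_lt_succ 4))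
  constructor
  · intro hu k
    have hk : k = 0 := Subsingleton.elim _ _
    subst hk
    rw [h60]
    unfold bI at hu
    obtain ⟨p, hp, r, hr, rfl⟩ := Submodule.mem_sup.mp hu
    rw [mul_add]
    refine (bA 6 c).add_mem ((bA 6 c).mul_mem_left _ hp) ?_
    refine Submodule.span_induction (p := fun r _ =>
      (X (v0 hc) * X (v1 hc) - quad (YY hc)) * r ∈ bA 6 c) ?_ ?_ ?_ ?_ hr
    · rintro _ ⟨j, rfl⟩
      fin_cases j
      · change (X (v0 hc) * X (v1 hc) - quad (YY hc)) * g6 (xP hc) 0 ∈ bA 6 c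
        rw [g60]
        have e : (X (v0 hc) * X (v1 hc) - quad (YY hc)) * (X (v0 hc) * X (v1 hc) + quad (YY hc)) =
            X (v1 hc) ^ 2 * X (v0 hc) ^ 2 - quad (YY hc) ^ 2 := by ring
        rw [e]
        exact (bA 6 c).sub_mem ((bA 6 c).mul_mem_left _ h00) hq2
      · change (X (v0 hc) * X (v1 hc) - quad (YY hc)) * g6 (xP hc) 1 ∈ bA 6 c
        rw [g61]
        have e : (X (v0 hc) * X (v1 hc) - quad (YY hc)) * (X (v0 hc) * lin (YY hc)) =
            (X (v1 hc) * lin (YY hc)) * X (v0 hc) ^ 2 - X (v0 hc) * (quad (YY hc) * lin (YY hc)) := by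
          ring
        rw [e]
        exact (bA 6 c).sub_mem ((bA 6 c).mul_mem_left _ h00) ((bA 6 c).mul_mem_left _ hql)
      · change (X (v0 hc) * X (v1 hc) - quad (YY hc)) * g6 (xP hc) 2 ∈ bA 6 c
        rw [g62]
        have e : (X (v0 hc) * X (v1 hc) - quad (YY hc)) * (X (v1 hc) * lin (YY hc)) =
            (X (v0 hc) * lin (YY hc)) * X (v1 hc) ^ 2 - X (v1 hc) * (quad (YY hc) * lin (YY hc)) := by
          ring
        rw [e]
        exact (bA 6 c).sub_mem ((bA 6 c).mul_mem_left _ h11) ((bA 6 c).mul_mem_left _ hql)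
    · change (X (v0 hc) * X (v1 hc) - quad (YY hc)) * 0 ∈ bA 6 c
      rw [mul_zero]
      exact (bA 6 c).zero_mem
    · intro x y _ _ hx hy'
      change (X (v0 hc) * X (v1 hc) - quad (YY hc)) * (x + y) ∈ bA 6 c
      rw [mul_add]
      exact (bA 6 c).add_mem hx hy'
    · intro a x _ hx
      change (X (v0 hc) * X (v1 hc) - quad (YY hc)) * (a • x) ∈ bA 6 c
      rw [smul_eq_mul, mul_left_comm]
      exact (bA 6 c).mul_mem_left _ hx
  · intro h
    have hu := h 0
    rw [h60, mem_iff hc] at hu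
    have hexp : ∀ a b : ℕ, kf a b ((X (v0 hc) * X (v1 hc) - quad (YY hc)) * u) =
        kf a b (X (v0 hc) * (X (v1 hc) * u)) - qT.mulVec (kf a b u) := by
      intro a b
      rw [sub_mul, kf_sub, kf_quad, mul_assoc]
    have e10 : qT.mulVec (kf 1 0 u) = 0 := by
      have h1 := hu 1 0 (by norm_num) (by norm_num)
      rw [hexp, kf_X0_one, kf_X1_zero, zero_sub, neg_eq_zero] at h1
      exact h1
    have e01 : qT.mulVec (kf 0 1 u) = 0 := by
      have h1 := hu 0 1 (by norm_num) (by norm_num)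
      rw [hexp, kf_X0_zero, zero_sub, neg_eq_zero] at h1
      exact h1
    have e11 : kf 0 0 u = qT.mulVec (kf 1 1 u) := by
      have h1 := hu 1 1 (by norm_num) (by norm_num)
      rw [hexp, kf_X0_one, kf_X1_one] at h1
      exact sub_eq_zero.mp h1
    obtain ⟨U, hU⟩ : ∃ U : PP c, U = pk c (kf 1 1 u) + X (v0 hc) * pk c (aT.mulVec (kf 1 0 u)) +
        X (v1 hc) * pk c (aT.mulVec (kf 0 1 u)) := ⟨_, rfl⟩
    obtain ⟨V, hV⟩ : ∃ V : PP c, V = pk c (bT.mulVec (kf 1 0 u)) := ⟨_, rfl⟩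
    obtain ⟨W, hW⟩ : ∃ W : PP c, W = pk c (bT.mulVec (kf 0 1 u)) := ⟨_, rfl⟩
    have n10 : ¬ ((1 : ℕ) = 0 ∧ (0 : ℕ) = 0) := by decide
    have n01 : ¬ ((0 : ℕ) = 0 ∧ (1 : ℕ) = 0) := by decide
    have n11 : ¬ ((1 : ℕ) = 0 ∧ (1 : ℕ) = 0) := by decide
    have U00 : kf 0 0 U = kf 1 1 u := by
      rw [hU, kf_add, kf_add, kf_pk hc, kf_X0_zero, kf_X1_zero, add_zero, add_zero]
    have U10 : kf 1 0 U = aT.mulVec (kf 1 0 u) := by
      rw [hU, kf_add, kf_add, kf_pk_zero hc 1 0 n10, kf_X0_one, kf_X1_zero, kf_pk hc, zero_add,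
        add_zero]
    have U01 : kf 0 1 U = aT.mulVec (kf 0 1 u) := by
      rw [hU, kf_add, kf_add, kf_pk_zero hc 0 1 n01, kf_X0_zero, kf_X1_one, kf_pk hc, zero_add,
        zero_add]
    have U11 : kf 1 1 U = 0 := by
      rw [hU, kf_add, kf_add, kf_pk_zero hc 1 1 n11, kf_X0_one, kf_X1_one,
        kf_pk_zero hc 0 1 n01, kf_pk_zero hc 1 0 n10, zero_add, zero_add]
    have key : u - ((X (v0 hc) * X (v1 hc) + quad (YY hc)) * U + X (v0 hc) * lin (YY hc) * V +
        X (v1 hc) * lin (YY hc) * W) ∈ bA 6 c := by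
      have hexp2 : ∀ a b : ℕ, kf a b (u - ((X (v0 hc) * X (v1 hc) + quad (YY hc)) * U +
          X (v0 hc) * lin (YY hc) * V + X (v1 hc) * lin (YY hc) * W)) =
          kf a b u - (kf a b (X (v0 hc) * (X (v1 hc) * U)) + qT.mulVec (kf a b U) +
            kf a b (X (v0 hc) * (lin (YY hc) * V)) + kf a b (X (v1 hc) * (lin (YY hc) * W))) := by
        intro a b
        rw [kf_sub, kf_add, kf_add, add_mul, kf_add, kf_quad, mul_assoc, mul_assoc, mul_assoc]
      rw [mem_iff hc]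
      intro a b ha hb
      rw [hexp2]
      have ha' : a = 0 ∨ a = 1 := by omega
      have hb' : b = 0 ∨ b = 1 := by omega
      rcases ha' with rfl | rfl <;> rcases hb' with rfl | rfl
      · rw [kf_X0_zero, kf_X0_zero, kf_X1_zero, U00, e11, zero_add, add_zero, add_zero, sub_self]
      · rw [kf_X0_zero, kf_X0_zero, kf_X1_one, kf_lin, U01, hW, kf_pk hc, zero_add, add_zero,
          ann _ e01, sub_self]
      · rw [kf_X0_one, kf_X1_zero, kf_X0_one, kf_lin, kf_X1_zero, U10, hV, kf_pk hc, zero_add,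
          add_zero, ann _ e10, sub_self]
      · rw [kf_X0_one, kf_X1_one, kf_X0_one, kf_lin, kf_X1_one, kf_lin, U11, U00, hV, hW,
          kf_pk_zero hc 0 1 n01, kf_pk_zero hc 1 0 n10, Matrix.mulVec_zero, Matrix.mulVec_zero,
          add_zero, add_zero, add_zero, sub_self]
    have hs : ∀ k, g6 (xP hc) k ∈ bI 6 (g6 (xP hc)) := fun k =>
      Submodule.mem_sup_right (Ideal.subset_span ⟨k, rfl⟩)
    have m0 : (X (v0 hc) * X (v1 hc) + quad (YY hc)) * U ∈ bI 6 (g6 (xP hc)) :=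
      Ideal.mul_mem_right _ _ (hs 0)
    have m1 : X (v0 hc) * lin (YY hc) * V ∈ bI 6 (g6 (xP hc)) := Ideal.mul_mem_right _ _ (hs 1)
    have m2 : X (v1 hc) * lin (YY hc) * W ∈ bI 6 (g6 (xP hc)) := Ideal.mul_mem_right _ _ (hs 2)
    have m3 : u - ((X (v0 hc) * X (v1 hc) + quad (YY hc)) * U + X (v0 hc) * lin (YY hc) * V +
        X (v1 hc) * lin (YY hc) * W) ∈ bI 6 (g6 (xP hc)) := Submodule.mem_sup_left key
    have m4 := (bI 6 (g6 (xP hc))).add_mem m3
      ((bI 6 (g6 (xP hc))).add_mem ((bI 6 (g6 (xP hc))).add_mem m0 m1) m2)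
    rwa [sub_add_cancel] at m4

end Pool.Agent.LCB
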