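import Mathlib
import Pool.Agent.LCB.BSt

/-!
Module B6C: the quotient of the example of type `(6, 3, 1)` has at most `7 ^ 26` elements.
-/

set_option autoImplicit false

namespace Pool.Agent.LCB

open Pool.Agent.Helper40.Licci RingTheory.Sequence IsLocalRing MvPolynomial

/-- relations in degree two and three -/
private lemma B6C_rel {B : Type} [CommRing B] (h7 : (7 : B) = 0) (a y0 y1 y2 y3 : B)
    (s0 : y0 ^ 2 = 0) (s1 : y1 ^ 2 = 0) (s2 : y2 ^ 2 = 0) (s3 : y3 ^ 2 = 0)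
    (hl : a * (y0 + y1 + y2 + y3) = 0)
    (hq : a * ((y0 * y1 + y2 * y3) + 2 * (y0 * y2 + y1 * y3) + 4 * (y0 * y3 + y1 * y2)) = 0) :
    a * (y0 * y2) = 2 * (a * (y0 * y1)) ∧ a * (y1 * y2) = 4 * (a * (y0 * y1)) ∧
      a * (y0 * y1 * y2) = 0 := by
  have g1 : a * (y0 * y2) = 2 * (a * (y0 * y1)) := by
    linear_combination (-40 * y0 - 30 * y1 - 25 * y2 + 20 * y3) * hl + 5 * hq + (40 * a) * s0 +
      (30 * a) * s1 + (25 * a) * s2 - (20 * a) * s3 +
      (a * (9 * (y0 * y1) + 8 * (y0 * y2) + 5 * (y1 * y2))) * h7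
  have g2 : a * (y1 * y2) = 4 * (a * (y0 * y1)) := by
    linear_combination (4 * (y0 + y1 + y2 - y3)) * hl - g1 - (4 * a) * s0 - (4 * a) * s1 -
      (4 * a) * s2 + (4 * a) * s3 + (a * (-2 * (y0 * y1) - y0 * y2 - y1 * y2)) * h7
  refine ⟨g1, g2, ?_⟩
  linear_combination y0 * g2 + (4 * a * y1) * s0

private lemma B6C_mul {B : Type} [CommRing B] [Algebra (ZMod 7) B] {ι : Type} (m : ι → B)
    (N : Submodule (ZMod 7) B) (y : B) (h : ∀ i, y * m i ∈ N) :
    ∀ z ∈ Submodule.span (ZMod 7) (Set.range m), y * z ∈ N := by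
  intro z hz
  have h1 : Submodule.span (ZMod 7) (Set.range m) ≤ N.comap (LinearMap.mulLeft (ZMod 7) y) := by
    rw [Submodule.span_le]
    rintro _ ⟨i, rfl⟩
    exact h i
  exact h1 hz

/-- the squarefree monomials in the four coordinates -/
private def B6C_m4 {B : Type} [CommRing B] (y : Fin 4 → B) (T : Finset (Fin 4)) : B := ∏ i ∈ T, y i

/-- five elements -/
private def B6C_m5 {B : Type} [CommRing B] (y : Fin 4 → B) : Fin 5 → B :=
  ![1, y 0, y 1, y 2, y 0 * y 1]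

private def B6C_N4 {B : Type} [CommRing B] [Algebra (ZMod 7) B] (y : Fin 4 → B) :
    Submodule (ZMod 7) B := Submodule.span (ZMod 7) (Set.range (B6C_m4 y))

private def B6C_N5 {B : Type} [CommRing B] [Algebra (ZMod 7) B] (a : B) (y : Fin 4 → B) :
    Submodule (ZMod 7) B := Submodule.span (ZMod 7) (Set.range fun k => a * B6C_m5 y k)

private lemma B6C_c4 {B : Type} [CommRing B] [Algebra (ZMod 7) B] (y : Fin 4 → B)
    (hs : ∀ i, y i ^ 2 = 0) (j : Fin 4) : ∀ z ∈ B6C_N4 y, y j * z ∈ B6C_N4 y := by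
  refine B6C_mul _ _ _ fun T => ?_
  by_cases h : j ∈ T
  · have h1 : B6C_m4 y T = y j * ∏ i ∈ T.erase j, y i := (Finset.mul_prod_erase T y h).symm
    rw [h1]
    have h2 : y j * (y j * ∏ i ∈ T.erase j, y i) = 0 := by
      linear_combination (∏ i ∈ T.erase j, y i) * hs j
    rw [h2]
    exact Submodule.zero_mem _
  · have h1 : y j * B6C_m4 y T = B6C_m4 y (insert j T) := (Finset.prod_insert h).symm
    rw [h1]
    exact Submodule.subset_span ⟨_, rfl⟩

private lemma B6C_c5 {B : Type} [CommRing B] [Algebra (ZMod 7) B] (h7 : (7 : B) = 0) (a : B)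
    (y : Fin 4 → B) (hs : ∀ i, y i ^ 2 = 0) (hl : a * lin y = 0) (hq : a * quad y = 0)
    (j : Fin 4) : ∀ z ∈ B6C_N5 a y, y j * z ∈ B6C_N5 a y := by
  obtain ⟨g1, g2, g3⟩ := B6C_rel h7 a (y 0) (y 1) (y 2) (y 3) (hs 0) (hs 1) (hs 2) (hs 3) hl hq
  have m0 : a ∈ B6C_N5 a y := Submodule.subset_span ⟨0, by simp [B6C_m5]⟩
  have m1 : a * y 0 ∈ B6C_N5 a y := Submodule.subset_span ⟨1, by simp [B6C_m5]⟩
  have m2 : a * y 1 ∈ B6C_N5 a y := Submodule.subset_span ⟨2, by simp [B6C_m5]⟩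
  have m3 : a * y 2 ∈ B6C_N5 a y := Submodule.subset_span ⟨3, by simp [B6C_m5]⟩
  have m4 : a * (y 0 * y 1) ∈ B6C_N5 a y := Submodule.subset_span ⟨4, by simp [B6C_m5]⟩
  have n1 : a * (y 0 * y 2) ∈ B6C_N5 a y := by
    rw [g1, two_mul]
    exact Submodule.add_mem _ m4 m4
  have n2 : a * (y 1 * y 2) ∈ B6C_N5 a y := by
    have e : 4 * (a * (y 0 * y 1)) = (a * (y 0 * y 1) + a * (y 0 * y 1)) +
        (a * (y 0 * y 1) + a * (y 0 * y 1)) := by ring
    rw [g2, e]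
    exact Submodule.add_mem _ (Submodule.add_mem _ m4 m4) (Submodule.add_mem _ m4 m4)
  have c0 : ∀ k, y 0 * (a * B6C_m5 y k) ∈ B6C_N5 a y := by
    intro k
    fin_cases k
    · show y 0 * (a * 1) ∈ _
      rwa [mul_one, mul_comm]
    · show y 0 * (a * y 0) ∈ _
      have e : y 0 * (a * y 0) = 0 := by linear_combination a * hs 0
      rw [e]
      exact Submodule.zero_mem _
    · show y 0 * (a * y 1) ∈ _
      have e : y 0 * (a * y 1) = a * (y 0 * y 1) := by ring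
      rwa [e]
    · show y 0 * (a * y 2) ∈ _
      have e : y 0 * (a * y 2) = a * (y 0 * y 2) := by ring
      rwa [e]
    · show y 0 * (a * (y 0 * y 1)) ∈ _
      have e : y 0 * (a * (y 0 * y 1)) = 0 := by linear_combination (a * y 1) * hs 0
      rw [e]
      exact Submodule.zero_mem _
  have c1 : ∀ k, y 1 * (a * B6C_m5 y k) ∈ B6C_N5 a y := by
    intro k
    fin_cases k
    · show y 1 * (a * 1) ∈ _
      rwa [mul_one, mul_comm]
    · show y 1 * (a * y 0) ∈ _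
      have e : y 1 * (a * y 0) = a * (y 0 * y 1) := by ring
      rwa [e]
    · show y 1 * (a * y 1) ∈ _
      have e : y 1 * (a * y 1) = 0 := by linear_combination a * hs 1
      rw [e]
      exact Submodule.zero_mem _
    · show y 1 * (a * y 2) ∈ _
      have e : y 1 * (a * y 2) = a * (y 1 * y 2) := by ring
      rwa [e]
    · show y 1 * (a * (y 0 * y 1)) ∈ _
      have e : y 1 * (a * (y 0 * y 1)) = 0 := by linear_combination (a * y 0) * hs 1
      rw [e]
      exact Submodule.zero_mem _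
  have c2 : ∀ k, y 2 * (a * B6C_m5 y k) ∈ B6C_N5 a y := by
    intro k
    fin_cases k
    · show y 2 * (a * 1) ∈ _
      rwa [mul_one, mul_comm]
    · show y 2 * (a * y 0) ∈ _
      have e : y 2 * (a * y 0) = a * (y 0 * y 2) := by ring
      rwa [e]
    · show y 2 * (a * y 1) ∈ _
      have e : y 2 * (a * y 1) = a * (y 1 * y 2) := by ring
      rwa [e]
    · show y 2 * (a * y 2) ∈ _
      have e : y 2 * (a * y 2) = 0 := by linear_combination a * hs 2
      rw [e]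
      exact Submodule.zero_mem _
    · show y 2 * (a * (y 0 * y 1)) ∈ _
      have e : y 2 * (a * (y 0 * y 1)) = 0 := by linear_combination g3
      rw [e]
      exact Submodule.zero_mem _
  have c3 : ∀ k, y 3 * (a * B6C_m5 y k) ∈ B6C_N5 a y := by
    intro k
    have hl' : a * (y 0 + y 1 + y 2 + y 3) = 0 := hl
    have e : y 3 * (a * B6C_m5 y k) = -(y 0 * (a * B6C_m5 y k) + y 1 * (a * B6C_m5 y k) +
        y 2 * (a * B6C_m5 y k)) := by
      linear_combination (B6C_m5 y k) * hl'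
    rw [e]
    exact Submodule.neg_mem _ (Submodule.add_mem _ (Submodule.add_mem _ (c0 k) (c1 k)) (c2 k))
  refine B6C_mul _ _ _ fun k => ?_
  fin_cases j
  · exact c0 k
  · exact c1 k
  · exact c2 k
  · exact c3 k

/-- `a` times a squarefree monomial -/
private lemma B6C_a4 {B : Type} [CommRing B] [Algebra (ZMod 7) B] (h7 : (7 : B) = 0) (a : B)
    (y : Fin 4 → B) (hs : ∀ i, y i ^ 2 = 0) (hl : a * lin y = 0) (hq : a * quad y = 0)
    (T : Finset (Fin 4)) : a * B6C_m4 y T ∈ B6C_N5 a y := by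
  induction T using Finset.induction_on with
  | empty =>
    have e : a * B6C_m4 y ∅ = a := by simp [B6C_m4]
    rw [e]
    exact Submodule.subset_span ⟨0, by simp [B6C_m5]⟩
  | insert j T hj ih =>
    have e : a * B6C_m4 y (insert j T) = y j * (a * B6C_m4 y T) := by
      unfold B6C_m4
      rw [Finset.prod_insert hj]
      ring
    rw [e]
    exact B6C_c5 h7 a y hs hl hq j _ ih

private lemma B6C_q4 {B : Type} [CommRing B] [Algebra (ZMod 7) B] (y : Fin 4 → B)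
    (hs : ∀ i, y i ^ 2 = 0) (z : B) (hz : z ∈ B6C_N4 y) : quad y * z ∈ B6C_N4 y := by
  have h : ∀ i j, y i * (y j * z) ∈ B6C_N4 y :=
    fun i j => B6C_c4 y hs i _ (B6C_c4 y hs j z hz)
  have e : quad y * z = (y 0 * (y 1 * z) + y 2 * (y 3 * z)) +
      ((y 0 * (y 2 * z) + y 1 * (y 3 * z)) + (y 0 * (y 2 * z) + y 1 * (y 3 * z))) +
      (((y 0 * (y 3 * z) + y 1 * (y 2 * z)) + (y 0 * (y 3 * z) + y 1 * (y 2 * z))) +
      ((y 0 * (y 3 * z) + y 1 * (y 2 * z)) + (y 0 * (y 3 * z) + y 1 * (y 2 * z)))) := by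
    unfold quad
    ring
  have a1 := Submodule.add_mem _ (h 0 1) (h 2 3)
  have a2 := Submodule.add_mem _ (h 0 2) (h 1 3)
  have a3 := Submodule.add_mem _ (h 0 3) (h 1 2)
  rw [e]
  exact Submodule.add_mem _ (Submodule.add_mem _ a1 (Submodule.add_mem _ a2 a2))
    (Submodule.add_mem _ (Submodule.add_mem _ a3 a3) (Submodule.add_mem _ a3 a3))

private lemma B6C_m54 {B : Type} [CommRing B] [Algebra (ZMod 7) B] (y : Fin 4 → B)
    (hs : ∀ i, y i ^ 2 = 0) (k : Fin 5) : B6C_m5 y k ∈ B6C_N4 y := by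
  have h0 : (1 : B) ∈ B6C_N4 y := Submodule.subset_span ⟨∅, by simp [B6C_m4]⟩
  have h1 : ∀ j, y j ∈ B6C_N4 y := fun j => by
    have := B6C_c4 y hs j 1 h0
    rwa [mul_one] at this
  fin_cases k
  · exact h0
  · exact h1 0
  · exact h1 1
  · exact h1 2
  · exact B6C_c4 y hs 0 _ (h1 1)

/-- the 26 elements -/
private def B6C_m {B : Type} [CommRing B] (x : Fin 6 → B) :
    Finset (Fin 4) ⊕ (Fin 5 ⊕ Fin 5) → B
  | Sum.inl T => B6C_m4 (y6 x) T
  | Sum.inr (Sum.inl k) => x 0 * B6C_m5 (y6 x) k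
  | Sum.inr (Sum.inr k) => x 1 * B6C_m5 (y6 x) k

private def B6C_N {B : Type} [CommRing B] [Algebra (ZMod 7) B] (x : Fin 6 → B) :
    Submodule (ZMod 7) B := Submodule.span (ZMod 7) (Set.range (B6C_m x))

private lemma B6C_closed {B : Type} [CommRing B] [Algebra (ZMod 7) B] (h7 : (7 : B) = 0)
    (x : Fin 6 → B) (hs : ∀ i, x i ^ 2 = 0) (hg : ∀ k, g6 x k = 0) (i : Fin 6) :
    ∀ z ∈ B6C_N x, x i * z ∈ B6C_N x := by
  have l4 : B6C_N4 (y6 x) ≤ B6C_N x := by
    apply Submodule.span_mono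
    rintro _ ⟨T, rfl⟩
    exact ⟨Sum.inl T, rfl⟩
  have l50 : B6C_N5 (x 0) (y6 x) ≤ B6C_N x := by
    apply Submodule.span_mono
    rintro _ ⟨k, rfl⟩
    exact ⟨Sum.inr (Sum.inl k), rfl⟩
  have l51 : B6C_N5 (x 1) (y6 x) ≤ B6C_N x := by
    apply Submodule.span_mono
    rintro _ ⟨k, rfl⟩
    exact ⟨Sum.inr (Sum.inr k), rfl⟩
  have hsy : ∀ i, y6 x i ^ 2 = 0 := fun i => hs _
  have hg0 : x 0 * x 1 + quad (y6 x) = 0 := hg 0
  have hl0 : x 0 * lin (y6 x) = 0 := hg 1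
  have hl1 : x 1 * lin (y6 x) = 0 := hg 2
  have hq0 : x 0 * quad (y6 x) = 0 := by
    linear_combination x 0 * hg0 - x 1 * hs 0
  have hq1 : x 1 * quad (y6 x) = 0 := by
    linear_combination x 1 * hg0 - x 0 * hs 1
  have m4 : ∀ T, B6C_m4 (y6 x) T ∈ B6C_N4 (y6 x) := fun T => Submodule.subset_span ⟨T, rfl⟩
  have m50 : ∀ k, x 0 * B6C_m5 (y6 x) k ∈ B6C_N5 (x 0) (y6 x) :=
    fun k => Submodule.subset_span ⟨k, rfl⟩
  have m51 : ∀ k, x 1 * B6C_m5 (y6 x) k ∈ B6C_N5 (x 1) (y6 x) :=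
    fun k => Submodule.subset_span ⟨k, rfl⟩
  have cy : ∀ j : Fin 4, ∀ t, y6 x j * B6C_m x t ∈ B6C_N x := by
    intro j t
    rcases t with T | k | k
    · exact l4 (B6C_c4 (y6 x) hsy j _ (m4 T))
    · exact l50 (B6C_c5 h7 (x 0) (y6 x) hsy hl0 hq0 j _ (m50 k))
    · exact l51 (B6C_c5 h7 (x 1) (y6 x) hsy hl1 hq1 j _ (m51 k))
  have c0 : ∀ t, x 0 * B6C_m x t ∈ B6C_N x := by
    intro t
    rcases t with T | k | k
    · exact l50 (B6C_a4 h7 (x 0) (y6 x) hsy hl0 hq0 T)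
    · have e : x 0 * B6C_m x (Sum.inr (Sum.inl k)) = 0 := by
        show x 0 * (x 0 * B6C_m5 (y6 x) k) = 0
        linear_combination (B6C_m5 (y6 x) k) * hs 0
      rw [e]
      exact Submodule.zero_mem _
    · have e : x 0 * B6C_m x (Sum.inr (Sum.inr k)) = -(quad (y6 x) * B6C_m5 (y6 x) k) := by
        show x 0 * (x 1 * B6C_m5 (y6 x) k) = _
        linear_combination (B6C_m5 (y6 x) k) * hg0
      rw [e]
      exact Submodule.neg_mem _ (l4 (B6C_q4 (y6 x) hsy _ (B6C_m54 (y6 x) hsy k)))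
  have c1 : ∀ t, x 1 * B6C_m x t ∈ B6C_N x := by
    intro t
    rcases t with T | k | k
    · exact l51 (B6C_a4 h7 (x 1) (y6 x) hsy hl1 hq1 T)
    · have e : x 1 * B6C_m x (Sum.inr (Sum.inl k)) = -(quad (y6 x) * B6C_m5 (y6 x) k) := by
        show x 1 * (x 0 * B6C_m5 (y6 x) k) = _
        linear_combination (B6C_m5 (y6 x) k) * hg0
      rw [e]
      exact Submodule.neg_mem _ (l4 (B6C_q4 (y6 x) hsy _ (B6C_m54 (y6 x) hsy k)))
    · have e : x 1 * B6C_m x (Sum.inr (Sum.inr k)) = 0 := by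
        show x 1 * (x 1 * B6C_m5 (y6 x) k) = 0
        linear_combination (B6C_m5 (y6 x) k) * hs 1
      rw [e]
      exact Submodule.zero_mem _
  refine B6C_mul _ _ _ fun t => ?_
  fin_cases i
  · exact c0 t
  · exact c1 t
  · exact cy 0 t
  · exact cy 1 t
  · exact cy 2 t
  · exact cy 3 t

private lemma B6C_g6 {A B : Type} [CommRing A] [CommRing B] (φ : A →+* B) (x : Fin 6 → A)
    (k : Fin 3) : g6 (fun i => φ (x i)) k = φ (g6 x k) := by
  fin_cases k
  · show φ (x 0) * φ (x 1) + quad (y6 fun i => φ (x i)) = φ (x 0 * x 1 + quad (y6 x))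
    have e2 : φ 2 = 2 := map_ofNat φ 2
    have e4 : φ 4 = 4 := map_ofNat φ 4
    simp [quad, y6, e2, e4]
  · show φ (x 0) * lin (y6 fun i => φ (x i)) = φ (x 0 * lin (y6 x))
    simp [lin, y6]
  · show φ (x 1) * lin (y6 fun i => φ (x i)) = φ (x 1 * lin (y6 x))
    simp [lin, y6]

private lemma B6C_top {c : ℕ} (hc : 6 ≤ c) :
    B6C_N (fun i => Ideal.Quotient.mk (bI 6 (g6 (xP hc))) (xP hc i)) = ⊤ := by
  obtain ⟨J, hJ⟩ : ∃ J : Ideal (PP c), J = bI 6 (g6 (xP hc)) := ⟨_, rfl⟩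
  rw [← hJ]
  have hA : ∀ v : Fin c, ba 6 v ∈ J := by
    intro v
    rw [hJ]
    exact Ideal.mem_sup_left (Ideal.subset_span ⟨v, rfl⟩)
  have hg : ∀ k, g6 (xP hc) k ∈ J := by
    intro k
    rw [hJ]
    exact Ideal.mem_sup_right (Ideal.subset_span ⟨k, rfl⟩)
  have h7 : (7 : PP c ⧸ J) = 0 := by
    have h1 : (7 : PP c) = 0 := by
      have h2 : ((7 : ℕ) : PP c) = C ((7 : ℕ) : ZMod 7) :=
        (map_natCast (C : ZMod 7 →+* PP c) 7).symm
      have h3 : ((7 : ℕ) : ZMod 7) = 0 := ZMod.natCast_self 7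
      rw [h3, C_0] at h2
      exact_mod_cast h2
    have h2 : (7 : PP c ⧸ J) = Ideal.Quotient.mk J 7 := (map_ofNat (Ideal.Quotient.mk J) 7).symm
    rw [h2, h1, map_zero]
  have hs : ∀ i : Fin 6, (Ideal.Quotient.mk J (xP hc i)) ^ 2 = 0 := by
    intro i
    rw [← map_pow, Ideal.Quotient.eq_zero_iff_mem]
    have h1 := hA (Fin.castLE hc i)
    have h2 : bx 6 (Fin.castLE hc i) = 2 := by
      unfold bx
      rw [if_pos]
      exact i.2
    unfold ba at h1
    rw [h2] at h1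
    exact h1
  have hgk : ∀ k, g6 (fun i => Ideal.Quotient.mk J (xP hc i)) k = 0 := by
    intro k
    rw [B6C_g6, Ideal.Quotient.eq_zero_iff_mem]
    exact hg k
  rw [eq_top_iff]
  rintro b -
  obtain ⟨u, rfl⟩ := Ideal.Quotient.mk_surjective b
  have h1 : (1 : PP c ⧸ J) ∈ B6C_N (fun i => Ideal.Quotient.mk J (xP hc i)) :=
    Submodule.subset_span ⟨Sum.inl ∅, by simp [B6C_m, B6C_m4]⟩
  induction u using MvPolynomial.induction_on with
  | C a =>
    have e : Ideal.Quotient.mk J (C a) = algebraMap (ZMod 7) (PP c ⧸ J) a := rfl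
    rw [e, Algebra.algebraMap_eq_smul_one]
    exact Submodule.smul_mem _ _ h1
  | add p q hp hq =>
    rw [map_add]
    exact Submodule.add_mem _ hp hq
  | mul_X p v hp =>
    rw [map_mul, mul_comm]
    by_cases hv : v.val < 6
    · exact B6C_closed h7 _ hs hgk ⟨v.val, hv⟩ _ hp
    · have e : Ideal.Quotient.mk J (X v) = 0 := by
        rw [Ideal.Quotient.eq_zero_iff_mem]
        have h2 := hA v
        unfold ba bx at h2
        rw [if_neg hv, pow_one] at h2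
        exact h2
      rw [e, zero_mul]
      exact Submodule.zero_mem _

theorem B6C : St_B6C := by
  intro _ hBG2 _ c hc
  obtain ⟨h1, _, _, h4⟩ := hBG2 6 c hc
  have hmap := h1 3 (g6 (xP hc))
  have hle : bI 6 (g6 (xP hc)) ≤ Ideal.comap (toR c) (bJ 6 (g6 (xP hc))) := by
    rw [← Ideal.map_le_iff_le_comap]
    exact hmap.le
  let θ : (PP c ⧸ bI 6 (g6 (xP hc))) →+* (RR c ⧸ bJ 6 (g6 (xP hc))) :=
    Ideal.quotientMap _ (toR c) hle
  have hθ : Function.Surjective θ := by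
    intro b
    obtain ⟨x, rfl⟩ := Ideal.Quotient.mk_surjective b
    obtain ⟨u, hu⟩ := h4 x
    refine ⟨Ideal.Quotient.mk _ u, ?_⟩
    have e1 : θ (Ideal.Quotient.mk _ u) = Ideal.Quotient.mk _ (toR c u) :=
      Ideal.quotientMap_mk
    rw [e1, eq_comm, Ideal.Quotient.eq]
    exact Ideal.mem_sup_left hu
  let F : (Finset (Fin 4) ⊕ (Fin 5 ⊕ Fin 5) → ZMod 7) → (RR c ⧸ bJ 6 (g6 (xP hc))) :=
    fun w => θ (∑ t, w t • B6C_m (fun i => Ideal.Quotient.mk (bI 6 (g6 (xP hc))) (xP hc i)) t)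
  have hF : Function.Surjective F := by
    intro b
    obtain ⟨z, rfl⟩ := hθ b
    have hz : z ∈ B6C_N (fun i => Ideal.Quotient.mk (bI 6 (g6 (xP hc))) (xP hc i)) := by
      rw [B6C_top hc]
      exact Submodule.mem_top
    obtain ⟨w, hw⟩ := (Submodule.mem_span_range_iff_exists_fun (ZMod 7)).1 hz
    exact ⟨w, by show θ _ = θ z; rw [hw]⟩
  have h5 := Nat.card_le_card_of_surjective F hF
  rw [Nat.card_fun] at h5
  have h6 : Nat.card (Finset (Fin 4) ⊕ (Fin 5 ⊕ Fin 5)) = 26 := by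
    rw [Nat.card_eq_fintype_card]
    simp
  have h7 : Nat.card (ZMod 7) = 7 := by
    rw [Nat.card_eq_fintype_card, ZMod.card]
  rw [h6, h7] at h5
  exact h5

end Pool.Agent.LCB
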