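import Mathlib
import Pool.Agent.LCB.BSt

namespace Pool.Agent.LCB.B6Maux

open Pool.Agent.Helper40.Licci Pool.Agent.LCB

section Gen

variable {A : Type} [CommRing A] (x : Fin 6 → A)

/-- the 37 elements -/
def F : Fin 37 → A :=
  ![g6 x 0 * g6 x 0, g6 x 0 * g6 x 1, g6 x 0 * g6 x 2, g6 x 1 * g6 x 1, g6 x 1 * g6 x 2,
    g6 x 2 * g6 x 2,
    x 0 * (g6 x 0 * g6 x 0), x 1 * (g6 x 0 * g6 x 0), x 3 * (g6 x 0 * g6 x 0),
    x 4 * (g6 x 0 * g6 x 0), x 5 * (g6 x 0 * g6 x 0),
    x 1 * (g6 x 0 * g6 x 1), x 3 * (g6 x 0 * g6 x 1), x 4 * (g6 x 0 * g6 x 1),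
    x 5 * (g6 x 0 * g6 x 1),
    x 3 * (g6 x 0 * g6 x 2), x 4 * (g6 x 0 * g6 x 2), x 5 * (g6 x 0 * g6 x 2),
    x 2 * (g6 x 1 * g6 x 1), x 3 * (g6 x 1 * g6 x 1), x 4 * (g6 x 1 * g6 x 1),
    x 5 * (g6 x 1 * g6 x 1),
    x 2 * (g6 x 1 * g6 x 2), x 3 * (g6 x 1 * g6 x 2), x 4 * (g6 x 1 * g6 x 2),
    x 5 * (g6 x 1 * g6 x 2),
    x 2 * (g6 x 2 * g6 x 2), x 3 * (g6 x 2 * g6 x 2), x 4 * (g6 x 2 * g6 x 2),
    x 5 * (g6 x 2 * g6 x 2),
    x 0 ^ 2 * (x 2 * x 3 * x 4 * x 5), x 1 ^ 2 * (x 2 * x 3 * x 4 * x 5),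
    x 2 ^ 2 * (x 2 * x 3 * x 4 * x 5), x 3 ^ 2 * (x 2 * x 3 * x 4 * x 5),
    x 4 ^ 2 * (x 2 * x 3 * x 4 * x 5), x 5 ^ 2 * (x 2 * x 3 * x 4 * x 5),
    x 0 * x 1 * x 2 * x 3 * x 4 * x 5]

variable (L I : Ideal A)

/-- the additive subgroup generated by `L I` and the 37 elements -/
def W : AddSubgroup A := (L * I).toAddSubgroup ⊔ AddSubgroup.closure (Set.range (F x))

lemma LI_le {z : A} (hz : z ∈ L * I) : z ∈ W x L I := AddSubgroup.mem_sup_left hz

lemma F_mem (i : Fin 37) : F x i ∈ W x L I :=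
  AddSubgroup.mem_sup_right (AddSubgroup.subset_closure ⟨i, rfl⟩)

variable {L I} (h7 : (7 : A) = 0) (hLI : L ≤ I) (hx : ∀ i, x i ^ 2 ∈ L) (hg : ∀ k, g6 x k ∈ I)

include hx in
lemma R1 {z : A} (hz : z ∈ I) : x 0 * (g6 x 1 * z) ∈ L * I := by
  have : x 0 * (g6 x 1 * z) = x 0 ^ 2 * (lin (y6 x) * z) := by
    simp only [g6, Matrix.cons_val_one, Matrix.cons_val_zero]; ring
  rw [this]
  exact Ideal.mul_mem_mul (hx 0) (I.mul_mem_left _ hz)

include hx in
lemma R2 {z : A} (hz : z ∈ I) : x 1 * (g6 x 2 * z) ∈ L * I := by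
  have : x 1 * (g6 x 2 * z) = x 1 ^ 2 * (lin (y6 x) * z) := by
    simp only [g6, Matrix.cons_val]; ring
  rw [this]
  exact Ideal.mul_mem_mul (hx 1) (I.mul_mem_left _ hz)

lemma R3 (z : A) : x 0 * (g6 x 2 * z) = x 1 * (g6 x 1 * z) := by
  simp only [g6, Matrix.cons_val]; ring

include h7 hx in
lemma R4 {z : A} (hz : z ∈ I) :
    (x 2 + x 3 + x 4 + x 5) * (g6 x 0 * z) - x 1 * (g6 x 1 * z) ∈ L * I := by
  have h1 : (x 2 + x 3 + x 4 + x 5) * (g6 x 0 * z) - x 1 * (g6 x 1 * z)
      = (quad (y6 x) * lin (y6 x)) * z := by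
    simp only [g6, Matrix.cons_val, lin, y6]
    simp
    ring
  rw [h1]
  refine Ideal.mul_mem_mul (quad_lin_mem h7 (y6 x) L ?_) hz
  intro i
  exact hx _

include h7 hx hg in
lemma C11 (a : Fin 6) : x a * (g6 x 1 * g6 x 1) ∈ W x L I := by
  fin_cases a
  · exact LI_le x L I (R1 x hx (hg 1))
  · have : x 1 * (g6 x 1 * g6 x 1) = x 0 * (g6 x 1 * g6 x 2) := by
      rw [← R3 x (g6 x 1)]; ring
    change x 1 * (g6 x 1 * g6 x 1) ∈ _
    rw [this]
    exact LI_le x L I (R1 x hx (hg 2))
  · exact F_mem x L I 18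
  · exact F_mem x L I 19
  · exact F_mem x L I 20
  · exact F_mem x L I 21

include h7 hx hg in
lemma C12 (a : Fin 6) : x a * (g6 x 1 * g6 x 2) ∈ W x L I := by
  fin_cases a
  · exact LI_le x L I (R1 x hx (hg 2))
  · have : x 1 * (g6 x 1 * g6 x 2) = x 1 * (g6 x 2 * g6 x 1) := by ring
    change x 1 * (g6 x 1 * g6 x 2) ∈ _
    rw [this]
    exact LI_le x L I (R2 x hx (hg 1))
  · exact F_mem x L I 22
  · exact F_mem x L I 23
  · exact F_mem x L I 24
  · exact F_mem x L I 25

include h7 hx hg in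
lemma C22 (a : Fin 6) : x a * (g6 x 2 * g6 x 2) ∈ W x L I := by
  fin_cases a
  · change x 0 * (g6 x 2 * g6 x 2) ∈ _
    rw [R3 x (g6 x 2)]
    exact C12 x h7 hx hg 1
  · exact LI_le x L I (R2 x hx (hg 2))
  · exact F_mem x L I 26
  · exact F_mem x L I 27
  · exact F_mem x L I 28
  · exact F_mem x L I 29

include h7 hx hg in
lemma C00 (a : Fin 6) : x a * (g6 x 0 * g6 x 0) ∈ W x L I := by
  fin_cases a
  · exact F_mem x L I 6
  · exact F_mem x L I 7
  · have h := LI_le x L I (R4 x h7 hx (hg 0))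
    have e : x 2 * (g6 x 0 * g6 x 0) =
        ((x 2 + x 3 + x 4 + x 5) * (g6 x 0 * g6 x 0) - x 1 * (g6 x 1 * g6 x 0))
        + x 1 * (g6 x 0 * g6 x 1) - x 3 * (g6 x 0 * g6 x 0) - x 4 * (g6 x 0 * g6 x 0)
        - x 5 * (g6 x 0 * g6 x 0) := by ring
    change x 2 * (g6 x 0 * g6 x 0) ∈ _
    rw [e]
    exact sub_mem (sub_mem (sub_mem (add_mem h (F_mem x L I 11)) (F_mem x L I 8))
      (F_mem x L I 9)) (F_mem x L I 10)
  · exact F_mem x L I 8
  · exact F_mem x L I 9
  · exact F_mem x L I 10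

include h7 hx hg in
lemma C01 (a : Fin 6) : x a * (g6 x 0 * g6 x 1) ∈ W x L I := by
  fin_cases a
  · have : x 0 * (g6 x 0 * g6 x 1) = x 0 * (g6 x 1 * g6 x 0) := by ring
    change x 0 * (g6 x 0 * g6 x 1) ∈ _
    rw [this]
    exact LI_le x L I (R1 x hx (hg 0))
  · exact F_mem x L I 11
  · have h := LI_le x L I (R4 x h7 hx (hg 1))
    have e : x 2 * (g6 x 0 * g6 x 1) =
        ((x 2 + x 3 + x 4 + x 5) * (g6 x 0 * g6 x 1) - x 1 * (g6 x 1 * g6 x 1))
        + x 1 * (g6 x 1 * g6 x 1) - x 3 * (g6 x 0 * g6 x 1) - x 4 * (g6 x 0 * g6 x 1)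
        - x 5 * (g6 x 0 * g6 x 1) := by ring
    change x 2 * (g6 x 0 * g6 x 1) ∈ _
    rw [e]
    exact sub_mem (sub_mem (sub_mem (add_mem h (C11 x h7 hx hg 1)) (F_mem x L I 12))
      (F_mem x L I 13)) (F_mem x L I 14)
  · exact F_mem x L I 12
  · exact F_mem x L I 13
  · exact F_mem x L I 14

include h7 hx hg in
lemma C02 (a : Fin 6) : x a * (g6 x 0 * g6 x 2) ∈ W x L I := by
  fin_cases a
  · have : x 0 * (g6 x 0 * g6 x 2) = x 1 * (g6 x 0 * g6 x 1) := by
      have := R3 x (g6 x 0)
      linear_combination this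
    change x 0 * (g6 x 0 * g6 x 2) ∈ _
    rw [this]
    exact F_mem x L I 11
  · have : x 1 * (g6 x 0 * g6 x 2) = x 1 * (g6 x 2 * g6 x 0) := by ring
    change x 1 * (g6 x 0 * g6 x 2) ∈ _
    rw [this]
    exact LI_le x L I (R2 x hx (hg 0))
  · have h := LI_le x L I (R4 x h7 hx (hg 2))
    have e : x 2 * (g6 x 0 * g6 x 2) =
        ((x 2 + x 3 + x 4 + x 5) * (g6 x 0 * g6 x 2) - x 1 * (g6 x 1 * g6 x 2))
        + x 1 * (g6 x 1 * g6 x 2) - x 3 * (g6 x 0 * g6 x 2) - x 4 * (g6 x 0 * g6 x 2)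
        - x 5 * (g6 x 0 * g6 x 2) := by ring
    change x 2 * (g6 x 0 * g6 x 2) ∈ _
    rw [e]
    exact sub_mem (sub_mem (sub_mem (add_mem h (C12 x h7 hx hg 1)) (F_mem x L I 15))
      (F_mem x L I 16)) (F_mem x L I 17)
  · exact F_mem x L I 15
  · exact F_mem x L I 16
  · exact F_mem x L I 17

include h7 hx hg in
lemma C1 (a : Fin 6) (k l : Fin 3) : x a * (g6 x k * g6 x l) ∈ W x L I := by
  have sw : ∀ i j : Fin 3, x a * (g6 x i * g6 x j) = x a * (g6 x j * g6 x i) := by
    intro i j; ring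
  fin_cases k <;> fin_cases l
  · exact C00 x h7 hx hg a
  · exact C01 x h7 hx hg a
  · exact C02 x h7 hx hg a
  · rw [sw]; exact C01 x h7 hx hg a
  · exact C11 x h7 hx hg a
  · exact C12 x h7 hx hg a
  · rw [sw]; exact C02 x h7 hx hg a
  · rw [sw]; exact C12 x h7 hx hg a
  · exact C22 x h7 hx hg a

lemma C0 (k l : Fin 3) : g6 x k * g6 x l ∈ W x L I := by
  have sw : ∀ i j : Fin 3, g6 x i * g6 x j = g6 x j * g6 x i := by
    intro i j; ring
  fin_cases k <;> fin_cases l
  · exact F_mem x L I 0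
  · exact F_mem x L I 1
  · exact F_mem x L I 2
  · rw [sw]; exact F_mem x L I 1
  · exact F_mem x L I 3
  · exact F_mem x L I 4
  · rw [sw]; exact F_mem x L I 2
  · rw [sw]; exact F_mem x L I 4
  · exact F_mem x L I 5

/-- products of `n` coordinates -/
def S (n : ℕ) : AddSubgroup A :=
  AddSubgroup.closure {y | ∃ l : List (Fin 6), l.length = n ∧ y = (l.map x).prod}

lemma S_mul {m n : ℕ} {y z : A} (hy : y ∈ S x m) (hz : z ∈ S x n) : y * z ∈ S x (m + n) := by
  unfold S at hy hz ⊢
  induction hy using AddSubgroup.closure_induction with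
  | mem y hy =>
    obtain ⟨l, hl, rfl⟩ := hy
    induction hz using AddSubgroup.closure_induction with
    | mem z hz =>
      obtain ⟨l', hl', rfl⟩ := hz
      refine AddSubgroup.subset_closure ⟨l ++ l', by simp [hl, hl'], by simp⟩
    | zero => rw [mul_zero]; exact zero_mem _
    | add a b _ _ ha hb => rw [mul_add]; exact add_mem ha hb
    | neg a _ ha => rw [mul_neg]; exact neg_mem ha
  | zero => rw [zero_mul]; exact zero_mem _
  | add a b _ _ ha hb => rw [add_mul]; exact add_mem ha hb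
  | neg a _ ha => rw [neg_mul]; exact neg_mem ha

lemma S_two (a b : Fin 6) : x a * x b ∈ S x 2 :=
  AddSubgroup.subset_closure ⟨[a, b], rfl, by simp⟩

lemma S_one (a : Fin 6) : x a ∈ S x 1 :=
  AddSubgroup.subset_closure ⟨[a], rfl, by simp⟩

lemma g_mem (k : Fin 3) : g6 x k ∈ S x 2 := by
  fin_cases k
  · have e : g6 x 0 = x 0 * x 1 + x 2 * x 3 + x 4 * x 5 + (2 : ℕ) • (x 2 * x 4)
        + (2 : ℕ) • (x 3 * x 5) + (4 : ℕ) • (x 2 * x 5) + (4 : ℕ) • (x 3 * x 4) := by
      simp only [g6, Matrix.cons_val, quad, y6]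
      simp
      ring
    change g6 x 0 ∈ _
    rw [e]
    exact add_mem (add_mem (add_mem (add_mem (add_mem (add_mem (S_two x 0 1) (S_two x 2 3))
      (S_two x 4 5)) (nsmul_mem (S_two x 2 4) 2)) (nsmul_mem (S_two x 3 5) 2))
      (nsmul_mem (S_two x 2 5) 4)) (nsmul_mem (S_two x 3 4) 4)
  · have e : g6 x 1 = x 0 * x 2 + x 0 * x 3 + x 0 * x 4 + x 0 * x 5 := by
      simp only [g6, Matrix.cons_val, lin, y6]
      simp
      ring
    change g6 x 1 ∈ _
    rw [e]
    exact add_mem (add_mem (add_mem (S_two x 0 2) (S_two x 0 3)) (S_two x 0 4)) (S_two x 0 5)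
  · have e : g6 x 2 = x 1 * x 2 + x 1 * x 3 + x 1 * x 4 + x 1 * x 5 := by
      simp only [g6, Matrix.cons_val, lin, y6]
      simp
      ring
    change g6 x 2 ∈ _
    rw [e]
    exact add_mem (add_mem (add_mem (S_two x 1 2) (S_two x 1 3)) (S_two x 1 4)) (S_two x 1 5)

/-- a list which is not duplicate free -/
lemma dup {l : List (Fin 6)} (h : ¬ l.Nodup) : ∃ (a : Fin 6) (l' : List (Fin 6)),
    l.Perm (a :: a :: l') := by
  rw [← List.exists_duplicate_iff_not_nodup] at h
  obtain ⟨a, ha⟩ := h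
  rw [List.duplicate_iff_two_le_count] at ha
  have h1 : [a, a].Subperm l := by
    rw [List.subperm_ext_iff]
    intro y hy
    simp at hy
    subst hy
    simpa using ha
  obtain ⟨l1, hp, hs⟩ := h1
  have h2 := hs.subperm
  refine ⟨a, l.diff [a, a], ?_⟩
  have h3 : [a, a].Subperm l := ⟨l1, hp, hs⟩
  have := List.subperm_append_diff_self_of_count_le (l₁ := [a, a]) (l₂ := l) (by
    intro y hy
    simp at hy
    subst hy
    simpa using ha)
  exact this.symm

/-- a list of coordinates of length four, modulo `I` -/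
lemma S4 (hS : St_B6S) {K : Ideal A} (h7 : (7 : A) = 0) (hx : ∀ i, x i ^ 2 ∈ K)
    (hg : ∀ k, g6 x k ∈ K) (l : List (Fin 6)) (hl : l.length = 4) :
    ∃ n : ℤ, (l.map x).prod - (n : A) * (x 2 * x 3 * x 4 * x 5) ∈ K := by
  match l, hl with
  | [a, b, e, f], _ =>
    obtain ⟨n, hn⟩ := (hS A x K h7 hx hg).1 a b e f
    refine ⟨n, ?_⟩
    simp only [List.map_cons, List.map_nil, List.prod_cons, List.prod_nil, mul_one]
    rw [← mul_assoc, ← mul_assoc]
    exact hn

lemma S5 (hS : St_B6S) {K : Ideal A} (h7 : (7 : A) = 0) (hx : ∀ i, x i ^ 2 ∈ K)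
    (hg : ∀ k, g6 x k ∈ K) (l : List (Fin 6)) (hl : l.length = 5) :
    (l.map x).prod ∈ K := by
  match l, hl with
  | [a, b, e, f, g], _ =>
    have hn := (hS A x K h7 hx hg).2 a b e f g
    simp only [List.map_cons, List.map_nil, List.prod_cons, List.prod_nil, mul_one]
    rw [← mul_assoc, ← mul_assoc, ← mul_assoc]
    exact hn

include h7 hLI hx hg in
lemma clA (hS : St_B6S) {y : A} (hy : y ∈ S x 6) : y ∈ W x L I := by
  have hxI : ∀ i, x i ^ 2 ∈ I := fun i => hLI (hx i)
  unfold S at hy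
  induction hy using AddSubgroup.closure_induction with
  | mem y hy =>
    obtain ⟨l, hl, rfl⟩ := hy
    by_cases hd : l.Nodup
    · have hu : l.Perm (List.finRange 6) := by
        apply (List.perm_ext_iff_of_nodup hd (List.nodup_finRange 6)).mpr
        intro a
        refine ⟨fun _ => List.mem_finRange a, fun _ => ?_⟩
        have h1 : l.toFinset = Finset.univ := by
          apply Finset.eq_univ_of_card
          rw [List.toFinset_card_of_nodup hd, hl]
          rfl
        have h2 : a ∈ l.toFinset := by rw [h1]; exact Finset.mem_univ a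
        exact List.mem_toFinset.mp h2
      rw [(hu.map x).prod_eq]
      have e : ((List.finRange 6).map x).prod = x 0 * x 1 * x 2 * x 3 * x 4 * x 5 := by
        rw [← List.ofFn_eq_map, List.prod_ofFn, Fin.prod_univ_six]
      rw [e]
      exact F_mem x L I 36
    · obtain ⟨a, l', hp⟩ := dup hd
      have hl' : l'.length = 4 := by
        have := hp.length_eq
        simp at this
        omega
      rw [(hp.map x).prod_eq]
      obtain ⟨n, hn⟩ := S4 x hS h7 hxI hg l' hl'
      have e : ((a :: a :: l').map x).prod = x a ^ 2 * ((l'.map x).prod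
          - (n : A) * (x 2 * x 3 * x 4 * x 5)) + n • (x a ^ 2 * (x 2 * x 3 * x 4 * x 5)) := by
        simp only [List.map_cons, List.prod_cons, zsmul_eq_mul]
        ring
      rw [e]
      refine add_mem (LI_le x L I (Ideal.mul_mem_mul (hx a) hn)) (zsmul_mem ?_ n)
      fin_cases a
      · exact F_mem x L I 30
      · exact F_mem x L I 31
      · exact F_mem x L I 32
      · exact F_mem x L I 33
      · exact F_mem x L I 34
      · exact F_mem x L I 35
  | zero => exact zero_mem _
  | add a b _ _ ha hb => exact add_mem ha hb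
  | neg a _ ha => exact neg_mem ha

include h7 hLI hx hg in
lemma clB (hS : St_B6S) {y : A} (hy : y ∈ S x 7) : y ∈ L * I := by
  have hxI : ∀ i, x i ^ 2 ∈ I := fun i => hLI (hx i)
  unfold S at hy
  induction hy using AddSubgroup.closure_induction with
  | mem y hy =>
    obtain ⟨l, hl, rfl⟩ := hy
    have hd : ¬ l.Nodup := by
      intro h
      have := h.length_le_card
      simp [hl] at this
    obtain ⟨a, l', hp⟩ := dup hd
    have hl' : l'.length = 5 := by
      have := hp.length_eq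
      simp at this
      omega
    rw [(hp.map x).prod_eq]
    have hn := S5 x hS h7 hxI hg l' hl'
    have e : ((a :: a :: l').map x).prod = x a ^ 2 * (l'.map x).prod := by
      simp only [List.map_cons, List.prod_cons]
      ring
    rw [e]
    exact Ideal.mul_mem_mul (hx a) hn
  | zero => exact zero_mem _
  | add a b _ _ ha hb => exact add_mem ha hb
  | neg a _ ha => exact neg_mem ha

include h7 hLI hx hg in
/-- all lists of coordinates times the product of two generators -/
lemma all_lists (hS : St_B6S) (k l : Fin 3) (t : List (Fin 6)) :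
    (t.map x).prod * (g6 x k * g6 x l) ∈ W x L I := by
  match t with
  | [] => simpa using C0 x (L := L) (I := I) k l
  | [a] => simpa using C1 x h7 hx hg a k l
  | [a, b] =>
    have h : ([a, b].map x).prod * (g6 x k * g6 x l) ∈ S x (2 + (2 + 2)) := by
      simp only [List.map_cons, List.map_nil, List.prod_cons, List.prod_nil, mul_one]
      exact S_mul x (S_two x a b) (S_mul x (g_mem x k) (g_mem x l))
    exact clA x h7 hLI hx hg hS h
  | a :: b :: e :: t' =>
    have h : x e * ((x a * x b) * (g6 x k * g6 x l)) ∈ S x (1 + (2 + (2 + 2))) :=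
      S_mul x (S_one x e) (S_mul x (S_two x a b) (S_mul x (g_mem x k) (g_mem x l)))
    have h2 := clB x h7 hLI hx hg hS h
    have e1 : ((a :: b :: e :: t').map x).prod * (g6 x k * g6 x l)
        = (t'.map x).prod * (x e * ((x a * x b) * (g6 x k * g6 x l))) := by
      simp only [List.map_cons, List.prod_cons]
      ring
    rw [e1]
    exact LI_le x L I (Ideal.mul_mem_left _ _ h2)

end Gen

/-- the additive group generated by `n` elements of a group of exponent `7` -/
lemma card_closure {G : Type*} [AddCommGroup G] (h7 : ∀ g : G, 7 • g = 0) (n : ℕ)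
    (f : Fin n → G) : Nat.card (AddSubgroup.closure (Set.range f)) ≤ 7 ^ n ∧
      Finite (AddSubgroup.closure (Set.range f)) := by
  let _ : Module (ZMod 7) G := AddCommGroup.zmodModule h7
  have h1 : AddSubgroup.closure (Set.range f) ≤
      (LinearMap.range (Fintype.linearCombination (ZMod 7) f)).toAddSubgroup := by
    rw [AddSubgroup.closure_le]
    rintro _ ⟨i, rfl⟩
    refine ⟨Pi.single i 1, ?_⟩
    simp [Fintype.linearCombination_apply_single]
  have hfin : Finite (LinearMap.range (Fintype.linearCombination (ZMod 7) f)) :=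
    Finite.of_surjective _ (LinearMap.surjective_rangeRestrict _)
  have h2 : Nat.card (LinearMap.range (Fintype.linearCombination (ZMod 7) f)) ≤ 7 ^ n := by
    refine le_trans (Nat.card_le_card_of_surjective _
      (LinearMap.surjective_rangeRestrict (Fintype.linearCombination (ZMod 7) f))) ?_
    rw [Nat.card_fun, Nat.card_fin, Nat.card_zmod]
  have hfin2 : Finite (LinearMap.range (Fintype.linearCombination (ZMod 7) f)).toAddSubgroup := hfin
  exact ⟨le_trans (Nat.card_le_card_of_injective (AddSubgroup.inclusion h1)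
      (AddSubgroup.inclusion_injective h1)) h2,
    Finite.of_injective (AddSubgroup.inclusion h1) (AddSubgroup.inclusion_injective h1)⟩

end Pool.Agent.LCB.B6Maux

namespace Pool.Agent.LCB

open Pool.Agent.Helper40.Licci RingTheory.Sequence IsLocalRing MvPolynomial B6Maux

lemma seven_RR (c : ℕ) : (7 : RR c) = 0 := by
  have h1 : (7 : RR c) = toR c (C (7 : ZMod 7)) := by
    rw [map_ofNat, map_ofNat]
  have h2 : (7 : ZMod 7) = 0 := by decide
  rw [h1, h2, map_zero, map_zero]

lemma xR_sq {c : ℕ} (hc : 6 ≤ c) (i : Fin 6) : xR hc i ^ 2 ∈ bL 6 c := by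
  refine Ideal.subset_span ⟨Fin.castLE hc i, ?_⟩
  unfold bR ba bx xR xP
  rw [if_pos (by simp), map_pow]

lemma toR_g6 {c : ℕ} (hc : 6 ≤ c) (k : Fin 3) : toR c (g6 (xP hc) k) = g6 (xR hc) k := by
  fin_cases k
  · change toR c (xP hc 0 * xP hc 1 + quad (y6 (xP hc))) = xR hc 0 * xR hc 1 + quad (y6 (xR hc))
    rw [map_add, map_mul]
    unfold quad
    simp only [map_add, map_mul, map_ofNat]
    rfl
  · change toR c (xP hc 0 * lin (y6 (xP hc))) = xR hc 0 * lin (y6 (xR hc))
    rw [map_mul]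
    unfold lin
    simp only [map_add]
    rfl
  · change toR c (xP hc 1 * lin (y6 (xP hc))) = xR hc 1 * lin (y6 (xR hc))
    rw [map_mul]
    unfold lin
    simp only [map_add]
    rfl

theorem B6M : St_B6M := by
  intro _ h2 hS c hc
  set L := bL 6 c with hL
  set I := bJ 6 (g6 (xP hc)) with hI
  have hLI : L ≤ I := le_sup_left
  have h7 := seven_RR c
  have hx : ∀ i, xR hc i ^ 2 ∈ L := xR_sq hc
  have hg : ∀ k, g6 (xR hc) k ∈ I := by
    intro k
    rw [← toR_g6]
    exact Ideal.mem_sup_right (Ideal.subset_span ⟨k, rfl⟩)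
  obtain ⟨_, _, _, happ⟩ := h2 6 c hc
  -- every element times a product of two generators
  have key : ∀ (u : PP c) (k l : Fin 3) (t : List (Fin c)),
      toR c u * ((t.map (fun v => toR c (X v))).prod * (g6 (xR hc) k * g6 (xR hc) l)) ∈
        W (xR hc) L I := by
    intro u k l
    induction u using MvPolynomial.induction_on with
    | C a =>
      intro t
      have hlist : (t.map (fun v => toR c (X v))).prod * (g6 (xR hc) k * g6 (xR hc) l)
          ∈ W (xR hc) L I := by
        by_cases hall : ∀ v ∈ t, v.val < 6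
        · have : ∃ t' : List (Fin 6), t.map (fun v => toR c (X v)) = t'.map (xR hc) := by
            clear * - hall
            induction t with
            | nil => exact ⟨[], rfl⟩
            | cons a t ih =>
              obtain ⟨t', ht'⟩ := ih (fun v hv => hall v (List.mem_cons_of_mem _ hv))
              refine ⟨⟨a.val, hall a List.mem_cons_self⟩ :: t', ?_⟩
              rw [List.map_cons, List.map_cons, ht']
              rfl
          obtain ⟨t', ht'⟩ := this
          rw [ht']
          exact all_lists (xR hc) h7 hLI hx hg hS k l t'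
        · push Not at hall
          obtain ⟨v, hv, hv6⟩ := hall
          have hvL : toR c (X v) ∈ L := by
            refine Ideal.subset_span ⟨v, ?_⟩
            unfold bR ba bx
            rw [if_neg (by omega), pow_one]
          have hpL : (t.map (fun v => toR c (X v))).prod ∈ L := by
            have hdvd : toR c (X v) ∣ (t.map (fun v => toR c (X v))).prod :=
              List.dvd_prod (List.mem_map_of_mem hv)
            exact Ideal.mem_of_dvd L hdvd hvL
          exact LI_le _ _ _ (Ideal.mul_mem_mul hpL (I.mul_mem_left _ (hg l)))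
      have e : toR c (C a) = ((a.val : ℕ) : RR c) := by
        have : (C a : PP c) = ((a.val : ℕ) : PP c) := by
          rw [← map_natCast (C : ZMod 7 →+* PP c), ZMod.natCast_zmod_val]
        rw [this, map_natCast]
      rw [e, ← nsmul_eq_mul]
      exact nsmul_mem hlist _
    | add p q hp hq =>
      intro t
      rw [map_add, add_mul]
      exact add_mem (hp t) (hq t)
    | mul_X p n hp =>
      intro t
      have := hp (n :: t)
      rw [List.map_cons, List.prod_cons] at this
      rw [map_mul]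
      have e : toR c p * toR c (X n) * ((t.map (fun v => toR c (X v))).prod *
          (g6 (xR hc) k * g6 (xR hc) l)) = toR c p * (toR c (X n) *
          (t.map (fun v => toR c (X v))).prod * (g6 (xR hc) k * g6 (xR hc) l)) := by ring
      rw [e]
      exact this
  have key2 : ∀ (r : RR c) (k l : Fin 3), r * (g6 (xR hc) k * g6 (xR hc) l) ∈
      W (xR hc) L I := by
    intro r k l
    obtain ⟨u, hu⟩ := happ r
    have e : r * (g6 (xR hc) k * g6 (xR hc) l) =
        (r - toR c u) * (g6 (xR hc) k * g6 (xR hc) l)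
        + toR c u * ((([] : List (Fin c)).map (fun v => toR c (X v))).prod *
          (g6 (xR hc) k * g6 (xR hc) l)) := by
      simp only [List.map_nil, List.prod_nil]
      ring
    rw [e]
    exact add_mem (LI_le _ _ _ (Ideal.mul_mem_mul hu (I.mul_mem_left _ (hg l)))) (key u k l [])
  have hIspan : I = L ⊔ Ideal.span (Set.range (g6 (xR hc))) := by
    have e : (fun k => toR c (g6 (xP hc) k)) = g6 (xR hc) := funext (toR_g6 hc)
    rw [hI]
    unfold bJ
    rw [e]
  have key3 : ∀ z ∈ I * I, z ∈ W (xR hc) L I := by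
    have hle : I * I ≤ (L * I) ⊔ Ideal.span (Set.range (g6 (xR hc))) *
        Ideal.span (Set.range (g6 (xR hc))) := by
      conv_lhs => rw [hIspan]
      rw [Ideal.sup_mul, Ideal.mul_sup, Ideal.mul_sup]
      refine sup_le (sup_le ?_ ?_) (sup_le ?_ le_sup_right)
      · exact le_sup_of_le_left (Ideal.mul_mono_right hLI)
      · exact le_sup_of_le_left (Ideal.mul_mono_right (by rw [hIspan]; exact le_sup_right))
      · rw [mul_comm]
        exact le_sup_of_le_left (Ideal.mul_mono_right (by rw [hIspan]; exact le_sup_right))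
    intro z hz
    obtain ⟨a, ha, b, hb, rfl⟩ := Submodule.mem_sup.mp (hle hz)
    refine add_mem (LI_le _ _ _ ha) ?_
    rw [Ideal.span_mul_span'] at hb
    refine Submodule.span_induction (p := fun b _ => ∀ r : RR c, r * b ∈ W (xR hc) L I)
      ?_ ?_ ?_ ?_ hb 1 |> fun h => by simpa using h
    · rintro _ ⟨_, ⟨k, rfl⟩, _, ⟨l, rfl⟩, rfl⟩ r
      exact key2 r k l
    · intro r
      rw [mul_zero]
      exact zero_mem _
    · intro a b _ _ ha hb r
      rw [mul_add]
      exact add_mem (ha r) (hb r)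
    · intro s a _ ha r
      have e : r * (s • a) = (r * s) * a := by rw [smul_eq_mul]; ring
      rw [e]
      exact ha _
  -- counting
  have hLI2 : L * I ≤ I * I := Ideal.mul_mono_left hLI
  let G := RR c ⧸ (L * I)
  have hG7 : ∀ g : G, 7 • g = 0 := by
    intro g
    obtain ⟨r, rfl⟩ := Ideal.Quotient.mk_surjective g
    rw [← map_nsmul, nsmul_eq_mul]
    have : ((7 : ℕ) : RR c) = 0 := by exact_mod_cast h7
    rw [this, zero_mul, map_zero]
  obtain ⟨hcard, hfin⟩ := card_closure hG7 37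
    (fun i => Ideal.Quotient.mk (L * I) (F (xR hc) i))
  have hker : ∀ z ∈ I * I, Ideal.Quotient.mk (L * I) z ∈
      AddSubgroup.closure (Set.range (fun i => Ideal.Quotient.mk (L * I) (F (xR hc) i))) := by
    intro z hz
    obtain ⟨a, ha, b, hb, rfl⟩ := AddSubgroup.mem_sup.mp (key3 z hz)
    have ha' : Ideal.Quotient.mk (L * I) a = 0 := Ideal.Quotient.eq_zero_iff_mem.mpr ha
    rw [map_add, ha', zero_add]
    have hm : AddSubgroup.map (Ideal.Quotient.mk (L * I)).toAddMonoidHom
        (AddSubgroup.closure (Set.range (F (xR hc)))) =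
        AddSubgroup.closure (Set.range (fun i => Ideal.Quotient.mk (L * I) (F (xR hc) i))) := by
      rw [AddMonoidHom.map_closure, ← Set.range_comp]
      rfl
    rw [← hm]
    exact ⟨b, hb, rfl⟩
  have hq := card_ker_mul_card_of_surjective (fac hLI2) (fac_surjective hLI2)
  rw [← hq]
  refine Nat.mul_le_mul_right _ (le_trans ?_ hcard)
  refine Nat.card_le_card_of_injective (fun y : LinearMap.ker (fac hLI2) =>
    (⟨y.1, ?_⟩ : AddSubgroup.closure (Set.range
      (fun i => Ideal.Quotient.mk (L * I) (F (xR hc) i))))) ?_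
  · obtain ⟨z, hz, hzy⟩ := exists_of_mem_ker_fac hLI2 y.2
    rw [← hzy]
    exact hker z hz
  · intro y y' h
    exact Subtype.ext (congrArg (fun w => w.1) h)

end Pool.Agent.LCB
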