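import Mathlib
import Pool.Agent.LCB.BSt
import Pool.Agent.LCB.Com

/-!
The number of homomorphisms in the example `(6, 3, 1)`.
-/

namespace Pool.Agent.LCB

open Pool.Agent.Helper40.Licci RingTheory.Sequence IsLocalRing MvPolynomial

theorem B6T : St_B6T := by
  intro g1 g2 g3 t3 t4 b6a b6s b6c b6m c hc
  obtain ⟨reg, cm, eL, fL, sL, c7⟩ := g1 6 c hc
  obtain ⟨mI, mA, tr, lift⟩ := g2 6 c hc
  have cA := g3 g2 6 c hc
  set I : Ideal (RR c) := bJ 6 (g6 (xP hc)) with hI
  have hLI : bL 6 c ≤ I := le_sup_left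
  have fI : Finite (RR c ⧸ I) := Finite.of_surjective _ (fac_surjective hLI)
  have hIpos : 0 < Nat.card (RR c ⧸ I) := Nat.card_pos
  have h4 := t4 (RR c) c (bR 6) I cm hLI fL
  have hMS : Nat.card (RR c ⧸ (bL 6 c * I)) ≤ 7 ^ 37 * Nat.card (RR c ⧸ (I * I)) :=
    b6m g1 g2 b6s c hc
  have h26 : Nat.card (RR c ⧸ I) ≤ 7 ^ 26 := b6c g1 g2 b6s c hc
  -- the socle
  have memI : ∀ u : PP c, toR c u ∈ I ↔ u ∈ bI 6 (g6 (xP hc)) := by
    intro u
    rw [hI, ← mI]
    exact tr _ le_sup_left u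
  have memL : ∀ u : PP c, toR c u ∈ bL 6 c ↔ u ∈ bA 6 c := by
    intro u
    rw [← mA]
    exact tr _ le_rfl u
  set w : RR c := toR c (h6 (xP hc) 0) with hw
  have key : ∀ x : RR c, x ∈ I ↔ w * x ∈ bL 6 c := by
    intro x
    obtain ⟨u, hu⟩ := lift x
    have e1 : x ∈ I ↔ toR c u ∈ I := by
      constructor
      · intro hx
        have : toR c u = x - (x - toR c u) := by ring
        rw [this]
        exact Ideal.sub_mem _ hx (hLI hu)
      · intro hx
        have : x = (x - toR c u) + toR c u := by ring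
        rw [this]
        exact Ideal.add_mem _ (hLI hu) hx
    have e2 : w * x ∈ bL 6 c ↔ w * toR c u ∈ bL 6 c := by
      constructor
      · intro hx
        have : w * toR c u = w * x - w * (x - toR c u) := by ring
        rw [this]
        exact Ideal.sub_mem _ hx (Ideal.mul_mem_left _ _ hu)
      · intro hx
        have : w * x = w * (x - toR c u) + w * toR c u := by ring
        rw [this]
        exact Ideal.add_mem _ (Ideal.mul_mem_left _ _ hu) hx
    rw [e1, e2, memI, b6a c hc u, hw, ← map_mul, memL]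
    constructor
    · intro h; exact h 0
    · intro h k
      have : k = 0 := Subsingleton.elim _ _
      subst this
      exact h
  have sI : Nat.card (soc (RR c) (RR c ⧸ I)) ≤ Nat.card (RR c ⧸ maximalIdeal (RR c)) := by
    refine le_trans ?_ sL
    have hb : ∀ x ∈ I, w * x ∈ bL 6 c := fun x hx => (key x).mp hx
    have hinj : Function.Injective (mulQ w hb) := by
      rw [← LinearMap.ker_eq_bot, LinearMap.ker_eq_bot']
      intro v hv
      obtain ⟨x, rfl⟩ := Submodule.Quotient.mk_surjective _ v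
      rw [mulQ_mk, Submodule.Quotient.mk_eq_zero] at hv
      rw [Submodule.Quotient.mk_eq_zero]
      exact (key x).mpr hv
    refine Nat.card_le_card_of_injective
      (fun z : soc (RR c) (RR c ⧸ I) => (⟨mulQ w hb z.1, ?_⟩ : soc (RR c) (RR c ⧸ bL 6 c))) ?_
    · have hz := z.2
      rw [Submodule.mem_torsionBySet_iff] at hz ⊢
      intro r
      have := hz r
      rw [← map_smul, this, map_zero]
    · intro z z' hzz
      apply Subtype.ext
      apply hinj
      exact congrArg (fun v => v.1) hzz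
  have h3 := t3 (RR c) I (IsNoetherian.noetherian I) fI sI
  intro heq
  rw [heq] at h3
  have hL' : Nat.card (RR c ⧸ Ideal.span (Set.range (bR 6 : Fin c → RR c))) = 7 ^ (2 ^ 6) := cA
  rw [hL'] at h4
  have h4' : Nat.card (RR c ⧸ (bL 6 c * I)) = 7 ^ (2 ^ 6) * Nat.card (RR c ⧸ I) ^ c := h4
  rw [h4'] at hMS
  have h5 : 7 ^ (2 ^ 6) * Nat.card (RR c ⧸ I) ^ c ≤
      7 ^ 37 * (Nat.card (RR c ⧸ I) ^ c * 7 ^ 26) := by
    refine le_trans hMS (Nat.mul_le_mul_left _ (le_trans h3 (Nat.mul_le_mul_left _ h26)))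
  have h6 : 0 < Nat.card (RR c ⧸ I) ^ c := Nat.pow_pos hIpos
  have h7 : (7 : ℕ) ^ (2 ^ 6) = 7 ^ 37 * (7 ^ 26 * 7) := by norm_num
  rw [h7] at h5
  nlinarith [Nat.pow_pos (n := 37) (show 0 < 7 by norm_num),
    Nat.pow_pos (n := 26) (show 0 < 7 by norm_num)]

end Pool.Agent.LCB
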