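import Mathlib
import Pool.Agent.LCB.BSt
import Pool.Agent.Helper40.Licci.Ann

/-!
The colon ideal of the example of type `(8, 2, 1)`.
-/

namespace Pool.Agent.LCB

open Pool.Agent.Helper40.Licci RingTheory.Sequence IsLocalRing MvPolynomial

namespace B8Aaux

lemma bA_eq (c : ℕ) : bA 8 c = Ideal.span (Set.range (alp (c := c))) := rfl

lemma x8_eq {c : ℕ} (hc : 8 ≤ c) : x8 (xP hc) = fun i => X (vx hc i) := rfl

lemma y8_eq {c : ℕ} (hc : 8 ≤ c) : y8 (xP hc) = fun i => X (vy hc i) := by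
  funext i
  unfold y8 xP
  congr 1
  apply Fin.ext
  change i.val + 4 = 4 + i.val
  omega

lemma seven_PP (c : ℕ) : (7 : PP c) = 0 := by
  have h1 : (7 : PP c) = C (7 : ZMod 7) := by rw [map_ofNat]
  have h2 : (7 : ZMod 7) = 0 := by decide
  rw [h1, h2, map_zero]

lemma xP_sq {c : ℕ} (hc : 8 ≤ c) (i : Fin 8) : xP hc i ^ 2 ∈ bA 8 c := by
  refine Ideal.subset_span ⟨Fin.castLE hc i, ?_⟩
  unfold ba bx xP
  rw [if_pos (by simp)]

end B8Aaux

open B8Aaux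

theorem B8A : St_B8A := by
  intro c hc u
  have hq0 : ∀ i, (x8 (xP hc)) i ^ 2 ∈ bA 8 c := fun i => xP_sq hc _
  have hq1 : ∀ i, (y8 (xP hc)) i ^ 2 ∈ bA 8 c := fun i => xP_sq hc _
  constructor
  · intro hu k
    fin_cases k
    change (quad (x8 (xP hc)) - quad (y8 (xP hc))) * u ∈ bA 8 c
    obtain ⟨a, ha, z, hz, rfl⟩ := Submodule.mem_sup.mp hu
    rw [mul_add]
    refine Ideal.add_mem _ (Ideal.mul_mem_left _ _ ha) ?_
    obtain ⟨w, hw⟩ := Ideal.mem_span_range_iff_exists_fun.mp hz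
    rw [← hw, Fin.sum_univ_two]
    have e0 : g8 (xP hc) 0 = quad (x8 (xP hc)) + quad (y8 (xP hc)) := rfl
    have e1 : g8 (xP hc) 1 = lin (x8 (xP hc)) * lin (y8 (xP hc)) := rfl
    rw [e0, e1]
    have e : (quad (x8 (xP hc)) - quad (y8 (xP hc))) *
        (w 0 * (quad (x8 (xP hc)) + quad (y8 (xP hc))) +
          w 1 * (lin (x8 (xP hc)) * lin (y8 (xP hc)))) =
        w 0 * (quad (x8 (xP hc)) ^ 2) - w 0 * (quad (y8 (xP hc)) ^ 2)
        + w 1 * lin (y8 (xP hc)) * (quad (x8 (xP hc)) * lin (x8 (xP hc)))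
        - w 1 * lin (x8 (xP hc)) * (quad (y8 (xP hc)) * lin (y8 (xP hc))) := by ring
    rw [e]
    refine Ideal.sub_mem _ (Ideal.add_mem _ (Ideal.sub_mem _ ?_ ?_) ?_) ?_
    · exact Ideal.mul_mem_left _ _ (quad_sq_mem (seven_PP c) _ _ hq0)
    · exact Ideal.mul_mem_left _ _ (quad_sq_mem (seven_PP c) _ _ hq1)
    · exact Ideal.mul_mem_left _ _ (quad_lin_mem (seven_PP c) _ _ hq0)
    · exact Ideal.mul_mem_left _ _ (quad_lin_mem (seven_PP c) _ _ hq1)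
  · intro h
    have h0 := h 0
    change (quad (x8 (xP hc)) - quad (y8 (xP hc))) * u ∈ bA 8 c at h0
    rw [x8_eq, y8_eq, bA_eq] at h0
    obtain ⟨U, V, h1⟩ := ann_poly hc u h0
    rw [← x8_eq, ← y8_eq, ← bA_eq] at h1
    have hle : bA 8 c ≤ bI 8 (g8 (xP hc)) := le_sup_left
    have hg : ∀ k, g8 (xP hc) k ∈ bI 8 (g8 (xP hc)) := fun k =>
      Ideal.mem_sup_right (Ideal.subset_span ⟨k, rfl⟩)
    have e : u = (u - (quad (x8 (xP hc)) + quad (y8 (xP hc))) * U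
        - lin (x8 (xP hc)) * lin (y8 (xP hc)) * V)
        + (U * g8 (xP hc) 0 + V * g8 (xP hc) 1) := by
      have e0 : g8 (xP hc) 0 = quad (x8 (xP hc)) + quad (y8 (xP hc)) := rfl
      have e1 : g8 (xP hc) 1 = lin (x8 (xP hc)) * lin (y8 (xP hc)) := rfl
      rw [e0, e1]
      ring
    rw [e]
    exact Ideal.add_mem _ (hle h1) (Ideal.add_mem _ (Ideal.mul_mem_left _ _ (hg 0))
      (Ideal.mul_mem_left _ _ (hg 1)))

end Pool.Agent.LCB
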