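import Mathlib
import Pool.Agent.LCB.BSt

/-!
Module B8Q: the quadrics of the example of type `(8, 2, 1)` are squarefree and linearly independent.
-/

namespace Pool.Agent.LCB

open Pool.Agent.Helper40.Licci RingTheory.Sequence IsLocalRing MvPolynomial

private lemma B8Q_mul {n c : ℕ} (hn : n ≤ c) (i j : Fin n) (hij : i ≠ j) : SQ n (xP hn i * xP hn j) := by
  refine Submodule.subset_span ⟨Fin.castLE hn i, Fin.castLE hn j, ?_, i.2, j.2, rfl⟩
  intro h
  exact hij (Fin.castLE_injective hn h)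

private lemma B8Q_add {n c : ℕ} {f g : PP c} (hf : SQ n f) (hg : SQ n g) : SQ n (f + g) :=
  Submodule.add_mem _ hf hg

private lemma B8Q_sub {n c : ℕ} {f g : PP c} (hf : SQ n f) (hg : SQ n g) : SQ n (f - g) :=
  Submodule.sub_mem _ hf hg

private lemma B8Q_nat {n c : ℕ} (k : ℕ) {f : PP c} (hf : SQ n f) : SQ n ((k : PP c) * f) := by
  have h1 : (k : PP c) * f = (k : ZMod 7) • f := by
    rw [MvPolynomial.smul_eq_C_mul]
    simp
  rw [h1]
  exact Submodule.smul_mem _ _ hf

private lemma B8Q_quad {n c : ℕ} (hn : n ≤ c) (e : Fin 4 → Fin n) (he : Function.Injective e) :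
    SQ n (quad fun i => xP hn (e i)) := by
  have hm : ∀ i j : Fin 4, i ≠ j → SQ n (xP hn (e i) * xP hn (e j)) :=
    fun i j hij => B8Q_mul hn _ _ fun h => hij (he h)
  have h2 : ∀ f : PP c, SQ n f → SQ n (2 * f) := fun f hf => by
    have := B8Q_nat 2 hf
    exact_mod_cast this
  have h4 : ∀ f : PP c, SQ n f → SQ n (4 * f) := fun f hf => by
    have := B8Q_nat 4 hf
    exact_mod_cast this
  unfold quad
  exact B8Q_add (B8Q_add (B8Q_add (hm 0 1 (by decide)) (hm 2 3 (by decide)))
    (h2 _ (B8Q_add (hm 0 2 (by decide)) (hm 1 3 (by decide)))))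
    (h4 _ (B8Q_add (hm 0 3 (by decide)) (hm 1 2 (by decide))))

private lemma B8Q_lin {n c : ℕ} (hn : n ≤ c) (e : Fin 4 → Fin n) (j : Fin n) (he : ∀ i, j ≠ e i) :
    SQ n (xP hn j * lin fun i => xP hn (e i)) := by
  unfold lin
  rw [mul_add, mul_add, mul_add]
  exact B8Q_add (B8Q_add (B8Q_add (B8Q_mul hn _ _ (he 0)) (B8Q_mul hn _ _ (he 1))) (B8Q_mul hn _ _ (he 2)))
    (B8Q_mul hn _ _ (he 3))

private def B8Q_d (i : Fin 4) : Fin 8 := ⟨i.val, by omega⟩

private def B8Q_e (i : Fin 4) : Fin 8 := ⟨i.val + 4, by omega⟩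

private lemma B8Q_di : Function.Injective B8Q_d := by
  intro i j h
  have h1 := congrArg Fin.val h
  apply Fin.ext
  unfold B8Q_d at h1
  simp only at h1
  omega

private lemma B8Q_ei : Function.Injective B8Q_e := by
  intro i j h
  have h1 := congrArg Fin.val h
  apply Fin.ext
  unfold B8Q_e at h1
  simp only at h1
  omega

private lemma B8Q_de (i j : Fin 4) : B8Q_d i ≠ B8Q_e j := by
  intro h
  have h1 := congrArg Fin.val h
  unfold B8Q_d B8Q_e at h1
  simp only at h1
  omega

private lemma B8Q_ll {c : ℕ} (hc : 8 ≤ c) : SQ 8 (lin (x8 (xP hc)) * lin (y8 (xP hc))) := by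
  have h1 : ∀ i : Fin 4, SQ 8 (x8 (xP hc) i * lin (y8 (xP hc))) := fun i =>
    B8Q_lin hc B8Q_e (B8Q_d i) (fun j => B8Q_de i j)
  have h2 : lin (x8 (xP hc)) * lin (y8 (xP hc)) =
      x8 (xP hc) 0 * lin (y8 (xP hc)) + x8 (xP hc) 1 * lin (y8 (xP hc)) +
      x8 (xP hc) 2 * lin (y8 (xP hc)) + x8 (xP hc) 3 * lin (y8 (xP hc)) := by
    conv_lhs => unfold lin
    unfold lin
    ring
  rw [h2]
  exact B8Q_add (B8Q_add (B8Q_add (h1 0) (h1 1)) (h1 2)) (h1 3)

/-- evaluation at a point -/
private lemma B8Q_ev {c : ℕ} (hc : 8 ≤ c) (p : Fin c → ZMod 7) (i : Fin 8) :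
    MvPolynomial.eval p (xP hc i) = p (Fin.castLE hc i) := by
  unfold xP
  rw [eval_X]

theorem B8Q : St_B8Q := by
  intro c hc
  have hq : SQ 8 (quad (x8 (xP hc))) := B8Q_quad hc B8Q_d B8Q_di
  have hr : SQ 8 (quad (y8 (xP hc))) := B8Q_quad hc B8Q_e B8Q_ei
  -- the values of the forms at the point `1` at `a, b`, `0` elsewhere
  let p : Fin 8 → Fin 8 → Fin c → ZMod 7 := fun a b v => if v.val = a.val ∨ v.val = b.val then 1 else 0
  have hp : ∀ a b i : Fin 8, MvPolynomial.eval (p a b) (xP hc i) = if i = a ∨ i = b then 1 else 0 := by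
    intro a b i
    rw [B8Q_ev]
    simp only [p, Fin.val_castLE, Fin.val_inj]
  have hpx : ∀ (a b : Fin 8) (i : Fin 4), MvPolynomial.eval (p a b) (x8 (xP hc) i) =
      if B8Q_d i = a ∨ B8Q_d i = b then 1 else 0 := fun a b i => hp a b (B8Q_d i)
  have hpy : ∀ (a b : Fin 8) (i : Fin 4), MvPolynomial.eval (p a b) (y8 (xP hc) i) =
      if B8Q_e i = a ∨ B8Q_e i = b then 1 else 0 := fun a b i => hp a b (B8Q_e i)
  refine ⟨?_, ?_, ?_, ?_⟩
  · intro k
    fin_cases k
    · exact B8Q_add hq hr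
    · exact B8Q_ll hc
  · intro k
    fin_cases k
    exact B8Q_sub hq hr
  · rw [Fintype.linearIndependent_iff]
    intro v hv
    rw [Fin.sum_univ_two] at hv
    have e1 : ∀ a b : Fin 8, v 0 * (MvPolynomial.eval (p a b) (g8 (xP hc) 0)) +
        v 1 * (MvPolynomial.eval (p a b) (g8 (xP hc) 1)) = 0 := by
      intro a b
      have := congrArg (MvPolynomial.eval (p a b)) hv
      simpa only [map_add, MvPolynomial.smul_eval, map_zero] using this
    have a0 : ∀ a b : Fin 8, MvPolynomial.eval (p a b) (g8 (xP hc) 0) =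
        quad (fun i => MvPolynomial.eval (p a b) (x8 (xP hc) i)) +
          quad (fun i => MvPolynomial.eval (p a b) (y8 (xP hc) i)) := by
      intro a b
      change MvPolynomial.eval (p a b) (quad (x8 (xP hc)) + quad (y8 (xP hc))) = _
      unfold quad
      simp only [map_add, map_mul, map_ofNat]
    have a1 : ∀ a b : Fin 8, MvPolynomial.eval (p a b) (g8 (xP hc) 1) =
        lin (fun i => MvPolynomial.eval (p a b) (x8 (xP hc) i)) *
          lin (fun i => MvPolynomial.eval (p a b) (y8 (xP hc) i)) := by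
      intro a b
      change MvPolynomial.eval (p a b) (lin (x8 (xP hc)) * lin (y8 (xP hc))) = _
      unfold lin
      simp only [map_add, map_mul]
    have f1 := e1 0 1
    have f2 := e1 0 4
    simp only [a0, a1, hpx, hpy, quad, lin] at f1 f2
    intro i
    have k1 : v 0 = 0 := by
      revert f1
      simp [B8Q_d, B8Q_e, Fin.ext_iff]
    have k2 : v 1 = 0 := by
      revert f2
      simp [B8Q_d, B8Q_e, Fin.ext_iff]
    fin_cases i
    · exact k1
    · exact k2
  · rw [Fintype.linearIndependent_iff]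
    intro v hv
    rw [Fin.sum_univ_one] at hv
    have e1 : v 0 * (MvPolynomial.eval (p 0 1) (h8 (xP hc) 0)) = 0 := by
      have := congrArg (MvPolynomial.eval (p 0 1)) hv
      simpa only [MvPolynomial.smul_eval, map_zero] using this
    have a0 : MvPolynomial.eval (p 0 1) (h8 (xP hc) 0) =
        quad (fun i => MvPolynomial.eval (p 0 1) (x8 (xP hc) i)) -
          quad (fun i => MvPolynomial.eval (p 0 1) (y8 (xP hc) i)) := by
      change MvPolynomial.eval (p 0 1) (quad (x8 (xP hc)) - quad (y8 (xP hc))) = _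
      unfold quad
      simp only [map_sub, map_add, map_mul, map_ofNat]
    rw [a0] at e1
    simp only [hpx, hpy, quad] at e1
    intro i
    have k1 : v 0 = 0 := by
      revert e1
      simp [B8Q_d, B8Q_e, Fin.ext_iff]
    fin_cases i
    exact k1

end Pool.Agent.LCB
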