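import Mathlib
import Pool.Agent.LCB.BSt
import Pool.Agent.Helper40.Licci.Final

/-!
Module B8T: the number of homomorphisms in the example of type `(8, 2, 1)`.
-/

namespace Pool.Agent.LCB

open Pool.Agent.Helper40.Licci RingTheory.Sequence IsLocalRing MvPolynomial

private lemma B8T_II {c : ℕ} (hc : 8 ≤ c) : bJ 8 (g8 (xP hc)) = II hc := by
  have hx : ∀ i, x8 (xP hc) i = X (vx hc i) := fun i => rfl
  have hy : ∀ i, y8 (xP hc) i = X (vy hc i) := by
    intro i
    have h1 : Fin.castLE hc (⟨i.val + 4, by omega⟩ : Fin 8) = vy hc i := by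
      apply Fin.ext
      change i.val + 4 = 4 + i.val
      omega
    change X (Fin.castLE hc (⟨i.val + 4, by omega⟩ : Fin 8)) = _
    rw [h1]
  have h0 : toR c (g8 (xP hc) 0) = g1 hc := by
    change toR c (quad (x8 (xP hc)) + quad (y8 (xP hc))) = _
    rw [map_add, quad_map, quad_map]
    unfold g1 gx gy
    simp only [hx, hy]
  have h1 : toR c (g8 (xP hc) 1) = g2 hc := by
    change toR c (lin (x8 (xP hc)) * lin (y8 (xP hc))) = _
    rw [map_mul, lin_map, lin_map]
    unfold g2 gx gy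
    simp only [hx, hy]
  have h2 : Set.range (fun k => toR c (g8 (xP hc) k)) = {g1 hc, g2 hc} := by
    ext x
    constructor
    · rintro ⟨k, rfl⟩
      fin_cases k
      · exact Or.inl h0
      · exact Or.inr h1
    · rintro (rfl | rfl)
      · exact ⟨0, h0⟩
      · exact ⟨1, h1⟩
  unfold bJ II
  rw [h2]
  rfl

theorem B8T : St_B8T := by
  intro c hc
  rw [B8T_II hc]
  obtain ⟨f, hf, hrel⟩ := special_syz hc
  have hfH := finite_hom_of_fg (R := RR c) (M := II hc) (Q := RR c ⧸ II hc)
  have hg1 : g1 hc ∈ II hc := Ideal.mem_sup_right (Ideal.subset_span (by simp))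
  have hg2 : g2 hc ∈ II hc := Ideal.mem_sup_right (Ideal.subset_span (by simp))
  have h2 := card_pow_lt (coeffMem_of_isRegular_ofFn _ (isRegular_ar (c := c)).toIsWeaklyRegular)
    (g1 hc) (g2 hc) (II hc) rfl (le_of_eq card_soc_ar) (le_of_eq (card_soc_II hc)) hfH f _ _ hrel hf
    (Ideal.neg_mem_iff _ |>.mpr (Ideal.mul_mem_left _ _ hg1))
    (Ideal.mul_mem_left _ _ (Ideal.mul_mem_left _ _ hg2)) (special_nontrivial hc)
  exact h2.ne'

end Pool.Agent.LCB
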