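import Mathlib
import Pool.Agent.LCB.St
import Pool.Agent.Helper40.Licci.LocalEx

/-!
The explicit data of the base example `(6, 3, 1)`.
-/

namespace Pool.Agent.LCB

open Pool.Agent.Helper40.Licci RingTheory.Sequence IsLocalRing MvPolynomial

/-- exponents: two for the first six variables, one for the others -/
def e6 {c : ℕ} (v : Fin c) : ℕ := if v.val < 6 then 2 else 1

/-- the complete intersection -/
noncomputable def rs6 (c : ℕ) : List (RR c) := List.ofFn (fun v : Fin c => toR c (X v ^ e6 v))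

/-- the first six variables in the local ring: `x₁, x₂, y₀, y₁, y₂, y₃` -/
noncomputable def v6 {c : ℕ} (hc : 6 ≤ c) (i : Fin 6) : RR c :=
  toR c (X ⟨i.val, lt_of_lt_of_le i.2 hc⟩)

/-- the quadric in `y` -/
noncomputable def q6 {c : ℕ} (hc : 6 ≤ c) : RR c :=
  (v6 hc 2 * v6 hc 3 + v6 hc 4 * v6 hc 5) + 2 * (v6 hc 2 * v6 hc 4 + v6 hc 3 * v6 hc 5)
    + 4 * (v6 hc 2 * v6 hc 5 + v6 hc 3 * v6 hc 4)

/-- the linear form in `y` -/
noncomputable def l6 {c : ℕ} (hc : 6 ≤ c) : RR c := v6 hc 2 + v6 hc 3 + v6 hc 4 + v6 hc 5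

/-- the linked element -/
noncomputable def w6 {c : ℕ} (hc : 6 ≤ c) : RR c := v6 hc 0 * v6 hc 1 - q6 hc

/-- the almost complete intersection -/
noncomputable def J6 {c : ℕ} (hc : 6 ≤ c) : Ideal (RR c) :=
  Ideal.ofList (rs6 c) ⊔ Ideal.span {w6 hc}

/-- the Gorenstein ideal -/
noncomputable def I6 {c : ℕ} (hc : 6 ≤ c) : Ideal (RR c) :=
  Ideal.ofList (rs6 c) ⊔ Ideal.span {v6 hc 0 * v6 hc 1 + q6 hc, v6 hc 0 * l6 hc, v6 hc 1 * l6 hc}

/-- The base example `(6, 3, 1)`. -/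
def St_W631 : Prop := ∀ (c : ℕ) (hc : 6 ≤ c), Wit (RR c) c 3 1 (rs6 c) (I6 hc) (J6 hc)

end Pool.Agent.LCB
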