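import Mathlib
import Pool.Agent.LCB.BSt
import Pool.Agent.LCB.Dat

/-!
Assembly of the base examples from the modules.
-/

namespace Pool.Agent.LCB

open Pool.Agent.Helper40.Licci RingTheory.Sequence IsLocalRing MvPolynomial

lemma toR_quad {c : ℕ} (x : Fin 4 → PP c) : toR c (quad x) = quad (fun i => toR c (x i)) := by
  unfold quad
  simp only [map_add, map_mul, map_ofNat]

lemma toR_lin {c : ℕ} (x : Fin 4 → PP c) : toR c (lin x) = lin (fun i => toR c (x i)) := by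
  unfold lin
  simp only [map_add]

lemma ofList_rs6 (c : ℕ) : Ideal.ofList (rs6 c) = bL 6 c := ofList_ofFn _

lemma quad_y6 {c : ℕ} (hc : 6 ≤ c) : quad (fun i => toR c (y6 (xP hc) i)) = q6 hc := rfl

lemma lin_y6 {c : ℕ} (hc : 6 ≤ c) : lin (fun i => toR c (y6 (xP hc) i)) = l6 hc := rfl

lemma I6_eq {c : ℕ} (hc : 6 ≤ c) : bJ 6 (g6 (xP hc)) = I6 hc := by
  unfold bJ I6
  rw [ofList_rs6]
  congr 2
  ext z
  constructor
  · rintro ⟨k, rfl⟩
    fin_cases k
    · left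
      change toR c (xP hc 0 * xP hc 1 + quad (y6 (xP hc))) = _
      rw [map_add, map_mul, toR_quad, quad_y6]
      rfl
    · right; left
      change toR c (xP hc 0 * lin (y6 (xP hc))) = _
      rw [map_mul, toR_lin, lin_y6]
      rfl
    · right; right
      change toR c (xP hc 1 * lin (y6 (xP hc))) = _
      rw [map_mul, toR_lin, lin_y6]
      rfl
  · rintro (rfl | rfl | h)
    · refine ⟨0, ?_⟩
      change toR c (xP hc 0 * xP hc 1 + quad (y6 (xP hc))) = _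
      rw [map_add, map_mul, toR_quad, quad_y6]
      rfl
    · refine ⟨1, ?_⟩
      change toR c (xP hc 0 * lin (y6 (xP hc))) = _
      rw [map_mul, toR_lin, lin_y6]
      rfl
    · rw [Set.mem_singleton_iff] at h
      subst h
      refine ⟨2, ?_⟩
      change toR c (xP hc 1 * lin (y6 (xP hc))) = _
      rw [map_mul, toR_lin, lin_y6]
      rfl

lemma J6_eq {c : ℕ} (hc : 6 ≤ c) : bJ 6 (h6 (xP hc)) = J6 hc := by
  unfold bJ J6
  rw [ofList_rs6]
  congr 2
  ext z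
  constructor
  · rintro ⟨k, rfl⟩
    fin_cases k
    change toR c (xP hc 0 * xP hc 1 - quad (y6 (xP hc))) = _
    rw [map_sub, map_mul, toR_quad, quad_y6]
    rfl
  · intro h
    rw [Set.mem_singleton_iff] at h
    subst h
    refine ⟨0, ?_⟩
    change toR c (xP hc 0 * xP hc 1 - quad (y6 (xP hc))) = _
    rw [map_sub, map_mul, toR_quad, quad_y6]
    rfl

/-- The base example `(6, 3, 1)` with its explicit data. -/
theorem BFin6 (hD : St_Dual) (g1 : St_BG1) (g2 : St_BG2) (g3 : St_BG3) (g4 : St_BG4) (g5 : St_BG5)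
    (g6 : St_BG6) (g7 : St_BG7) (t3 : St_BT3) (t4 : St_BT4)
    (b6a : St_B6A) (b6s : St_B6S) (b6c : St_B6C) (b6m : St_B6M) (b6t : St_B6T) (b6q : St_B6Q) :
    St_W631 := by
  have W := g7 g1 g4 g5 g6 hD g2
  intro c hc
  obtain ⟨q1, q2, q3, q4⟩ := b6q c hc
  have h := W 6 c 3 1 _ _ hc (by omega) q1 q2 q3 q4 (b6a c hc)
        (b6t g1 g2 g3 t3 t4 b6a b6s b6c b6m c hc)
  rw [I6_eq, J6_eq] at h
  exact h

/-- The three base examples. -/
theorem BFin (hD : St_Dual) (g1 : St_BG1) (g2 : St_BG2) (g3 : St_BG3) (g4 : St_BG4) (g5 : St_BG5)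
    (g6 : St_BG6) (g7 : St_BG7) (t1 : St_BT1) (t3 : St_BT3) (t4 : St_BT4)
    (b5r : St_B5R) (b5s : St_B5S) (b5a : St_B5A) (b5k : St_B5K) (b5c : St_B5C) (b5w : St_B5W)
    (b5t : St_B5T) (b5q : St_B5Q)
    (b6a : St_B6A) (b6s : St_B6S) (b6c : St_B6C) (b6m : St_B6M) (b6t : St_B6T) (b6q : St_B6Q)
    (b8a : St_B8A) (b8t : St_B8T) (b8q : St_B8Q) : St_522 ∧ St_631 ∧ St_821 := by
  have W := g7 g1 g4 g5 g6 hD g2
  have par : ∀ c, Finite (RR c ⧸ maximalIdeal (RR c)) := fun c => finite_res c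
  refine ⟨?_, ?_, ?_⟩
  · intro c hc
    obtain ⟨q1, q2, q3, q4⟩ := b5q c hc
    exact ⟨RR c, inferInstance, rr_regular c, _, _, _, _, params c, par c,
      W 5 c 2 2 _ _ hc (by omega) q1 q2 q3 q4 (b5a c hc)
        (b5t g1 g2 t1 b5r b5k b5w b5c hD (g3) b5a b5s c hc)⟩
  · intro c hc
    obtain ⟨q1, q2, q3, q4⟩ := b6q c hc
    exact ⟨RR c, inferInstance, rr_regular c, _, _, _, _, params c, par c,
      W 6 c 3 1 _ _ hc (by omega) q1 q2 q3 q4 (b6a c hc)
        (b6t g1 g2 g3 t3 t4 b6a b6s b6c b6m c hc)⟩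
  · intro c hc
    obtain ⟨q1, q2, q3, q4⟩ := b8q c hc
    exact ⟨RR c, inferInstance, rr_regular c, _, _, _, _, params c, par c,
      W 8 c 2 1 _ _ hc (by omega) q1 q2 q3 q4 (b8a c hc) (b8t c hc)⟩

end Pool.Agent.LCB
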