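import Mathlib
import Pool.Agent.LCB.BSt
import Pool.Agent.Helper40.Licci.Final

/-!
Module BG1: the basic facts on the regular sequence.
-/

namespace Pool.Agent.LCB

open Pool.Agent.Helper40.Licci RingTheory.Sequence IsLocalRing MvPolynomial

theorem BG1 : St_BG1 := by
  intro n c _
  have h1 : IsRegular (RR c) (List.ofFn (bR n : Fin c → RR c)) :=
    isRegular_pow c (fun v => bx n v) (by
      intro v
      unfold bx
      split_ifs <;> omega)
  have h2 : Ideal.ofList (List.ofFn (bR n : Fin c → RR c)) = bL n c := ofList_ofFn _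
  refine ⟨h1, coeffMem_of_isRegular_ofFn _ h1.toIsWeaklyRegular, h2, ?_, ?_, ?_⟩
  · have := (params c).finite (List.ofFn (bR n : Fin c → RR c)) List.length_ofFn h1
    rwa [h2] at this
  · have := (params c).card_soc (List.ofFn (bR n : Fin c → RR c)) List.length_ofFn h1
    rw [h2] at this
    exact le_of_eq this
  · have e := IsLocalization.AtPrime.equivQuotMaximalIdeal (org c) (RR c)
    have e2 : (PP c ⧸ org c) ≃+* ZMod 7 :=
      RingHom.quotientKerEquivOfSurjective
        (f := (constantCoeff : PP c →+* ZMod 7)) (fun a => ⟨C a, constantCoeff_C _ a⟩)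
    rw [← Nat.card_congr e.toEquiv, Nat.card_congr e2.toEquiv, Nat.card_zmod]

end Pool.Agent.LCB
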