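import Mathlib
import Pool.Agent.LCB.BSt

/-!
The number of elements of the quotient by the regular sequence.
-/

namespace Pool.Agent.LCB

open Pool.Agent.Helper40.Licci RingTheory.Sequence IsLocalRing MvPolynomial

namespace BG3aux

/-- the squarefree exponent with support `s` -/
noncomputable def exq {n c : ℕ} (hn : n ≤ c) (s : Finset (Fin n)) : Fin c →₀ ℕ :=
  Finsupp.equivFunOnFinite.symm (fun v => if h : v.val < n then (if (⟨v.val, h⟩ : Fin n) ∈ s
    then 1 else 0) else 0)

lemma exq_apply {n c : ℕ} (hn : n ≤ c) (s : Finset (Fin n)) (v : Fin c) :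
    exq hn s v = if h : v.val < n then (if (⟨v.val, h⟩ : Fin n) ∈ s then 1 else 0) else 0 := rfl

lemma exq_castLE {n c : ℕ} (hn : n ≤ c) (s : Finset (Fin n)) (i : Fin n) :
    exq hn s (Fin.castLE hn i) = if i ∈ s then 1 else 0 := by
  rw [exq_apply]
  have h : (Fin.castLE hn i).val < n := i.2
  rw [dif_pos h]
  rfl

lemma exq_inj {n c : ℕ} (hn : n ≤ c) {s t : Finset (Fin n)} (h : exq hn s = exq hn t) :
    s = t := by
  ext i
  have h1 := DFunLike.congr_fun h (Fin.castLE hn i)
  rw [exq_castLE, exq_castLE] at h1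
  by_cases h2 : i ∈ s <;> by_cases h3 : i ∈ t <;> simp [h2, h3] at h1 ⊢

lemma exq_lt {n c : ℕ} (hn : n ≤ c) (s : Finset (Fin n)) (v : Fin c) : exq hn s v < bx n v := by
  rw [exq_apply]
  unfold bx
  split_ifs <;> omega

lemma exists_exq {n c : ℕ} (hn : n ≤ c) (m : Fin c →₀ ℕ) (hm : ∀ v, m v < bx n v) :
    ∃ s, m = exq hn s := by
  classical
  refine ⟨Finset.univ.filter (fun i => m (Fin.castLE hn i) = 1), ?_⟩
  ext v
  rw [exq_apply]
  have h1 := hm v
  unfold bx at h1
  by_cases h : v.val < n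
  · rw [dif_pos h]
    rw [if_pos h] at h1
    have e : Fin.castLE hn ⟨v.val, h⟩ = v := rfl
    by_cases h2 : m v = 1
    · rw [if_pos (by simp [e, h2]), h2]
    · rw [if_neg (by simp [e, h2])]
      omega
  · rw [dif_neg h]
    rw [if_neg h] at h1
    omega

lemma mem_bA_iff {n c : ℕ} (hn : n ≤ c) (u : PP c) :
    u ∈ bA n c ↔ ∀ s, coeff (exq hn s) u = 0 := by
  have h0 : bA n c = Ideal.span ((fun v : Fin c => (X v ^ bx n v : PP c)) '' Set.univ) := by
    rw [Set.image_univ]; rfl
  rw [h0, mem_pow_iff]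
  constructor
  · intro h s
    by_contra hne
    obtain ⟨v, _, hv⟩ := h _ (mem_support_iff.mpr hne)
    exact absurd (exq_lt hn s v) (not_lt.mpr hv)
  · intro h m hm
    by_contra hcon
    push Not at hcon
    obtain ⟨s, rfl⟩ := exists_exq hn m (fun v => hcon v (Set.mem_univ v))
    exact (mem_support_iff.mp hm) (h s)

/-- the squarefree polynomial with given coefficients -/
noncomputable def pol {n c : ℕ} (hn : n ≤ c) (f : Finset (Fin n) → ZMod 7) : PP c :=
  ∑ s, monomial (exq hn s) (f s)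

lemma coeff_pol {n c : ℕ} (hn : n ≤ c) (f : Finset (Fin n) → ZMod 7) (t : Finset (Fin n)) :
    coeff (exq hn t) (pol hn f) = f t := by
  unfold pol
  rw [coeff_sum, Finset.sum_eq_single t]
  · rw [coeff_monomial, if_pos rfl]
  · intro s _ hs
    rw [coeff_monomial, if_neg]
    intro h
    exact hs (exq_inj hn h)
  · intro h
    exact absurd (Finset.mem_univ t) h

end BG3aux

open BG3aux

theorem BG3 : St_BG3 := by
  intro h2 n c hn
  obtain ⟨_, hmap, hK, happ⟩ := h2 n c hn
  have hmem : ∀ u : PP c, toR c u ∈ bL n c ↔ u ∈ bA n c := by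
    intro u
    rw [← hmap]
    exact hK (bA n c) le_rfl u
  let ψ : (Finset (Fin n) → ZMod 7) → (RR c ⧸ bL n c) := fun f =>
    Ideal.Quotient.mk _ (toR c (pol hn f))
  have hinj : Function.Injective ψ := by
    intro f g hfg
    have h1 : toR c (pol hn f) - toR c (pol hn g) ∈ bL n c := Ideal.Quotient.eq.mp hfg
    rw [← map_sub, hmem, mem_bA_iff hn] at h1
    funext s
    have h3 := h1 s
    rw [coeff_sub, coeff_pol, coeff_pol, sub_eq_zero] at h3
    exact h3
  have hsurj : Function.Surjective ψ := by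
    intro y
    obtain ⟨x, rfl⟩ := Ideal.Quotient.mk_surjective y
    obtain ⟨u, hu⟩ := happ x
    refine ⟨fun s => coeff (exq hn s) u, ?_⟩
    change Ideal.Quotient.mk _ _ = Ideal.Quotient.mk _ _
    rw [Ideal.Quotient.eq]
    have e : toR c (pol hn (fun s => coeff (exq hn s) u)) - x =
        toR c (pol hn (fun s => coeff (exq hn s) u) - u) - (x - toR c u) := by
      rw [map_sub]; ring
    rw [e]
    refine Ideal.sub_mem _ ?_ hu
    rw [hmem, mem_bA_iff hn]
    intro s
    rw [coeff_sub, coeff_pol, sub_self]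
  rw [← Nat.card_congr (Equiv.ofBijective ψ ⟨hinj, hsurj⟩), Nat.card_fun, Nat.card_zmod]
  congr 1
  rw [Nat.card_eq_fintype_card, Fintype.card_finset, Fintype.card_fin]

end Pool.Agent.LCB
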