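import Mathlib
import Pool.Agent.LCB.BSt
import Pool.Agent.LCB.Com

/-!
Linkage from one colon ideal in the polynomial ring.
-/

namespace Pool.Agent.LCB

open Pool.Agent.Helper40.Licci RingTheory.Sequence IsLocalRing MvPolynomial

theorem BG4 : St_BG4 := by
  intro hD h1 h2 n c d t g h hn hcol
  obtain ⟨reg, cm, eL, fL, sL, _⟩ := h1 n c hn
  obtain ⟨mI, mA, tr, lift⟩ := h2 n c hn
  have hAI : bA n c ≤ bI n g := le_sup_left
  -- membership in the two ideals of the local ring, for images of polynomials
  have memI : ∀ u : PP c, toR c u ∈ bJ n g ↔ u ∈ bI n g := by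
    intro u
    rw [← mI]
    exact tr _ hAI u
  have memL : ∀ u : PP c, toR c u ∈ bL n c ↔ u ∈ bA n c := by
    intro u
    rw [← mA]
    exact tr _ le_rfl u
  have hLI : bL n c ≤ bJ n g := le_sup_left
  have hLJ : bL n c ≤ bJ n h := le_sup_left
  have key : ∀ x : RR c, x ∈ bJ n g ↔ ∀ y ∈ bJ n h, x * y ∈ bL n c := by
    intro x
    obtain ⟨u, hu⟩ := lift x
    have e1 : x ∈ bJ n g ↔ u ∈ bI n g := by
      rw [← memI]
      constructor
      · intro hx
        have : toR c u = x - (x - toR c u) := by ring
        rw [this]
        exact Ideal.sub_mem _ hx (hLI hu)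
      · intro hx
        have : x = (x - toR c u) + toR c u := by ring
        rw [this]
        exact Ideal.add_mem _ (hLI hu) hx
    rw [e1, hcol]
    constructor
    · intro hk y hy
      have hle : bJ n h ≤ col (bL n c) (Ideal.span {x}) := by
        unfold bJ
        refine sup_le ?_ (Ideal.span_le.mpr ?_)
        · intro a ha
          rw [mem_col]
          intro b _
          exact Ideal.mul_mem_right _ _ ha
        · rintro _ ⟨k, rfl⟩
          change toR c (h k) ∈ col (bL n c) (Ideal.span {x})
          rw [mem_col]
          intro b hb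
          obtain ⟨s, rfl⟩ := Ideal.mem_span_singleton'.mp hb
          have h3 : toR c (h k) * (s * x) = s * (toR c (h k * u) + toR c (h k) *
              (x - toR c u)) := by rw [map_mul]; ring
          rw [h3]
          exact Ideal.mul_mem_left _ _ (Ideal.add_mem _ ((memL _).mpr (hk k))
            (Ideal.mul_mem_left _ _ hu))
      have h4 := mem_col.mp (hle hy) x (Ideal.mem_span_singleton_self x)
      rw [mul_comm]
      exact h4
    · intro hx k
      rw [← memL]
      have h3 := hx (toR c (h k)) (Ideal.mem_sup_right (Ideal.subset_span ⟨k, rfl⟩))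
      have : toR c (h k * u) = x * toR c (h k) - toR c (h k) * (x - toR c u) := by
        rw [map_mul]; ring
      rw [this]
      exact Ideal.sub_mem _ h3 (Ideal.mul_mem_left _ _ hu)
  have eI : col (bL n c) (bJ n h) = bJ n g := by
    ext x
    rw [mem_col]
    exact (key x).symm
  have hd := (hD (RR c) (bL n c) (bJ n h) hLJ fL sL).2
  rw [eI] at hd
  constructor
  · intro x
    rw [eL]
    conv_lhs => rw [← hd]
    exact mem_col
  · intro x
    rw [eL]
    exact key x

end Pool.Agent.LCB
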