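import Mathlib
import Pool.Agent.LCB.BSt

/-!
Module BG5: the regular sequence is independent modulo the maximal ideal times the ideal.
-/

namespace Pool.Agent.LCB

open Pool.Agent.Helper40.Licci RingTheory.Sequence IsLocalRing MvPolynomial

namespace BG5x

/-- The polynomial ring to power series: one coordinate to the variable, the others to zero. -/
noncomputable def fP {c : ℕ} (v : Fin c) : PP c →+* PowerSeries (ZMod 7) :=
  (MvPolynomial.aeval (fun w : Fin c => if w = v then (PowerSeries.X : PowerSeries (ZMod 7)) else 0) :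
    PP c →ₐ[ZMod 7] PowerSeries (ZMod 7)).toRingHom

lemma fP_X {c : ℕ} (v w : Fin c) : fP v (X w) = if w = v then PowerSeries.X else 0 := by
  unfold fP
  simp

lemma fP_const {c : ℕ} (v : Fin c) (u : PP c) :
    PowerSeries.constantCoeff (fP v u) = constantCoeff u := by
  have h : (PowerSeries.constantCoeff (R := ZMod 7)).comp (fP v) = (constantCoeff : PP c →+* ZMod 7) := by
    apply MvPolynomial.ringHom_ext
    · intro r
      unfold fP
      simp
    · intro w
      rw [RingHom.comp_apply, fP_X, constantCoeff_X]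
      split_ifs <;> simp
  exact congrArg (fun f : PP c →+* ZMod 7 => f u) h

lemma fP_unit {c : ℕ} (v : Fin c) (y : (org c).primeCompl) : IsUnit (fP v (y : PP c)) := by
  rw [PowerSeries.isUnit_iff_constantCoeff, fP_const]
  have h : ¬ (y : PP c) ∈ org c := y.2
  rw [mem_org] at h
  exact isUnit_iff_ne_zero.2 h

/-- The extension to the local ring. -/
noncomputable def fR {c : ℕ} (v : Fin c) : RR c →+* PowerSeries (ZMod 7) :=
  IsLocalization.lift (M := (org c).primeCompl) (g := fP v) (fP_unit v)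

lemma fR_toR {c : ℕ} (v : Fin c) (u : PP c) : fR v (toR c u) = fP v u :=
  IsLocalization.lift_eq (fP_unit v) u

lemma fR_bR {n c : ℕ} (v w : Fin c) :
    fR v (bR n w) = if w = v then PowerSeries.X ^ bx n v else 0 := by
  unfold bR ba
  rw [fR_toR, map_pow, fP_X]
  split_ifs with h
  · rw [h]
  · refine zero_pow ?_
    unfold bx
    split_ifs <;> omega

lemma bR_inj (n c : ℕ) : Function.Injective (bR n : Fin c → RR c) := by
  intro w v h
  by_contra hne
  have h1 := congrArg (fR v) h
  rw [fR_bR, fR_bR, if_neg hne, if_pos rfl] at h1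
  exact pow_ne_zero _ PowerSeries.X_ne_zero h1.symm

lemma fR_SQ {n c : ℕ} (v : Fin c) {f : PP c} (hf : SQ n f) : fR v (toR c f) = 0 := by
  rw [fR_toR]
  unfold SQ at hf
  refine Submodule.span_induction (p := fun x _ => fP v x = 0) ?_ ?_ ?_ ?_ hf
  · rintro x ⟨a, b, hab, -, -, rfl⟩
    rw [map_mul, fP_X, fP_X]
    by_cases h1 : a = v
    · have h2 : ¬ b = v := fun h2 => hab (h1.trans h2.symm)
      rw [if_neg h2, mul_zero]
    · rw [if_neg h1, zero_mul]
  · exact map_zero _
  · intro x y _ _ hx hy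
    rw [map_add, hx, hy, add_zero]
  · intro a x _ hx
    rw [MvPolynomial.smul_eq_C_mul, map_mul, hx, mul_zero]

lemma fR_max {c : ℕ} (v : Fin c) {x : RR c} (hx : x ∈ maximalIdeal (RR c)) :
    fR v x ∈ Ideal.span {(PowerSeries.X : PowerSeries (ZMod 7))} := by
  rw [Ideal.mem_span_singleton, PowerSeries.X_dvd_iff]
  by_contra hne
  have h1 : IsUnit (fR v x) := PowerSeries.isUnit_iff_constantCoeff.2 (isUnit_iff_ne_zero.2 hne)
  obtain ⟨u, s, rfl⟩ := IsLocalization.exists_mk'_eq (org c).primeCompl x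
  have h2 : u ∈ org c := by
    rw [← IsLocalization.AtPrime.to_map_mem_maximal_iff (RR c) (org c)]
    have h3 := Ideal.mul_mem_right (algebraMap (PP c) (RR c) (s : PP c)) _ hx
    rwa [IsLocalization.mk'_spec] at h3
  rw [mem_org] at h2
  have h4 : fR v (IsLocalization.mk' (RR c) u s) * fP v (s : PP c) = fP v u := by
    rw [← fR_toR v (s : PP c), ← fR_toR v u, ← map_mul]
    exact congrArg (fR v) (IsLocalization.mk'_spec (RR c) u s)
  have h5 : IsUnit (fP v u) := by
    rw [← h4]
    exact h1.mul (fP_unit v s)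
  rw [PowerSeries.isUnit_iff_constantCoeff, fP_const, h2] at h5
  exact not_isUnit_zero h5

lemma fR_J {n c m : ℕ} (v : Fin c) (g : Fin m → PP c) (hg : ∀ k, SQ n (g k)) {x : RR c}
    (hx : x ∈ bJ n g) : fR v x ∈ Ideal.span {(PowerSeries.X : PowerSeries (ZMod 7)) ^ bx n v} := by
  have h : bJ n g ≤ (Ideal.span {(PowerSeries.X : PowerSeries (ZMod 7)) ^ bx n v}).comap (fR v) := by
    refine sup_le (Ideal.span_le.2 ?_) (Ideal.span_le.2 ?_)
    · rintro _ ⟨w, rfl⟩
      rw [SetLike.mem_coe, Ideal.mem_comap, fR_bR]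
      split_ifs
      · exact Ideal.mem_span_singleton_self _
      · exact Ideal.zero_mem _
    · rintro _ ⟨k, rfl⟩
      rw [SetLike.mem_coe, Ideal.mem_comap]
      beta_reduce
      rw [fR_SQ v (hg k)]
      exact Ideal.zero_mem _
  exact h hx

end BG5x

open BG5x in
theorem BG5 : St_BG5 := by
  intro n c m g _ hg a L hp ha
  have hnd : (a :: L).Nodup := hp.nodup_iff.1 (List.nodup_ofFn.2 (bR_inj n c))
  have hmem : ∀ b ∈ a :: L, ∃ w : Fin c, bR n w = b := fun b hb =>
    List.mem_ofFn.1 (hp.mem_iff.2 hb)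
  obtain ⟨v, hv⟩ := hmem a (List.mem_cons_self)
  have key : maximalIdeal (RR c) * bJ n g ⊔ Ideal.ofList L ≤
      (Ideal.span {(PowerSeries.X : PowerSeries (ZMod 7)) ^ (bx n v + 1)}).comap (fR v) := by
    refine sup_le (Ideal.mul_le.2 ?_) (Ideal.span_le.2 ?_)
    · intro x hx y hy
      rw [Ideal.mem_comap]
      have h1 := fR_max v hx
      have h2 := fR_J v g hg hy
      rw [Ideal.mem_span_singleton] at h1 h2 ⊢
      rw [map_mul, pow_succ, mul_comm (fR v x)]
      exact mul_dvd_mul h2 h1
    · intro b hb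
      have hb' : b ∈ L := hb
      obtain ⟨w, hw⟩ := hmem b (List.mem_cons_of_mem _ hb')
      rw [SetLike.mem_coe, Ideal.mem_comap]
      have hwv : w ≠ v := by
        rintro rfl
        rw [← hv, hw] at hnd
        exact (List.nodup_cons.1 hnd).1 hb'
      rw [← hw, fR_bR, if_neg hwv]
      exact Ideal.zero_mem _
  have h3 : fR v a ∈ Ideal.span {(PowerSeries.X : PowerSeries (ZMod 7)) ^ (bx n v + 1)} := key ha
  rw [← hv, fR_bR, if_pos rfl, Ideal.mem_span_singleton, PowerSeries.X_pow_dvd_iff] at h3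
  have h4 := h3 (bx n v) (Nat.lt_succ_self _)
  rw [PowerSeries.coeff_X_pow, if_pos rfl] at h4
  exact one_ne_zero h4

end Pool.Agent.LCB
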