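import Mathlib
import Pool.Agent.LCB.BSt
import Pool.Agent.Helper40.Licci.Count

/-!
Module BG6: counting the generators of the base ideals.
-/

namespace Pool.Agent.LCB

open Pool.Agent.Helper40.Licci RingTheory.Sequence IsLocalRing MvPolynomial

namespace BG6x

/-- The exponent of a product of two different coordinates. -/
noncomputable def ex {c : ℕ} (a b : Fin c) : Fin c →₀ ℕ := Finsupp.single a 1 + Finsupp.single b 1

lemma xx {c : ℕ} (a b : Fin c) : (X a * X b : PP c) = monomial (ex a b) 1 := by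
  unfold ex
  rw [X, X, monomial_mul, one_mul]

lemma coeff_bA (n c : ℕ) (a b : Fin c) (hab : a ≠ b) (ha : a.val < n) (hb : b.val < n)
    (u : PP c) (hu : u ∈ bA n c) : coeff (ex a b) u = 0 := by
  have h0 : bA n c = Ideal.span ((fun v : Fin c => (X v ^ bx n v : PP c)) '' Set.univ) := by
    rw [Set.image_univ]
    rfl
  rw [h0, mem_pow_iff] at hu
  by_contra hne
  obtain ⟨v, _, hv⟩ := hu _ (mem_support_iff.mpr hne)
  unfold ex bx at hv
  rw [Finsupp.add_apply, Finsupp.single_apply, Finsupp.single_apply] at hv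
  by_cases h1 : a = v
  · have h2 : b ≠ v := fun h => hab (h1.trans h.symm)
    rw [if_pos h1, if_neg h2, ← h1, if_pos ha] at hv
    omega
  · by_cases h2 : b = v
    · rw [if_neg h1, if_pos h2, ← h2, if_pos hb] at hv
      omega
    · rw [if_neg h1, if_neg h2] at hv
      split_ifs at hv <;> omega

lemma org_vars (c : ℕ) : org c = idealOfVars (Fin c) (ZMod 7) := org_eq c

lemma sq_mem {n c : ℕ} {f : PP c} (hf : SQ n f) : f ∈ org c ^ 2 := by
  unfold SQ at hf
  refine Submodule.span_induction (p := fun x _ => x ∈ org c ^ 2) ?_ ?_ ?_ ?_ hf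
  · rintro x ⟨a, b, _, _, _, rfl⟩
    rw [pow_two]
    apply Ideal.mul_mem_mul
    · rw [mem_org, constantCoeff_X]
    · rw [mem_org, constantCoeff_X]
  · exact Ideal.zero_mem _
  · intro x y _ _ hx hy
    exact Ideal.add_mem _ hx hy
  · intro r x _ hx
    rw [MvPolynomial.smul_eq_C_mul]
    exact Ideal.mul_mem_left _ _ hx

lemma sq_supp {n c : ℕ} {f : PP c} (hf : SQ n f) (m : Fin c →₀ ℕ) (hm : coeff m f ≠ 0) :
    ∃ a b : Fin c, a ≠ b ∧ a.val < n ∧ b.val < n ∧ m = ex a b := by
  by_contra hcon
  apply hm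
  unfold SQ at hf
  refine Submodule.span_induction (p := fun x _ => coeff m x = 0) ?_ ?_ ?_ ?_ hf
  · rintro x ⟨a, b, h1, h2, h3, rfl⟩
    rw [xx, coeff_monomial, if_neg]
    intro h
    exact hcon ⟨a, b, h1, h2, h3, h.symm⟩
  · exact coeff_zero _
  · intro x y _ _ hx hy
    rw [coeff_add, hx, hy, add_zero]
  · intro r x _ hx
    rw [coeff_smul, hx, smul_zero]

/-- The ideal `org * bI + bA` has no coefficients at products of two different coordinates. -/
lemma coeff_zero_of_mem {n c m : ℕ} (g : Fin m → PP c) (hg : ∀ k, SQ n (g k)) (a b : Fin c)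
    (hab : a ≠ b) (ha : a.val < n) (hb : b.val < n) (u : PP c)
    (hu : u ∈ org c * bI n g ⊔ bA n c) : coeff (ex a b) u = 0 := by
  have h1 : org c * bI n g ⊔ bA n c ≤ org c ^ 3 ⊔ bA n c := by
    apply sup_le _ le_sup_right
    unfold bI
    rw [Ideal.mul_sup]
    apply sup_le
    · exact le_trans Ideal.mul_le_right le_sup_right
    · refine le_trans ?_ le_sup_left
      rw [pow_succ']
      apply Ideal.mul_mono_right
      rw [Ideal.span_le]
      rintro _ ⟨k, rfl⟩
      exact sq_mem (hg k)
  obtain ⟨v, hv, w, hw, rfl⟩ := Submodule.mem_sup.mp (h1 hu)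
  rw [coeff_add, coeff_bA n c a b hab ha hb w hw, add_zero]
  rw [org_vars, mem_pow_idealOfVars_iff'] at hv
  apply hv
  unfold ex
  rw [map_add, Finsupp.degree_single, Finsupp.degree_single]
  norm_num

/-- The elements of the ideal. -/
lemma bL_le_max (n c : ℕ) : bL n c ≤ maximalIdeal (RR c) := by
  unfold bL
  rw [Ideal.span_le]
  rintro _ ⟨v, rfl⟩
  rw [← Localization.AtPrime.map_eq_maximalIdeal]
  apply Ideal.mem_map_of_mem
  rw [mem_org]
  unfold ba
  rw [map_pow, constantCoeff_X, zero_pow]
  unfold bx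
  split_ifs <;> omega

end BG6x

open BG6x in
theorem BG6 : St_BG6 := by
  intro hB1 hB2 n c m g hn hg hli
  obtain ⟨hreg, -, hof, hfin, -, h7⟩ := hB1 n c hn
  obtain ⟨hmapI, hmapA, hmem, hrep⟩ := hB2 n c hn
  rw [hof, h7]
  set M := maximalIdeal (RR c) with hM
  set I := bJ n g with hI
  set J := M * I ⊔ bL n c with hJ
  have hLI : bL n c ≤ I := le_sup_left
  have hJI : J ≤ I := sup_le Ideal.mul_le_right hLI
  have hgI : ∀ k, toR c (g k) ∈ I := fun k => by
    rw [hI]
    unfold bJ
    exact Ideal.mem_sup_right (Ideal.subset_span ⟨k, rfl⟩)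
  have hMmap : (org c).map (toR c) = M := Localization.AtPrime.map_eq_maximalIdeal
  have hJmap : (org c * bI n g ⊔ bA n c).map (toR c) = J := by
    rw [Ideal.map_sup, Ideal.map_mul, hMmap, hmapI, hmapA]
  -- the residue of an element
  have hres : ∀ x : RR c, ∃ l : ZMod 7, x - toR c (C l) ∈ M := by
    intro x
    obtain ⟨u, hu⟩ := hrep x
    refine ⟨constantCoeff u, ?_⟩
    have h1 : x - toR c (C (constantCoeff u)) =
        (x - toR c u) + toR c (u - C (constantCoeff u)) := by
      rw [map_sub]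
      ring
    rw [h1]
    apply Ideal.add_mem _ (bL_le_max n c hu)
    rw [← hM, ← hMmap]
    apply Ideal.mem_map_of_mem
    rw [mem_org, map_sub, constantCoeff_C, sub_self]
  let P : (Fin m → ZMod 7) → RR c := fun l => toR c (∑ k, l k • g k)
  have hPI : ∀ l, P l ∈ I := by
    intro l
    change toR c (∑ k, l k • g k) ∈ I
    rw [map_sum]
    apply Ideal.sum_mem
    intro k _
    rw [MvPolynomial.smul_eq_C_mul, map_mul]
    exact Ideal.mul_mem_left _ _ (hgI k)
  let Φ : (Fin m → ZMod 7) → LinearMap.ker (fac hJI) :=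
    fun l => ⟨Submodule.Quotient.mk (P l), mk_mem_ker_fac hJI (hPI l)⟩
  have hinj : Function.Injective Φ := by
    intro l l' hll
    have h1 : (Submodule.Quotient.mk (P l) : RR c ⧸ J) = Submodule.Quotient.mk (P l') :=
      congrArg Subtype.val hll
    rw [Submodule.Quotient.eq] at h1
    have h2 : P l - P l' = toR c (∑ k, (l k - l' k) • g k) := by
      change toR c (∑ k, l k • g k) - toR c (∑ k, l' k • g k) = _
      rw [← map_sub, ← Finset.sum_sub_distrib]
      congr 1
      apply Finset.sum_congr rfl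
      intro k _
      rw [sub_smul]
    rw [h2, ← hJmap, hmem _ le_sup_right] at h1
    have h3 : ∑ k, (l k - l' k) • g k = 0 := by
      ext e
      rw [coeff_zero]
      by_contra hne
      have hsq : SQ n (∑ k, (l k - l' k) • g k) := by
        unfold SQ
        exact Submodule.sum_mem _ (fun k _ => Submodule.smul_mem _ _ (hg k))
      obtain ⟨a, b, hab, ha, hb, rfl⟩ := sq_supp hsq e hne
      exact hne (coeff_zero_of_mem g hg a b hab ha hb _ h1)
    have h4 := Fintype.linearIndependent_iff.mp hli (fun k => l k - l' k) h3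
    funext k
    exact sub_eq_zero.mp (h4 k)
  have hsurj : Function.Surjective Φ := by
    rintro ⟨y, hy⟩
    obtain ⟨x, hx, rfl⟩ := exists_of_mem_ker_fac hJI hy
    rw [hI] at hx
    unfold bJ at hx
    obtain ⟨v, hv, w, hw, rfl⟩ := Submodule.mem_sup.mp hx
    obtain ⟨r, rfl⟩ := (Ideal.mem_span_range_iff_exists_fun).mp hw
    choose l hl using hres
    refine ⟨fun k => l (r k), ?_⟩
    apply Subtype.ext
    change (Submodule.Quotient.mk (P fun k => l (r k)) : RR c ⧸ J) = Submodule.Quotient.mk _
    rw [Submodule.Quotient.eq]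
    have h5 : P (fun k => l (r k)) - (v + ∑ k, r k * toR c (g k)) =
        -(∑ k, (r k - toR c (C (l (r k)))) * toR c (g k) + v) := by
      change toR c (∑ k, l (r k) • g k) - _ = _
      rw [map_sum]
      have h6 : ∀ k, toR c (l (r k) • g k) = toR c (C (l (r k))) * toR c (g k) := by
        intro k
        rw [MvPolynomial.smul_eq_C_mul, map_mul]
      simp only [h6, sub_mul, Finset.sum_sub_distrib]
      ring
    rw [h5]
    apply Submodule.neg_mem
    apply Ideal.add_mem
    · rw [hJ]
      apply Ideal.mem_sup_left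
      apply Ideal.sum_mem
      intro k _
      exact Ideal.mul_mem_mul (hl _) (hgI k)
    · rw [hJ]
      exact Ideal.mem_sup_right hv
  have hcard : Nat.card (LinearMap.ker (fac hJI)) = 7 ^ m := by
    rw [← Nat.card_congr (Equiv.ofBijective Φ ⟨hinj, hsurj⟩)]
    rw [Nat.card_fun]
    simp
  rw [← hcard]
  exact (card_ker_mul_card_of_surjective (fac hJI) (fac_surjective hJI)).symm

end Pool.Agent.LCB
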