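import Mathlib
import Pool.Agent.LCB.BSt

/-!
Module BG7: assembly of the witness.
-/

namespace Pool.Agent.LCB

open Pool.Agent.Helper40.Licci RingTheory.Sequence IsLocalRing MvPolynomial

private lemma BG7_org {n c : ℕ} (f : PP c) (hf : SQ n f) : f ∈ org c := by
  have h1 : Submodule.span (ZMod 7) {p : PP c | ∃ a b : Fin c, a ≠ b ∧ a.val < n ∧ b.val < n ∧
      p = X a * X b} ≤ (org c).restrictScalars (ZMod 7) := by
    rw [Submodule.span_le]
    rintro p ⟨a, b, _, _, _, rfl⟩
    change X a * X b ∈ org c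
    rw [mem_org, map_mul, constantCoeff_X, zero_mul]
  exact h1 hf

private lemma BG7_ne (hBG1 : St_BG1) {n c m : ℕ} (hn : n ≤ c) (g : Fin m → PP c) (hg : ∀ k, SQ n (g k)) :
    bJ n g ≠ ⊤ := by
  obtain ⟨h1, _, h2, _⟩ := hBG1 n c hn
  have h3 : bJ n g ≤ maximalIdeal (RR c) := by
    unfold bJ
    refine sup_le ?_ ?_
    · rw [← h2]
      unfold Ideal.ofList
      rw [Ideal.span_le]
      intro r hr
      exact mem_max_of_isRegular _ h1 r hr
    · rw [Ideal.span_le]
      rintro _ ⟨k, rfl⟩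
      exact (IsLocalization.AtPrime.to_map_mem_maximal_iff (RR c) (org c) (g k)).2 (BG7_org _ (hg k))
  intro h
  rw [h] at h3
  exact (maximalIdeal.isMaximal (RR c)).ne_top (top_le_iff.1 h3)

theorem BG7 : St_BG7 := by
  intro hBG1 hBG4 hBG5 hBG6 hDual hBG2 n c d t g h hn _ hg hh hgi hhi hcond htau
  exact
    { len := List.length_ofFn
      reg := (hBG1 n c hn).1
      lk := hBG4 hDual hBG1 hBG2 n c d t g h hn hcond
      neI := BG7_ne hBG1 hn g hg
      neJ := BG7_ne hBG1 hn h hh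
      indI := hBG5 n c d g hn hg
      indJ := hBG5 n c t h hn hh
      cI := hBG6 hBG1 hBG2 n c d g hn hg hgi
      cJ := hBG6 hBG1 hBG2 n c t h hn hh hhi
      tau := htau }

end Pool.Agent.LCB
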