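import Mathlib
import Pool.Agent.LCB.BSt
import Pool.Agent.Helper40.Licci.LicciCount

/-!
A lower bound for the number of homomorphisms from an ideal to its quotient, from the relations.
-/

namespace Pool.Agent.LCB

open Pool.Agent.Helper40.Licci RingTheory.Sequence IsLocalRing

theorem BT1 : St_BT1 := by
  intro R _ n d r α g I rel v W hα hI hfin hrel hgen hWv hWr
  have hAI : Ideal.span (Set.range α) ≤ I := by rw [hI]; exact le_sup_left
  have hgI : ∀ k, g k ∈ I := fun k => by
    rw [hI]; exact Ideal.mem_sup_right (Ideal.subset_span ⟨k, rfl⟩)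
  have hαI : ∀ i, α i ∈ I := fun i => hAI (Ideal.subset_span ⟨i, rfl⟩)
  have hfS : Finite (R ⧸ I) := Finite.of_surjective _ (fac_surjective hAI)
  let S := R ⧸ I
  let p0 : ((Fin n → R) × (Fin d → R)) →ₗ[R] R :=
    (Fintype.linearCombination R α).coprod (Fintype.linearCombination R g)
  have hp0 : ∀ w, p0 w = (∑ i, w.1 i * α i) + ∑ k, w.2 k * g k := by
    intro w
    change Fintype.linearCombination R α w.1 + Fintype.linearCombination R g w.2 = _
    rw [Fintype.linearCombination_apply, Fintype.linearCombination_apply]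
    rfl
  have hpI : ∀ w, p0 w ∈ I := by
    intro w
    rw [hp0]
    exact I.add_mem (Ideal.sum_mem _ (fun i _ => I.mul_mem_left _ (hαI i)))
      (Ideal.sum_mem _ (fun k _ => I.mul_mem_left _ (hgI k)))
  let p : ((Fin n → R) × (Fin d → R)) →ₗ[R] I := LinearMap.codRestrict I p0 hpI
  have hps : Function.Surjective p := by
    rintro ⟨x, hx⟩
    have hx' := hx
    rw [hI] at hx'
    obtain ⟨y, hy, z, hz, hyz⟩ := Submodule.mem_sup.mp hx'
    obtain ⟨a, ha⟩ := Ideal.mem_span_range_iff_exists_fun.mp hy
    obtain ⟨b, hb⟩ := Ideal.mem_span_range_iff_exists_fun.mp hz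
    refine ⟨(a, b), Subtype.ext ?_⟩
    change p0 (a, b) = x
    rw [hp0]
    change (∑ i, a i * α i) + ∑ k, b k * g k = x
    rw [ha, hb, hyz]
  -- the relation map
  let Ψ : ((Fin n → S) × (Fin d → S)) →ₗ[R] (Fin r → S) :=
    LinearMap.pi (fun j => (- (∑ i, (v j i) • (LinearMap.proj i : (Fin n → S) →ₗ[R] S))).coprod
      (∑ k, (rel j k) • (LinearMap.proj k : (Fin d → S) →ₗ[R] S)))
  have hΨ : ∀ w j, Ψ w j = (∑ k, rel j k • w.2 k) - ∑ i, v j i • w.1 i := by
    intro w j
    change (- (∑ i, (v j i) • (LinearMap.proj i : (Fin n → S) →ₗ[R] S))) w.1 +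
      (∑ k, (rel j k) • (LinearMap.proj k : (Fin d → S) →ₗ[R] S)) w.2 = _
    rw [LinearMap.neg_apply, LinearMap.sum_apply, LinearMap.sum_apply]
    simp only [LinearMap.smul_apply, LinearMap.proj_apply]
    abel
  have hrange : LinearMap.range Ψ ≤ W := by
    rintro _ ⟨w, rfl⟩
    have e : Ψ w = (∑ k, (fun j => rel j k • w.2 k)) - ∑ i, (fun j => v j i • w.1 i) := by
      funext j
      rw [hΨ, Pi.sub_apply, Finset.sum_apply, Finset.sum_apply]
    rw [e]
    refine W.sub_mem (W.sum_mem ?_) (W.sum_mem ?_)
    · intro k _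
      obtain ⟨a, ha⟩ := Ideal.Quotient.mk_surjective (w.2 k)
      have e2 : (fun j => rel j k • w.2 k) = a • (fun j => Ideal.Quotient.mk I (rel j k)) := by
        funext j
        rw [← ha, Pi.smul_apply]
        change Ideal.Quotient.mk I (rel j k * a) = Ideal.Quotient.mk I (a * rel j k)
        rw [mul_comm]
      rw [e2]
      exact W.smul_mem _ (hWr k)
    · intro i _
      obtain ⟨a, ha⟩ := Ideal.Quotient.mk_surjective (w.1 i)
      have e2 : (fun j => v j i • w.1 i) = a • (fun j => Ideal.Quotient.mk I (v j i)) := by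
        funext j
        rw [← ha, Pi.smul_apply]
        change Ideal.Quotient.mk I (v j i * a) = Ideal.Quotient.mk I (a * v j i)
        rw [mul_comm]
      rw [e2]
      exact W.smul_mem _ (hWv i)
  have hcard := card_ker_mul_card_range Ψ
  have hS : Nat.card ((Fin n → S) × (Fin d → S)) = Nat.card (R ⧸ I) ^ (n + d) := by
    rw [Nat.card_prod, Nat.card_fun, Nat.card_fun, Nat.card_fin, Nat.card_fin, pow_add]
  rw [← hS, ← hcard]
  have hfW : Finite W := Finite.of_injective (Subtype.val) Subtype.val_injective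
  have hle2 : Nat.card (LinearMap.range Ψ) ≤ Nat.card W :=
    Nat.card_le_card_of_injective (Submodule.inclusion hrange)
      (Submodule.inclusion_injective hrange)
  refine Nat.mul_le_mul ?_ hle2
  -- homomorphisms
  have hIfg : Module.Finite R I := Module.Finite.of_surjective p hps
  have hfH : Finite (I →ₗ[R] (R ⧸ I)) := finite_hom_of_fg
  let fz : ((Fin n → S) × (Fin d → S)) → (((Fin n → R) × (Fin d → R)) →ₗ[R] S) := fun z =>
    (Fintype.linearCombination R z.1).coprod (Fintype.linearCombination R z.2)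
  have hfz : ∀ z w, fz z w = (∑ i, w.1 i • z.1 i) + ∑ k, w.2 k • z.2 k := by
    intro z w
    change Fintype.linearCombination R z.1 w.1 + Fintype.linearCombination R z.2 w.2 = _
    rw [Fintype.linearCombination_apply, Fintype.linearCombination_apply]
  have hkz : ∀ z : LinearMap.ker Ψ, LinearMap.ker p ≤ LinearMap.ker (fz z.1) := by
    rintro ⟨⟨z, ζ⟩, hz⟩ ⟨a, b⟩ hw
    have hw0 : (∑ i, a i * α i) + ∑ k, b k * g k = 0 := by
      have := congrArg Subtype.val (LinearMap.mem_ker.mp hw)
      rw [← hp0 (a, b)]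
      exact this
    have hb : ∑ k, b k * g k ∈ Ideal.span (Set.range α) := by
      have : ∑ k, b k * g k = - ∑ i, a i * α i := by linear_combination hw0
      rw [this]
      exact (Ideal.neg_mem_iff _).mpr (Ideal.sum_mem _ (fun i _ =>
        Ideal.mul_mem_left _ _ (Ideal.subset_span ⟨i, rfl⟩)))
    obtain ⟨s, hs⟩ := hgen b hb
    have hc : ∀ k, ∃ e : Fin n → R, ∑ i, e i * α i = b k - ∑ j, s j * rel j k :=
      fun k => Ideal.mem_span_range_iff_exists_fun.mp (hs k)
    choose e he using hc
    have hsum : ∑ i, (a i + (∑ j, s j * v j i) + ∑ k, e k i * g k) * α i = 0 := by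
      have e1 : ∑ i, (a i + (∑ j, s j * v j i) + ∑ k, e k i * g k) * α i
          = (∑ i, a i * α i) + (∑ j, s j * ∑ i, v j i * α i) + ∑ k, (∑ i, e k i * α i) * g k := by
        simp only [add_mul, Finset.sum_add_distrib, Finset.sum_mul, Finset.mul_sum]
        congr 1
        · congr 1
          rw [Finset.sum_comm]
          exact Finset.sum_congr rfl (fun j _ => Finset.sum_congr rfl (fun i _ => by ring))
        · rw [Finset.sum_comm]
          exact Finset.sum_congr rfl (fun j _ => Finset.sum_congr rfl (fun i _ => by ring))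
      have e2 : ∑ k, (∑ i, e k i * α i) * g k = (∑ k, b k * g k) -
          ∑ j, s j * ∑ k, rel j k * g k := by
        simp only [he, sub_mul, Finset.sum_sub_distrib, Finset.sum_mul, Finset.mul_sum]
        congr 1
        rw [Finset.sum_comm]
        exact Finset.sum_congr rfl (fun j _ => Finset.sum_congr rfl (fun i _ => by ring))
      rw [e1, e2]
      simp only [hrel]
      linear_combination hw0
    have hcoef := hα _ hsum
    have hai : ∀ i, a i • z i = - ∑ j, s j • (v j i • z i) := by
      intro i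
      have h1 : a i • z i = (a i + (∑ j, s j * v j i) + ∑ k, e k i * g k) • z i
          - (∑ j, s j * v j i) • z i - (∑ k, e k i * g k) • z i := by
        rw [add_smul, add_smul]; abel
      have h2 : (a i + (∑ j, s j * v j i) + ∑ k, e k i * g k) • z i = 0 :=
        smul_quot_eq_zero (hAI (hcoef i)) _
      have h3 : (∑ k, e k i * g k) • z i = 0 :=
        smul_quot_eq_zero (Ideal.sum_mem _ (fun k _ => I.mul_mem_left _ (hgI k))) _
      rw [h1, h2, h3, Finset.sum_smul]
      simp only [mul_smul]
      abel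
    have hbk : ∀ k, b k • ζ k = ∑ j, s j • (rel j k • ζ k) := by
      intro k
      have h1 : b k = (∑ i, e k i * α i) + ∑ j, s j * rel j k := by rw [he k]; ring
      have h3 : (∑ i, e k i * α i) • ζ k = 0 :=
        smul_quot_eq_zero (Ideal.sum_mem _ (fun i _ => I.mul_mem_left _ (hαI i))) _
      rw [h1, add_smul, h3, zero_add, Finset.sum_smul]
      simp only [mul_smul]
    rw [LinearMap.mem_ker, hfz]
    change (∑ i, a i • z i) + ∑ k, b k • ζ k = 0
    simp only [hai, hbk]
    rw [Finset.sum_neg_distrib, Finset.sum_comm, Finset.sum_comm (s := Finset.univ (α := Fin d))]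
    rw [neg_add_eq_sub, ← Finset.sum_sub_distrib]
    refine Finset.sum_eq_zero (fun j _ => ?_)
    rw [← Finset.smul_sum, ← Finset.smul_sum, ← smul_sub]
    have hz' := congrFun (LinearMap.mem_ker.mp hz) j
    rw [hΨ] at hz'
    change (∑ k, rel j k • ζ k) - ∑ i, v j i • z i = 0 at hz'
    rw [hz', smul_zero]
  choose φ hφ using fun z : LinearMap.ker Ψ => exists_descend p hps (fz z.1) (hkz z)
  refine Nat.card_le_card_of_injective φ ?_
  intro z z' hzz
  have h2 : ∀ w, fz z.1 w = fz z'.1 w := by
    intro w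
    rw [← hφ z w, ← hφ z' w, hzz]
  apply Subtype.ext
  refine Prod.ext ?_ ?_
  · funext i
    have h3 := h2 (Pi.single i 1, 0)
    rw [hfz, hfz] at h3
    simpa [Pi.single_apply, ite_smul] using h3
  · funext k
    have h3 := h2 (0, Pi.single k 1)
    rw [hfz, hfz] at h3
    simpa [Pi.single_apply, ite_smul] using h3

end Pool.Agent.LCB
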