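import Mathlib
import Pool.Agent.LCB.BSt
import Pool.Agent.Helper40.Licci.LicciCount

/-!
Homomorphisms from an ideal into a Gorenstein quotient.
-/

namespace Pool.Agent.LCB

open Pool.Agent.Helper40.Licci RingTheory.Sequence IsLocalRing

theorem BT3 : St_BT3 := by
  intro R _ _ I hfg hfS hsoc
  let S := R ⧸ I
  have hfS' : Finite S := hfS
  obtain ⟨m, g, hg⟩ := Submodule.fg_iff_exists_fin_generating_family.mp hfg
  have hgI : ∀ k, g k ∈ I := fun k => by rw [← hg]; exact Submodule.subset_span ⟨k, rfl⟩
  let p0 : (Fin m → R) →ₗ[R] R := Fintype.linearCombination R g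
  have hp0 : ∀ w, p0 w = ∑ k, w k * g k := by
    intro w
    change Fintype.linearCombination R g w = _
    rw [Fintype.linearCombination_apply]
    rfl
  have hpI : ∀ w, p0 w ∈ I := by
    intro w
    rw [hp0]
    exact Ideal.sum_mem _ (fun k _ => I.mul_mem_left _ (hgI k))
  have hpsurj : ∀ x ∈ I, ∃ w, p0 w = x := by
    intro x hx
    have hx' : x ∈ Ideal.span (Set.range g) := by
      have : Ideal.span (Set.range g) = I := hg
      rw [this]; exact hx
    obtain ⟨b, hb⟩ := Ideal.mem_span_range_iff_exists_fun.mp hx'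
    exact ⟨b, by rw [hp0, hb]⟩
  let p : (Fin m → R) →ₗ[R] I := LinearMap.codRestrict I p0 hpI
  have hps : Function.Surjective p := by
    rintro ⟨x, hx⟩
    obtain ⟨w, hw⟩ := hpsurj x hx
    exact ⟨w, Subtype.ext hw⟩
  let red : (Fin m → R) →ₗ[R] (Fin m → S) := LinearMap.compLeft (Submodule.mkQ I) (Fin m)
  have hred : Function.Surjective red := by
    intro z
    choose b hb using fun k => Submodule.Quotient.mk_surjective I (z k)
    exact ⟨b, funext hb⟩
  have hII : I * I ≤ I := Ideal.mul_le_right
  let q : (Fin m → R) →ₗ[R] (R ⧸ (I * I)) := (Submodule.mkQ (I * I)).comp p0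
  have hker : LinearMap.ker red ≤ LinearMap.ker q := by
    intro b hb
    rw [LinearMap.mem_ker] at hb ⊢
    have hbk : ∀ k, b k ∈ I := fun k =>
      (Submodule.Quotient.mk_eq_zero _).mp (congrFun hb k)
    change Submodule.Quotient.mk (p0 b) = 0
    rw [Submodule.Quotient.mk_eq_zero, hp0]
    exact Ideal.sum_mem _ (fun k _ => Ideal.mul_mem_mul (hbk k) (hgI k))
  obtain ⟨q', hq'⟩ := exists_descend red hred q hker
  have hrq : LinearMap.range q' = LinearMap.ker (fac hII) := by
    apply le_antisymm
    · rintro _ ⟨z, rfl⟩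
      obtain ⟨b, rfl⟩ := hred z
      rw [hq']
      exact mk_mem_ker_fac hII (hpI b)
    · intro y hy
      obtain ⟨x, hx, rfl⟩ := exists_of_mem_ker_fac hII hy
      obtain ⟨b, hb⟩ := hpsurj x hx
      refine ⟨red b, ?_⟩
      rw [hq', ← hb]
      rfl
  have hfac := card_ker_mul_card_of_surjective (fac hII) (fac_surjective hII)
  rw [← hfac]
  refine Nat.mul_le_mul_right _ ?_
  rw [← hrq]
  -- the pairing
  let B : (Fin m → S) →ₗ[R] (Fin m → S) →ₗ[R] S :=
    LinearMap.mk₂ R (fun z w => ∑ k, z k * w k)
      (by intro z z' w; simp only [Pi.add_apply, add_mul, Finset.sum_add_distrib])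
      (by intro r z w; simp only [Pi.smul_apply, Algebra.smul_mul_assoc, Finset.smul_sum])
      (by intro z w w'; simp only [Pi.add_apply, mul_add, Finset.sum_add_distrib])
      (by intro r z w; simp only [Pi.smul_apply, Algebra.mul_smul_comm, Finset.smul_sum])
  have hB : ∀ z w, B z w = ∑ k, z k * w k := fun z w => rfl
  let N := LinearMap.ker q'
  let T : (Fin m → S) →ₗ[R] (N →ₗ[R] S) := (LinearMap.lcomp R S N.subtype).comp B
  have hT : ∀ z (w : N), T z w = B z w.1 := fun z w => rfl
  have e1 := card_ker_mul_card_range T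
  have e2 := card_ker_mul_card_range q'
  have e3 : Nat.card (LinearMap.range T) ≤ Nat.card N := by
    refine le_trans ?_ (card_hom_le hsoc _ N rfl)
    exact Nat.card_le_card_of_injective _ Subtype.val_injective
  have hIfg : Module.Finite R I := Module.Finite.of_surjective p hps
  have hfH : Finite (I →ₗ[R] (R ⧸ I)) := finite_hom_of_fg
  have e4 : Nat.card (LinearMap.ker T) ≤ Nat.card (I →ₗ[R] (R ⧸ I)) := by
    have hex : ∀ z : LinearMap.ker T, ∃ φ : I →ₗ[R] S, ∀ v, φ (p v) = (B z.1).comp red v := by
      intro z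
      apply exists_descend p hps
      intro v hv
      have hv0 : p0 v = 0 := congrArg Subtype.val (LinearMap.mem_ker.mp hv)
      have hvN : red v ∈ N := by
        rw [LinearMap.mem_ker, hq']
        change Submodule.Quotient.mk (p0 v) = 0
        rw [hv0]
        rfl
      rw [LinearMap.mem_ker]
      exact LinearMap.congr_fun (LinearMap.mem_ker.mp z.2) ⟨red v, hvN⟩
    choose Fi hFi using hex
    refine Nat.card_le_card_of_injective Fi ?_
    intro z z' hzz
    have h2 : ∀ v, B z.1 (red v) = B z'.1 (red v) := by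
      intro v
      have h3 := hFi z v
      rw [hzz, hFi z' v] at h3
      exact h3.symm
    apply Subtype.ext
    funext k
    have h3 := h2 (Pi.single k 1)
    rw [hB, hB] at h3
    have h4 : red (Pi.single k 1) = (Pi.single k 1 : Fin m → S) := by
      funext j
      change Submodule.mkQ I ((Pi.single k 1 : Fin m → R) j) = (Pi.single k 1 : Fin m → S) j
      by_cases hjk : j = k
      · subst hjk
        rw [Pi.single_eq_same, Pi.single_eq_same]; rfl
      · rw [Pi.single_eq_of_ne hjk, Pi.single_eq_of_ne hjk, map_zero]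
    rw [h4] at h3
    simpa [Pi.single_apply] using h3
  have hNpos : 0 < Nat.card N := Nat.card_pos
  have h5 : Nat.card N * Nat.card (LinearMap.range q') ≤
      Nat.card N * Nat.card (I →ₗ[R] (R ⧸ I)) := by
    calc Nat.card N * Nat.card (LinearMap.range q') = Nat.card (Fin m → S) := e2
      _ = Nat.card (LinearMap.ker T) * Nat.card (LinearMap.range T) := e1.symm
      _ ≤ Nat.card (I →ₗ[R] (R ⧸ I)) * Nat.card N := Nat.mul_le_mul e4 e3
      _ = _ := mul_comm _ _
  exact Nat.le_of_mul_le_mul_left h5 hNpos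

end Pool.Agent.LCB
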