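import Mathlib
import Pool.Agent.LCB.BSt
import Pool.Agent.LCB.Com

/-!
The quotient of the complete intersection ideal by its product with a larger ideal.
-/

namespace Pool.Agent.LCB

open Pool.Agent.Helper40.Licci RingTheory.Sequence IsLocalRing MvPolynomial

theorem BT4 : St_BT4 := by
  intro R _ n α I hα hAI _
  set A : Ideal R := Ideal.span (Set.range α) with hA
  have hle : A * I ≤ A := Ideal.mul_le_left
  let p : (R ⧸ (A * I)) →ₗ[R] (R ⧸ A) := fac hle
  have hp : Function.Surjective p := fac_surjective hle
  have hlag := card_ker_mul_card_of_surjective p hp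
  let m0 : (Fin n → R) →ₗ[R] R := Fintype.linearCombination R α
  have hm0 : ∀ v, m0 v = ∑ i, v i * α i := by
    intro v
    change Fintype.linearCombination R α v = _
    rw [Fintype.linearCombination_apply]
    rfl
  let m : (Fin n → R) →ₗ[R] (R ⧸ (A * I)) := (Submodule.mkQ (A * I)).comp m0
  have hmem : ∀ v, m0 v ∈ A := by
    intro v
    rw [hm0]
    exact Ideal.sum_mem _ (fun i _ => Ideal.mul_mem_left _ _ (mem_span_range α i))
  have hrange : LinearMap.range m = LinearMap.ker p := by
    apply le_antisymm
    · rintro _ ⟨v, rfl⟩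
      rw [LinearMap.mem_ker]
      change fac hle (Submodule.Quotient.mk (m0 v)) = 0
      rw [fac_mk, Submodule.Quotient.mk_eq_zero]
      exact hmem v
    · intro w hw
      obtain ⟨x, rfl⟩ := Submodule.Quotient.mk_surjective _ w
      rw [LinearMap.mem_ker] at hw
      change fac hle (Submodule.Quotient.mk x) = 0 at hw
      rw [fac_mk, Submodule.Quotient.mk_eq_zero] at hw
      obtain ⟨f, hf⟩ := Ideal.mem_span_range_iff_exists_fun.mp hw
      refine ⟨f, ?_⟩
      change Submodule.Quotient.mk (m0 f) = _
      rw [hm0, hf]
  let g : (Fin n → R) →ₗ[R] (Fin n → (R ⧸ I)) := LinearMap.compLeft (Submodule.mkQ I) (Fin n)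
  have hg : Function.Surjective g := by
    intro w
    choose f hf using fun i => Submodule.mkQ_surjective I (w i)
    refine ⟨f, ?_⟩
    ext i
    exact hf i
  have hker : LinearMap.ker m = LinearMap.ker g := by
    ext v
    rw [LinearMap.mem_ker, LinearMap.mem_ker]
    have h1 : m v = 0 ↔ m0 v ∈ A * I := Submodule.Quotient.mk_eq_zero _
    have h2 : g v = 0 ↔ ∀ i, v i ∈ I := by
      constructor
      · intro h i
        have := congrFun h i
        exact (Submodule.Quotient.mk_eq_zero I).mp this
      · intro h
        ext i
        exact (Submodule.Quotient.mk_eq_zero I).mpr (h i)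
    rw [h1, h2]
    constructor
    · intro h i
      rw [mul_comm] at h
      have h' : m0 v ∈ I • Submodule.span R (Set.range α) := h
      rw [Submodule.mem_ideal_smul_span_iff_exists_sum] at h'
      obtain ⟨b, hb, hsum⟩ := h'
      have hfin := Finsupp.sum_fintype b (fun i (z : R) => z • α i) (fun i => zero_smul _ _)
      rw [hfin, hm0] at hsum
      have h3 : ∑ i, (v i - b i) * α i = 0 := by
        simp only [sub_mul, Finset.sum_sub_distrib]
        rw [← hsum]
        simp only [smul_eq_mul, sub_self]
      have h4 := hAI (hα _ h3 i)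
      have h5 : v i = (v i - b i) + b i := by ring
      rw [h5]
      exact I.add_mem h4 (hb i)
    · intro h
      rw [hm0]
      refine Ideal.sum_mem _ (fun i _ => ?_)
      rw [mul_comm (v i)]
      exact Ideal.mul_mem_mul (mem_span_range α i) (h i)
  have hc : Nat.card (LinearMap.ker p) = Nat.card (R ⧸ I) ^ n := by
    rw [← hrange]
    have e1 := (m.quotKerEquivRange).toEquiv
    have e2 := (g.quotKerEquivOfSurjective hg).toEquiv
    rw [← Nat.card_congr e1, hker, Nat.card_congr e2, Nat.card_fun, Nat.card_fin]
  rw [← hlag, hc, mul_comm]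

end Pool.Agent.LCB
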