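import Mathlib
import Pool.Agent.LCB.St

/-!
The basic double link and the count.
-/

namespace Pool.Agent.LCB

open Pool.Agent.Helper40.Licci

theorem thm_D0 : St_D0 := by
  intro R _ L z I J nz lk
  set K : Ideal R := Ideal.ofList L with hK
  have e1 : Ideal.ofList (z :: L) = K ⊔ Ideal.span {z} := by rw [Ideal.ofList_cons, sup_comm]
  have e2 : Ideal.ofList (z * z :: L) = K ⊔ Ideal.span {z * z} := by
    rw [Ideal.ofList_cons, sup_comm]
  have hKI : K ≤ I := by
    intro k hk
    rw [lk.hI, e1]
    intro y _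
    exact Ideal.mul_mem_right _ _ (Ideal.mem_sup_left hk)
  have hzI : z ∈ I := by
    rw [lk.hI, e1]
    intro y _
    exact Ideal.mul_mem_right _ _ (Ideal.mem_sup_right (Ideal.mem_span_singleton_self z))
  have hIJ : ∀ i ∈ I, ∀ j ∈ J, i * j ∈ K ⊔ Ideal.span {z} := by
    intro i hi j hj
    rw [← e1]
    exact (lk.hI i).mp hi j hj
  -- multiplying by z
  have mz : ∀ v ∈ K ⊔ Ideal.span {z}, z * v ∈ K ⊔ Ideal.span {z * z} := by
    intro v hv
    obtain ⟨k, hk, w, hw, rfl⟩ := Submodule.mem_sup.mp hv
    obtain ⟨s, rfl⟩ := Ideal.mem_span_singleton'.mp hw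
    rw [mul_add]
    refine Submodule.add_mem_sup (K.mul_mem_left _ hk) ?_
    have : z * (s * z) = s * (z * z) := by ring
    rw [this]
    exact Ideal.mul_mem_left _ _ (Ideal.mem_span_singleton_self _)
  have cz : ∀ v, z * v ∈ K ⊔ Ideal.span {z * z} → v ∈ K ⊔ Ideal.span {z} := by
    intro v hv
    obtain ⟨k, hk, w, hw, hkw⟩ := Submodule.mem_sup.mp hv
    obtain ⟨s, rfl⟩ := Ideal.mem_span_singleton'.mp hw
    have h1 : z * (v - s * z) ∈ K := by
      have : z * (v - s * z) = k := by rw [mul_sub, ← hkw]; ring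
      rw [this]; exact hk
    have h2 := nz _ h1
    have h3 : (v - s * z) + s * z ∈ K ⊔ Ideal.span {z} := Submodule.add_mem_sup h2
      (Ideal.mul_mem_left _ _ (Ideal.mem_span_singleton_self z))
    rwa [sub_add_cancel] at h3
  constructor
  · intro x
    rw [e2]
    constructor
    · intro hx i hi
      obtain ⟨k, hk, w, hw, rfl⟩ := Submodule.mem_sup.mp hx
      obtain ⟨j, hj, rfl⟩ := Ideal.mem_span_singleton_mul.mp hw
      rw [add_mul]
      refine Ideal.add_mem _ (Ideal.mem_sup_left (K.mul_mem_right _ hk)) ?_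
      have : z * j * i = z * (i * j) := by ring
      rw [this]
      exact mz _ (hIJ i hi j hj)
    · intro h
      have h1 : z * x ∈ K ⊔ Ideal.span {z * z} := by
        rw [mul_comm z x]; exact h z hzI
      have h2 := cz x h1
      obtain ⟨k, hk, w, hw, rfl⟩ := Submodule.mem_sup.mp h2
      obtain ⟨s, rfl⟩ := Ideal.mem_span_singleton'.mp hw
      refine Submodule.add_mem_sup hk ?_
      rw [mul_comm s z]
      refine Ideal.mem_span_singleton_mul.mpr ⟨s, ?_, rfl⟩
      rw [lk.hJ, e1]
      intro i hi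
      apply cz
      have h3 := h i hi
      have : z * (s * i) = (k + s * z) * i - k * i := by ring
      rw [this]
      exact Ideal.sub_mem _ h3 (Ideal.mem_sup_left (K.mul_mem_right _ hk))
  · intro x
    rw [e2]
    constructor
    · intro hx y hy
      obtain ⟨k, hk, w, hw, rfl⟩ := Submodule.mem_sup.mp hy
      obtain ⟨j, hj, rfl⟩ := Ideal.mem_span_singleton_mul.mp hw
      rw [mul_add]
      refine Ideal.add_mem _ (Ideal.mem_sup_left (K.mul_mem_left _ hk)) ?_
      have : x * (z * j) = z * (x * j) := by ring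
      rw [this]
      exact mz _ (hIJ x hx j hj)
    · intro h
      rw [lk.hI, e1]
      intro j hj
      apply cz
      have h1 := h (z * j) (Ideal.mem_sup_right
        (Ideal.mul_mem_mul (Ideal.mem_span_singleton_self z) hj))
      have : z * (x * j) = x * (z * j) := by ring
      rw [this]; exact h1

theorem thm_MZ : St_MZ := by
  intro R _ K X z hKX nz
  set T : Ideal R := K ⊔ Ideal.span {z} * X with hT
  set Z : Ideal R := K ⊔ Ideal.span {z} with hZ
  have hTZ : T ≤ Z := sup_le_sup_left Ideal.mul_le_left _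
  -- the submodule Z/T of R/T
  let p : (R ⧸ T) →ₗ[R] (R ⧸ Z) := fac hTZ
  have hp : Function.Surjective p := fac_surjective hTZ
  have hlag := card_ker_mul_card_of_surjective p hp
  let m : (R ⧸ X) →ₗ[R] (R ⧸ T) := mulQ z (by
    intro x hx
    exact Ideal.mem_sup_right (Ideal.mul_mem_mul (Ideal.mem_span_singleton_self z) hx))
  have hker : LinearMap.range m = LinearMap.ker p := by
    apply le_antisymm
    · rintro _ ⟨v, rfl⟩
      obtain ⟨x, rfl⟩ := Submodule.Quotient.mk_surjective _ v
      rw [LinearMap.mem_ker]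
      change fac hTZ (mulQ z _ (Submodule.Quotient.mk x)) = 0
      rw [mulQ_mk, fac_mk, Submodule.Quotient.mk_eq_zero]
      exact Ideal.mem_sup_right (Ideal.mul_mem_right _ _ (Ideal.mem_span_singleton_self z))
    · intro w hw
      obtain ⟨x, rfl⟩ := Submodule.Quotient.mk_surjective _ w
      rw [LinearMap.mem_ker] at hw
      change fac hTZ (Submodule.Quotient.mk x) = 0 at hw
      rw [fac_mk, Submodule.Quotient.mk_eq_zero] at hw
      obtain ⟨k, hk, w', hw', rfl⟩ := Submodule.mem_sup.mp hw
      obtain ⟨s, rfl⟩ := Ideal.mem_span_singleton'.mp hw'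
      refine ⟨Submodule.Quotient.mk s, ?_⟩
      change mulQ z _ (Submodule.Quotient.mk s) = _
      rw [mulQ_mk, Submodule.Quotient.eq]
      have : z * s - (k + s * z) = - k := by ring
      rw [this]
      exact Ideal.mem_sup_left (K.neg_mem hk)
  have hinj : Function.Injective m := by
    rw [← LinearMap.ker_eq_bot, LinearMap.ker_eq_bot']
    intro v hv
    obtain ⟨x, rfl⟩ := Submodule.Quotient.mk_surjective _ v
    change mulQ z _ (Submodule.Quotient.mk x) = 0 at hv
    rw [mulQ_mk, Submodule.Quotient.mk_eq_zero] at hv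
    rw [Submodule.Quotient.mk_eq_zero]
    obtain ⟨k, hk, w, hw, hkw⟩ := Submodule.mem_sup.mp hv
    obtain ⟨y, hy, rfl⟩ := Ideal.mem_span_singleton_mul.mp hw
    have h1 : z * (x - y) ∈ K := by
      have : z * (x - y) = k := by rw [mul_sub, ← hkw]; ring
      rw [this]; exact hk
    have h2 := hKX (nz _ h1)
    have : x = (x - y) + y := by ring
    rw [this]
    exact X.add_mem h2 hy
  have hc : Nat.card (R ⧸ X) = Nat.card (LinearMap.ker p) := by
    rw [← hker]
    exact Nat.card_congr (LinearEquiv.ofInjective m hinj).toEquiv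
  rw [← hlag, ← hc, mul_comm]

end Pool.Agent.LCB
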