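import Pool.Agent.LCB.St

/-!
# LCB Dual: duality in a finite Gorenstein quotient
-/

set_option autoImplicit false

namespace Pool.Agent.LCB

open Pool.Agent.Helper40.Licci RingTheory.Sequence IsLocalRing

private theorem Dual_le {R : Type} [CommRing R] (K0 K : Ideal R) : K0 ≤ col K0 K := by
  intro x hx
  rw [mem_col]
  intro y _
  exact K0.mul_mem_right y hx

private theorem Dual_first {R : Type} [CommRing R] [IsLocalRing R] (K0 K : Ideal R)
    (h : K0 ≤ K) [Finite (R ⧸ K0)]
    (hS : Nat.card (soc R (R ⧸ K0)) ≤ Nat.card (R ⧸ maximalIdeal R)) :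
    Nat.card (R ⧸ K) * Nat.card (R ⧸ col K0 K) = Nat.card (R ⧸ K0) := by
  have hfin : Finite (R ⧸ K) := Finite.of_surjective _ (fac_surjective h)
  let T : (R ⧸ K0) →ₗ[R] (LinearMap.ker (fac h) →ₗ[R] (R ⧸ K0)) :=
    (LinearMap.lcomp R (R ⧸ K0) (LinearMap.ker (fac h)).subtype).comp (LinearMap.mul R (R ⧸ K0))
  have hT : ∀ z (y : LinearMap.ker (fac h)), T z y = z * y.1 := fun z y => rfl
  have hc : K0 ≤ col K0 K := Dual_le K0 K
  have hkT : LinearMap.ker T = LinearMap.ker (fac hc) := by
    ext z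
    obtain ⟨x, rfl⟩ := Submodule.Quotient.mk_surjective _ z
    rw [LinearMap.mem_ker, LinearMap.mem_ker, fac_mk, Submodule.Quotient.mk_eq_zero, mem_col]
    constructor
    · intro hx y hy
      have h1 := LinearMap.congr_fun hx ⟨Submodule.Quotient.mk y, mk_mem_ker_fac h hy⟩
      rw [hT] at h1
      exact (Submodule.Quotient.mk_eq_zero K0).1 h1
    · intro hx
      apply LinearMap.ext
      rintro ⟨y, hy⟩
      obtain ⟨y, hy', rfl⟩ := exists_of_mem_ker_fac h hy
      exact (Submodule.Quotient.mk_eq_zero K0).2 (hx y hy')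
  have h1 : Nat.card (LinearMap.ker T) ≤ Nat.card (R ⧸ K) := by
    refine le_trans ?_ (card_torsion_le hS K)
    refine Nat.card_le_card_of_injective (fun z => ⟨z.1, ?_⟩) ?_
    · rw [Submodule.mem_torsionBySet_iff]
      rintro ⟨a, ha⟩
      have h1 := LinearMap.congr_fun (LinearMap.mem_ker.mp z.2)
        ⟨Submodule.Quotient.mk a, mk_mem_ker_fac h ha⟩
      rw [hT] at h1
      change a • z.1 = 0
      rw [Algebra.smul_def, mul_comm]
      exact h1
    · intro x y hxy
      have h1 : (x : R ⧸ K0) = y := congrArg (fun w => w.1) hxy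
      exact Subtype.ext h1
  have e1 := card_ker_mul_card_range T
  have e2 := card_ker_mul_card_of_surjective (fac h) (fac_surjective h)
  have e3 : Nat.card (LinearMap.ker (fac h) →ₗ[R] (R ⧸ K0)) ≤ Nat.card (LinearMap.ker (fac h)) :=
    card_hom_le hS _ _ rfl
  have e4 : Nat.card (LinearMap.range T) ≤ Nat.card (LinearMap.ker (fac h) →ₗ[R] (R ⧸ K0)) :=
    Nat.card_le_card_of_injective _ Subtype.val_injective
  have e5 := card_ker_mul_card_of_surjective (fac hc) (fac_surjective hc)
  rw [← hkT] at e5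
  have hp1 : 0 < Nat.card (LinearMap.ker T) := Nat.card_pos
  have hp2 : 0 < Nat.card (LinearMap.ker (fac h)) := Nat.card_pos
  have hp3 : 0 < Nat.card (R ⧸ K) := Nat.card_pos
  have h2 : Nat.card (R ⧸ K) ≤ Nat.card (LinearMap.ker T) := by
    by_contra hlt
    push Not at hlt
    have h3 : Nat.card (LinearMap.ker T) * Nat.card (LinearMap.range T)
        ≤ Nat.card (LinearMap.ker T) * Nat.card (LinearMap.ker (fac h)) :=
      Nat.mul_le_mul_left _ (e4.trans e3)
    have h4 : Nat.card (LinearMap.ker T) * Nat.card (LinearMap.ker (fac h)) <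
        Nat.card (R ⧸ K) * Nat.card (LinearMap.ker (fac h)) :=
      Nat.mul_lt_mul_of_pos_right hlt hp2
    rw [e1] at h3
    rw [mul_comm (Nat.card (R ⧸ K)), e2] at h4
    exact absurd (lt_of_le_of_lt h3 h4) (lt_irrefl _)
  rw [le_antisymm h2 h1]
  exact e5

theorem thm_Dual : St_Dual := by
  intro R _ _ K0 K h hf hS
  refine ⟨Dual_first K0 K h hS, ?_⟩
  have h1 := Dual_first K0 K h hS
  have h2 := Dual_first K0 (col K0 K) (Dual_le K0 K) hS
  have hle : K ≤ col K0 (col K0 K) := by
    intro x hx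
    rw [mem_col]
    intro y hy
    rw [mul_comm]
    exact mem_col.1 hy x hx
  have hfin : Finite (R ⧸ K) := Finite.of_surjective _ (fac_surjective h)
  have hfin2 : Finite (R ⧸ col K0 K) := Finite.of_surjective _ (fac_surjective (Dual_le K0 K))
  have hp : 0 < Nat.card (R ⧸ col K0 K) := Nat.card_pos
  have h3 : Nat.card (R ⧸ K) = Nat.card (R ⧸ col K0 (col K0 K)) := by
    rw [← h1, mul_comm] at h2
    exact (Nat.eq_of_mul_eq_mul_right hp h2).symm
  have hinj : Function.Injective (fac hle) := by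
    have hbij := (Nat.bijective_iff_surjective_and_card (fac hle)).2 ⟨fac_surjective hle, h3⟩
    exact hbij.1
  apply le_antisymm _ hle
  intro x hx
  have h4 : fac hle (Submodule.Quotient.mk x) = 0 := by
    rw [fac_mk]
    exact (Submodule.Quotient.mk_eq_zero _).2 hx
  have h5 : (Submodule.Quotient.mk x : R ⧸ K) = 0 := hinj (by rw [h4, map_zero])
  exact (Submodule.Quotient.mk_eq_zero _).1 h5

end Pool.Agent.LCB
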