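import Mathlib
import Pool.Agent.LCB.St

/-!
Exchange of one member of the complete intersection.
-/

namespace Pool.Agent.LCB

lemma ex_aux {R : Type} [CommRing R] {M K J : Ideal R} {p x : R} (hp : p ∈ J)
    (hx : ∀ r, x * r ∈ K → r ∈ K) (m : R) (hm : m ∈ M * col (K ⊔ Ideal.span {x}) J) :
    ∃ g ∈ M * col (K ⊔ Ideal.span {p}) J, p * m - x * g ∈ K := by
  induction hm using Submodule.mul_induction_on' with
  | mem_mul_mem a ha f hf =>
    have h1 : f * p ∈ K ⊔ Ideal.span {x} := mem_col.mp hf p hp
    obtain ⟨b, hb, w, hw, hbw⟩ := Submodule.mem_sup.mp h1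
    obtain ⟨g, rfl⟩ := Ideal.mem_span_singleton'.mp hw
    have hg : g ∈ col (K ⊔ Ideal.span {p}) J := by
      rw [mem_col]
      intro j hj
      have h2 : f * j ∈ K ⊔ Ideal.span {x} := mem_col.mp hf j hj
      obtain ⟨b', hb', w', hw', hbw'⟩ := Submodule.mem_sup.mp h2
      obtain ⟨e, rfl⟩ := Ideal.mem_span_singleton'.mp hw'
      have h3 : x * (g * j - p * e) ∈ K := by
        have : x * (g * j - p * e) = p * b' - j * b := by
          have e1 : g * x = f * p - b := by rw [← hbw]; ring
          have e2 : e * x = f * j - b' := by rw [← hbw']; ring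
          calc x * (g * j - p * e) = (g * x) * j - p * (e * x) := by ring
            _ = (f * p - b) * j - p * (f * j - b') := by rw [e1, e2]
            _ = p * b' - j * b := by ring
        rw [this]
        exact K.sub_mem (K.mul_mem_left _ hb') (K.mul_mem_left _ hb)
      have h4 := hx _ h3
      have h5 : g * j = (g * j - p * e) + p * e := by ring
      rw [h5]
      exact Submodule.add_mem_sup h4 (Ideal.mul_mem_right _ _ (Ideal.mem_span_singleton_self p))
    refine ⟨a * g, Ideal.mul_mem_mul ha hg, ?_⟩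
    have : p * (a * f) - x * (a * g) = a * b := by
      have e1 : g * x = f * p - b := by rw [← hbw]; ring
      calc p * (a * f) - x * (a * g) = a * (f * p) - a * (g * x) := by ring
        _ = a * (f * p) - a * (f * p - b) := by rw [e1]
        _ = a * b := by ring
    rw [this]
    exact K.mul_mem_left _ hb
  | add m _ n _ h1 h2 =>
    obtain ⟨g, hg, h1⟩ := h1
    obtain ⟨g', hg', h2⟩ := h2
    refine ⟨g + g', Ideal.add_mem _ hg hg', ?_⟩
    have : p * (m + n) - x * (g + g') = (p * m - x * g) + (p * n - x * g') := by ring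
    rw [this]
    exact K.add_mem h1 h2

theorem thm_Ex : St_Ex := by
  intro R _ M K J p x hp hx h
  obtain ⟨m, hm, b, hb, hmb⟩ := Submodule.mem_sup.mp h
  obtain ⟨g, hg, h1⟩ := ex_aux hp hx m hm
  have h2 : x * (p - g) ∈ K := by
    have : x * (p - g) = (p * m - x * g) + p * b := by rw [← hmb]; ring
    rw [this]
    exact K.add_mem h1 (K.mul_mem_left _ hb)
  have h3 := hx _ h2
  have h4 : g + (p - g) ∈ M * col (K ⊔ Ideal.span {p}) J ⊔ K := Submodule.add_mem_sup hg h3
  have h5 : g + (p - g) = p := by ring
  rwa [h5] at h4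

end Pool.Agent.LCB
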