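import Mathlib
import Pool.Agent.LCB.C

/-!
The operation `(c, d, 1) ↦ (c, d + 1, 1)` for special witnesses.
-/

namespace Pool.Agent.LCB

open Pool.Agent.Helper40.Licci RingTheory.Sequence IsLocalRing

section

variable {R : Type} [CommRing R] [IsLocalRing R]

lemma ind_cons2 {b1 b2 : R} {A : List R} {J : Ideal R}
    (h1 : b1 ∉ maximalIdeal R * J ⊔ Ideal.ofList (b2 :: A))
    (h2 : b2 ∉ maximalIdeal R * J ⊔ Ideal.ofList (b1 :: A))
    (h4 : ∀ A1 a A2, A = A1 ++ a :: A2 →
      a ∉ maximalIdeal R * J ⊔ Ideal.ofList (b1 :: b2 :: (A1 ++ A2))) :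
    Ind (b1 :: b2 :: A) J := by
  apply ind_of_split
  intro L1 a L2 h
  rcases L1 with _ | ⟨c1, L1⟩
  · rw [List.nil_append, List.cons.injEq] at h
    obtain ⟨rfl, rfl⟩ := h
    exact h1
  rw [List.cons_append, List.cons.injEq] at h
  obtain ⟨rfl, h⟩ := h
  rcases L1 with _ | ⟨c2, L1⟩
  · rw [List.nil_append, List.cons.injEq] at h
    obtain ⟨rfl, rfl⟩ := h
    exact h2
  rw [List.cons_append, List.cons.injEq] at h
  obtain ⟨rfl, h⟩ := h
  exact h4 L1 a L2 h

lemma mem_cons {a x : R} {L : List R} (h : x ∈ Ideal.ofList (a :: L)) :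
    ∃ s, ∃ b ∈ Ideal.ofList L, x = s * a + b := by
  rw [Ideal.ofList_cons] at h
  obtain ⟨v, hv, b, hb, rfl⟩ := Submodule.mem_sup.mp h
  obtain ⟨s, rfl⟩ := Ideal.mem_span_singleton'.mp hv
  exact ⟨s, b, hb, rfl⟩

end

section

variable {R : Type} [CommRing R] [IsRegularLocalRing R]

lemma dp_bound1 (K J : Ideal R) (z : R) : maximalIdeal R * (K ⊔ Ideal.span {z} * J) ≤
    K ⊔ Ideal.span {z} * (maximalIdeal R * J) := by
  rw [Ideal.mul_sup]
  refine sup_le (le_trans Ideal.mul_le_right le_sup_left) ?_
  rw [← mul_assoc, mul_comm (maximalIdeal R) (Ideal.span {z}), mul_assoc]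
  exact le_sup_right

lemma dp_bound2 (K J : Ideal R) (z : R) : maximalIdeal R * (K ⊔ Ideal.span {z} * J) ≤
    maximalIdeal R * K ⊔ Ideal.span {z} := by
  rw [Ideal.mul_sup]
  refine sup_le le_sup_left ?_
  refine le_trans ?_ le_sup_right
  rw [← mul_assoc, mul_comm (maximalIdeal R) (Ideal.span {z}), mul_assoc]
  exact Ideal.mul_le_left

lemma dp_mul_le {L : List R} {T : Ideal R} (h : ∀ a ∈ L, a ∈ T ∨
    maximalIdeal R * Ideal.span {a} ≤ T) : maximalIdeal R * Ideal.ofList L ≤ T := by
  unfold Ideal.ofList
  rw [Ideal.mul_le]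
  intro r hr s hs
  induction hs using Submodule.span_induction with
  | mem x hx =>
    rcases h x hx with h1 | h1
    · exact T.mul_mem_left _ h1
    · exact h1 (Ideal.mul_mem_mul hr (Ideal.mem_span_singleton_self x))
  | zero => rw [mul_zero]; exact T.zero_mem
  | add x y _ _ hx hy => rw [mul_add]; exact T.add_mem hx hy
  | smul a x _ hx =>
    have : r * (a • x) = a * (r * x) := by rw [smul_eq_mul]; ring
    rw [this]; exact T.mul_mem_left _ hx

end

/-- The operation `(c, d, 1) ↦ (c, d + 1, 1)`, when a ring homomorphism to the power series in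
`r` over the power series in `s` is given with `z ↦ s²`, `q ↦ r²`, `w ↦ s r`, which kills the
other members of the complete intersection. -/
theorem thm_Dp (hD : St_Dual) (hTy : St_Type) (hO : St_One) (hRs : St_Rsm) (hRg : St_Rg1)
    (hKF : St_KF) (hE : St_Ex) (hD0 : St_D0) (hMZ : St_MZ) (hT : St_Tau)
    (R : Type) [CommRing R] [IsRegularLocalRing R] (c d : ℕ) (ys : List R) (z q w : R)
    (A : List R) (I J : Ideal R) (hx : Params R c ys) (hf : Finite (R ⧸ maximalIdeal R))
    (hA0 : A ≠ []) (W : Wit R c d 1 (z :: q :: A) I J) (hw : w ∈ J)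
    (hwn : w ∉ maximalIdeal R * J ⊔ Ideal.ofList (z :: q :: A))
    (k : Type) [Field k] (θ : R →+* PowerSeries (PowerSeries k))
    (θm : ∀ m ∈ maximalIdeal R, PowerSeries.constantCoeff
      (PowerSeries.constantCoeff (θ m)) = 0)
    (θz : θ z = PowerSeries.C (PowerSeries.X ^ 2)) (θq : θ q = PowerSeries.X ^ 2)
    (θw : θ w = PowerSeries.C PowerSeries.X * PowerSeries.X) (θA : ∀ a ∈ A, θ a = 0)
    (θI : ∀ i ∈ I, PowerSeries.constantCoeff (PowerSeries.coeff 1 (θ i)) = 0) :
    ∃ (rs' : List R) (I' J' : Ideal R), Wit R c (d + 1) 1 rs' I' J' := by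
  obtain ⟨lrs, reg, lk, neI, neJ, indI, indJ, cI, cJ, tau⟩ := W
  have hf' : Finite (ResidueField R) := hf
  have hc3 : 3 ≤ c := by
    rcases A with _ | ⟨a0, A⟩
    · exact absurd rfl hA0
    · rw [← lrs]; simp
  have hmem := mem_max_of_isRegular _ reg
  have hzm : z ∈ maximalIdeal R := hmem z (by simp)
  have hqm : q ∈ maximalIdeal R := hmem q (by simp)
  set K : Ideal R := Ideal.ofList (q :: A) with hK
  have hKz : Ideal.ofList (z :: q :: A) = K ⊔ Ideal.span {z} := by
    rw [Ideal.ofList_cons, sup_comm]
  have nz : ∀ r, z * r ∈ K → r ∈ K := nzd reg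
  have hzJ : z ∈ J := lk.leJ (mem_ofList (by simp))
  have hzI : z ∈ I := lk.leI (mem_ofList (by simp))
  have hKJ : K ≤ J := le_trans (by rw [hKz]; exact le_sup_left) lk.leJ
  have hKI : K ≤ I := le_trans (by rw [hKz]; exact le_sup_left) lk.leI
  have hIm : I ≤ maximalIdeal R := le_maximalIdeal neI
  have hJm : J ≤ maximalIdeal R := le_maximalIdeal neJ
  have hAK : ∀ a ∈ A, a ∈ K := fun a ha => mem_ofList (by simp [ha])
  have hqK : q ∈ K := mem_ofList (by simp)
  -- the double link
  set J1 : Ideal R := K ⊔ Ideal.span {z} * J with hJ1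
  have lk1 : Lk (z * z :: q :: A) I J1 := hD0 R (q :: A) z I J nz lk
  have regγ : IsRegular R (z * z :: q :: A) :=
    hRg R z (z * z) 1 2 (q :: A) reg (Ideal.mul_mem_left _ _ hzm)
      (by rw [mul_one, pow_two, sub_self]; exact Ideal.zero_mem _)
  have hKJ1 : K ≤ J1 := le_sup_left
  have hzJ1 : ∀ v ∈ J, z * v ∈ J1 := fun v hv => Ideal.mem_sup_right (c_span_mul_mem hv)
  -- finiteness
  obtain ⟨f0, s0⟩ := hx.goodRing _ lrs reg
  have fJ : Finite (R ⧸ J) := Finite.of_surjective _ (fac_surjective lk.leJ)
  -- the generator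
  set V : Ideal R := maximalIdeal R * J ⊔ K with hV
  have hV0 : maximalIdeal R * J ≤ V := le_sup_left
  have hVJ : V ≤ J := sup_le Ideal.mul_le_right hKJ
  have e0 : maximalIdeal R * J ⊔ Ideal.ofList (z :: q :: A) = V ⊔ Ideal.span {z} := by
    rw [hKz, ← sup_assoc]
  rw [e0] at cJ hwn
  have hVz : maximalIdeal R * J ≤ V ⊔ Ideal.span {z} := le_trans hV0 le_sup_left
  have hVzJ : V ⊔ Ideal.span {z} ≤ J :=
    sup_le hVJ ((Ideal.span_singleton_le_iff_mem _).mpr hzJ)
  have hq1 : 0 < Nat.card (R ⧸ maximalIdeal R) := Nat.card_pos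
  have c1 : Nat.card (R ⧸ (V ⊔ Ideal.span {z} ⊔ Ideal.span {w})) = Nat.card (R ⧸ J) := by
    have h1 := c_card_step hO hVz hw hwn
    rw [cJ, pow_one] at h1
    exact (Nat.eq_of_mul_eq_mul_left hq1 h1).symm
  have hVw : V ⊔ Ideal.span {z} ⊔ Ideal.span {w} ≤ J :=
    sup_le hVzJ ((Ideal.span_singleton_le_iff_mem _).mpr hw)
  have hJeq : V ⊔ Ideal.span {z} ⊔ Ideal.span {w} = J := by
    set T : Ideal R := V ⊔ Ideal.span {z} ⊔ Ideal.span {w} with hTd
    have hfT : Finite (R ⧸ T) := by
      apply Nat.finite_of_card_ne_zero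
      rw [c1]; exact Nat.card_pos.ne'
    have hsur : Function.Surjective (fac hVw) := fac_surjective hVw
    have hbij : Function.Bijective (fac hVw) :=
      (Nat.bijective_iff_surjective_and_card _).mpr ⟨hsur, c1⟩
    apply le_antisymm hVw
    intro v hv
    have h2 : fac hVw (Submodule.Quotient.mk v) = fac hVw 0 := by
      rw [map_zero, fac_mk, Submodule.Quotient.mk_eq_zero]; exact hv
    have h3 := hbij.1 h2
    rwa [Submodule.Quotient.mk_eq_zero] at h3
  have hJrs : J ≤ Ideal.ofList (z :: q :: A) ⊔ Ideal.span {w} := by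
    have hfg : J.FG := IsNoetherian.noetherian J
    refine Submodule.le_of_le_smul_of_le_jacobson_bot hfg
      (I := maximalIdeal R) (maximalIdeal_le_jacobson _) ?_
    have h4 : J ≤ V ⊔ Ideal.span {z} ⊔ Ideal.span {w} := le_of_eq hJeq.symm
    refine le_trans h4 ?_
    rw [hV, hKz, smul_eq_mul]
    refine sup_le (sup_le (sup_le le_sup_right ?_) ?_) ?_
    · exact le_trans (le_trans le_sup_left le_sup_left) le_sup_left
    · exact le_trans (le_trans le_sup_right le_sup_left) le_sup_left
    · exact le_trans le_sup_right le_sup_left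
  have hzV : z ∉ V := indJ z (q :: A) (List.Perm.refl _)
  have n_z : z ∉ V ⊔ Ideal.span {w} := exch hV0 hw hzV hwn
  -- the new complete intersection
  set x : R := z * w + q * q with hxd
  have hxm : x ∈ maximalIdeal R :=
    Ideal.add_mem _ (Ideal.mul_mem_right _ _ hzm) (Ideal.mul_mem_right _ _ hqm)
  have r1 : IsRegular R (q :: z * z :: A) := isRegular_of_perm regγ (List.Perm.swap _ _ _)
  have r2 : IsRegular R (x :: z * z :: A) :=
    hRg R q x (q * q - z * w) 4 _ r1 hxm (by
      have : x * (q * q - z * w) - q ^ 4 = (- (w * w)) * (z * z) := by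
        rw [hxd]; ring
      rw [this]
      exact Ideal.mul_mem_left _ _ (mem_ofList (by simp)))
  have regβ : IsRegular R (z * z :: x :: A) := isRegular_of_perm r2 (List.Perm.swap _ _ _)
  set β : List R := z * z :: x :: A with hβ
  have hzz1 : z * z ∈ J1 := hzJ1 z hzJ
  have hqq : q * q ∈ maximalIdeal R * J1 := Ideal.mul_mem_mul hqm (hKJ1 hqK)
  have hx1 : x ∈ J1 := J1.add_mem (hzJ1 w hw) (Ideal.mul_le_right hqq)
  have hA1 : ∀ a ∈ A, a ∈ J1 := fun a ha => hKJ1 (hAK a ha)
  have hβ1 : Ideal.ofList β ≤ J1 := by
    refine ofList_le ?_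
    intro a ha
    rw [hβ] at ha
    simp only [List.mem_cons] at ha
    rcases ha with rfl | rfl | ha
    · exact hzz1
    · exact hx1
    · exact hA1 a ha
  -- bounds for mJ1
  have hmJ1 : maximalIdeal R * J1 ≤ K ⊔ Ideal.span {z} * (maximalIdeal R * J) :=
    dp_bound1 _ _ _
  have hmJ1' : maximalIdeal R * J1 ≤ maximalIdeal R * K ⊔ Ideal.span {z} :=
    dp_bound2 _ _ _
  -- independence in J1
  have indJ1 : Ind β J1 := by
    refine ind_cons2 ?_ ?_ ?_
    · -- z * z
      intro h
      have h1 : z * z ∈ K ⊔ Ideal.span {z} * (maximalIdeal R * J ⊔ Ideal.span {w}) := by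
        refine (sup_le (le_trans hmJ1 (sup_le_sup_left (Ideal.mul_mono_right
          le_sup_left) _)) ?_) h
        refine ofList_le ?_
        intro a ha
        simp only [List.mem_cons] at ha
        rcases ha with rfl | ha
        · rw [hxd, add_comm]
          exact Submodule.add_mem_sup (K.mul_mem_left _ hqK) (c_span_mul_mem
            (Ideal.mem_sup_right (Ideal.mem_span_singleton_self _)))
        · exact Ideal.mem_sup_left (hAK a ha)
      have h2 := c_cancel nz h1
      apply n_z
      rw [hV, sup_comm _ K, sup_assoc]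
      exact h2
    · -- x
      intro h
      have h1 : z * w ∈ K ⊔ Ideal.span {z} * (maximalIdeal R * J ⊔ Ideal.span {z}) := by
        have h3 : z * w = x - q * q := by rw [hxd]; ring
        rw [h3]
        refine Ideal.sub_mem _ ?_ (Ideal.mem_sup_left (K.mul_mem_left _ hqK))
        refine (sup_le (le_trans hmJ1 (sup_le_sup_left (Ideal.mul_mono_right
          le_sup_left) _)) ?_) h
        refine ofList_le ?_
        intro a ha
        simp only [List.mem_cons] at ha
        rcases ha with rfl | ha
        · exact Ideal.mem_sup_right (c_span_mul_mem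
            (Ideal.mem_sup_right (Ideal.mem_span_singleton_self _)))
        · exact Ideal.mem_sup_left (hAK a ha)
      have h2 := c_cancel nz h1
      apply hwn
      rw [hV, sup_comm _ K, sup_assoc]
      exact h2
    · -- a in A
      intro A1 a A2 hA h
      have hperm : (z :: q :: A).Perm (a :: z :: q :: (A1 ++ A2)) := by
        rw [hA]
        have : (z :: q :: (A1 ++ a :: A2)).Perm (z :: q :: a :: (A1 ++ A2)) := by
          refine (List.perm_cons z).mpr ((List.perm_cons q).mpr ?_)
          exact List.perm_middle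
        refine this.trans ?_
        exact (List.perm_middle (l₁ := [z, q]))
      have r1 := isRegular_of_perm reg hperm
      apply hRs R a _ r1
      have hz' : z ∈ maximalIdeal R * Ideal.span {a} ⊔
          Ideal.ofList (z :: q :: (A1 ++ A2)) :=
        Ideal.mem_sup_right (mem_ofList (by simp))
      have hq' : q ∈ maximalIdeal R * Ideal.span {a} ⊔
          Ideal.ofList (z :: q :: (A1 ++ A2)) :=
        Ideal.mem_sup_right (mem_ofList (by simp))
      have hA' : ∀ b ∈ A1 ++ A2, b ∈ maximalIdeal R * Ideal.span {a} ⊔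
          Ideal.ofList (z :: q :: (A1 ++ A2)) := fun b hb =>
        Ideal.mem_sup_right (mem_ofList (by
          simp only [List.mem_cons]
          right; right; exact hb))
      refine (sup_le (le_trans hmJ1' (sup_le (dp_mul_le ?_) ?_)) (ofList_le ?_)) h
      · intro b hb
        simp only [List.mem_cons] at hb
        rcases hb with rfl | hb
        · left; exact hq'
        · rw [hA, List.mem_append, List.mem_cons] at hb
          rcases hb with hb | rfl | hb
          · left; exact hA' b (List.mem_append.mpr (Or.inl hb))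
          · right; exact le_sup_left
          · left; exact hA' b (List.mem_append.mpr (Or.inr hb))
      · rw [Ideal.span_singleton_le_iff_mem]; exact hz'
      · intro b hb
        simp only [List.mem_cons] at hb
        rcases hb with rfl | rfl | hb
        · exact Ideal.mul_mem_left _ _ hz'
        · exact Ideal.add_mem _ (Ideal.mul_mem_right _ _ hz') (Ideal.mul_mem_right _ _ hq')
        · exact hA' b hb
  have hJ1m : J1 ≤ maximalIdeal R :=
    sup_le (le_trans hKJ hJm) (le_trans Ideal.mul_le_right hJm)
  have hb1 : z * z - z * z ∈ maximalIdeal R * J1 := by rw [sub_self]; exact Ideal.zero_mem _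
  have hb2 : x - z * w ∈ maximalIdeal R * J1 := by
    have : x - z * w = q * q := by rw [hxd]; ring
    rw [this]; exact hqq
  -- the elements of the new ideal
  have regK : IsRegular R (q :: A) := by
    have h1 : IsRegular R ((q :: A) ++ [z]) :=
      isRegular_of_perm reg (List.perm_append_singleton z (q :: A)).symm
    have h2 := ((isWeaklyRegular_append_iff R (q :: A) [z]).mp h1.toIsWeaklyRegular).1
    exact IsRegular.of_isWeaklyRegular_of_mem_maximalIdeal R
      (fun r hr => hmem r (List.mem_cons_of_mem _ hr)) h2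
  have nq : ∀ r, q * r ∈ Ideal.ofList A → r ∈ Ideal.ofList A := nzd regK
  have θA' : ∀ a ∈ Ideal.ofList A, θ a = 0 := by
    intro a ha
    have : Ideal.ofList A ≤ RingHom.ker θ := ofList_le (fun b hb => θA b hb)
    exact this ha
  have key : ∀ f ∈ col (Ideal.ofList β) J1,
      (PowerSeries.X ^ 4 : PowerSeries k) ∣ PowerSeries.constantCoeff (θ f) := by
    intro f hf1
    have h1 : f * q ∈ Ideal.ofList β := mem_col.mp hf1 q (hKJ1 hqK)
    rw [hβ] at h1
    obtain ⟨t, b1, hb1', h2⟩ := mem_cons h1
    obtain ⟨t', a, ha, h3⟩ := mem_cons hb1'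
    have h4 : z * (t * z + t' * w) ∈ K := by
      have : z * (t * z + t' * w) = (f - t' * q) * q - a := by
        rw [h3, hxd] at h2
        linear_combination (-1) * h2
      rw [this]
      refine K.sub_mem (K.mul_mem_left _ hqK) ?_
      have : Ideal.ofList A ≤ K := ofList_le hAK
      exact this ha
    have h5 := nz _ h4
    obtain ⟨g, a', ha', h6⟩ := mem_cons h5
    have ht' : t' ∈ I := by
      rw [lk.hI]
      intro j hj
      obtain ⟨v, hv, s, hs, rfl⟩ := Submodule.mem_sup.mp (hJrs hj)
      obtain ⟨s, rfl⟩ := Ideal.mem_span_singleton'.mp hs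
      rw [mul_add]
      refine Ideal.add_mem _ (Ideal.mul_mem_left _ _ hv) ?_
      have h7 : t' * w ∈ Ideal.ofList (z :: q :: A) := by
        have : t' * w = (g * q + a') - t * z := by rw [← h6]; ring
        rw [this, hKz]
        refine Ideal.sub_mem _ (Ideal.mem_sup_left ?_)
          (Ideal.mem_sup_right (Ideal.mul_mem_left _ _ (Ideal.mem_span_singleton_self z)))
        rw [← h6]; exact h5
      have : t' * (s * w) = s * (t' * w) := by ring
      rw [this]
      exact Ideal.mul_mem_left _ _ h7
    have h8 : q * (f - z * g - t' * q) ∈ Ideal.ofList A := by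
      have : q * (f - z * g - t' * q) = z * a' + a := by
        rw [h3, hxd] at h2
        linear_combination h2 + z * h6
      rw [this]
      exact Ideal.add_mem _ (Ideal.mul_mem_left _ _ ha') ha
    have h9 := nq _ h8
    have e1 : θ f = θ z * θ g + θ t' * θ q := by
      have := θA' _ h9
      rw [map_sub, map_sub, map_mul, map_mul] at this
      linear_combination this
    have e2 : θ t * θ z + θ t' * θ w = θ g * θ q := by
      have := congrArg θ h6
      rw [map_add, map_add, map_mul, map_mul, map_mul, θA' _ ha', add_zero] at this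
      exact this
    have e3 : PowerSeries.constantCoeff (θ f) =
        PowerSeries.X ^ 2 * PowerSeries.constantCoeff (θ g) := by
      rw [e1, θz, θq]
      simp
    have e4 : PowerSeries.constantCoeff (θ g) =
        PowerSeries.X ^ 2 * PowerSeries.coeff 2 (θ t) +
          PowerSeries.X * PowerSeries.coeff 1 (θ t') := by
      have h10 := congrArg (PowerSeries.coeff 2) e2
      rw [θz, θw, θq] at h10
      have h11 : PowerSeries.coeff 2 (θ g * PowerSeries.X ^ 2) =
          PowerSeries.constantCoeff (θ g) := by
        have := PowerSeries.coeff_mul_X_pow (θ g) 2 0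
        rw [zero_add] at this
        rw [this, PowerSeries.coeff_zero_eq_constantCoeff]
      have h12 : PowerSeries.coeff 2 (θ t * PowerSeries.C (PowerSeries.X ^ 2)) =
          PowerSeries.X ^ 2 * PowerSeries.coeff 2 (θ t) := by
        rw [PowerSeries.coeff_mul_C, mul_comm]
      have h13 : PowerSeries.coeff 2 (θ t' * (PowerSeries.C PowerSeries.X * PowerSeries.X)) =
          PowerSeries.X * PowerSeries.coeff 1 (θ t') := by
        rw [← mul_assoc]
        have := PowerSeries.coeff_succ_mul_X 1 (θ t' * PowerSeries.C PowerSeries.X)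
        rw [this, PowerSeries.coeff_mul_C, mul_comm]
      rw [map_add, h11, h12, h13] at h10
      exact h10.symm
    obtain ⟨y, hy⟩ := PowerSeries.X_dvd_iff.mpr (θI t' ht')
    rw [e3, e4, hy]
    exact ⟨PowerSeries.coeff 2 (θ t) + y, by ring⟩
  have key2 : ∀ m ∈ maximalIdeal R * col (Ideal.ofList β) J1,
      (PowerSeries.X ^ 5 : PowerSeries k) ∣ PowerSeries.constantCoeff (θ m) := by
    intro m hm
    induction hm using Submodule.mul_induction_on' with
    | mem_mul_mem r hr f hf1 =>
      obtain ⟨y, hy⟩ := key f hf1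
      obtain ⟨y', hy'⟩ := PowerSeries.X_dvd_iff.mpr (θm r hr)
      rw [map_mul, map_mul, hy, hy']
      exact ⟨y' * y, by ring⟩
    | add m _ n _ h1 h2 =>
      rw [map_add, map_add]
      exact dvd_add h1 h2
  -- independence in the new ideal
  have indI2 : Ind β (col (Ideal.ofList β) J1) := by
    have hzzm : z * z ∈ maximalIdeal R := Ideal.mul_mem_right _ _ hzm
    refine ind_cons2 ?_ ?_ ?_
    · intro h
      obtain ⟨m, hm, b, hb, hmb⟩ := Submodule.mem_sup.mp h
      obtain ⟨σ, a, ha, hb'⟩ := mem_cons hb
      have h1 := key2 m hm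
      have h2 : PowerSeries.constantCoeff (θ b) = 0 := by
        have hθx : θ x = PowerSeries.C (PowerSeries.X ^ 2) *
            (PowerSeries.C PowerSeries.X * PowerSeries.X) + PowerSeries.X ^ 2 *
              PowerSeries.X ^ 2 := by
          rw [hxd, map_add, map_mul, map_mul, θz, θw, θq]
        rw [hb', map_add, θA' _ ha, add_zero, map_mul, hθx]
        simp
      have h3 : PowerSeries.constantCoeff (θ (z * z)) = (PowerSeries.X ^ 4 : PowerSeries k) := by
        rw [map_mul, θz]
        simp only [map_mul, PowerSeries.constantCoeff_C]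
        ring
      rw [← hmb, map_add, map_add, h2, add_zero] at h3
      rw [h3] at h1
      have h4 := (PowerSeries.X_pow_dvd_iff.mp h1) 4 (by norm_num)
      rw [PowerSeries.coeff_X_pow] at h4
      simp at h4
    · -- the exchange
      intro h
      set K3 : Ideal R := Ideal.ofList (z * z :: A) with hK3
      have nx : ∀ r, x * r ∈ K3 → r ∈ K3 := nzd r2
      have e1 : Ideal.ofList β = K3 ⊔ Ideal.span {x} := by
        rw [hβ, ofList_perm (List.Perm.swap x (z * z) A), Ideal.ofList_cons, sup_comm]
      have e2 : Ideal.ofList (z * z :: q :: A) = K3 ⊔ Ideal.span {q} := by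
        rw [ofList_perm (List.Perm.swap q (z * z) A), Ideal.ofList_cons, sup_comm]
      rw [e1] at h
      have h1 := hE R (maximalIdeal R) K3 J1 q x (hKJ1 hqK) nx h
      have e3 : col (K3 ⊔ Ideal.span {q}) J1 = I := by
        ext v
        rw [mem_col, ← e2]
        exact (lk1.hI v).symm
      rw [e3] at h1
      apply indI q (z :: A) (List.Perm.swap _ _ _)
      have hle : maximalIdeal R * I ⊔ K3 ≤ maximalIdeal R * I ⊔ Ideal.ofList (z :: A) := by
        refine sup_le le_sup_left (ofList_le ?_)
        intro b hb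
        simp only [List.mem_cons] at hb
        rcases hb with rfl | hb
        · exact Ideal.mem_sup_left (Ideal.mul_mem_mul hzm hzI)
        · exact Ideal.mem_sup_right (mem_ofList (by simp [hb]))
      exact hle h1
    · intro A1 a A2 hA
      have hp1 : β.Perm (z * z :: x :: (A1 ++ A2) ++ [a]) := by
        rw [hβ, hA]
        have h1 : (z * z :: x :: (A1 ++ a :: A2)).Perm
            (z * z :: x :: a :: (A1 ++ A2)) := by
          refine (List.perm_cons _).mpr ((List.perm_cons _).mpr ?_)
          exact List.perm_middle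
        refine h1.trans ?_
        have h2 : (z * z :: x :: a :: (A1 ++ A2)).Perm
            (a :: z * z :: x :: (A1 ++ A2)) :=
          List.perm_middle (l₁ := [z * z, x])
        exact h2.trans (List.perm_append_singleton _ _).symm
      have r1 := isRegular_of_perm regβ hp1
      have ham : a ∈ maximalIdeal R := hmem a (by rw [hA]; simp)
      have := hKF R J1 (z * z) x a z z w (A1 ++ A2) hJ1m (by
        intro b hb
        simp only [List.mem_cons] at hb
        rcases hb with rfl | rfl | hb
        · exact hzz1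
        · exact hx1
        · refine hA1 b ?_
          rw [hA]
          simp only [List.mem_append, List.mem_cons] at hb ⊢
          tauto) ham r1.toIsWeaklyRegular hzm hb1 hb2
      rw [← ofList_perm hp1] at this
      exact this
  -- the numbers
  have n1 : Nat.card (R ⧸ (maximalIdeal R * I ⊔ Ideal.ofList (z * z :: q :: A))) =
      Nat.card (R ⧸ maximalIdeal R) ^ (d + 1) * Nat.card (R ⧸ I) := by
    have h1 : maximalIdeal R * I ⊔ Ideal.ofList (z * z :: q :: A) =
        maximalIdeal R * I ⊔ K := by
      rw [Ideal.ofList_cons, ← sup_assoc]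
      congr 1
      exact sup_eq_left.mpr ((Ideal.span_singleton_le_iff_mem _).mpr
        (Ideal.mul_mem_mul hzm hzI))
    have h2 := c_card_step hO (V := maximalIdeal R * I ⊔ K) le_sup_left hzI
      (indI z (q :: A) (List.Perm.refl _))
    have h3 : maximalIdeal R * I ⊔ Ideal.ofList (z :: q :: A) =
        maximalIdeal R * I ⊔ K ⊔ Ideal.span {z} := by
      rw [hKz, ← sup_assoc]
    rw [h3] at cI
    rw [h1, h2, cI, pow_succ']
    ring
  have n2 : Nat.card (R ⧸ (maximalIdeal R * J1 ⊔ Ideal.ofList β)) =
      Nat.card (R ⧸ maximalIdeal R) ^ 1 * Nat.card (R ⧸ J1) := by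
    set X : Ideal R := V ⊔ Ideal.span {z} ⊔ Ideal.span {w} with hX
    have hKX : K ≤ X := by
      rw [hX, hV]
      exact le_trans (le_trans le_sup_right le_sup_left) le_sup_left
    set N : Ideal R := maximalIdeal R * J1 ⊔ Ideal.ofList β with hN
    have eN : N ⊔ Ideal.span {q} = K ⊔ Ideal.span {z} * X := by
      apply le_antisymm
      · refine sup_le (sup_le ?_ ?_) ?_
        · refine le_trans hmJ1 (sup_le_sup_left (Ideal.mul_mono_right ?_) _)
          rw [hX, hV]
          exact le_trans (le_trans le_sup_left le_sup_left) le_sup_left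
        · refine ofList_le ?_
          intro a ha
          rw [hβ] at ha
          simp only [List.mem_cons] at ha
          have hzX : z ∈ X := Ideal.mem_sup_left (Ideal.mem_sup_right
            (Ideal.mem_span_singleton_self z))
          have hwX : w ∈ X := Ideal.mem_sup_right (Ideal.mem_span_singleton_self w)
          rcases ha with rfl | rfl | ha
          · exact Ideal.mem_sup_right (c_span_mul_mem hzX)
          · rw [hxd, add_comm]
            exact Submodule.add_mem_sup (K.mul_mem_left _ hqK) (c_span_mul_mem hwX)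
          · exact Ideal.mem_sup_left (hAK a ha)
        · rw [Ideal.span_singleton_le_iff_mem]; exact Ideal.mem_sup_left hqK
      · have hA' : ∀ a ∈ A, a ∈ N ⊔ Ideal.span {q} := fun a ha =>
          Ideal.mem_sup_left (Ideal.mem_sup_right (mem_ofList (by rw [hβ]; simp [ha])))
        have hq' : q ∈ N ⊔ Ideal.span {q} :=
          Ideal.mem_sup_right (Ideal.mem_span_singleton_self q)
        have hK' : K ≤ N ⊔ Ideal.span {q} := by
          refine ofList_le ?_
          intro a ha
          simp only [List.mem_cons] at ha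
          rcases ha with rfl | ha
          · exact hq'
          · exact hA' a ha
        refine sup_le hK' ?_
        rw [Ideal.span_singleton_mul_le_iff]
        have hb' : ∀ b ∈ β, b ∈ N ⊔ Ideal.span {q} := fun b hb =>
          Ideal.mem_sup_left (Ideal.mem_sup_right (mem_ofList hb))
        have key : X ≤ Submodule.comap (LinearMap.mulLeft R z) (N ⊔ Ideal.span {q}) := by
          rw [hX, hV]
          refine sup_le (sup_le (sup_le ?_ ?_) ?_) ?_
          · rw [Ideal.mul_le]
            intro r hr s hs
            change z * (r * s) ∈ (N ⊔ Ideal.span {q} : Ideal R)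
            have : z * (r * s) = r * (z * s) := by ring
            rw [this]
            exact Ideal.mem_sup_left (Ideal.mem_sup_left (Ideal.mul_mem_mul hr (hzJ1 s hs)))
          · intro k hk
            exact Ideal.mul_mem_left _ _ (hK' hk)
          · rw [Ideal.span_singleton_le_iff_mem]
            exact hb' _ (by rw [hβ]; simp)
          · rw [Ideal.span_singleton_le_iff_mem]
            change z * w ∈ (N ⊔ Ideal.span {q} : Ideal R)
            have : z * w = x - q * q := by rw [hxd]; ring
            rw [this]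
            exact Ideal.sub_mem _ (hb' _ (by rw [hβ]; simp)) (Ideal.mul_mem_left _ _ hq')
        exact fun v hv => key hv
    have nqN : q ∉ N := by
      intro h
      have r1 : IsRegular R (q :: z :: A) := isRegular_of_perm reg (List.Perm.swap _ _ _)
      apply hRs R q _ r1
      have hz' : z ∈ maximalIdeal R * Ideal.span {q} ⊔ Ideal.ofList (z :: A) :=
        Ideal.mem_sup_right (mem_ofList (by simp))
      have hA' : ∀ a ∈ A, a ∈ maximalIdeal R * Ideal.span {q} ⊔ Ideal.ofList (z :: A) :=
        fun a ha => Ideal.mem_sup_right (mem_ofList (by simp [ha]))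
      refine (sup_le (le_trans hmJ1' (sup_le (dp_mul_le ?_) ?_)) (ofList_le ?_)) h
      · intro a ha
        simp only [List.mem_cons] at ha
        rcases ha with rfl | ha
        · right; exact le_sup_left
        · left; exact hA' a ha
      · rw [Ideal.span_singleton_le_iff_mem]; exact hz'
      · intro b hb
        rw [hβ] at hb
        simp only [List.mem_cons] at hb
        rcases hb with rfl | rfl | hb
        · exact Ideal.mul_mem_left _ _ hz'
        · exact Ideal.add_mem _ (Ideal.mul_mem_right _ _ hz') (Ideal.mem_sup_left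
            (Ideal.mul_mem_mul hqm (Ideal.mem_span_singleton_self q)))
        · exact hA' b hb
    have m1 := c_card_step hO (V := N) (J := J1) le_sup_left (hKJ1 hqK) nqN
    have m2 := hMZ R K X z hKX nz
    have m3 := hMZ R K J z hKJ nz
    rw [m1, eN, m2, c1, hJ1, m3, pow_one]
  have hl : β.length = c := by rw [hβ]; simpa using lrs
  exact ⟨β, _, J1, wit_mk hD hTy hT hx hf (by omega) (by simpa using lrs) regγ lk1 hl regβ hβ1
    indI2 indJ1 n1 n2 tau⟩

end Pool.Agent.LCB
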