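import Mathlib
import Pool.Agent.LCB.BSt
import Pool.Agent.LCB.Dp

/-!
The base example `(6, 4, 1)` from `(6, 3, 1)`.
-/

namespace Pool.Agent.LCB

open Pool.Agent.Helper40.Licci RingTheory.Sequence IsLocalRing MvPolynomial

section Theta

/-- images of the coordinates -/
noncomputable def thv {c : ℕ} (v : Fin c) : PowerSeries (PowerSeries (ZMod 7)) :=
  if v.val = 0 then PowerSeries.C PowerSeries.X else if v.val = 1 then PowerSeries.X else 0

/-- the map on polynomials -/
noncomputable def thP (c : ℕ) : PP c →+* PowerSeries (PowerSeries (ZMod 7)) :=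
  (MvPolynomial.aeval (R := ZMod 7) (thv (c := c))).toRingHom

lemma thP_X (c : ℕ) (v : Fin c) : thP c (X v) = thv v := by
  unfold thP
  exact MvPolynomial.aeval_X _ _

lemma thP_cc (c : ℕ) (u : PP c) :
    PowerSeries.constantCoeff (PowerSeries.constantCoeff (thP c u)) =
      MvPolynomial.constantCoeff u := by
  have h : ((PowerSeries.constantCoeff (R := ZMod 7)).comp
      ((PowerSeries.constantCoeff (R := PowerSeries (ZMod 7))).comp (thP c))) =
      (MvPolynomial.constantCoeff : PP c →+* ZMod 7) := by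
    apply MvPolynomial.ringHom_ext
    · intro r
      have h1 := Subsingleton.elim (((PowerSeries.constantCoeff (R := ZMod 7)).comp
        ((PowerSeries.constantCoeff (R := PowerSeries (ZMod 7))).comp (thP c))).comp
          (C : ZMod 7 →+* PP c)) ((MvPolynomial.constantCoeff : PP c →+* ZMod 7).comp C)
      exact congrArg (fun f => f r) h1
    · intro v
      rw [RingHom.comp_apply, RingHom.comp_apply, thP_X, constantCoeff_X]
      unfold thv
      split_ifs <;> simp
  exact congrArg (fun f => f u) h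

lemma thP_unit (c : ℕ) (y : (org c).primeCompl) : IsUnit (thP c y) := by
  rw [PowerSeries.isUnit_iff_constantCoeff, PowerSeries.isUnit_iff_constantCoeff, thP_cc,
    isUnit_iff_ne_zero]
  intro h
  exact y.2 ((mem_org c _).mpr h)

/-- the map on the local ring -/
noncomputable def th (c : ℕ) : RR c →+* PowerSeries (PowerSeries (ZMod 7)) :=
  IsLocalization.lift (M := (org c).primeCompl) (g := thP c) (thP_unit c)

lemma th_toR (c : ℕ) (u : PP c) : th c (toR c u) = thP c u := by
  unfold th
  exact IsLocalization.lift_eq _ _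

lemma th_max (c : ℕ) (m : RR c) (hm : m ∈ maximalIdeal (RR c)) :
    PowerSeries.constantCoeff (PowerSeries.constantCoeff (th c m)) = 0 := by
  by_contra h
  have h1 : IsUnit (th c m) := by
    rw [PowerSeries.isUnit_iff_constantCoeff, PowerSeries.isUnit_iff_constantCoeff,
      isUnit_iff_ne_zero]
    exact h
  obtain ⟨u, s, rfl⟩ := IsLocalization.exists_mk'_eq (org c).primeCompl m
  have h2 : th c (toR c s * IsLocalization.mk' (RR c) u s) = thP c u := by
    rw [mul_comm, IsLocalization.mk'_spec]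
    exact th_toR c u
  have h3 : IsUnit (thP c u) := by
    rw [← h2, map_mul]
    refine IsUnit.mul ?_ h1
    rw [th_toR]
    exact thP_unit c s
  rw [PowerSeries.isUnit_iff_constantCoeff, PowerSeries.isUnit_iff_constantCoeff, thP_cc,
    isUnit_iff_ne_zero] at h3
  have h4 : u ∉ org c := fun hu => h3 ((mem_org c _).mp hu)
  have h5 : IsUnit (toR c u) := IsLocalization.map_units (RR c) (⟨u, h4⟩ : (org c).primeCompl)
  have h6 : toR c u ∈ maximalIdeal (RR c) := by
    have : toR c u = IsLocalization.mk' (RR c) u s * toR c s :=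
      (IsLocalization.mk'_spec _ _ _).symm
    rw [this]
    exact Ideal.mul_mem_right _ _ hm
  exact (mem_maximalIdeal _).mp h6 h5

/-- series without terms `1` and `r` -/
def thT : Ideal (PowerSeries (PowerSeries (ZMod 7))) where
  carrier := {f | PowerSeries.constantCoeff (PowerSeries.constantCoeff f) = 0 ∧
    PowerSeries.constantCoeff (PowerSeries.coeff 1 f) = 0}
  add_mem' := by
    rintro a b ⟨h1, h2⟩ ⟨h3, h4⟩
    constructor
    · rw [map_add, map_add, h1, h3, add_zero]
    · rw [map_add, map_add, h2, h4, add_zero]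
  zero_mem' := by constructor <;> simp
  smul_mem' := by
    rintro a b ⟨h1, h2⟩
    constructor
    · rw [smul_eq_mul, map_mul, map_mul, h1, mul_zero]
    · rw [smul_eq_mul, PowerSeries.coeff_mul]
      rw [Finset.Nat.antidiagonal_succ]
      simp [h1, h2]

lemma thT_coeff {f : PowerSeries (PowerSeries (ZMod 7))} (h : f ∈ thT) :
    PowerSeries.constantCoeff (PowerSeries.coeff 1 f) = 0 := h.2

end Theta

section Main

lemma th_bR {n : ℕ} (v : Fin (n + 1 + 1)) (hv : 2 ≤ v.val) : th (n + 1 + 1) (bR 6 v) = 0 := by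
  unfold bR ba
  rw [th_toR, map_pow, thP_X]
  have h1 : thv v = 0 := by
    unfold thv
    rw [if_neg (by omega), if_neg (by omega)]
  rw [h1]
  apply zero_pow
  unfold bx
  split_ifs <;> norm_num

lemma th_xP {c : ℕ} (hc : 6 ≤ c) (i : Fin 6) : thP c (xP hc i) =
    if i.val = 0 then PowerSeries.C PowerSeries.X else if i.val = 1 then PowerSeries.X else 0 := by
  unfold xP
  rw [thP_X]
  rfl

lemma th_y6 {c : ℕ} (hc : 6 ≤ c) (i : Fin 4) : thP c (y6 (xP hc) i) = 0 := by
  unfold y6
  rw [th_xP, if_neg (by simp), if_neg (by simp)]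

lemma th_quad {c : ℕ} (hc : 6 ≤ c) : thP c (quad (y6 (xP hc))) = 0 := by
  unfold quad
  simp only [map_add, map_mul, th_y6]
  simp

lemma th_lin {c : ℕ} (hc : 6 ≤ c) : thP c (lin (y6 (xP hc))) = 0 := by
  unfold lin
  simp only [map_add, th_y6]
  simp

lemma th_w {c : ℕ} (hc : 6 ≤ c) : th c (toR c (h6 (xP hc) 0)) =
    PowerSeries.C PowerSeries.X * PowerSeries.X := by
  rw [th_toR]
  unfold h6
  simp only [Matrix.cons_val_fin_one, map_sub, map_mul, th_quad, sub_zero, th_xP]
  simp

lemma th_I {n : ℕ} (hc : 6 ≤ n + 1 + 1) : ∀ i ∈ bJ 6 (g6 (xP hc)),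
    PowerSeries.constantCoeff (PowerSeries.coeff 1 (th (n + 1 + 1) i)) = 0 := by
  intro i hi
  apply thT_coeff
  have hle : bJ 6 (g6 (xP hc)) ≤ thT.comap (th (n + 1 + 1)) := by
    unfold bJ bL
    refine sup_le (Ideal.span_le.mpr ?_) (Ideal.span_le.mpr ?_)
    · rintro _ ⟨v, rfl⟩
      change th (n + 1 + 1) (bR 6 v) ∈ thT
      by_cases h2 : 2 ≤ v.val
      · rw [th_bR v h2]; exact thT.zero_mem
      · have hv6 : bx 6 v = 2 := by
          unfold bx; rw [if_pos (by omega)]
        unfold bR ba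
        rw [th_toR, map_pow, thP_X, hv6]
        unfold thv
        split_ifs with h0 h1
        · constructor
          · simp
          · rw [← map_pow, PowerSeries.coeff_C]
            simp
        · constructor
          · simp
          · rw [PowerSeries.coeff_X_pow]
            simp
        · constructor <;> simp
    · rintro _ ⟨k, rfl⟩
      change th (n + 1 + 1) (toR (n + 1 + 1) (g6 (xP hc) k)) ∈ thT
      rw [th_toR]
      have hprod : (PowerSeries.C PowerSeries.X * PowerSeries.X :
          PowerSeries (PowerSeries (ZMod 7))) ∈ thT := by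
        constructor
        · simp
        · rw [PowerSeries.coeff_C_mul]
          simp
      fin_cases k
      · change thP (n + 1 + 1) (xP hc 0 * xP hc 1 + quad (y6 (xP hc))) ∈ thT
        rw [map_add, map_mul, th_quad, add_zero, th_xP, th_xP]
        exact hprod
      · change thP (n + 1 + 1) (xP hc 0 * lin (y6 (xP hc))) ∈ thT
        rw [map_mul, th_lin, mul_zero]
        exact thT.zero_mem
      · change thP (n + 1 + 1) (xP hc 1 * lin (y6 (xP hc))) ∈ thT
        rw [map_mul, th_lin, mul_zero]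
        exact thT.zero_mem
  exact hle hi

/-- The base example `(6, 4, 1)`. -/
theorem thm_641 (hD : St_Dual) (hTy : St_Type) (hO : St_One) (hRs : St_Rsm) (hRg : St_Rg1)
    (hKF : St_KF) (hE : St_Ex) (hD0 : St_D0) (hMZ : St_MZ) (hT : St_Tau)
    (hW : ∀ (c : ℕ) (hc : 6 ≤ c), Wit (RR c) c 3 1 (List.ofFn (bR 6 : Fin c → RR c))
      (bJ 6 (g6 (xP hc))) (bJ 6 (h6 (xP hc)))) : St_641 := by
  intro c hc
  obtain ⟨n, rfl⟩ : ∃ n, c = n + 1 + 1 := ⟨c - 2, by omega⟩
  have W := hW _ hc
  have hrs : List.ofFn (bR 6 : Fin (n + 1 + 1) → RR (n + 1 + 1)) =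
      bR 6 0 :: bR 6 1 :: List.ofFn (fun i : Fin n => (bR 6 i.succ.succ : RR (n + 1 + 1))) := by
    rw [List.ofFn_succ, List.ofFn_succ]
    rfl
  rw [hrs] at W
  have hf : Finite (RR (n + 1 + 1) ⧸ maximalIdeal (RR (n + 1 + 1))) := finite_res _
  have hwJ : toR (n + 1 + 1) (h6 (xP hc) 0) ∈ bJ 6 (h6 (xP hc)) :=
    Ideal.mem_sup_right (Ideal.subset_span ⟨0, rfl⟩)
  have hz : th (n + 1 + 1) (bR 6 0) = PowerSeries.C (PowerSeries.X ^ 2) := by
    unfold bR ba
    rw [th_toR, map_pow, thP_X]
    unfold thv bx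
    simp
  have hq : th (n + 1 + 1) (bR 6 1) = PowerSeries.X ^ 2 := by
    unfold bR ba
    rw [th_toR, map_pow, thP_X]
    unfold thv bx
    simp
  have hwn : toR (n + 1 + 1) (h6 (xP hc) 0) ∉
      maximalIdeal (RR (n + 1 + 1)) * bJ 6 (h6 (xP hc)) ⊔ Ideal.ofList
        (bR 6 0 :: bR 6 1 :: List.ofFn (fun i : Fin n => (bR 6 i.succ.succ : RR (n + 1 + 1)))) := by
    intro h
    have h1 : bJ 6 (h6 (xP hc)) ≤ maximalIdeal (RR (n + 1 + 1)) * bJ 6 (h6 (xP hc)) ⊔
        Ideal.ofList (bR 6 0 :: bR 6 1 ::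
          List.ofFn (fun i : Fin n => (bR 6 i.succ.succ : RR (n + 1 + 1)))) := by
      have h2 : bJ 6 (h6 (xP hc)) = bL 6 (n + 1 + 1) ⊔
          Ideal.span {toR (n + 1 + 1) (h6 (xP hc) 0)} := by
        unfold bJ
        congr 2
        ext x
        constructor
        · rintro ⟨k, rfl⟩
          have : k = 0 := Subsingleton.elim _ _
          subst this
          rfl
        · rintro rfl
          exact ⟨0, rfl⟩
      conv_lhs => rw [h2]
      refine sup_le ?_ ((Ideal.span_singleton_le_iff_mem _).mpr h)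
      refine le_trans ?_ le_sup_right
      rw [← hrs]
      unfold bL
      rw [ofList_ofFn]
    have h2 : maximalIdeal (RR (n + 1 + 1)) * bJ 6 (h6 (xP hc)) ⊔
        Ideal.ofList (bR 6 0 :: bR 6 1 ::
          List.ofFn (fun i : Fin n => (bR 6 i.succ.succ : RR (n + 1 + 1)))) =
        bJ 6 (h6 (xP hc)) := le_antisymm (sup_le Ideal.mul_le_right W.lk.leJ) h1
    have h3 := W.cJ
    rw [h2, pow_one] at h3
    have hf' : Finite (ResidueField (RR (n + 1 + 1))) := hf
    obtain ⟨f0, s0⟩ := (params (n + 1 + 1)).goodRing _ W.len W.reg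
    have fJ : Finite (RR (n + 1 + 1) ⧸ bJ 6 (h6 (xP hc))) :=
      Finite.of_surjective _ (fac_surjective W.lk.leJ)
    have hJp : 0 < Nat.card (RR (n + 1 + 1) ⧸ bJ 6 (h6 (xP hc))) := Nat.card_pos
    have hq1 : 1 < Nat.card (RR (n + 1 + 1) ⧸ maximalIdeal (RR (n + 1 + 1))) := by
      have : Nontrivial (RR (n + 1 + 1) ⧸ maximalIdeal (RR (n + 1 + 1))) :=
        Ideal.Quotient.nontrivial_iff.mpr (maximalIdeal.isMaximal _).ne_top
      exact Finite.one_lt_card
    nlinarith
  have hA0 : List.ofFn (fun i : Fin n => (bR 6 i.succ.succ : RR (n + 1 + 1))) ≠ [] := by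
    intro h
    have := congrArg List.length h
    rw [List.length_ofFn, List.length_nil] at this
    omega
  obtain ⟨rs', I', J', W'⟩ := thm_Dp hD hTy hO hRs hRg hKF hE hD0 hMZ hT (RR (n + 1 + 1))
    (n + 1 + 1) 3 _ (bR 6 0) (bR 6 1) (toR (n + 1 + 1) (h6 (xP hc) 0))
    (List.ofFn (fun i : Fin n => (bR 6 i.succ.succ : RR (n + 1 + 1)))) _ _
    (params (n + 1 + 1)) hf hA0 W hwJ hwn (ZMod 7) (th (n + 1 + 1)) (th_max _) hz hq (th_w hc)
    (by
      intro a ha
      rw [List.mem_ofFn] at ha
      obtain ⟨i, rfl⟩ := ha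
      exact th_bR _ (by simp)) (th_I hc)
  exact ⟨RR (n + 1 + 1), inferInstance, rr_regular _, _, rs', I', J', params _, hf, W'⟩

end Main

end Pool.Agent.LCB
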