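import Mathlib
import Pool.Agent.LCB.Com

/-!
The final arithmetic.
-/

namespace Pool.Agent.LCB

open Pool.Agent.Helper40.Licci RingTheory.Sequence IsLocalRing

lemma fin_symm (hT : St_Tau) {c d t : ℕ} (h : Y c d t) : Y c t d := by
  obtain ⟨R, i1, i2, ys, rs, I, J, hx, hf, W⟩ := h
  exact ⟨R, i1, i2, ys, rs, J, I, hx, hf, ⟨W.len, W.reg, W.lk.symm, W.neJ, W.neI, W.indJ, W.indI,
    W.cJ, W.cI, hT R c ys rs I J hx hf W.len W.reg W.lk W.tau⟩⟩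

lemma fin_C (hC : St_C) {c d t : ℕ} (hc : 3 ≤ c) (ht : 2 ≤ t) (h : Y c d t) : Y c (d + 1) t := by
  obtain ⟨R, i1, i2, ys, rs, I, J, hx, hf, W⟩ := h
  obtain ⟨rs', I', J', W'⟩ := hC R c d t ys rs I J hx hf hc ht W
  exact ⟨R, i1, i2, ys, rs', I', J', hx, hf, W'⟩

lemma fin_B (hB : St_B) {c d t : ℕ} (hc : 3 ≤ c) (ht : 1 ≤ t) (h : Y c d t) : Y c (d + 2) t := by
  obtain ⟨R, i1, i2, ys, rs, I, J, hx, hf, W⟩ := h
  obtain ⟨rs', I', J', W'⟩ := hB R c d t ys rs I J hx hf hc ht W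
  exact ⟨R, i1, i2, ys, rs', I', J', hx, hf, W'⟩

lemma fin_adm (hA : St_Adm) {c d t : ℕ} (hc : 1 ≤ c) (h : Y c d t) : AdmitsNonLicci c d t := by
  obtain ⟨R, i1, i2, ys, rs, I, J, hx, hf, W⟩ := h
  obtain ⟨h1, h2, h3, h4⟩ := hA R c d t ys rs I J hx hf hc W
  exact ⟨R, i1, i2, I, h1, h2, h3, h4⟩

lemma fin_two (hT : St_Tau) (hC : St_C) (h522 : St_522) {c d t : ℕ} (hc : 5 ≤ c) (hd : 2 ≤ d)
    (ht : 2 ≤ t) : Y c d t := by
  have h1 : ∀ n, Y c (2 + n) 2 := by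
    intro n
    induction n with
    | zero => exact h522 c hc
    | succ n ih => exact fin_C hC (by omega) le_rfl ih
  have h2 : ∀ n, Y c (2 + n) t := by
    intro n
    induction n with
    | zero =>
      obtain ⟨m, rfl⟩ : ∃ m, t = 2 + m := ⟨t - 2, by omega⟩
      exact fin_symm hT (h1 m)
    | succ n ih => exact fin_C hC (by omega) ht ih
  obtain ⟨m, rfl⟩ : ∃ m, d = 2 + m := ⟨d - 2, by omega⟩
  exact h2 m

lemma fin_one (hB : St_B) {c s : ℕ} (hc : 3 ≤ c) (h0 : Y c s 1) (h1 : Y c (s + 1) 1) :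
    ∀ d, s ≤ d → Y c d 1 := by
  have h : ∀ n, Y c (s + n) 1 ∧ Y c (s + n + 1) 1 := by
    intro n
    induction n with
    | zero => exact ⟨h0, h1⟩
    | succ n ih =>
      refine ⟨ih.2, ?_⟩
      exact fin_B hB hc le_rfl ih.1
  intro d hd
  obtain ⟨m, rfl⟩ : ∃ m, d = s + m := ⟨d - s, by omega⟩
  exact (h m).1

/-- The final theorem, from the modules. -/
theorem fin_main (hT : St_Tau) (hA : St_Adm) (hC : St_C) (hB : St_B) (h522 : St_522)
    (h631 : St_631) (h641 : St_641) (h821 : St_821) (c d t : ℕ) (hd : 1 ≤ d) (ht : 1 ≤ t)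
    (hTd : (1 : ℚ) / ((c : ℚ) - 1) + 1 / ((d : ℚ) + 1) + 1 / ((t : ℚ) + 1) ≤ 1)
    (h : (6 ≤ c ∧ (c, d, t) ≠ (7, 2, 1) ∧ (c, d, t) ≠ (7, 1, 2)) ∨ (c = 5 ∧ 2 ≤ d ∧ 2 ≤ t)) :
    AdmitsNonLicci c d t := by
  have hc5 : 5 ≤ c := by omega
  refine fin_adm hA (by omega) ?_
  by_cases h2 : 2 ≤ d ∧ 2 ≤ t
  · exact fin_two hT hC h522 hc5 h2.1 h2.2
  obtain ⟨hc6, n1, n2⟩ : 6 ≤ c ∧ (c, d, t) ≠ (7, 2, 1) ∧ (c, d, t) ≠ (7, 1, 2) := by
    rcases h with h | h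
    · exact h
    · exact absurd ⟨h.2.1, h.2.2⟩ h2
  have hcq : (5 : ℚ) ≤ (c : ℚ) - 1 := by
    have : (6 : ℚ) ≤ (c : ℚ) := by exact_mod_cast hc6
    linarith
  have hcpos : (0 : ℚ) < 1 / ((c : ℚ) - 1) := by positivity
  -- the arithmetic for one entry equal to one
  have key : ∀ e : ℕ, 1 ≤ e → (1 : ℚ) / ((c : ℚ) - 1) + 1 / ((e : ℚ) + 1) + 1 / 2 ≤ 1 →
      (c, e) ≠ (7, 2) → (3 ≤ e ∨ (8 ≤ c ∧ 2 ≤ e)) := by
    intro e he h1 h3
    by_contra hcon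
    push Not at hcon
    obtain ⟨h4, h5⟩ := hcon
    interval_cases e
    · have h6 : (1 : ℚ) / (((1 : ℕ) : ℚ) + 1) = 1 / 2 := by norm_num
      rw [h6] at h1
      linarith
    · have h6 : c < 8 := by
        by_contra h7
        exact absurd (h5 (by omega)) (by norm_num)
      have h8 : c = 6 := by
        have : c ≠ 7 := fun h9 => h3 (by rw [h9])
        omega
      rw [h8] at h1
      norm_num at h1
  have fin : ∀ e : ℕ, (3 ≤ e ∨ (8 ≤ c ∧ 2 ≤ e)) → Y c e 1 := by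
    intro e he
    rcases he with he | ⟨h8, he⟩
    · exact fin_one hB (by omega) (h631 c hc6) (h641 c hc6) e he
    · exact fin_one hB (by omega) (h821 c h8) (h631 c hc6) e he
  by_cases ht1 : t = 1
  · subst ht1
    apply fin
    apply key d hd
    · have : (1 : ℚ) / (((1 : ℕ) : ℚ) + 1) = 1 / 2 := by norm_num
      rw [this] at hTd
      exact hTd
    · intro h9
      rw [Prod.mk.injEq] at h9
      exact n1 (by rw [h9.1, h9.2])
  · have hd1 : d = 1 := by omega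
    subst hd1
    apply fin_symm hT
    apply fin
    apply key t ht
    · have : (1 : ℚ) / (((1 : ℕ) : ℚ) + 1) = 1 / 2 := by norm_num
      rw [this] at hTd
      linarith
    · intro h9
      rw [Prod.mk.injEq] at h9
      exact n2 (by rw [h9.1, h9.2])

end Pool.Agent.LCB
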