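import Mathlib
import Pool.Agent.LCB.BSt

/-!
The example of type `(4, 5, 1)`: the quadrics, and the colon ideal.
-/

namespace Pool.Agent.LCB

open Pool.Agent.Helper40.Licci RingTheory.Sequence IsLocalRing MvPolynomial

section

variable {A : Type} [CommRing A]

/-- The five extra generators of `I` in the example of type `(4, 5, 1)`. -/
def g4 (x : Fin 4 → A) : Fin 5 → A :=
  ![x 0 * x 2, x 0 * x 3, x 1 * x 2, x 1 * x 3, x 0 * x 1 - x 2 * x 3]

/-- The extra generator of `J`. -/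
def h4 (x : Fin 4 → A) : Fin 1 → A := ![x 0 * x 1 + x 2 * x 3]

end

private lemma FourQ_mul {n c : ℕ} (hn : n ≤ c) (i j : Fin n) (hij : i ≠ j) :
    SQ n (xP hn i * xP hn j) := by
  refine Submodule.subset_span ⟨Fin.castLE hn i, Fin.castLE hn j, ?_, i.2, j.2, rfl⟩
  intro h
  exact hij (Fin.castLE_injective hn h)

/-- evaluation at a point -/
private lemma FourQ_ev {c : ℕ} (hc : 4 ≤ c) (p : Fin c → ZMod 7) (i : Fin 4) :
    MvPolynomial.eval p (xP hc i) = p (Fin.castLE hc i) := by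
  unfold xP
  rw [eval_X]

theorem FourQ (c : ℕ) (hc : 4 ≤ c) :
    (∀ k, SQ 4 (g4 (xP hc) k)) ∧ (∀ k, SQ 4 (h4 (xP hc) k)) ∧
    LinearIndependent (ZMod 7) (g4 (xP hc)) ∧ LinearIndependent (ZMod 7) (h4 (xP hc)) := by
  -- the values of the forms at the point `1` at `a, b`, `0` elsewhere
  let p : Fin 4 → Fin 4 → Fin c → ZMod 7 := fun a b v => if v.val = a.val ∨ v.val = b.val then 1 else 0
  have hp : ∀ a b i : Fin 4, MvPolynomial.eval (p a b) (xP hc i) = if i = a ∨ i = b then 1 else 0 := by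
    intro a b i
    rw [FourQ_ev]
    simp only [p, Fin.val_castLE, Fin.val_inj]
  refine ⟨?_, ?_, ?_, ?_⟩
  · intro k
    fin_cases k
    · exact FourQ_mul hc 0 2 (by decide)
    · exact FourQ_mul hc 0 3 (by decide)
    · exact FourQ_mul hc 1 2 (by decide)
    · exact FourQ_mul hc 1 3 (by decide)
    · exact Submodule.sub_mem _ (FourQ_mul hc 0 1 (by decide)) (FourQ_mul hc 2 3 (by decide))
  · intro k
    fin_cases k
    exact Submodule.add_mem _ (FourQ_mul hc 0 1 (by decide)) (FourQ_mul hc 2 3 (by decide))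
  · rw [Fintype.linearIndependent_iff]
    intro v hv
    rw [Fin.sum_univ_five] at hv
    have e1 : ∀ a b : Fin 4, v 0 * (MvPolynomial.eval (p a b) (xP hc 0 * xP hc 2)) +
        v 1 * (MvPolynomial.eval (p a b) (xP hc 0 * xP hc 3)) +
        v 2 * (MvPolynomial.eval (p a b) (xP hc 1 * xP hc 2)) +
        v 3 * (MvPolynomial.eval (p a b) (xP hc 1 * xP hc 3)) +
        v 4 * (MvPolynomial.eval (p a b) (xP hc 0 * xP hc 1 - xP hc 2 * xP hc 3)) = 0 := by
      intro a b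
      have := congrArg (MvPolynomial.eval (p a b)) hv
      simp only [map_add, MvPolynomial.smul_eval, map_zero] at this
      exact this
    have f0 := e1 0 2
    have f1 := e1 0 3
    have f2 := e1 1 2
    have f3 := e1 1 3
    have f4 := e1 0 1
    simp only [map_mul, map_sub, hp] at f0 f1 f2 f3 f4
    intro i
    fin_cases i
    · simpa [Fin.ext_iff] using f0
    · simpa [Fin.ext_iff] using f1
    · simpa [Fin.ext_iff] using f2
    · simpa [Fin.ext_iff] using f3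
    · simpa [Fin.ext_iff] using f4
  · rw [Fintype.linearIndependent_iff]
    intro v hv
    rw [Fin.sum_univ_one] at hv
    have e1 : v 0 * (MvPolynomial.eval (p 0 1) (xP hc 0 * xP hc 1 + xP hc 2 * xP hc 3)) = 0 := by
      have := congrArg (MvPolynomial.eval (p 0 1)) hv
      simp only [MvPolynomial.smul_eval, map_zero] at this
      exact this
    simp only [map_mul, map_add, hp] at e1
    intro i
    fin_cases i
    simpa [Fin.ext_iff] using e1

section ex

variable {c : ℕ}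

/-- the exponents of the squarefree monomials, indexed by bit masks -/
noncomputable def F4_ex (c : ℕ) (s : Fin 16) : Fin c →₀ ℕ :=
  Finsupp.equivFunOnFinite.symm fun v => (s.val.testBit v.val).toNat

lemma F4_ex_apply (s : Fin 16) (v : Fin c) :
    F4_ex c s v = (s.val.testBit v.val).toNat := rfl

lemma F4_high (s : Fin 16) {k : ℕ} (hk : 4 ≤ k) : s.val.testBit k = false := by
  apply Nat.testBit_lt_two_pow
  have h1 : 2 ^ 4 ≤ 2 ^ k := Nat.pow_le_pow_right (by norm_num) hk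
  have h2 := s.isLt
  omega

lemma F4_range : Set.range (ba 4 : Fin c → PP c) =
    (fun s => monomial s (1 : ZMod 7)) ''
      (Set.range (fun v : Fin c => Finsupp.single v (bx 4 v))) := by
  rw [← Set.range_comp]
  congr 1
  funext v
  simp [ba, X_pow_eq_monomial]

lemma F4_mem (u : PP c) : u ∈ bA 4 c ↔ ∀ m ∈ u.support, ∃ v, bx 4 v ≤ m v := by
  rw [bA, F4_range, mem_ideal_span_monomial_image]
  apply forall₂_congr
  intro m _
  constructor
  · rintro ⟨_, ⟨v, rfl⟩, h⟩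
    refine ⟨v, ?_⟩
    have := h v
    simpa using this
  · rintro ⟨v, hv⟩
    refine ⟨_, ⟨v, rfl⟩, ?_⟩
    exact Finsupp.single_le_iff.mpr hv

lemma F4_bits : ∀ f : Fin 4 → Bool, ∃ s : Fin 16, ∀ j : Fin 4, s.val.testBit j.val = f j := by
  decide +kernel

lemma F4_exists (hc : 4 ≤ c) (m : Fin c →₀ ℕ) (hm : ∀ v, m v < bx 4 v) :
    ∃ s, m = F4_ex c s := by
  obtain ⟨s, hs⟩ := F4_bits (fun j => decide (m (Fin.castLE hc j) = 1))
  refine ⟨s, ?_⟩
  ext v
  have hmv := hm v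
  unfold bx at hmv
  rw [F4_ex_apply]
  by_cases h5 : v.val < 4
  · rw [if_pos h5] at hmv
    have h1 := hs ⟨v.val, h5⟩
    have h2 : Fin.castLE hc ⟨v.val, h5⟩ = v := rfl
    rw [h2] at h1
    change s.val.testBit v.val = _ at h1
    rw [h1]
    have h3 : m v = 0 ∨ m v = 1 := by omega
    rcases h3 with h3 | h3 <;> simp [h3]
  · rw [if_neg h5] at hmv
    rw [F4_high s (by omega)]
    change m v = 0
    omega

lemma F4_lt (s : Fin 16) (v : Fin c) : F4_ex c s v < bx 4 v := by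
  rw [F4_ex_apply]
  unfold bx
  by_cases h5 : v.val < 4
  · rw [if_pos h5]
    exact lt_of_le_of_lt (Bool.toNat_le _) (by omega)
  · rw [if_neg h5, F4_high s (by omega)]
    exact Nat.zero_lt_one

/-- the coefficients -/
noncomputable def F4_cf (u : PP c) : Fin 16 → ZMod 7 := fun s => coeff (F4_ex c s) u

lemma F4_mem_iff (hc : 4 ≤ c) (u : PP c) : u ∈ bA 4 c ↔ ∀ s, F4_cf u s = 0 := by
  rw [F4_mem]
  constructor
  · intro h s
    by_contra hne
    obtain ⟨v, hv⟩ := h (F4_ex c s) (by rw [mem_support_iff]; exact hne)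
    exact absurd hv (not_le.mpr (F4_lt s v))
  · intro h m hm
    by_contra hcon
    push Not at hcon
    obtain ⟨s, rfl⟩ := F4_exists hc m hcon
    rw [mem_support_iff] at hm
    exact hm (h s)

lemma F4_cf_add (u v : PP c) (s : Fin 16) : F4_cf (u + v) s = F4_cf u s + F4_cf v s := by
  simp [F4_cf]

lemma F4_cf_sub (u v : PP c) (s : Fin 16) : F4_cf (u - v) s = F4_cf u s - F4_cf v s := by
  simp [F4_cf]

/-- multiplication by a coordinate -/
def F4_sh (i : Fin 4) (a : Fin 16 → ZMod 7) (s : Fin 16) : ZMod 7 :=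
  if s.val.testBit i.val = true then
    a ⟨s.val - 2 ^ i.val, lt_of_le_of_lt (Nat.sub_le _ _) s.isLt⟩ else 0

lemma F4_sub : ∀ (s : Fin 16) (i j : Fin 4), s.val.testBit i.val = true →
    (s.val - 2 ^ i.val).testBit j.val = if j = i then false else s.val.testBit j.val := by
  decide +kernel

lemma F4_ex_sub (hc : 4 ≤ c) (s : Fin 16) (i : Fin 4) (hs : s.val.testBit i.val = true) :
    F4_ex c s - Finsupp.single (Fin.castLE hc i) 1 =
      F4_ex c ⟨s.val - 2 ^ i.val, lt_of_le_of_lt (Nat.sub_le _ _) s.isLt⟩ := by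
  ext v
  rw [Finsupp.tsub_apply, Finsupp.single_apply, F4_ex_apply, F4_ex_apply]
  by_cases hv : Fin.castLE hc i = v
  · subst hv
    rw [if_pos rfl]
    have h1 := F4_sub s i i hs
    rw [if_pos rfl] at h1
    change (s.val.testBit i.val).toNat - 1 = ((s.val - 2 ^ i.val).testBit i.val).toNat
    rw [h1, hs]
    rfl
  · rw [if_neg hv]
    by_cases h5 : v.val < 4
    · have h1 := F4_sub s i ⟨v.val, h5⟩ hs
      have hne : (⟨v.val, h5⟩ : Fin 4) ≠ i := by
        intro he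
        apply hv
        rw [← he]
        rfl
      rw [if_neg hne] at h1
      change (s.val.testBit v.val).toNat - 0 = ((s.val - 2 ^ i.val).testBit v.val).toNat
      change (s.val - 2 ^ i.val).testBit v.val = s.val.testBit v.val at h1
      rw [h1]
      rfl
    · rw [F4_high s (by omega), F4_high ⟨s.val - 2 ^ i.val, _⟩ (by omega)]
      rfl

lemma F4_cf_X (hc : 4 ≤ c) (i : Fin 4) (u : PP c) :
    F4_cf (xP hc i * u) = F4_sh i (F4_cf u) := by
  funext s
  unfold F4_sh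
  change coeff (F4_ex c s) (X (Fin.castLE hc i) * u) = _
  rw [coeff_X_mul']
  by_cases hs : s.val.testBit i.val = true
  · rw [if_pos hs, if_pos, F4_ex_sub hc s i hs]
    · rfl
    · rw [Finsupp.mem_support_iff, F4_ex_apply]
      change (s.val.testBit i.val).toNat ≠ 0
      rw [hs]
      decide
  · rw [if_neg hs, if_neg]
    rw [Finsupp.mem_support_iff, F4_ex_apply]
    change ¬ ((s.val.testBit i.val).toNat ≠ 0)
    simp [hs]

lemma F4_inj0 : ∀ s t : Fin 16, (∀ j : Fin 4, s.val.testBit j.val = t.val.testBit j.val) →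
    s = t := by
  decide +kernel

lemma F4_inj (hc : 4 ≤ c) {s t : Fin 16} (h : F4_ex c s = F4_ex c t) : s = t := by
  refine F4_inj0 s t fun j => ?_
  have h1 := DFunLike.congr_fun h (Fin.castLE hc j)
  rw [F4_ex_apply, F4_ex_apply] at h1
  change (s.val.testBit j.val).toNat = (t.val.testBit j.val).toNat at h1
  cases h2 : s.val.testBit j.val <;> cases h3 : t.val.testBit j.val <;> simp_all

/-- the polynomial with given coefficients -/
noncomputable def F4_pm (a : Fin 16 → ZMod 7) : PP c := ∑ s, monomial (F4_ex c s) (a s)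

lemma F4_cf_pm (hc : 4 ≤ c) (a : Fin 16 → ZMod 7) : F4_cf (F4_pm a : PP c) = a := by
  funext s
  change coeff (F4_ex c s) (∑ t, monomial (F4_ex c t) (a t)) = a s
  rw [coeff_sum, Finset.sum_eq_single s]
  · rw [coeff_monomial, if_pos rfl]
  · intro t _ ht
    rw [coeff_monomial, if_neg]
    intro h
    exact ht (F4_inj hc h)
  · intro h
    exact absurd (Finset.mem_univ _) h

end ex

/-- coefficient of `x 0 * x 2` -/
def F4_U (a : Fin 16 → ZMod 7) (s : Fin 16) : ZMod 7 :=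
  if s.val = 0 then a 5 else
  if s.val = 2 then a 7 else
  if s.val = 8 then a 13 else
  if s.val = 10 then a 15 else 0

/-- coefficient of `x 0 * x 3` -/
def F4_V (a : Fin 16 → ZMod 7) (s : Fin 16) : ZMod 7 :=
  if s.val = 0 then a 9 else
  if s.val = 2 then a 11 else 0

/-- coefficient of `x 1 * x 2` -/
def F4_W (a : Fin 16 → ZMod 7) (s : Fin 16) : ZMod 7 :=
  if s.val = 0 then a 6 else
  if s.val = 8 then a 14 else 0

/-- coefficient of `x 1 * x 3` -/
def F4_Y (a : Fin 16 → ZMod 7) (s : Fin 16) : ZMod 7 :=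
  if s.val = 0 then a 10 else 0

/-- coefficient of `x 0 * x 1 - x 2 * x 3` -/
def F4_Z (a : Fin 16 → ZMod 7) (s : Fin 16) : ZMod 7 :=
  if s.val = 0 then a 3 else 0

/-- the linear algebra -/
lemma F4_solve (a : Fin 16 → ZMod 7)
    (h0 : ∀ s, F4_sh 0 (F4_sh 1 a) s + F4_sh 2 (F4_sh 3 a) s = 0) (s : Fin 16) :
    a s = F4_sh 0 (F4_sh 2 (F4_U a)) s + F4_sh 0 (F4_sh 3 (F4_V a)) s +
      F4_sh 1 (F4_sh 2 (F4_W a)) s + F4_sh 1 (F4_sh 3 (F4_Y a)) s +
      (F4_sh 0 (F4_sh 1 (F4_Z a)) s - F4_sh 2 (F4_sh 3 (F4_Z a)) s) := by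
  have e3 : a 0 + 0 = 0 := h0 3
  have e7 : a 4 + 0 = 0 := h0 7
  have e11 : a 8 + 0 = 0 := h0 11
  have e13 : 0 + a 1 = 0 := h0 13
  have e14 : 0 + a 2 = 0 := h0 14
  have e15 : a 12 + a 3 = 0 := h0 15
  have k0 : a 0 = 0 + 0 + 0 + 0 + (0 - 0) := by linear_combination e3
  have k1 : a 1 = 0 + 0 + 0 + 0 + (0 - 0) := by linear_combination e13
  have k2 : a 2 = 0 + 0 + 0 + 0 + (0 - 0) := by linear_combination e14
  have k3 : a 3 = 0 + 0 + 0 + 0 + (a 3 - 0) := by ring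
  have k4 : a 4 = 0 + 0 + 0 + 0 + (0 - 0) := by linear_combination e7
  have k5 : a 5 = a 5 + 0 + 0 + 0 + (0 - 0) := by ring
  have k6 : a 6 = 0 + 0 + a 6 + 0 + (0 - 0) := by ring
  have k7 : a 7 = a 7 + 0 + 0 + 0 + (0 - 0) := by ring
  have k8 : a 8 = 0 + 0 + 0 + 0 + (0 - 0) := by linear_combination e11
  have k9 : a 9 = 0 + a 9 + 0 + 0 + (0 - 0) := by ring
  have k10 : a 10 = 0 + 0 + 0 + a 10 + (0 - 0) := by ring
  have k11 : a 11 = 0 + a 11 + 0 + 0 + (0 - 0) := by ring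
  have k12 : a 12 = 0 + 0 + 0 + 0 + (0 - a 3) := by linear_combination e15
  have k13 : a 13 = a 13 + 0 + 0 + 0 + (0 - 0) := by ring
  have k14 : a 14 = 0 + 0 + a 14 + 0 + (0 - 0) := by ring
  have k15 : a 15 = a 15 + 0 + 0 + 0 + (0 - 0) := by ring
  fin_cases s
  exacts [k0, k1, k2, k3, k4, k5, k6, k7, k8, k9, k10, k11, k12, k13, k14, k15]

lemma F4_sq {c : ℕ} (hc : 4 ≤ c) (i : Fin 4) : xP hc i ^ 2 ∈ bA 4 c := by
  refine Ideal.subset_span ⟨Fin.castLE hc i, ?_⟩
  have h1 : bx 4 (Fin.castLE hc i) = 2 := if_pos i.isLt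
  unfold ba xP
  rw [h1]

lemma F4_prod {A : Type} [CommRing A] (x : Fin 4 → A) (K : Ideal A) (hK : ∀ i, x i ^ 2 ∈ K)
    (l : Fin 5) : (x 0 * x 1 + x 2 * x 3) * g4 x l ∈ K := by
  have m := fun i (z : A) => K.mul_mem_left z (hK i)
  fin_cases l
  · change (x 0 * x 1 + x 2 * x 3) * (x 0 * x 2) ∈ K
    have e : (x 0 * x 1 + x 2 * x 3) * (x 0 * x 2) =
      (x 1 * x 2) * x 0 ^ 2 + (x 0 * x 3) * x 2 ^ 2 := by ring
    rw [e]
    exact K.add_mem (m 0 _) (m 2 _)
  · change (x 0 * x 1 + x 2 * x 3) * (x 0 * x 3) ∈ K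
    have e : (x 0 * x 1 + x 2 * x 3) * (x 0 * x 3) =
      (x 1 * x 3) * x 0 ^ 2 + (x 0 * x 2) * x 3 ^ 2 := by ring
    rw [e]
    exact K.add_mem (m 0 _) (m 3 _)
  · change (x 0 * x 1 + x 2 * x 3) * (x 1 * x 2) ∈ K
    have e : (x 0 * x 1 + x 2 * x 3) * (x 1 * x 2) =
      (x 0 * x 2) * x 1 ^ 2 + (x 1 * x 3) * x 2 ^ 2 := by ring
    rw [e]
    exact K.add_mem (m 1 _) (m 2 _)
  · change (x 0 * x 1 + x 2 * x 3) * (x 1 * x 3) ∈ K
    have e : (x 0 * x 1 + x 2 * x 3) * (x 1 * x 3) =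
      (x 0 * x 3) * x 1 ^ 2 + (x 1 * x 2) * x 3 ^ 2 := by ring
    rw [e]
    exact K.add_mem (m 1 _) (m 3 _)
  · change (x 0 * x 1 + x 2 * x 3) * (x 0 * x 1 - x 2 * x 3) ∈ K
    have e : (x 0 * x 1 + x 2 * x 3) * (x 0 * x 1 - x 2 * x 3) =
      (x 1 ^ 2) * x 0 ^ 2 - (x 3 ^ 2) * x 2 ^ 2 := by ring
    rw [e]
    exact K.sub_mem (m 0 _) (m 2 _)

/-- The colon ideal. -/
theorem FourC (c : ℕ) (hc : 4 ≤ c) (u : PP c) :
    u ∈ bI 4 (g4 (xP hc)) ↔ ∀ k, h4 (xP hc) k * u ∈ bA 4 c := by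
  constructor
  · intro hu k
    have h1 : bI 4 (g4 (xP hc)) ≤
        Submodule.comap (LinearMap.mulLeft (PP c) (xP hc 0 * xP hc 1 + xP hc 2 * xP hc 3))
          (bA 4 c) := by
      refine sup_le ?_ (Ideal.span_le.2 ?_)
      · intro v hv
        exact (bA 4 c).mul_mem_left _ hv
      · rintro _ ⟨l, rfl⟩
        exact F4_prod (xP hc) (bA 4 c) (F4_sq hc) l
    have hk : k = 0 := Subsingleton.elim _ _
    subst hk
    exact h1 hu
  · intro hu
    have h0 : ∀ s, F4_sh 0 (F4_sh 1 (F4_cf u)) s + F4_sh 2 (F4_sh 3 (F4_cf u)) s = 0 := by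
      intro s
      have h1 := (F4_mem_iff hc _).1 (hu 0) s
      have h2 : h4 (xP hc) 0 * u = xP hc 0 * (xP hc 1 * u) + xP hc 2 * (xP hc 3 * u) := by
        change (xP hc 0 * xP hc 1 + xP hc 2 * xP hc 3) * u = _
        ring
      rw [h2, F4_cf_add] at h1
      simpa only [F4_cf_X] using h1
    have h2 := F4_solve (F4_cf u) h0
    set U : PP c := F4_pm (F4_U (F4_cf u)) with hU
    set V : PP c := F4_pm (F4_V (F4_cf u)) with hV
    set W : PP c := F4_pm (F4_W (F4_cf u)) with hW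
    set Y : PP c := F4_pm (F4_Y (F4_cf u)) with hY
    set Z : PP c := F4_pm (F4_Z (F4_cf u)) with hZ
    have h3 : u - (g4 (xP hc) 0 * U + g4 (xP hc) 1 * V + g4 (xP hc) 2 * W + g4 (xP hc) 3 * Y +
        g4 (xP hc) 4 * Z) ∈ bA 4 c := by
      rw [F4_mem_iff hc]
      intro s
      have h4 : g4 (xP hc) 0 * U + g4 (xP hc) 1 * V + g4 (xP hc) 2 * W + g4 (xP hc) 3 * Y +
          g4 (xP hc) 4 * Z =
          xP hc 0 * (xP hc 2 * U) + xP hc 0 * (xP hc 3 * V) + xP hc 1 * (xP hc 2 * W) +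
          xP hc 1 * (xP hc 3 * Y) + (xP hc 0 * (xP hc 1 * Z) - xP hc 2 * (xP hc 3 * Z)) := by
        change (xP hc 0 * xP hc 2) * U + (xP hc 0 * xP hc 3) * V + (xP hc 1 * xP hc 2) * W +
          (xP hc 1 * xP hc 3) * Y + (xP hc 0 * xP hc 1 - xP hc 2 * xP hc 3) * Z = _
        ring
      rw [F4_cf_sub, h4, h2 s]
      simp only [F4_cf_X, F4_cf_add, F4_cf_sub]
      rw [hU, hV, hW, hY, hZ, F4_cf_pm hc, F4_cf_pm hc, F4_cf_pm hc, F4_cf_pm hc, F4_cf_pm hc,
        sub_self]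
    have hm : ∀ (l : Fin 5) (z : PP c), g4 (xP hc) l * z ∈ Ideal.span (Set.range (g4 (xP hc))) :=
      fun l z => Ideal.mul_mem_right _ _ (Ideal.subset_span ⟨l, rfl⟩)
    have h5 : u = (u - (g4 (xP hc) 0 * U + g4 (xP hc) 1 * V + g4 (xP hc) 2 * W +
        g4 (xP hc) 3 * Y + g4 (xP hc) 4 * Z)) +
        (g4 (xP hc) 0 * U + g4 (xP hc) 1 * V + g4 (xP hc) 2 * W + g4 (xP hc) 3 * Y +
        g4 (xP hc) 4 * Z) := by ring
    rw [h5]
    refine Submodule.add_mem_sup h3 ?_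
    exact Ideal.add_mem _ (Ideal.add_mem _ (Ideal.add_mem _ (Ideal.add_mem _ (hm 0 _) (hm 1 _))
      (hm 2 _)) (hm 3 _)) (hm 4 _)

end Pool.Agent.LCB
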