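import Mathlib
import Pool.Agent.LCB.FourA
import Pool.Agent.LCB.B6M
import Pool.Agent.LCB.Com

/-!
The example of type `(4, 5, 1)`: counting.
-/

namespace Pool.Agent.LCB

open Pool.Agent.Helper40.Licci RingTheory.Sequence IsLocalRing MvPolynomial

section Gen

variable {A : Type} [CommRing A] (x : Fin 4 → A)

/-- the five elements -/
def F4F : Fin 5 → A :=
  ![x 0 * x 1 * (x 2 * x 3), x 0 ^ 2 * (x 2 * x 3), x 1 ^ 2 * (x 2 * x 3), x 2 ^ 2 * (x 0 * x 1),
    x 3 ^ 2 * (x 0 * x 1)]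

variable {K : Ideal A} (hx : ∀ i, x i ^ 2 ∈ K) (hg : ∀ k, g4 x k ∈ K)

include hg in
lemma F4_02 : x 0 * x 2 ∈ K := hg 0

include hg in
lemma F4_03 : x 0 * x 3 ∈ K := hg 1

include hg in
lemma F4_12 : x 1 * x 2 ∈ K := hg 2

include hg in
lemma F4_13 : x 1 * x 3 ∈ K := hg 3

include hg in
lemma F4_23 : x 0 * x 1 - x 2 * x 3 ∈ K := hg 4

include hx hg in
/-- cubic monomials -/
lemma F4_c01 (a : Fin 4) : x a * (x 0 * x 1) ∈ K := by
  fin_cases a
  · change x 0 * (x 0 * x 1) ∈ K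
    have e : x 0 * (x 0 * x 1) = x 1 * x 0 ^ 2 := by ring
    rw [e]; exact K.mul_mem_left _ (hx 0)
  · change x 1 * (x 0 * x 1) ∈ K
    have e : x 1 * (x 0 * x 1) = x 0 * x 1 ^ 2 := by ring
    rw [e]; exact K.mul_mem_left _ (hx 1)
  · change x 2 * (x 0 * x 1) ∈ K
    have e : x 2 * (x 0 * x 1) = x 1 * (x 0 * x 2) := by ring
    rw [e]; exact K.mul_mem_left _ (F4_02 x hg)
  · change x 3 * (x 0 * x 1) ∈ K
    have e : x 3 * (x 0 * x 1) = x 1 * (x 0 * x 3) := by ring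
    rw [e]; exact K.mul_mem_left _ (F4_03 x hg)

include hx hg in
/-- cubic monomials -/
lemma F4_c23 (a : Fin 4) : x a * (x 2 * x 3) ∈ K := by
  fin_cases a
  · change x 0 * (x 2 * x 3) ∈ K
    have e : x 0 * (x 2 * x 3) = x 3 * (x 0 * x 2) := by ring
    rw [e]; exact K.mul_mem_left _ (F4_02 x hg)
  · change x 1 * (x 2 * x 3) ∈ K
    have e : x 1 * (x 2 * x 3) = x 3 * (x 1 * x 2) := by ring
    rw [e]; exact K.mul_mem_left _ (F4_12 x hg)
  · change x 2 * (x 2 * x 3) ∈ K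
    have e : x 2 * (x 2 * x 3) = x 3 * x 2 ^ 2 := by ring
    rw [e]; exact K.mul_mem_left _ (hx 2)
  · change x 3 * (x 2 * x 3) ∈ K
    have e : x 3 * (x 2 * x 3) = x 2 * x 3 ^ 2 := by ring
    rw [e]; exact K.mul_mem_left _ (hx 3)

/-- six elements -/
def F4m : Fin 6 → A := ![1, x 0, x 1, x 2, x 3, x 0 * x 1]

end Gen

section Mod

variable {B : Type} [CommRing B] [Algebra (ZMod 7) B] (x : Fin 4 → B)

/-- the span of the six elements -/
def F4N : Submodule (ZMod 7) B := Submodule.span (ZMod 7) (Set.range (F4m x))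

lemma F4N_closed (hs : ∀ i, x i ^ 2 = 0) (hg : ∀ k, g4 x k = 0) (i : Fin 4) :
    ∀ z ∈ F4N x, x i * z ∈ F4N x := by
  intro z hz
  have m1 : x 0 ∈ F4N x := Submodule.subset_span ⟨1, rfl⟩
  have m2 : x 1 ∈ F4N x := Submodule.subset_span ⟨2, rfl⟩
  have m3 : x 2 ∈ F4N x := Submodule.subset_span ⟨3, rfl⟩
  have m4 : x 3 ∈ F4N x := Submodule.subset_span ⟨4, rfl⟩
  have m5 : x 0 * x 1 ∈ F4N x := Submodule.subset_span ⟨5, rfl⟩
  have hs' : ∀ i, x i * x i = 0 := fun i => by rw [← sq]; exact hs i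
  have hK : ∀ i, x i ^ 2 ∈ (⊥ : Ideal B) := fun i => by rw [hs i]; exact zero_mem _
  have hG : ∀ k, g4 x k ∈ (⊥ : Ideal B) := fun k => by rw [hg k]; exact zero_mem _
  have g0 : x 0 * x 2 = 0 := hg 0
  have g1 : x 0 * x 3 = 0 := hg 1
  have g2 : x 1 * x 2 = 0 := hg 2
  have g3 : x 1 * x 3 = 0 := hg 3
  have g4' : x 0 * x 1 - x 2 * x 3 = 0 := hg 4
  have g5 : x 2 * x 3 = x 0 * x 1 := (sub_eq_zero.mp g4').symm
  have c01 : ∀ a : Fin 4, x a * (x 0 * x 1) = 0 := fun a => by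
    have := F4_c01 x hK hG a
    simpa using this
  have two : ∀ i j : Fin 4, x i * x j ∈ F4N x := by
    intro i j
    fin_cases i <;> fin_cases j
    · change x 0 * x 0 ∈ _; rw [hs']; exact zero_mem _
    · exact m5
    · change x 0 * x 2 ∈ _; rw [g0]; exact zero_mem _
    · change x 0 * x 3 ∈ _; rw [g1]; exact zero_mem _
    · change x 1 * x 0 ∈ _; rw [mul_comm]; exact m5
    · change x 1 * x 1 ∈ _; rw [hs']; exact zero_mem _
    · change x 1 * x 2 ∈ _; rw [g2]; exact zero_mem _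
    · change x 1 * x 3 ∈ _; rw [g3]; exact zero_mem _
    · change x 2 * x 0 ∈ _; rw [mul_comm, g0]; exact zero_mem _
    · change x 2 * x 1 ∈ _; rw [mul_comm, g2]; exact zero_mem _
    · change x 2 * x 2 ∈ _; rw [hs']; exact zero_mem _
    · change x 2 * x 3 ∈ _; rw [g5]; exact m5
    · change x 3 * x 0 ∈ _; rw [mul_comm, g1]; exact zero_mem _
    · change x 3 * x 1 ∈ _; rw [mul_comm, g3]; exact zero_mem _
    · change x 3 * x 2 ∈ _; rw [mul_comm, g5]; exact m5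
    · change x 3 * x 3 ∈ _; rw [hs']; exact zero_mem _
  have one : ∀ j : Fin 4, x j ∈ F4N x := by
    intro j
    fin_cases j
    · exact m1
    · exact m2
    · exact m3
    · exact m4
  have h1 : F4N x ≤ (F4N x).comap (LinearMap.mulLeft (ZMod 7) (x i)) := by
    unfold F4N
    rw [Submodule.span_le]
    rintro _ ⟨k, rfl⟩
    change x i * F4m x k ∈ F4N x
    fin_cases k
    · change x i * 1 ∈ _
      rw [mul_one]; exact one i
    · exact two i 0
    · exact two i 1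
    · exact two i 2
    · exact two i 3
    · change x i * (x 0 * x 1) ∈ _
      rw [c01]; exact zero_mem _
  exact h1 hz

end Mod

private lemma F4_g {A B : Type} [CommRing A] [CommRing B] (φ : A →+* B) (x : Fin 4 → A)
    (k : Fin 5) : g4 (fun i => φ (x i)) k = φ (g4 x k) := by
  fin_cases k
  · exact (map_mul φ (x 0) (x 2)).symm
  · exact (map_mul φ (x 0) (x 3)).symm
  · exact (map_mul φ (x 1) (x 2)).symm
  · exact (map_mul φ (x 1) (x 3)).symm
  · change φ (x 0) * φ (x 1) - φ (x 2) * φ (x 3) = φ (x 0 * x 1 - x 2 * x 3)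
    rw [map_sub, map_mul, map_mul]

private lemma F4_top {c : ℕ} (hc : 4 ≤ c) :
    F4N (fun i => Ideal.Quotient.mk (bI 4 (g4 (xP hc))) (xP hc i)) = ⊤ := by
  obtain ⟨J, hJ⟩ : ∃ J : Ideal (PP c), J = bI 4 (g4 (xP hc)) := ⟨_, rfl⟩
  rw [← hJ]
  have hA : ∀ v : Fin c, ba 4 v ∈ J := by
    intro v
    rw [hJ]
    exact Ideal.mem_sup_left (Ideal.subset_span ⟨v, rfl⟩)
  have hg : ∀ k, g4 (xP hc) k ∈ J := by
    intro k
    rw [hJ]
    exact Ideal.mem_sup_right (Ideal.subset_span ⟨k, rfl⟩)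
  have hs : ∀ i : Fin 4, (Ideal.Quotient.mk J (xP hc i)) ^ 2 = 0 := by
    intro i
    rw [← map_pow, Ideal.Quotient.eq_zero_iff_mem]
    have h1 := hA (Fin.castLE hc i)
    have h2 : bx 4 (Fin.castLE hc i) = 2 := by
      unfold bx
      rw [if_pos]
      exact i.2
    unfold ba at h1
    rw [h2] at h1
    exact h1
  have hgk : ∀ k, g4 (fun i => Ideal.Quotient.mk J (xP hc i)) k = 0 := by
    intro k
    rw [F4_g, Ideal.Quotient.eq_zero_iff_mem]
    exact hg k
  rw [eq_top_iff]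
  rintro b -
  obtain ⟨u, rfl⟩ := Ideal.Quotient.mk_surjective b
  have h1 : (1 : PP c ⧸ J) ∈ F4N (fun i => Ideal.Quotient.mk J (xP hc i)) :=
    Submodule.subset_span ⟨0, rfl⟩
  induction u using MvPolynomial.induction_on with
  | C a =>
    have e : Ideal.Quotient.mk J (C a) = algebraMap (ZMod 7) (PP c ⧸ J) a := rfl
    rw [e, Algebra.algebraMap_eq_smul_one]
    exact Submodule.smul_mem _ _ h1
  | add p q hp hq =>
    rw [map_add]
    exact Submodule.add_mem _ hp hq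
  | mul_X p v hp =>
    rw [map_mul, mul_comm]
    by_cases hv : v.val < 4
    · exact F4N_closed _ hs hgk ⟨v.val, hv⟩ _ hp
    · have e : Ideal.Quotient.mk J (X v) = 0 := by
        rw [Ideal.Quotient.eq_zero_iff_mem]
        have h2 := hA v
        unfold ba bx at h2
        rw [if_neg hv, pow_one] at h2
        exact h2
      rw [e, zero_mul]
      exact Submodule.zero_mem _

/-- The quotient has at most `7 ^ 6` elements. -/
theorem FourN (h2 : St_BG2) (c : ℕ) (hc : 4 ≤ c) :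
    Nat.card (RR c ⧸ bJ 4 (g4 (xP hc))) ≤ 7 ^ 6 := by
  obtain ⟨h1, _, _, h4⟩ := h2 4 c hc
  have hmap := h1 5 (g4 (xP hc))
  have hle : bI 4 (g4 (xP hc)) ≤ Ideal.comap (toR c) (bJ 4 (g4 (xP hc))) := by
    rw [← Ideal.map_le_iff_le_comap]
    exact hmap.le
  let θ : (PP c ⧸ bI 4 (g4 (xP hc))) →+* (RR c ⧸ bJ 4 (g4 (xP hc))) :=
    Ideal.quotientMap _ (toR c) hle
  have hθ : Function.Surjective θ := by
    intro b
    obtain ⟨x, rfl⟩ := Ideal.Quotient.mk_surjective b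
    obtain ⟨u, hu⟩ := h4 x
    refine ⟨Ideal.Quotient.mk _ u, ?_⟩
    have e1 : θ (Ideal.Quotient.mk _ u) = Ideal.Quotient.mk _ (toR c u) :=
      Ideal.quotientMap_mk
    rw [e1, eq_comm, Ideal.Quotient.eq]
    exact Ideal.mem_sup_left hu
  let F : (Fin 6 → ZMod 7) → (RR c ⧸ bJ 4 (g4 (xP hc))) :=
    fun w => θ (∑ t, w t • F4m (fun i => Ideal.Quotient.mk (bI 4 (g4 (xP hc))) (xP hc i)) t)
  have hF : Function.Surjective F := by
    intro b
    obtain ⟨z, rfl⟩ := hθ b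
    have hz : z ∈ F4N (fun i => Ideal.Quotient.mk (bI 4 (g4 (xP hc))) (xP hc i)) := by
      rw [F4_top hc]
      exact Submodule.mem_top
    obtain ⟨w, hw⟩ := (Submodule.mem_span_range_iff_exists_fun (ZMod 7)).1 hz
    exact ⟨w, by show θ _ = θ z; rw [hw]⟩
  have h5 := Nat.card_le_card_of_surjective F hF
  rw [Nat.card_fun] at h5
  have h6 : Nat.card (Fin 6) = 6 := by
    rw [Nat.card_eq_fintype_card]
    simp
  have h7 : Nat.card (ZMod 7) = 7 := by
    rw [Nat.card_eq_fintype_card, ZMod.card]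
  rw [h6, h7] at h5
  exact h5

end Pool.Agent.LCB
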