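import Mathlib
import Pool.Agent.LCB.FourB

/-!
The example of type `(4, 5, 1)`: the square of the ideal, and the number of homomorphisms.
-/

namespace Pool.Agent.LCB

open Pool.Agent.Helper40.Licci RingTheory.Sequence IsLocalRing MvPolynomial

section Gen

variable {A : Type} [CommRing A] (x : Fin 4 → A) (L I : Ideal A)

/-- the additive subgroup generated by `L I` and the five elements -/
def F4W : AddSubgroup A := (L * I).toAddSubgroup ⊔ AddSubgroup.closure (Set.range (F4F x))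

lemma F4_LI {z : A} (hz : z ∈ L * I) : z ∈ F4W x L I := AddSubgroup.mem_sup_left hz

lemma F4F_mem (i : Fin 5) : F4F x i ∈ F4W x L I :=
  AddSubgroup.mem_sup_right (AddSubgroup.subset_closure ⟨i, rfl⟩)

variable {L I} (hLI : L ≤ I) (hx : ∀ i, x i ^ 2 ∈ L) (hg : ∀ k, g4 x k ∈ I)

include hLI hx hg in
/-- products of a coordinate and one of the five elements -/
lemma F4F_mul (a : Fin 4) (k : Fin 5) : x a * F4F x k ∈ L * I := by
  have hxI : ∀ i, x i ^ 2 ∈ I := fun i => hLI (hx i)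
  have c01 := F4_c01 x hxI hg
  have c23 := F4_c23 x hxI hg
  have hm : ∀ i (z : A), z ∈ I → x i ^ 2 * z ∈ L * I := fun i z hz => Ideal.mul_mem_mul (hx i) hz
  fin_cases k
  · change x a * (x 0 * x 1 * (x 2 * x 3)) ∈ L * I
    fin_cases a
    · change x 0 * (x 0 * x 1 * (x 2 * x 3)) ∈ L * I
      have e : x 0 * (x 0 * x 1 * (x 2 * x 3)) = x 0 ^ 2 * (x 1 * (x 2 * x 3)) := by ring
      rw [e]; exact hm 0 _ (c23 1)
    · change x 1 * (x 0 * x 1 * (x 2 * x 3)) ∈ L * I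
      have e : x 1 * (x 0 * x 1 * (x 2 * x 3)) = x 1 ^ 2 * (x 0 * (x 2 * x 3)) := by ring
      rw [e]; exact hm 1 _ (c23 0)
    · change x 2 * (x 0 * x 1 * (x 2 * x 3)) ∈ L * I
      have e : x 2 * (x 0 * x 1 * (x 2 * x 3)) = x 2 ^ 2 * (x 3 * (x 0 * x 1)) := by ring
      rw [e]; exact hm 2 _ (c01 3)
    · change x 3 * (x 0 * x 1 * (x 2 * x 3)) ∈ L * I
      have e : x 3 * (x 0 * x 1 * (x 2 * x 3)) = x 3 ^ 2 * (x 2 * (x 0 * x 1)) := by ring
      rw [e]; exact hm 3 _ (c01 2)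
  · change x a * (x 0 ^ 2 * (x 2 * x 3)) ∈ L * I
    have e : x a * (x 0 ^ 2 * (x 2 * x 3)) = x 0 ^ 2 * (x a * (x 2 * x 3)) := by ring
    rw [e]; exact hm 0 _ (c23 a)
  · change x a * (x 1 ^ 2 * (x 2 * x 3)) ∈ L * I
    have e : x a * (x 1 ^ 2 * (x 2 * x 3)) = x 1 ^ 2 * (x a * (x 2 * x 3)) := by ring
    rw [e]; exact hm 1 _ (c23 a)
  · change x a * (x 2 ^ 2 * (x 0 * x 1)) ∈ L * I
    have e : x a * (x 2 ^ 2 * (x 0 * x 1)) = x 2 ^ 2 * (x a * (x 0 * x 1)) := by ring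
    rw [e]; exact hm 2 _ (c01 a)
  · change x a * (x 3 ^ 2 * (x 0 * x 1)) ∈ L * I
    have e : x a * (x 3 ^ 2 * (x 0 * x 1)) = x 3 ^ 2 * (x a * (x 0 * x 1)) := by ring
    rw [e]; exact hm 3 _ (c01 a)

include hLI hx hg in
/-- products of two generators -/
lemma F4W_two (k l : Fin 5) : g4 x k * g4 x l ∈ F4W x L I := by
  have hxI : ∀ i, x i ^ 2 ∈ I := fun i => hLI (hx i)
  have hm : ∀ i (z : A), z ∈ I → x i ^ 2 * z ∈ F4W x L I :=
    fun i z hz => F4_LI x L I (Ideal.mul_mem_mul (hx i) hz)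
  have i02 := F4_02 x hg
  have i03 := F4_03 x hg
  have i12 := F4_12 x hg
  have i13 := F4_13 x hg
  have f0 : x 0 * x 1 * (x 2 * x 3) ∈ F4W x L I := F4F_mem x L I 0
  have f1 : x 0 ^ 2 * (x 2 * x 3) ∈ F4W x L I := F4F_mem x L I 1
  have f2 : x 1 ^ 2 * (x 2 * x 3) ∈ F4W x L I := F4F_mem x L I 2
  have f3 : x 2 ^ 2 * (x 0 * x 1) ∈ F4W x L I := F4F_mem x L I 3
  have f4 : x 3 ^ 2 * (x 0 * x 1) ∈ F4W x L I := F4F_mem x L I 4
  -- the products
  have p00 : (x 0 * x 2) * (x 0 * x 2) ∈ F4W x L I := by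
    have e : (x 0 * x 2) * (x 0 * x 2) = x 0 ^ 2 * x 2 ^ 2 := by ring
    rw [e]; exact hm 0 _ (hxI 2)
  have p01 : (x 0 * x 2) * (x 0 * x 3) ∈ F4W x L I := by
    have e : (x 0 * x 2) * (x 0 * x 3) = x 0 ^ 2 * (x 2 * x 3) := by ring
    rw [e]; exact f1
  have p02 : (x 0 * x 2) * (x 1 * x 2) ∈ F4W x L I := by
    have e : (x 0 * x 2) * (x 1 * x 2) = x 2 ^ 2 * (x 0 * x 1) := by ring
    rw [e]; exact f3
  have p03 : (x 0 * x 2) * (x 1 * x 3) ∈ F4W x L I := by
    have e : (x 0 * x 2) * (x 1 * x 3) = x 0 * x 1 * (x 2 * x 3) := by ring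
    rw [e]; exact f0
  have p04 : (x 0 * x 2) * (x 0 * x 1 - x 2 * x 3) ∈ F4W x L I := by
    have e : (x 0 * x 2) * (x 0 * x 1 - x 2 * x 3) = x 0 ^ 2 * (x 1 * x 2) - x 2 ^ 2 * (x 0 * x 3) := by
      ring
    rw [e]; exact sub_mem (hm 0 _ i12) (hm 2 _ i03)
  have p11 : (x 0 * x 3) * (x 0 * x 3) ∈ F4W x L I := by
    have e : (x 0 * x 3) * (x 0 * x 3) = x 0 ^ 2 * x 3 ^ 2 := by ring
    rw [e]; exact hm 0 _ (hxI 3)
  have p12 : (x 0 * x 3) * (x 1 * x 2) ∈ F4W x L I := by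
    have e : (x 0 * x 3) * (x 1 * x 2) = x 0 * x 1 * (x 2 * x 3) := by ring
    rw [e]; exact f0
  have p13 : (x 0 * x 3) * (x 1 * x 3) ∈ F4W x L I := by
    have e : (x 0 * x 3) * (x 1 * x 3) = x 3 ^ 2 * (x 0 * x 1) := by ring
    rw [e]; exact f4
  have p14 : (x 0 * x 3) * (x 0 * x 1 - x 2 * x 3) ∈ F4W x L I := by
    have e : (x 0 * x 3) * (x 0 * x 1 - x 2 * x 3) = x 0 ^ 2 * (x 1 * x 3) - x 3 ^ 2 * (x 0 * x 2) := by
      ring
    rw [e]; exact sub_mem (hm 0 _ i13) (hm 3 _ i02)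
  have p22 : (x 1 * x 2) * (x 1 * x 2) ∈ F4W x L I := by
    have e : (x 1 * x 2) * (x 1 * x 2) = x 1 ^ 2 * x 2 ^ 2 := by ring
    rw [e]; exact hm 1 _ (hxI 2)
  have p23 : (x 1 * x 2) * (x 1 * x 3) ∈ F4W x L I := by
    have e : (x 1 * x 2) * (x 1 * x 3) = x 1 ^ 2 * (x 2 * x 3) := by ring
    rw [e]; exact f2
  have p24 : (x 1 * x 2) * (x 0 * x 1 - x 2 * x 3) ∈ F4W x L I := by
    have e : (x 1 * x 2) * (x 0 * x 1 - x 2 * x 3) = x 1 ^ 2 * (x 0 * x 2) - x 2 ^ 2 * (x 1 * x 3) := by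
      ring
    rw [e]; exact sub_mem (hm 1 _ i02) (hm 2 _ i13)
  have p33 : (x 1 * x 3) * (x 1 * x 3) ∈ F4W x L I := by
    have e : (x 1 * x 3) * (x 1 * x 3) = x 1 ^ 2 * x 3 ^ 2 := by ring
    rw [e]; exact hm 1 _ (hxI 3)
  have p34 : (x 1 * x 3) * (x 0 * x 1 - x 2 * x 3) ∈ F4W x L I := by
    have e : (x 1 * x 3) * (x 0 * x 1 - x 2 * x 3) = x 1 ^ 2 * (x 0 * x 3) - x 3 ^ 2 * (x 1 * x 2) := by
      ring
    rw [e]; exact sub_mem (hm 1 _ i03) (hm 3 _ i12)
  have p44 : (x 0 * x 1 - x 2 * x 3) * (x 0 * x 1 - x 2 * x 3) ∈ F4W x L I := by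
    have e : (x 0 * x 1 - x 2 * x 3) * (x 0 * x 1 - x 2 * x 3) =
        x 0 ^ 2 * x 1 ^ 2 + x 2 ^ 2 * x 3 ^ 2 - x 0 * x 1 * (x 2 * x 3) -
          x 0 * x 1 * (x 2 * x 3) := by ring
    rw [e]; exact sub_mem (sub_mem (add_mem (hm 0 _ (hxI 1)) (hm 2 _ (hxI 3))) f0) f0
  fin_cases k <;> fin_cases l
  · exact p00
  · exact p01
  · exact p02
  · exact p03
  · exact p04
  · change (x 0 * x 3) * (x 0 * x 2) ∈ _; rw [mul_comm]; exact p01
  · exact p11
  · exact p12
  · exact p13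
  · exact p14
  · change (x 1 * x 2) * (x 0 * x 2) ∈ _; rw [mul_comm]; exact p02
  · change (x 1 * x 2) * (x 0 * x 3) ∈ _; rw [mul_comm]; exact p12
  · exact p22
  · exact p23
  · exact p24
  · change (x 1 * x 3) * (x 0 * x 2) ∈ _; rw [mul_comm]; exact p03
  · change (x 1 * x 3) * (x 0 * x 3) ∈ _; rw [mul_comm]; exact p13
  · change (x 1 * x 3) * (x 1 * x 2) ∈ _; rw [mul_comm]; exact p23
  · exact p33
  · exact p34
  · change (x 0 * x 1 - x 2 * x 3) * (x 0 * x 2) ∈ _; rw [mul_comm]; exact p04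
  · change (x 0 * x 1 - x 2 * x 3) * (x 0 * x 3) ∈ _; rw [mul_comm]; exact p14
  · change (x 0 * x 1 - x 2 * x 3) * (x 1 * x 2) ∈ _; rw [mul_comm]; exact p24
  · change (x 0 * x 1 - x 2 * x 3) * (x 1 * x 3) ∈ _; rw [mul_comm]; exact p34
  · exact p44

end Gen

lemma F4_xR {c : ℕ} (hc : 4 ≤ c) (i : Fin 4) : xR hc i ^ 2 ∈ bL 4 c := by
  refine Ideal.subset_span ⟨Fin.castLE hc i, ?_⟩
  unfold bR ba bx xR xP
  rw [if_pos (by simp), map_pow]

lemma F4_toR {c : ℕ} (hc : 4 ≤ c) (k : Fin 5) : toR c (g4 (xP hc) k) = g4 (xR hc) k := by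
  fin_cases k
  · exact map_mul (toR c) _ _
  · exact map_mul (toR c) _ _
  · exact map_mul (toR c) _ _
  · exact map_mul (toR c) _ _
  · change toR c (xP hc 0 * xP hc 1 - xP hc 2 * xP hc 3) = xR hc 0 * xR hc 1 - xR hc 2 * xR hc 3
    rw [map_sub, map_mul, map_mul]
    rfl

/-- The index of `(α) I` in the square. -/
theorem FourM (h2 : St_BG2) (c : ℕ) (hc : 4 ≤ c) :
    Nat.card (RR c ⧸ (bL 4 c * bJ 4 (g4 (xP hc)))) ≤
      7 ^ 5 * Nat.card (RR c ⧸ (bJ 4 (g4 (xP hc)) * bJ 4 (g4 (xP hc)))) := by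
  set L := bL 4 c with hL
  set I := bJ 4 (g4 (xP hc)) with hI
  have hLI : L ≤ I := le_sup_left
  have h7 := seven_RR c
  have hx : ∀ i, xR hc i ^ 2 ∈ L := F4_xR hc
  have hg : ∀ k, g4 (xR hc) k ∈ I := by
    intro k
    rw [← F4_toR]
    exact Ideal.mem_sup_right (Ideal.subset_span ⟨k, rfl⟩)
  obtain ⟨_, _, _, happ⟩ := h2 4 c hc
  -- the five elements are in `I`
  have hFI : ∀ k : Fin 5, F4F (xR hc) k ∈ I := by
    intro k
    have hxI : ∀ i, xR hc i ^ 2 ∈ I := fun i => hLI (hx i)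
    fin_cases k
    · change xR hc 0 * xR hc 1 * (xR hc 2 * xR hc 3) ∈ I
      rw [mul_assoc]
      exact I.mul_mem_left _ (F4_c23 _ hxI hg 1)
    · exact I.mul_mem_right _ (hxI 0)
    · exact I.mul_mem_right _ (hxI 1)
    · exact I.mul_mem_right _ (hxI 2)
    · exact I.mul_mem_right _ (hxI 3)
  -- multiples of the five elements
  have keyF : ∀ (r : RR c) (k : Fin 5), r * F4F (xR hc) k ∈ F4W (xR hc) L I := by
    intro r k
    obtain ⟨u, hu⟩ := happ r
    have e : r * F4F (xR hc) k = (r - toR c u) * F4F (xR hc) k + toR c u * F4F (xR hc) k := by ring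
    rw [e]
    refine add_mem (F4_LI _ _ _ (Ideal.mul_mem_mul hu (hFI k))) ?_
    clear e hu
    induction u using MvPolynomial.induction_on with
    | C a =>
      have e : toR c (C a) = ((a.val : ℕ) : RR c) := by
        have : (C a : PP c) = ((a.val : ℕ) : PP c) := by
          rw [← map_natCast (C : ZMod 7 →+* PP c), ZMod.natCast_zmod_val]
        rw [this, map_natCast]
      rw [e, ← nsmul_eq_mul]
      exact nsmul_mem (F4F_mem _ _ _ k) _
    | add p q hp hq =>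
      rw [map_add, add_mul]
      exact add_mem hp hq
    | mul_X p n hp =>
      apply F4_LI
      rw [map_mul, mul_assoc]
      refine Ideal.mul_mem_left _ _ ?_
      by_cases hn : n.val < 4
      · exact F4F_mul (xR hc) hLI hx hg ⟨n.val, hn⟩ k
      · refine Ideal.mul_mem_mul ?_ (hFI k)
        refine Ideal.subset_span ⟨n, ?_⟩
        unfold bR ba bx
        rw [if_neg hn, pow_one]
  have keyC : ∀ (r b : RR c), b ∈ AddSubgroup.closure (Set.range (F4F (xR hc))) →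
      r * b ∈ F4W (xR hc) L I := by
    intro r b hb
    induction hb using AddSubgroup.closure_induction with
    | mem y hy =>
      obtain ⟨k, rfl⟩ := hy
      exact keyF r k
    | zero => rw [mul_zero]; exact zero_mem _
    | add a b _ _ ha hb => rw [mul_add]; exact add_mem ha hb
    | neg a _ ha =>
      have h := neg_mem ha
      have e : -(r * a) = r * -a := (mul_neg r a).symm
      exact e ▸ h
  have keyW : ∀ (r z : RR c), z ∈ F4W (xR hc) L I → r * z ∈ F4W (xR hc) L I := by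
    intro r z hz
    obtain ⟨a, ha, b, hb, rfl⟩ := AddSubgroup.mem_sup.mp hz
    rw [mul_add]
    exact add_mem (F4_LI _ _ _ (Ideal.mul_mem_left _ _ ha)) (keyC r b hb)
  have key2 : ∀ (r : RR c) (k l : Fin 5), r * (g4 (xR hc) k * g4 (xR hc) l) ∈
      F4W (xR hc) L I := fun r k l => keyW _ _ (F4W_two (xR hc) hLI hx hg k l)
  have hIspan : I = L ⊔ Ideal.span (Set.range (g4 (xR hc))) := by
    have e : (fun k => toR c (g4 (xP hc) k)) = g4 (xR hc) := funext (F4_toR hc)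
    rw [hI]
    unfold bJ
    rw [e]
  have key3 : ∀ z ∈ I * I, z ∈ F4W (xR hc) L I := by
    have hle : I * I ≤ (L * I) ⊔ Ideal.span (Set.range (g4 (xR hc))) *
        Ideal.span (Set.range (g4 (xR hc))) := by
      conv_lhs => rw [hIspan]
      rw [Ideal.sup_mul, Ideal.mul_sup, Ideal.mul_sup]
      refine sup_le (sup_le ?_ ?_) (sup_le ?_ le_sup_right)
      · exact le_sup_of_le_left (Ideal.mul_mono_right hLI)
      · exact le_sup_of_le_left (Ideal.mul_mono_right (by rw [hIspan]; exact le_sup_right))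
      · rw [mul_comm]
        exact le_sup_of_le_left (Ideal.mul_mono_right (by rw [hIspan]; exact le_sup_right))
    intro z hz
    obtain ⟨a, ha, b, hb, rfl⟩ := Submodule.mem_sup.mp (hle hz)
    refine add_mem (F4_LI _ _ _ ha) ?_
    rw [Ideal.span_mul_span'] at hb
    refine Submodule.span_induction (p := fun b _ => ∀ r : RR c, r * b ∈ F4W (xR hc) L I)
      ?_ ?_ ?_ ?_ hb 1 |> fun h => by simpa using h
    · rintro _ ⟨_, ⟨k, rfl⟩, _, ⟨l, rfl⟩, rfl⟩ r
      exact key2 r k l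
    · intro r
      rw [mul_zero]
      exact zero_mem _
    · intro a b _ _ ha hb r
      rw [mul_add]
      exact add_mem (ha r) (hb r)
    · intro s a _ ha r
      have e : r * (s • a) = (r * s) * a := by rw [smul_eq_mul]; ring
      rw [e]
      exact ha _
  -- counting
  have hLI2 : L * I ≤ I * I := Ideal.mul_mono_left hLI
  let G := RR c ⧸ (L * I)
  have hG7 : ∀ g : G, 7 • g = 0 := by
    intro g
    obtain ⟨r, rfl⟩ := Ideal.Quotient.mk_surjective g
    rw [← map_nsmul, nsmul_eq_mul]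
    have : ((7 : ℕ) : RR c) = 0 := by exact_mod_cast h7
    rw [this, zero_mul, map_zero]
  obtain ⟨hcard, hfin⟩ := B6Maux.card_closure hG7 5
    (fun i => Ideal.Quotient.mk (L * I) (F4F (xR hc) i))
  have hker : ∀ z ∈ I * I, Ideal.Quotient.mk (L * I) z ∈
      AddSubgroup.closure (Set.range (fun i => Ideal.Quotient.mk (L * I) (F4F (xR hc) i))) := by
    intro z hz
    obtain ⟨a, ha, b, hb, rfl⟩ := AddSubgroup.mem_sup.mp (key3 z hz)
    have ha' : Ideal.Quotient.mk (L * I) a = 0 := Ideal.Quotient.eq_zero_iff_mem.mpr ha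
    rw [map_add, ha', zero_add]
    have hm : AddSubgroup.map (Ideal.Quotient.mk (L * I)).toAddMonoidHom
        (AddSubgroup.closure (Set.range (F4F (xR hc)))) =
        AddSubgroup.closure (Set.range (fun i => Ideal.Quotient.mk (L * I) (F4F (xR hc) i))) := by
      rw [AddMonoidHom.map_closure, ← Set.range_comp]
      rfl
    rw [← hm]
    exact ⟨b, hb, rfl⟩
  have hq := card_ker_mul_card_of_surjective (fac hLI2) (fac_surjective hLI2)
  rw [← hq]
  refine Nat.mul_le_mul_right _ (le_trans ?_ hcard)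
  refine Nat.card_le_card_of_injective (fun y : LinearMap.ker (fac hLI2) =>
    (⟨y.1, ?_⟩ : AddSubgroup.closure (Set.range
      (fun i => Ideal.Quotient.mk (L * I) (F4F (xR hc) i))))) ?_
  · obtain ⟨z, hz, hzy⟩ := exists_of_mem_ker_fac hLI2 y.2
    rw [← hzy]
    exact hker z hz
  · intro y y' h
    exact Subtype.ext (congrArg (fun w => w.1) h)

/-- The number of homomorphisms. -/
theorem FourT (g1 : St_BG1) (g2 : St_BG2) (g3 : St_BG3) (t3 : St_BT3) (t4 : St_BT4) (c : ℕ)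
    (hc : 4 ≤ c) : Nat.card (bJ 4 (g4 (xP hc)) →ₗ[RR c] (RR c ⧸ bJ 4 (g4 (xP hc)))) ≠
      Nat.card (RR c ⧸ bJ 4 (g4 (xP hc))) ^ c := by
  obtain ⟨reg, cm, eL, fL, sL, c7⟩ := g1 4 c hc
  obtain ⟨mI, mA, tr, lift⟩ := g2 4 c hc
  have cA := g3 g2 4 c hc
  set I : Ideal (RR c) := bJ 4 (g4 (xP hc)) with hI
  have hLI : bL 4 c ≤ I := le_sup_left
  have fI : Finite (RR c ⧸ I) := Finite.of_surjective _ (fac_surjective hLI)
  have hIpos : 0 < Nat.card (RR c ⧸ I) := Nat.card_pos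
  have h4' := t4 (RR c) c (bR 4) I cm hLI fL
  have hMS : Nat.card (RR c ⧸ (bL 4 c * I)) ≤ 7 ^ 5 * Nat.card (RR c ⧸ (I * I)) := FourM g2 c hc
  have h26 : Nat.card (RR c ⧸ I) ≤ 7 ^ 6 := FourN g2 c hc
  -- the socle
  have memI : ∀ u : PP c, toR c u ∈ I ↔ u ∈ bI 4 (g4 (xP hc)) := by
    intro u
    rw [hI, ← mI]
    exact tr _ le_sup_left u
  have memL : ∀ u : PP c, toR c u ∈ bL 4 c ↔ u ∈ bA 4 c := by
    intro u
    rw [← mA]
    exact tr _ le_rfl u
  set w : RR c := toR c (h4 (xP hc) 0) with hw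
  have key : ∀ x : RR c, x ∈ I ↔ w * x ∈ bL 4 c := by
    intro x
    obtain ⟨u, hu⟩ := lift x
    have e1 : x ∈ I ↔ toR c u ∈ I := by
      constructor
      · intro hx
        have : toR c u = x - (x - toR c u) := by ring
        rw [this]
        exact Ideal.sub_mem _ hx (hLI hu)
      · intro hx
        have : x = (x - toR c u) + toR c u := by ring
        rw [this]
        exact Ideal.add_mem _ (hLI hu) hx
    have e2 : w * x ∈ bL 4 c ↔ w * toR c u ∈ bL 4 c := by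
      constructor
      · intro hx
        have : w * toR c u = w * x - w * (x - toR c u) := by ring
        rw [this]
        exact Ideal.sub_mem _ hx (Ideal.mul_mem_left _ _ hu)
      · intro hx
        have : w * x = w * (x - toR c u) + w * toR c u := by ring
        rw [this]
        exact Ideal.add_mem _ (Ideal.mul_mem_left _ _ hu) hx
    rw [e1, e2, memI, FourC c hc u, hw, ← map_mul, memL]
    constructor
    · intro h; exact h 0
    · intro h k
      have : k = 0 := Subsingleton.elim _ _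
      subst this
      exact h
  have sI : Nat.card (soc (RR c) (RR c ⧸ I)) ≤ Nat.card (RR c ⧸ maximalIdeal (RR c)) := by
    refine le_trans ?_ sL
    have hb : ∀ x ∈ I, w * x ∈ bL 4 c := fun x hx => (key x).mp hx
    have hinj : Function.Injective (mulQ w hb) := by
      rw [← LinearMap.ker_eq_bot, LinearMap.ker_eq_bot']
      intro v hv
      obtain ⟨x, rfl⟩ := Submodule.Quotient.mk_surjective _ v
      rw [mulQ_mk, Submodule.Quotient.mk_eq_zero] at hv
      rw [Submodule.Quotient.mk_eq_zero]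
      exact (key x).mpr hv
    refine Nat.card_le_card_of_injective
      (fun z : soc (RR c) (RR c ⧸ I) => (⟨mulQ w hb z.1, ?_⟩ : soc (RR c) (RR c ⧸ bL 4 c))) ?_
    · have hz := z.2
      rw [Submodule.mem_torsionBySet_iff] at hz ⊢
      intro r
      have := hz r
      rw [← map_smul, this, map_zero]
    · intro z z' hzz
      apply Subtype.ext
      apply hinj
      exact congrArg (fun v => v.1) hzz
  have h3 := t3 (RR c) I (IsNoetherian.noetherian I) fI sI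
  intro heq
  rw [heq] at h3
  have hL' : Nat.card (RR c ⧸ Ideal.span (Set.range (bR 4 : Fin c → RR c))) = 7 ^ (2 ^ 4) := cA
  rw [hL'] at h4'
  have h4'' : Nat.card (RR c ⧸ (bL 4 c * I)) = 7 ^ (2 ^ 4) * Nat.card (RR c ⧸ I) ^ c := h4'
  rw [h4''] at hMS
  have h5 : 7 ^ (2 ^ 4) * Nat.card (RR c ⧸ I) ^ c ≤
      7 ^ 5 * (Nat.card (RR c ⧸ I) ^ c * 7 ^ 6) := by
    refine le_trans hMS (Nat.mul_le_mul_left _ (le_trans h3 (Nat.mul_le_mul_left _ h26)))
  have h6 : 0 < Nat.card (RR c ⧸ I) ^ c := Nat.pow_pos hIpos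
  norm_num at h5
  nlinarith

end Pool.Agent.LCB
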