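import Mathlib
import Pool.Agent.LCB.FourM
import Pool.Agent.LCB.F641

/-!
The base examples `(4, 5, 1)` and `(4, 6, 1)`.
-/

namespace Pool.Agent.LCB

open Pool.Agent.Helper40.Licci RingTheory.Sequence IsLocalRing MvPolynomial

section Main

/-- The witness of type `(4, 5, 1)`. -/
theorem Four_W (hD : St_Dual) (g1 : St_BG1) (g2 : St_BG2) (g3 : St_BG3) (b4 : St_BG4) (g5 : St_BG5)
    (g6 : St_BG6) (g7 : St_BG7) (t3 : St_BT3) (t4 : St_BT4) (c : ℕ) (hc : 4 ≤ c) :
    Wit (RR c) c 5 1 (List.ofFn (bR 4 : Fin c → RR c)) (bJ 4 (g4 (xP hc))) (bJ 4 (h4 (xP hc))) := by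
  obtain ⟨q1, q2, q3, q4⟩ := FourQ c hc
  exact g7 g1 b4 g5 g6 hD g2 4 c 5 1 _ _ hc (by omega) q1 q2 q3 q4 (FourC c hc)
    (FourT g1 g2 g3 t3 t4 c hc)

lemma th_bR4 {n : ℕ} (v : Fin (n + 1 + 1)) (hv : 2 ≤ v.val) : th (n + 1 + 1) (bR 4 v) = 0 := by
  unfold bR ba
  rw [th_toR, map_pow, thP_X]
  have h1 : thv v = 0 := by
    unfold thv
    rw [if_neg (by omega), if_neg (by omega)]
  rw [h1]
  apply zero_pow
  unfold bx
  split_ifs <;> norm_num

lemma th_xP4 {c : ℕ} (hc : 4 ≤ c) (i : Fin 4) : thP c (xP hc i) =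
    if i.val = 0 then PowerSeries.C PowerSeries.X else if i.val = 1 then PowerSeries.X else 0 := by
  unfold xP
  rw [thP_X]
  rfl

lemma th_w4 {c : ℕ} (hc : 4 ≤ c) : th c (toR c (h4 (xP hc) 0)) =
    PowerSeries.C PowerSeries.X * PowerSeries.X := by
  rw [th_toR]
  change thP c (xP hc 0 * xP hc 1 + xP hc 2 * xP hc 3) = _
  rw [map_add, map_mul, map_mul, th_xP4, th_xP4, th_xP4, th_xP4]
  simp

lemma th_I4 {n : ℕ} (hc : 4 ≤ n + 1 + 1) : ∀ i ∈ bJ 4 (g4 (xP hc)),
    PowerSeries.constantCoeff (PowerSeries.coeff 1 (th (n + 1 + 1) i)) = 0 := by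
  intro i hi
  apply thT_coeff
  have hle : bJ 4 (g4 (xP hc)) ≤ thT.comap (th (n + 1 + 1)) := by
    unfold bJ bL
    refine sup_le (Ideal.span_le.mpr ?_) (Ideal.span_le.mpr ?_)
    · rintro _ ⟨v, rfl⟩
      change th (n + 1 + 1) (bR 4 v) ∈ thT
      by_cases h2 : 2 ≤ v.val
      · rw [th_bR4 v h2]; exact thT.zero_mem
      · have hv6 : bx 4 v = 2 := by
          unfold bx; rw [if_pos (by omega)]
        unfold bR ba
        rw [th_toR, map_pow, thP_X, hv6]
        unfold thv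
        split_ifs with h0 h1
        · constructor
          · simp
          · rw [← map_pow, PowerSeries.coeff_C]
            simp
        · constructor
          · simp
          · rw [PowerSeries.coeff_X_pow]
            simp
        · constructor <;> simp
    · rintro _ ⟨k, rfl⟩
      change th (n + 1 + 1) (toR (n + 1 + 1) (g4 (xP hc) k)) ∈ thT
      rw [th_toR]
      have hprod : (PowerSeries.C PowerSeries.X * PowerSeries.X :
          PowerSeries (PowerSeries (ZMod 7))) ∈ thT := by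
        constructor
        · simp
        · rw [PowerSeries.coeff_C_mul]
          simp
      have e0 : thP (n + 1 + 1) (xP hc 0) = PowerSeries.C PowerSeries.X := by rw [th_xP4]; rfl
      have e1 : thP (n + 1 + 1) (xP hc 1) = PowerSeries.X := by rw [th_xP4]; rfl
      have e2 : thP (n + 1 + 1) (xP hc 2) = 0 := by rw [th_xP4]; rfl
      have e3 : thP (n + 1 + 1) (xP hc 3) = 0 := by rw [th_xP4]; rfl
      fin_cases k
      · change thP (n + 1 + 1) (xP hc 0 * xP hc 2) ∈ thT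
        rw [map_mul, e2, mul_zero]
        exact thT.zero_mem
      · change thP (n + 1 + 1) (xP hc 0 * xP hc 3) ∈ thT
        rw [map_mul, e3, mul_zero]
        exact thT.zero_mem
      · change thP (n + 1 + 1) (xP hc 1 * xP hc 2) ∈ thT
        rw [map_mul, e2, mul_zero]
        exact thT.zero_mem
      · change thP (n + 1 + 1) (xP hc 1 * xP hc 3) ∈ thT
        rw [map_mul, e3, mul_zero]
        exact thT.zero_mem
      · change thP (n + 1 + 1) (xP hc 0 * xP hc 1 - xP hc 2 * xP hc 3) ∈ thT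
        rw [map_sub, map_mul, map_mul, e0, e1, e2, zero_mul, sub_zero]
        exact hprod
  exact hle hi

/-- The base example `(4, 6, 1)`. -/
theorem Four_461 (hD : St_Dual) (hTy : St_Type) (hO : St_One) (hRs : St_Rsm) (hRg : St_Rg1)
    (hKF : St_KF) (hE : St_Ex) (hD0 : St_D0) (hMZ : St_MZ) (hT : St_Tau)
    (hW : ∀ (c : ℕ) (hc : 4 ≤ c), Wit (RR c) c 5 1 (List.ofFn (bR 4 : Fin c → RR c))
      (bJ 4 (g4 (xP hc))) (bJ 4 (h4 (xP hc)))) : ∀ c, 4 ≤ c → Y c 6 1 := by
  intro c hc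
  obtain ⟨n, rfl⟩ : ∃ n, c = n + 1 + 1 := ⟨c - 2, by omega⟩
  have W := hW _ hc
  have hrs : List.ofFn (bR 4 : Fin (n + 1 + 1) → RR (n + 1 + 1)) =
      bR 4 0 :: bR 4 1 :: List.ofFn (fun i : Fin n => (bR 4 i.succ.succ : RR (n + 1 + 1))) := by
    rw [List.ofFn_succ, List.ofFn_succ]
    rfl
  rw [hrs] at W
  have hf : Finite (RR (n + 1 + 1) ⧸ maximalIdeal (RR (n + 1 + 1))) := finite_res _
  have hwJ : toR (n + 1 + 1) (h4 (xP hc) 0) ∈ bJ 4 (h4 (xP hc)) :=
    Ideal.mem_sup_right (Ideal.subset_span ⟨0, rfl⟩)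
  have hz : th (n + 1 + 1) (bR 4 0) = PowerSeries.C (PowerSeries.X ^ 2) := by
    unfold bR ba
    rw [th_toR, map_pow, thP_X]
    unfold thv bx
    simp
  have hq : th (n + 1 + 1) (bR 4 1) = PowerSeries.X ^ 2 := by
    unfold bR ba
    rw [th_toR, map_pow, thP_X]
    unfold thv bx
    simp
  have hwn : toR (n + 1 + 1) (h4 (xP hc) 0) ∉
      maximalIdeal (RR (n + 1 + 1)) * bJ 4 (h4 (xP hc)) ⊔ Ideal.ofList
        (bR 4 0 :: bR 4 1 :: List.ofFn (fun i : Fin n => (bR 4 i.succ.succ : RR (n + 1 + 1)))) := by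
    intro h
    have h1 : bJ 4 (h4 (xP hc)) ≤ maximalIdeal (RR (n + 1 + 1)) * bJ 4 (h4 (xP hc)) ⊔
        Ideal.ofList (bR 4 0 :: bR 4 1 ::
          List.ofFn (fun i : Fin n => (bR 4 i.succ.succ : RR (n + 1 + 1)))) := by
      have h2 : bJ 4 (h4 (xP hc)) = bL 4 (n + 1 + 1) ⊔
          Ideal.span {toR (n + 1 + 1) (h4 (xP hc) 0)} := by
        unfold bJ
        congr 2
        ext x
        constructor
        · rintro ⟨k, rfl⟩
          have : k = 0 := Subsingleton.elim _ _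
          subst this
          rfl
        · rintro rfl
          exact ⟨0, rfl⟩
      conv_lhs => rw [h2]
      refine sup_le ?_ ((Ideal.span_singleton_le_iff_mem _).mpr h)
      refine le_trans ?_ le_sup_right
      rw [← hrs]
      unfold bL
      rw [ofList_ofFn]
    have h2 : maximalIdeal (RR (n + 1 + 1)) * bJ 4 (h4 (xP hc)) ⊔
        Ideal.ofList (bR 4 0 :: bR 4 1 ::
          List.ofFn (fun i : Fin n => (bR 4 i.succ.succ : RR (n + 1 + 1)))) =
        bJ 4 (h4 (xP hc)) := le_antisymm (sup_le Ideal.mul_le_right W.lk.leJ) h1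
    have h3 := W.cJ
    rw [h2, pow_one] at h3
    have hf' : Finite (ResidueField (RR (n + 1 + 1))) := hf
    obtain ⟨f0, s0⟩ := (params (n + 1 + 1)).goodRing _ W.len W.reg
    have fJ : Finite (RR (n + 1 + 1) ⧸ bJ 4 (h4 (xP hc))) :=
      Finite.of_surjective _ (fac_surjective W.lk.leJ)
    have hJp : 0 < Nat.card (RR (n + 1 + 1) ⧸ bJ 4 (h4 (xP hc))) := Nat.card_pos
    have hq1 : 1 < Nat.card (RR (n + 1 + 1) ⧸ maximalIdeal (RR (n + 1 + 1))) := by
      have : Nontrivial (RR (n + 1 + 1) ⧸ maximalIdeal (RR (n + 1 + 1))) :=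
        Ideal.Quotient.nontrivial_iff.mpr (maximalIdeal.isMaximal _).ne_top
      exact Finite.one_lt_card
    nlinarith
  have hA0 : List.ofFn (fun i : Fin n => (bR 4 i.succ.succ : RR (n + 1 + 1))) ≠ [] := by
    intro h
    have := congrArg List.length h
    rw [List.length_ofFn, List.length_nil] at this
    omega
  obtain ⟨rs', I', J', W'⟩ := thm_Dp hD hTy hO hRs hRg hKF hE hD0 hMZ hT (RR (n + 1 + 1))
    (n + 1 + 1) 5 _ (bR 4 0) (bR 4 1) (toR (n + 1 + 1) (h4 (xP hc) 0))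
    (List.ofFn (fun i : Fin n => (bR 4 i.succ.succ : RR (n + 1 + 1)))) _ _
    (params (n + 1 + 1)) hf hA0 W hwJ hwn (ZMod 7) (th (n + 1 + 1)) (th_max _) hz hq (th_w4 hc)
    (by
      intro a ha
      rw [List.mem_ofFn] at ha
      obtain ⟨i, rfl⟩ := ha
      exact th_bR4 _ (by simp)) (th_I4 hc)
  exact ⟨RR (n + 1 + 1), inferInstance, rr_regular _, _, rs', I', J', params _, hf, W'⟩

end Main

end Pool.Agent.LCB
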