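import Mathlib
import Pool.Agent.LCB.St

/-!
# LCB, KF: two members of a regular sequence with a common factor modulo `𝔪 J`
-/

namespace Pool.Agent.LCB

open RingTheory.Sequence IsLocalRing

namespace KFx

open ExteriorAlgebra

variable {R : Type} [CommRing R] {n : ℕ}

/-- the exterior algebra -/
abbrev A (R : Type) [CommRing R] (n : ℕ) : Type := ExteriorAlgebra R (Fin n → R)

lemma kf_mul_left {I : Ideal R} (a : A R n) {b : A R n}
    (hb : b ∈ I • (⊤ : Submodule R (A R n))) : a * b ∈ I • (⊤ : Submodule R (A R n)) := by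
  refine Submodule.smul_induction_on hb ?_ ?_
  · intro r hr m _
    rw [mul_smul_comm]
    exact Submodule.smul_mem_smul hr trivial
  · intro x y hx hy
    rw [mul_add]
    exact add_mem hx hy

lemma kf_mul_right {I : Ideal R} {a : A R n} (b : A R n)
    (ha : a ∈ I • (⊤ : Submodule R (A R n))) : a * b ∈ I • (⊤ : Submodule R (A R n)) := by
  refine Submodule.smul_induction_on ha ?_ ?_
  · intro r hr m _
    rw [smul_mul_assoc]
    exact Submodule.smul_mem_smul hr trivial
  · intro x y hx hy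
    rw [add_mul]
    exact add_mem hx hy

lemma kf_mul {I J K : Ideal R} (hK : ∀ i ∈ I, ∀ j ∈ J, i * j ∈ K) {a b : A R n}
    (ha : a ∈ I • (⊤ : Submodule R (A R n))) (hb : b ∈ J • (⊤ : Submodule R (A R n))) :
    a * b ∈ K • (⊤ : Submodule R (A R n)) := by
  refine Submodule.smul_induction_on ha ?_ ?_
  · intro r hr m _
    rw [smul_mul_assoc]
    have h1 : m * b ∈ J • (⊤ : Submodule R (A R n)) := kf_mul_left m hb
    refine Submodule.smul_induction_on h1 ?_ ?_
    · intro s hs m' _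
      rw [smul_smul]
      exact Submodule.smul_mem_smul (hK r hr s hs) trivial
    · intro x y hx hy
      rw [smul_add]
      exact add_mem hx hy
  · intro x y hx hy
    rw [add_mul]
    exact add_mem hx hy

lemma kf_iota {I : Ideal R} {w : Fin n → R} (hw : ∀ i, w i ∈ I) :
    ι R w ∈ I • (⊤ : Submodule R (A R n)) := by
  rw [LinearMap.pi_apply_eq_sum_univ (ι R) w]
  exact Submodule.sum_mem _ fun i _ => Submodule.smul_mem_smul (hw i) trivial

lemma kf_zero : ∀ (l : List (Fin n → R)), ∀ r ∈ l, ι R r * (l.map (ι R)).prod = 0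
  | [], r, hr => by simp at hr
  | a :: l, r, hr => by
    rw [List.map_cons, List.prod_cons, ← mul_assoc]
    rcases List.mem_cons.1 hr with rfl | h
    · rw [ι_sq_zero, zero_mul]
    · have h1 : ι R r * ι R a = - (ι R a * ι R r) := eq_neg_of_add_eq_zero_left (ι_add_mul_swap r a)
      rw [h1, neg_mul, mul_assoc, kf_zero l r h, mul_zero, neg_zero]

lemma kf_span (f : (Fin n → R) →ₗ[R] R) (l : List (Fin n → R)) {P : A R n}
    (hP : ∀ r ∈ l, ι R r * P = 0) {x : R} (hx : x ∈ Ideal.ofList (l.map f)) :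
    ∃ w, f w = x ∧ ι R w * P = 0 := by
  unfold Ideal.ofList at hx
  refine Submodule.span_induction ?_ ?_ ?_ ?_ hx
  · rintro y hy
    obtain ⟨r, hr, rfl⟩ := List.mem_map.1 hy
    exact ⟨r, rfl, hP r hr⟩
  · exact ⟨0, map_zero _, by rw [map_zero, zero_mul]⟩
  · rintro y z - - ⟨w, hw, hw'⟩ ⟨w2, hw2, hw2'⟩
    exact ⟨w + w2, by rw [map_add, hw, hw2], by rw [map_add, add_mul, hw', hw2', add_zero]⟩
  · rintro a y - ⟨w, hw, hw'⟩
    exact ⟨a • w, by rw [map_smul, hw], by rw [map_smul, smul_mul_assoc, hw', smul_zero]⟩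

lemma kf_rows (f : (Fin n → R) →ₗ[R] R) (M : Ideal R) (hM : ∀ b ∈ M, ∃ w, f w = b) :
    ∀ L : List R, (∀ b ∈ L, b ∈ M) → ∃ l : List (Fin n → R), l.map f = L
  | [], _ => ⟨[], rfl⟩
  | a :: L, h => by
    obtain ⟨w, hw⟩ := hM a (h a (by simp))
    obtain ⟨l, hl⟩ := kf_rows f M hM L fun b hb => h b (List.mem_cons_of_mem _ hb)
    exact ⟨w :: l, by rw [List.map_cons, hw, hl]⟩

end KFx

open KFx ExteriorAlgebra

theorem thm_KF (h : St_W) : St_KF := by
  intro R _ _ _ J b1 b2 x h0 v1 v2 L hJ hb hx hreg hh h1 h2 hcon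
  obtain ⟨n, y, hy⟩ := Submodule.fg_iff_exists_fin_generating_family.1
    (IsNoetherian.noetherian (maximalIdeal R))
  set f : (Fin n → R) →ₗ[R] R := Fintype.linearCombination R y with hf
  have fap : ∀ w, f w = ∑ i, w i * y i := fun w => by
    rw [hf, Fintype.linearCombination_apply]
    rfl
  have hgen : ∀ (I : Ideal R), ∀ z ∈ maximalIdeal R * I, ∃ w : Fin n → R, (∀ i, w i ∈ I) ∧ f w = z := by
    intro I z hz
    have hz2 : z ∈ I • Submodule.span R (Set.range y) := by
      rw [hy, smul_eq_mul, mul_comm]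
      exact hz
    obtain ⟨a, ha, hs⟩ := (Submodule.mem_ideal_smul_span_iff_exists_sum I y z).1 hz2
    refine ⟨a, ha, ?_⟩
    rw [fap, ← hs, Finsupp.sum_fintype]
    · rfl
    · intro i
      exact zero_smul _ _
  have hgen1 : ∀ z ∈ maximalIdeal R, ∃ w : Fin n → R, f w = z := by
    intro z hz
    obtain ⟨w, -, hw⟩ := hgen ⊤ z (by rw [Ideal.mul_top]; exact hz)
    exact ⟨w, hw⟩
  have fmem : ∀ w, f w ∈ maximalIdeal R := by
    intro w
    rw [fap]
    refine Ideal.sum_mem _ fun i _ => Ideal.mul_mem_left _ _ ?_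
    have : y i ∈ Submodule.span R (Set.range y) := Submodule.subset_span ⟨i, rfl⟩
    rw [hy] at this
    exact this
  obtain ⟨e, he⟩ := hgen1 h0 hh
  obtain ⟨p1, hp1, hp1'⟩ := hgen J _ h1
  obtain ⟨p2, hp2, hp2'⟩ := hgen J _ h2
  obtain ⟨lL, hlL⟩ := kf_rows f (maximalIdeal R) hgen1 L
    fun b hbL => hJ (hb b (List.mem_cons_of_mem _ (List.mem_cons_of_mem _ hbL)))
  obtain ⟨x1, hx1, x2, hx2, hxx⟩ := Submodule.mem_sup.1 hcon
  obtain ⟨g, hg, hg'⟩ := hgen _ x1 hx1
  set r1 : Fin n → R := v1 • e + p1 with hr1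
  set r2 : Fin n → R := v2 • e + p2 with hr2
  have fr1 : f r1 = b1 := by
    rw [hr1, map_add, map_smul, he, hp1', smul_eq_mul]
    ring
  have fr2 : f r2 = b2 := by
    rw [hr2, map_add, map_smul, he, hp2', smul_eq_mul]
    ring
  have hmap : (r1 :: r2 :: lL).map f = b1 :: b2 :: L := by
    rw [List.map_cons, List.map_cons, fr1, fr2, hlL]
  set Q : A R n := ((r1 :: r2 :: lL).reverse.map (ι R)).prod with hQ
  have hQ0 : ∀ r ∈ r1 :: r2 :: lL, ι R r * Q = 0 := fun r hr =>
    kf_zero _ r (List.mem_reverse.2 hr)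
  rw [← hmap] at hx2
  obtain ⟨w, hw, hw'⟩ := kf_span f (r1 :: r2 :: lL) hQ0 hx2
  have fgw : f (g + w) = x := by rw [map_add, hg', hw, hxx]
  have hrows : ((r1 :: r2 :: lL) ++ [g + w]).map f = b1 :: b2 :: L ++ [x] := by
    rw [List.map_append, hmap, List.map_cons, fgw, List.map_nil]
  refine h R n f (maximalIdeal R) (Ideal.IsPrime.ne_top inferInstance) fmem
    ((r1 :: r2 :: lL) ++ [g + w]) (by rw [hrows]; exact hreg) (Submodule.mem_sup_right ?_)
  rw [hrows]
  have e1 : (((r1 :: r2 :: lL) ++ [g + w]).reverse.map (ι R)).prod = ι R g * Q := by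
    rw [List.reverse_append, List.reverse_cons, List.reverse_nil, List.nil_append, List.singleton_append,
      List.map_cons, List.prod_cons, ← hQ, map_add, add_mul, hw', add_zero]
  rw [e1]
  have e2 : Q = (lL.reverse.map (ι R)).prod * (ι R r2 * ι R r1) := by
    rw [hQ]
    simp only [List.reverse_cons, List.map_append, List.prod_append, List.map_cons, List.map_nil,
      List.prod_cons, List.prod_nil, mul_one, mul_assoc]
  have e3 : ι R r2 * ι R r1 = v2 • (ι R e * ι R p1) + v1 • (ι R p2 * ι R e) + ι R p2 * ι R p1 := by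
    rw [hr1, hr2, map_add, map_add, map_smul, map_smul, mul_add, add_mul, add_mul, smul_mul_smul_comm,
      ι_sq_zero, smul_zero, zero_add, smul_mul_assoc, mul_smul_comm]
    abel
  have hp1m := kf_iota hp1
  have hp2m := kf_iota hp2
  have hQJ : Q ∈ J • (⊤ : Submodule R (A R n)) := by
    rw [e2]
    refine kf_mul_left _ ?_
    rw [e3]
    refine add_mem (add_mem ?_ ?_) ?_
    · exact Submodule.smul_mem _ _ (kf_mul_left _ hp1m)
    · exact Submodule.smul_mem _ _ (kf_mul_right _ hp2m)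
    · exact kf_mul_left _ hp1m
  exact kf_mul (fun i hi j hj => mem_col.1 hi j hj) (kf_iota hg) hQJ

end Pool.Agent.LCB
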