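import Mathlib
import Pool.Agent.LCB.Com

/-!
One more generator; members of a regular sequence are minimal generators.
-/

namespace Pool.Agent.LCB

open Pool.Agent.Helper40.Licci RingTheory.Sequence IsLocalRing

theorem thm_One : St_One := by
  intro R _ _ K a ha hm
  have hKT : K ≤ K ⊔ Ideal.span {a} := le_sup_left
  let p : (R ⧸ K) →ₗ[R] (R ⧸ (K ⊔ Ideal.span {a})) := fac hKT
  have hp : Function.Surjective p := fac_surjective hKT
  have hlag := card_ker_mul_card_of_surjective p hp
  let m : (R ⧸ maximalIdeal R) →ₗ[R] (R ⧸ K) := mulQ a (by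
    intro x hx
    rw [mul_comm]; exact hm x hx)
  have hker : LinearMap.range m = LinearMap.ker p := by
    apply le_antisymm
    · rintro _ ⟨v, rfl⟩
      obtain ⟨x, rfl⟩ := Submodule.Quotient.mk_surjective _ v
      rw [LinearMap.mem_ker]
      change fac hKT (mulQ a _ (Submodule.Quotient.mk x)) = 0
      rw [mulQ_mk, fac_mk, Submodule.Quotient.mk_eq_zero]
      exact Ideal.mem_sup_right (Ideal.mul_mem_right _ _ (Ideal.mem_span_singleton_self a))
    · intro w hw
      obtain ⟨x, rfl⟩ := Submodule.Quotient.mk_surjective _ w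
      rw [LinearMap.mem_ker] at hw
      change fac hKT (Submodule.Quotient.mk x) = 0 at hw
      rw [fac_mk, Submodule.Quotient.mk_eq_zero] at hw
      obtain ⟨k, hk, w', hw', rfl⟩ := Submodule.mem_sup.mp hw
      obtain ⟨s, rfl⟩ := Ideal.mem_span_singleton'.mp hw'
      refine ⟨Submodule.Quotient.mk s, ?_⟩
      change mulQ a _ (Submodule.Quotient.mk s) = _
      rw [mulQ_mk, Submodule.Quotient.eq]
      have : a * s - (k + s * a) = - k := by ring
      rw [this]
      exact K.neg_mem hk
  have hinj : Function.Injective m := by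
    rw [← LinearMap.ker_eq_bot, LinearMap.ker_eq_bot']
    intro v hv
    obtain ⟨x, rfl⟩ := Submodule.Quotient.mk_surjective _ v
    change mulQ a _ (Submodule.Quotient.mk x) = 0 at hv
    rw [mulQ_mk, Submodule.Quotient.mk_eq_zero] at hv
    rw [Submodule.Quotient.mk_eq_zero]
    by_contra hx
    have hu : IsUnit x := by
      by_contra h
      exact hx ((mem_maximalIdeal x).mpr h)
    exact ha ((Ideal.mul_unit_mem_iff_mem K hu).mp hv)
  have hc : Nat.card (R ⧸ maximalIdeal R) = Nat.card (LinearMap.ker p) := by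
    rw [← hker]
    exact Nat.card_congr (LinearEquiv.ofInjective m hinj).toEquiv
  rw [← hlag, ← hc]

theorem thm_Rsm : St_Rsm := by
  intro R _ _ _ a L h ha
  obtain ⟨v, hv, w, hw, hvw⟩ := Submodule.mem_sup.mp ha
  obtain ⟨m, hm, s, hs, rfl⟩ := Ideal.mem_mul_span_singleton.mp hv
  have h1 : (1 - m) * a ∈ Ideal.ofList L := by
    have : (1 - m) * a = w := by linear_combination (-1) * hvw
    rw [this]; exact hw
  have hu : IsUnit (1 - m) := by
    by_contra hn
    have h2 : (1 - m) ∈ maximalIdeal R := (mem_maximalIdeal _).mpr hn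
    have h3 : (1 - m) + m ∈ maximalIdeal R := Ideal.add_mem _ h2 hm
    rw [sub_add_cancel] at h3
    exact (Ideal.ne_top_iff_one _).mp (maximalIdeal.isMaximal R).ne_top h3
  have h2 : a * 1 ∈ Ideal.ofList L := by
    rw [mul_one]; exact (Ideal.unit_mul_mem_iff_mem _ hu).mp h1
  have h3 := nzd h 1 h2
  have h4 : Ideal.ofList L ≤ maximalIdeal R :=
    ofList_le (fun b hb => mem_max_of_isRegular _ h b (List.mem_cons_of_mem _ hb))
  exact (Ideal.ne_top_iff_one _).mp (maximalIdeal.isMaximal R).ne_top (h4 h3)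

end Pool.Agent.LCB
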