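import Pool.Agent.LCB.St

/-!
Module Rg1: replacing a member of a regular sequence.
-/

namespace Pool.Agent.LCB

open Pool.Agent.Helper40.Licci RingTheory.Sequence IsLocalRing

theorem Rg1_mem {R : Type} [CommRing R] [IsLocalRing R] {rs : List R} (h : IsRegular R rs) :
    ∀ r ∈ rs, r ∈ maximalIdeal R := by
  obtain ⟨h3, h4⟩ := h
  intro x (hx : x ∈ {r | r ∈ rs})
  refine IsLocalRing.le_maximalIdeal ?_ (Ideal.subset_span hx)
  exact h4 ∘ Eq.trans (Submodule.top_smul _).symm ∘ Eq.symm ∘ congrArg (· • ⊤)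

theorem thm_Rg1 : St_Rg1 := by
  intro R _ _ _ a x s k L h hx hm
  have hmem := Rg1_mem h
  have hperm : List.Perm (a :: L) (L ++ [a]) := (List.perm_append_singleton a L).symm
  have h1 : IsRegular R (L ++ [a]) := IsLocalRing.isRegular_of_perm h hperm
  have h2 := (isWeaklyRegular_append_iff R L [a]).1 h1.toIsWeaklyRegular
  obtain ⟨hL, hA⟩ := h2
  rw [isWeaklyRegular_singleton_iff] at hA
  have hP := hA.pow k
  have hX : IsSMulRegular (R ⧸ (Ideal.ofList L • ⊤ : Submodule R R)) (s * x) := by
    have heq : ∀ z : R ⧸ (Ideal.ofList L • ⊤ : Submodule R R), (s * x) • z = (a ^ k) • z := by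
      intro z
      obtain ⟨y, rfl⟩ := Submodule.Quotient.mk_surjective _ z
      rw [← Submodule.Quotient.mk_smul, ← Submodule.Quotient.mk_smul, Submodule.Quotient.eq,
        ← sub_smul]
      refine Submodule.smul_mem_smul ?_ Submodule.mem_top
      rw [mul_comm s x]
      exact hm
    intro z z' hz
    have hz' : (s * x) • z = (s * x) • z' := hz
    rw [heq, heq] at hz'
    exact hP hz'
  have hx' := hX.of_mul
  have h3 : IsWeaklyRegular R (L ++ [x]) :=
    (isWeaklyRegular_append_iff R L [x]).2 ⟨hL, (isWeaklyRegular_singleton_iff _ _).2 hx'⟩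
  have h4 : ∀ r ∈ L ++ [x], r ∈ maximalIdeal R := by
    intro r hr
    rw [List.mem_append, List.mem_singleton] at hr
    rcases hr with hr | rfl
    · exact hmem r (List.mem_cons_of_mem _ hr)
    · exact hx
  have h5 : IsRegular R (L ++ [x]) := IsRegular.of_isWeaklyRegular_of_mem_maximalIdeal R h4 h3
  exact IsLocalRing.isRegular_of_perm h5 (List.perm_append_singleton x L)

end Pool.Agent.LCB
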