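import Pool.Agent.LCB.St

/-!
The number of homomorphisms from an ideal to its quotient is a linkage invariant.
-/

namespace Pool.Agent.LCB

open Pool.Agent.Helper40.Licci RingTheory.Sequence IsLocalRing

theorem thm_Tau : St_Tau := by
  intro R _ _ c ys rs I J hP hfin hlen hreg hlk hne hEq
  apply hne
  have : Finite (ResidueField R) := hfin
  obtain ⟨hfR, hsoc⟩ := hP.goodRing rs hlen hreg
  have hα := coeffMem_of_isRegular rs hreg
  have hspan := ofList_eq_span_range rs
  have hJ2 := hlk.hJ
  have hI2 := hlk.hI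
  have hleI : Ideal.ofList rs ≤ I := by
    intro x hx
    rw [hI2]
    intro y _
    exact Ideal.mul_mem_right _ _ hx
  have hleJ : Ideal.ofList rs ≤ J := by
    intro x hx
    rw [hJ2]
    intro y _
    exact Ideal.mul_mem_right _ _ hx
  have hfRI : Finite (R ⧸ I) := Finite.of_surjective _ (fac_surjective hleI)
  have hfRJ : Finite (R ⧸ J) := Finite.of_surjective _ (fac_surjective hleJ)
  have hfI : Finite (I →ₗ[R] (R ⧸ I)) := finite_hom_of_fg
  have hfJ : Finite (J →ₗ[R] (R ⧸ J)) := finite_hom_of_fg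
  rw [hspan] at hfR hsoc hJ2 hI2 hleI hleJ
  have key := card_hom_link I J hleI hleJ hJ2 hI2 hα hsoc hfI hfJ
  rw [hlen, hEq] at key
  have hpos : 0 < Nat.card (R ⧸ J) ^ c := Nat.pow_pos Nat.card_pos
  apply Nat.eq_of_mul_eq_mul_right hpos
  rw [key]
  ring

end Pool.Agent.LCB
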