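import Pool.Agent.LCB.St

/-!
# LCB, Type: the socle of `R/J` counts the generators of `I` modulo the complete intersection
-/

namespace Pool.Agent.LCB

open Pool.Agent.Helper40.Licci RingTheory.Sequence IsLocalRing

/-- the kernel of the map from `R/J` to `R/J'` is the socle if `J' = J : m` -/
theorem Type_card {R : Type} [CommRing R] [IsLocalRing R] (J J' : Ideal R) (hle : J ≤ J')
    (h : ∀ x, x ∈ J' ↔ ∀ r ∈ maximalIdeal R, r * x ∈ J) :
    Nat.card (R ⧸ J) = Nat.card (soc R (R ⧸ J)) * Nat.card (R ⧸ J') := by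
  have h1 : soc R (R ⧸ J) = LinearMap.ker (Submodule.factor hle : (R ⧸ J) →ₗ[R] (R ⧸ J')) := by
    ext s
    obtain ⟨x, rfl⟩ := Submodule.Quotient.mk_surjective J s
    rw [LinearMap.mem_ker]
    have h2 : (Submodule.factor hle) (Submodule.Quotient.mk x) =
      (Submodule.Quotient.mk x : R ⧸ J') := rfl
    rw [h2, Submodule.Quotient.mk_eq_zero, h, Submodule.mem_torsionBySet_iff]
    constructor
    · intro h3 r hr
      have h4 := h3 ⟨r, hr⟩
      rw [← Submodule.Quotient.mk_smul, Submodule.Quotient.mk_eq_zero] at h4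
      exact h4
    · rintro h3 ⟨r, hr⟩
      rw [← Submodule.Quotient.mk_smul, Submodule.Quotient.mk_eq_zero]
      exact h3 r hr
  have hs : Function.Surjective (Submodule.factor hle : (R ⧸ J) →ₗ[R] (R ⧸ J')) :=
    Submodule.factor_surjective hle
  rw [h1, Submodule.card_eq_card_quotient_mul_card
    (LinearMap.ker (Submodule.factor hle : (R ⧸ J) →ₗ[R] (R ⧸ J')))]
  congr 1
  exact Nat.card_congr (LinearMap.quotKerEquivOfSurjective _ hs).toEquiv

theorem thm_Type (hD : St_Dual) : St_Type := by
  intro R _ _ rs I J hL hfin hsoc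
  set K0 : Ideal R := Ideal.ofList rs with hK0
  have hK0I : K0 ≤ I := fun x hx => (hL.hI x).2 fun y _ => Ideal.mul_mem_right _ _ hx
  have hJ : J = col K0 I := by
    ext x
    rw [mem_col]
    exact hL.hJ x
  set K1 : Ideal R := maximalIdeal R * I ⊔ K0 with hK1
  have hK01 : K0 ≤ K1 := le_sup_right
  obtain ⟨h1, -⟩ := hD R K0 I hK0I hfin hsoc
  obtain ⟨h2, -⟩ := hD R K0 K1 hK01 hfin hsoc
  rw [← hJ] at h1
  have hle : J ≤ col K0 K1 := by
    intro x hx
    rw [mem_col]
    intro y hy
    have hy2 : y ∈ I := by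
      have : K1 ≤ I := sup_le Ideal.mul_le_right hK0I
      exact this hy
    exact (hL.hJ x).1 hx y hy2
  have hcol : ∀ x, x ∈ col K0 K1 ↔ ∀ r ∈ maximalIdeal R, r * x ∈ J := by
    intro x
    rw [mem_col]
    constructor
    · intro h r hr
      rw [hL.hJ]
      intro y hy
      have := h (r * y) (Ideal.mem_sup_left (Ideal.mul_mem_mul hr hy))
      have e : r * x * y = x * (r * y) := by ring
      rw [e]
      exact this
    · intro h y hy
      obtain ⟨a, ha, b, hb, rfl⟩ := Submodule.mem_sup.1 hy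
      rw [mul_add]
      refine K0.add_mem ?_ (Ideal.mul_mem_left _ _ hb)
      refine Submodule.mul_induction_on ha ?_ ?_
      · intro r hr z hz
        have := (hL.hJ _).1 (h r hr) z hz
        have e : x * (r * z) = r * x * z := by ring
        rw [e]
        exact this
      · intro u v hu hv
        rw [mul_add]
        exact K0.add_mem hu hv
  have h3 := Type_card J (col K0 K1) hle hcol
  have hK0c : K0 ≤ col K0 K1 := by
    intro x hx
    rw [mem_col]
    intro y _
    exact Ideal.mul_mem_right _ _ hx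
  have hfin2 : Finite (R ⧸ col K0 K1) := by
    have := hfin
    exact Finite.of_surjective _ (Ideal.Quotient.factor_surjective hK0c)
  have hpos : 0 < Nat.card (R ⧸ col K0 K1) := Nat.card_pos
  have h4 : Nat.card (R ⧸ K1) * Nat.card (R ⧸ col K0 K1) =
      (Nat.card (soc R (R ⧸ J)) * Nat.card (R ⧸ I)) * Nat.card (R ⧸ col K0 K1) := by
    rw [h2, ← h1, h3]
    ring
  exact Nat.eq_of_mul_eq_mul_right hpos h4

end Pool.Agent.LCB
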