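import Pool.Agent.LCB.St

/-!
The Koszul lemma.
-/

set_option autoImplicit false

namespace Pool.Agent.LCB

open Pool.Agent.Helper40.Licci RingTheory.Sequence IsLocalRing

theorem Wieb_prefix {R M : Type} [CommRing R] [AddCommGroup M] [Module R M] {L : List R} {a : R}
    (h : IsWeaklyRegular M (L ++ [a])) : IsWeaklyRegular M L := by
  refine ⟨fun i hi => ?_⟩
  have hi' : i < (L ++ [a]).length := by
    rw [List.length_append]
    omega
  have h1 := h.regular_mod_prev i hi'
  rw [List.take_append_of_le_length hi.le, List.getElem_append_left hi] at h1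
  exact h1

theorem Wieb_last {R M : Type} [CommRing R] [AddCommGroup M] [Module R M] {L : List R} {a : R}
    (h : IsWeaklyRegular M (L ++ [a])) (x : M)
    (hx : a • x ∈ (Ideal.ofList L • ⊤ : Submodule R M)) :
    x ∈ (Ideal.ofList L • ⊤ : Submodule R M) := by
  have hi' : L.length < (L ++ [a]).length := by
    rw [List.length_append]
    simp
  have h1 := h.regular_mod_prev L.length hi'
  rw [List.take_left, List.getElem_append_right le_rfl] at h1
  simp only [Nat.sub_self, List.getElem_cons_zero] at h1
  exact (isSMulRegular_quotient_iff_mem_of_smul_mem _ _).1 h1 x hx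

section

variable {R : Type} [CommRing R] {n : ℕ} (f : (Fin n → R) →ₗ[R] R)

/-- The contraction. -/
noncomputable abbrev WiebD :
    ExteriorAlgebra R (Fin n → R) →ₗ[R] ExteriorAlgebra R (Fin n → R) :=
  CliffordAlgebra.contractLeft (Q := (0 : QuadraticForm R (Fin n → R))) f

theorem Wieb_D (r : Fin n → R) (w : ExteriorAlgebra R (Fin n → R)) :
    WiebD f (ExteriorAlgebra.ι R r * w) = f r • w - ExteriorAlgebra.ι R r * WiebD f w :=
  CliffordAlgebra.contractLeft_ι_mul (Q := (0 : QuadraticForm R (Fin n → R))) f r w

theorem Wieb_DD (w : ExteriorAlgebra R (Fin n → R)) : WiebD f (WiebD f w) = 0 :=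
  CliffordAlgebra.contractLeft_contractLeft (Q := (0 : QuadraticForm R (Fin n → R))) f w

theorem Wieb_inv (M : Ideal R) (hM : ∀ v, f v ∈ M) (w : ExteriorAlgebra R (Fin n → R)) :
    ExteriorAlgebra.algebraMapInv (WiebD f w) ∈ M := by
  induction w using CliffordAlgebra.left_induction with
  | algebraMap r =>
    have : WiebD f (algebraMap R _ r) = 0 :=
      CliffordAlgebra.contractLeft_algebraMap (Q := (0 : QuadraticForm R (Fin n → R))) f r
    rw [this, map_zero]
    exact M.zero_mem
  | add x y hx hy =>
    rw [map_add, map_add]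
    exact M.add_mem hx hy
  | ι_mul x m hx =>
    have h1 := Wieb_D f m x
    have h2 : ExteriorAlgebra.algebraMapInv (ExteriorAlgebra.ι R m) = (0 : R) := by
      simp [ExteriorAlgebra.algebraMapInv]
    change ExteriorAlgebra.algebraMapInv (WiebD f (ExteriorAlgebra.ι R m * x)) ∈ M
    rw [h1, map_sub, map_smul, map_mul, h2, zero_mul, sub_zero, smul_eq_mul]
    exact M.mul_mem_right _ (hM m)

/-- Left multiplication by an element preserves `I E`. -/
theorem Wieb_mul {I : Ideal R} (a : ExteriorAlgebra R (Fin n → R))
    {w : ExteriorAlgebra R (Fin n → R)}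
    (hw : w ∈ (I • ⊤ : Submodule R (ExteriorAlgebra R (Fin n → R)))) :
    a * w ∈ (I • ⊤ : Submodule R (ExteriorAlgebra R (Fin n → R))) := by
  have h1 : (I • ⊤ : Submodule R (ExteriorAlgebra R (Fin n → R))).map
      (LinearMap.mulLeft R a) ≤ I • ⊤ := by
    rw [Submodule.map_smul'']
    exact Submodule.smul_mono le_rfl le_top
  exact h1 ⟨w, hw, rfl⟩

theorem Wieb_map {I : Ideal R} {w : ExteriorAlgebra R (Fin n → R)}
    (hw : w ∈ (I • ⊤ : Submodule R (ExteriorAlgebra R (Fin n → R)))) :
    WiebD f w ∈ (I • ⊤ : Submodule R (ExteriorAlgebra R (Fin n → R))) := by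
  have h1 : (I • ⊤ : Submodule R (ExteriorAlgebra R (Fin n → R))).map (WiebD f) ≤ I • ⊤ := by
    rw [Submodule.map_smul'']
    exact Submodule.smul_mono le_rfl le_top
  exact h1 ⟨w, hw, rfl⟩

theorem Wieb_P (rows : List (Fin n → R)) :
    WiebD f (rows.reverse.map (ExteriorAlgebra.ι R)).prod ∈
      (Ideal.ofList (rows.map f) • ⊤ : Submodule R (ExteriorAlgebra R (Fin n → R))) := by
  induction rows using List.reverseRecOn with
  | nil =>
    have : WiebD f (1 : ExteriorAlgebra R (Fin n → R)) = 0 :=
      CliffordAlgebra.contractLeft_one (Q := (0 : QuadraticForm R (Fin n → R))) f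
    simp only [List.reverse_nil, List.map_nil, List.prod_nil]
    rw [this]
    exact Submodule.zero_mem _
  | append_singleton rows r ih =>
    rw [List.reverse_append, List.reverse_singleton, List.singleton_append, List.map_cons,
      List.prod_cons, Wieb_D, List.map_append, List.map_singleton, Ideal.ofList_append,
      Ideal.ofList_singleton]
    refine Submodule.sub_mem _ ?_ ?_
    · exact Submodule.smul_mem_smul (Ideal.mem_sup_right (Ideal.mem_span_singleton_self _))
        trivial
    · exact Submodule.smul_mono_left le_sup_left (Wieb_mul _ ih)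

end

theorem thm_W : St_W := by
  intro R _ n f M hM hf rows
  have hfree : Module.Free R (ExteriorAlgebra R (Fin n → R)) :=
    Module.Free.of_basis (Module.Basis.ExteriorAlgebra (Pi.basisFun R (Fin n)))
  induction rows using List.reverseRecOn with
  | nil =>
    intro _ h
    simp only [List.reverse_nil, List.map_nil, List.prod_nil, Ideal.ofList_nil,
      Submodule.bot_smul, sup_bot_eq, LinearMap.mem_range] at h
    obtain ⟨u, hu⟩ := h
    have h1 := Wieb_inv f M hf u
    change CliffordAlgebra.contractLeft (Q := (0 : QuadraticForm R (Fin n → R))) f u = 1 at hu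
    rw [show WiebD f u = 1 from hu, map_one] at h1
    exact hM ((Ideal.eq_top_iff_one M).2 h1)
  | append_singleton rows r ih =>
    intro hreg h
    rw [List.map_append, List.map_singleton] at hreg h
    have hE : IsWeaklyRegular (ExteriorAlgebra R (Fin n → R)) (rows.map f ++ [f r]) :=
      ((TensorProduct.rid R (ExteriorAlgebra R (Fin n → R))).isWeaklyRegular_congr _).mp
        (hreg.isWeaklyRegular_lTensor (M₂ := ExteriorAlgebra R (Fin n → R)))
    rw [List.reverse_append, List.reverse_singleton, List.singleton_append, List.map_cons,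
      List.prod_cons, Ideal.ofList_append, Ideal.ofList_singleton, Submodule.sup_smul,
      Submodule.ideal_span_singleton_smul] at h
    obtain ⟨_, ⟨u, rfl⟩, w, hw, h1⟩ := Submodule.mem_sup.1 h
    obtain ⟨w', hw', y, hy, h2⟩ := Submodule.mem_sup.1 hw
    obtain ⟨v, _, rfl⟩ := (Submodule.mem_smul_pointwise_iff_exists _ _ _).1 hy
    refine ih (Wieb_prefix hreg) ?_
    set P := (rows.reverse.map (ExteriorAlgebra.ι R)).prod with hP
    have h3 : WiebD f (ExteriorAlgebra.ι R r * P) = WiebD f w' + f r • WiebD f v := by
      rw [← h1, ← h2, map_add, map_add, map_smul]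
      rw [show WiebD f ((CliffordAlgebra.contractLeft
        (Q := (0 : QuadraticForm R (Fin n → R))) f) u) = 0 from Wieb_DD f u, zero_add]
    rw [Wieb_D] at h3
    have h4 : f r • (P - WiebD f v) =
        WiebD f w' + ExteriorAlgebra.ι R r * WiebD f P := by
      rw [smul_sub, sub_eq_iff_eq_add.1 h3]
      abel
    have h5 : P - WiebD f v ∈ (Ideal.ofList (rows.map f) • ⊤ :
        Submodule R (ExteriorAlgebra R (Fin n → R))) := by
      refine Wieb_last hE _ ?_
      rw [h4]
      exact Submodule.add_mem _ (Wieb_map f hw') (Wieb_mul _ (Wieb_P f rows))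
    have h6 : P = WiebD f v + (P - WiebD f v) := by abel
    rw [h6]
    exact Submodule.add_mem_sup ⟨v, rfl⟩ h5

end Pool.Agent.LCB
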