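import Mathlib
import Pool.Agent.LCB.C
import Pool.Agent.LCB.B
import Pool.Agent.LCB.F641
import Pool.Agent.LCB.Fin
import Pool.Agent.LCB.Ex
import Pool.Agent.LCB.D0
import Pool.Agent.LCB.One
import Pool.Agent.LCB.Dual
import Pool.Agent.LCB.Type
import Pool.Agent.LCB.Rg1
import Pool.Agent.LCB.Wieb
import Pool.Agent.LCB.KF
import Pool.Agent.LCB.Tau
import Pool.Agent.LCB.Adm
import Pool.Agent.LCB.BFin
import Pool.Agent.LCB.BG1
import Pool.Agent.LCB.BG2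
import Pool.Agent.LCB.BG3
import Pool.Agent.LCB.BG4
import Pool.Agent.LCB.BG5
import Pool.Agent.LCB.BG6
import Pool.Agent.LCB.BG7
import Pool.Agent.LCB.BT1
import Pool.Agent.LCB.BT3
import Pool.Agent.LCB.BT4
import Pool.Agent.LCB.B5R
import Pool.Agent.LCB.B5S
import Pool.Agent.LCB.B5A
import Pool.Agent.LCB.B5K
import Pool.Agent.LCB.B5C
import Pool.Agent.LCB.B5W
import Pool.Agent.LCB.B5T
import Pool.Agent.LCB.B5Q
import Pool.Agent.LCB.B6A
import Pool.Agent.LCB.B6S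
import Pool.Agent.LCB.B6C
import Pool.Agent.LCB.B6M
import Pool.Agent.LCB.B6T
import Pool.Agent.LCB.B6Q
import Pool.Agent.LCB.B8A
import Pool.Agent.LCB.B8T
import Pool.Agent.LCB.B8Q
import Pool.Agent.LCB.FourD

/-!
Assembly of all modules: perfect ideals which are not licci.
-/

namespace Pool.Agent.LCB

open Pool.Agent.Helper40.Licci RingTheory.Sequence IsLocalRing

theorem all_KF : St_KF := thm_KF thm_W

theorem all_Type : St_Type := thm_Type thm_Dual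

theorem all_C : St_C :=
  thm_C thm_Dual all_Type thm_One thm_Rsm thm_Rg1 all_KF thm_D0 thm_MZ thm_Tau

theorem all_B : St_B :=
  thm_B thm_Dual all_Type thm_One thm_Rsm thm_Rg1 all_KF thm_Ex thm_D0 thm_MZ thm_Tau

theorem all_W631 : ∀ (c : ℕ) (hc : 6 ≤ c), Wit (RR c) c 3 1 (List.ofFn (bR 6 : Fin c → RR c))
    (bJ 6 (g6 (xP hc))) (bJ 6 (h6 (xP hc))) := by
  intro c hc
  obtain ⟨q1, q2, q3, q4⟩ := B6Q c hc
  exact BG7 BG1 BG4 BG5 BG6 thm_Dual BG2 6 c 3 1 _ _ hc (by omega) q1 q2 q3 q4 (B6A c hc)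
    (B6T BG1 BG2 BG3 BT3 BT4 B6A B6S B6C B6M c hc)

theorem all_641 : St_641 :=
  thm_641 thm_Dual all_Type thm_One thm_Rsm thm_Rg1 all_KF thm_Ex thm_D0 thm_MZ thm_Tau all_W631

/-- The main theorem without the codimension `5` case where `d` or `t` is `1`. -/
theorem all_main (c d t : ℕ) (hd : 1 ≤ d) (ht : 1 ≤ t)
    (hT : (1 : ℚ) / ((c : ℚ) - 1) + 1 / ((d : ℚ) + 1) + 1 / ((t : ℚ) + 1) ≤ 1)
    (h : (6 ≤ c ∧ (c, d, t) ≠ (7, 2, 1) ∧ (c, d, t) ≠ (7, 1, 2)) ∨ (c = 5 ∧ 2 ≤ d ∧ 2 ≤ t)) :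
    AdmitsNonLicci c d t := by
  have b := BFin thm_Dual BG1 BG2 BG3 BG4 BG5 BG6 BG7 BT1 BT3 BT4 B5R B5S B5A B5K B5C B5W B5T B5Q
    B6A B6S B6C B6M B6T B6Q B8A B8T B8Q
  exact fin_main thm_Tau (thm_Adm all_Type thm_One) all_C all_B b.1 b.2.1 all_641 b.2.2
    c d t hd ht hT h

theorem all_451 (c : ℕ) (hc : 4 ≤ c) : Y c 5 1 :=
  ⟨RR c, inferInstance, rr_regular c, _, _, _, _, params c, finite_res c,
    Four_W thm_Dual BG1 BG2 BG3 BG4 BG5 BG6 BG7 BT3 BT4 c hc⟩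

theorem all_461 (c : ℕ) (hc : 4 ≤ c) : Y c 6 1 :=
  Four_461 thm_Dual all_Type thm_One thm_Rsm thm_Rg1 all_KF thm_Ex thm_D0 thm_MZ thm_Tau
    (Four_W thm_Dual BG1 BG2 BG3 BG4 BG5 BG6 BG7 BT3 BT4) c hc

/-- All triplets of codimension at least `5` except six. -/
theorem all_five (c d t : ℕ) (hc : 5 ≤ c) (hd : 1 ≤ d) (ht : 1 ≤ t)
    (hT : (1 : ℚ) / ((c : ℚ) - 1) + 1 / ((d : ℚ) + 1) + 1 / ((t : ℚ) + 1) ≤ 1)
    (h : (c, d, t) ∉ ({(5, 3, 1), (5, 1, 3), (5, 4, 1), (5, 1, 4), (7, 2, 1), (7, 1, 2)} :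
      Set (ℕ × ℕ × ℕ))) : AdmitsNonLicci c d t := by
  simp only [Set.mem_insert_iff, Set.mem_singleton_iff, not_or] at h
  obtain ⟨n1, n2, n3, n4, n5, n6⟩ := h
  by_cases h6 : 6 ≤ c
  · exact all_main c d t hd ht hT (Or.inl ⟨h6, n5, n6⟩)
  have hc5 : c = 5 := by omega
  subst hc5
  by_cases h2 : 2 ≤ d ∧ 2 ≤ t
  · exact all_main 5 d t hd ht hT (Or.inr ⟨rfl, h2.1, h2.2⟩)
  have key : ∀ e : ℕ, 1 ≤ e → (1 : ℚ) / (((5 : ℕ) : ℚ) - 1) + 1 / ((e : ℚ) + 1) + 1 / 2 ≤ 1 →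
      3 ≤ e := by
    intro e he h1
    by_contra hcon
    have he2 : e = 1 ∨ e = 2 := by omega
    rcases he2 with rfl | rfl <;> norm_num at h1
  have fin : ∀ e : ℕ, 5 ≤ e → Y 5 e 1 := fun e he =>
    fin_one all_B (by norm_num) (all_451 5 (by norm_num)) (all_461 5 (by norm_num)) e he
  have hA := thm_Adm all_Type thm_One
  by_cases ht1 : t = 1
  · subst ht1
    have h3 : 3 ≤ d := by
      apply key d hd
      have : (1 : ℚ) / (((1 : ℕ) : ℚ) + 1) = 1 / 2 := by norm_num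
      rw [this] at hT
      exact hT
    have h5 : 5 ≤ d := by
      have e3 : d ≠ 3 := fun h => n1 (by rw [h])
      have e4 : d ≠ 4 := fun h => n3 (by rw [h])
      omega
    exact fin_adm hA (by norm_num) (fin d h5)
  · have hd1 : d = 1 := by omega
    subst hd1
    have h3 : 3 ≤ t := by
      apply key t ht
      have : (1 : ℚ) / (((1 : ℕ) : ℚ) + 1) = 1 / 2 := by norm_num
      rw [this] at hT
      linarith
    have h5 : 5 ≤ t := by
      have e3 : t ≠ 3 := fun h => n2 (by rw [h])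
      have e4 : t ≠ 4 := fun h => n4 (by rw [h])
      omega
    exact fin_adm hA (by norm_num) (fin_symm thm_Tau (fin t h5))

end Pool.Agent.LCB
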