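import Mathlib
import Pool.Agent.LCB.BSt

/-!
Module B6S: the monomials of degree 4 and 5 modulo the ideal of the example of type `(6, 3, 1)`.
-/

namespace Pool.Agent.LCB

open Pool.Agent.Helper40.Licci RingTheory.Sequence IsLocalRing MvPolynomial

section ring

variable {B : Type*} [CommRing B]

private lemma B6S_tri (h7 : (7 : B) = 0) (w a b c d : B) (ha : a ^ 2 = 0) (hb : b ^ 2 = 0)
    (hc : c ^ 2 = 0) (hd : d ^ 2 = 0) (hl : w * (a + b + c + d) = 0) :
    w * a * b * c = 0 ∧ w * a * b * d = 0 ∧ w * a * c * d = 0 ∧ w * b * c * d = 0 := by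
  have e1 : w * a * b * c + w * b * c * d = 0 := by
    linear_combination b * c * hl - w * c * hb - w * b * hc
  have e2 : w * a * b * c + w * a * c * d = 0 := by
    linear_combination a * c * hl - w * c * ha - w * a * hc
  have e3 : w * a * c * d + w * b * c * d = 0 := by
    linear_combination c * d * hl - w * d * hc - w * c * hd
  have e4 : w * a * b * c + w * a * b * d = 0 := by
    linear_combination a * b * hl - w * b * ha - w * a * hb
  have e0 : w * a * b * c = 0 := by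
    linear_combination 4 * e1 + 4 * e2 - 4 * e3 - (w * a * b * c) * h7
  refine ⟨e0, ?_, ?_, ?_⟩
  · linear_combination e4 - e0
  · linear_combination e2 - e0
  · linear_combination e1 - e0

private lemma B6S_set : Finset.powersetCard 4 (Finset.univ : Finset (Fin 6)) =
    {{0, 1, 2, 3}, {0, 1, 2, 4}, {0, 1, 2, 5}, {0, 1, 3, 4}, {0, 1, 3, 5}, {0, 1, 4, 5},
      {0, 2, 3, 4}, {0, 2, 3, 5}, {0, 2, 4, 5}, {0, 3, 4, 5},
      {1, 2, 3, 4}, {1, 2, 3, 5}, {1, 2, 4, 5}, {1, 3, 4, 5}, {2, 3, 4, 5}} := by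
  decide

private lemma B6S_four (h7 : (7 : B) = 0) (z : Fin 6 → B) (hs : ∀ i, z i ^ 2 = 0)
    (h1 : z 0 * z 1 + ((z 2 * z 3 + z 4 * z 5) + 2 * (z 2 * z 4 + z 3 * z 5) +
      4 * (z 2 * z 5 + z 3 * z 4)) = 0)
    (h2 : z 0 * (z 2 + z 3 + z 4 + z 5) = 0) (h3 : z 1 * (z 2 + z 3 + z 4 + z 5) = 0) :
    (∀ S ∈ Finset.powersetCard 4 (Finset.univ : Finset (Fin 6)),
      ∃ l : ℤ, ∏ k ∈ S, z k = (l : B) * (z 2 * z 3 * z 4 * z 5)) ∧
    z 0 * z 2 * z 3 * z 4 = 0 ∧ z 1 * z 2 * z 3 * z 4 = 0 := by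
  obtain ⟨p1, p2, p3, p4⟩ := B6S_tri h7 (z 0) (z 2) (z 3) (z 4) (z 5) (hs 2) (hs 3) (hs 4) (hs 5) h2
  obtain ⟨q1, q2, q3, q4⟩ := B6S_tri h7 (z 1) (z 2) (z 3) (z 4) (z 5) (hs 2) (hs 3) (hs 4) (hs 5) h3
  have ha := hs 2
  have hb := hs 3
  have hc := hs 4
  have hd := hs 5
  refine ⟨?_, p1, q1⟩
  rw [B6S_set]
  intro S hS
  simp only [Finset.mem_insert, Finset.mem_singleton] at hS
  rcases hS with rfl | rfl | rfl | rfl | rfl | rfl | rfl | rfl | rfl | rfl | rfl | rfl | rfl |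
    rfl | rfl <;>
  rw [Finset.prod_insert (by decide), Finset.prod_insert (by decide),
    Finset.prod_insert (by decide), Finset.prod_singleton]
  · refine ⟨-1, ?_⟩
    push_cast
    linear_combination z 2 * z 3 * h1 - (2 * z 3 * z 4 + 4 * z 3 * z 5 + z 3 ^ 2) * ha -
      (2 * z 2 * z 5 + 4 * z 2 * z 4) * hb
  · refine ⟨-2, ?_⟩
    push_cast
    linear_combination z 2 * z 4 * h1 - (z 3 * z 4 + 2 * z 4 ^ 2 + 4 * z 4 * z 5) * ha -
      (z 2 * z 5 + 4 * z 2 * z 3) * hc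
  · refine ⟨-4, ?_⟩
    push_cast
    linear_combination z 2 * z 5 * h1 - (z 3 * z 5 + 2 * z 4 * z 5 + 4 * z 5 ^ 2) * ha -
      (z 2 * z 4 + 2 * z 2 * z 3) * hd
  · refine ⟨-4, ?_⟩
    push_cast
    linear_combination z 3 * z 4 * h1 - (z 2 * z 4 + 2 * z 4 * z 5 + 4 * z 4 ^ 2) * hb -
      (z 3 * z 5 + 2 * z 2 * z 3) * hc
  · refine ⟨-2, ?_⟩
    push_cast
    linear_combination z 3 * z 5 * h1 - (z 2 * z 5 + 2 * z 5 ^ 2 + 4 * z 4 * z 5) * hb -
      (z 3 * z 4 + 4 * z 2 * z 3) * hd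
  · refine ⟨-1, ?_⟩
    push_cast
    linear_combination z 4 * z 5 * h1 - (z 5 ^ 2 + 2 * z 2 * z 5 + 4 * z 3 * z 5) * hc -
      (2 * z 3 * z 4 + 4 * z 2 * z 4) * hd
  · exact ⟨0, by push_cast; linear_combination p1⟩
  · exact ⟨0, by push_cast; linear_combination p2⟩
  · exact ⟨0, by push_cast; linear_combination p3⟩
  · exact ⟨0, by push_cast; linear_combination p4⟩
  · exact ⟨0, by push_cast; linear_combination q1⟩
  · exact ⟨0, by push_cast; linear_combination q2⟩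
  · exact ⟨0, by push_cast; linear_combination q3⟩
  · exact ⟨0, by push_cast; linear_combination q4⟩
  · exact ⟨1, by push_cast; ring⟩

private lemma B6S_quot (h7 : (7 : B) = 0) (z : Fin 6 → B) (hs : ∀ i, z i ^ 2 = 0)
    (h1 : z 0 * z 1 + ((z 2 * z 3 + z 4 * z 5) + 2 * (z 2 * z 4 + z 3 * z 5) +
      4 * (z 2 * z 5 + z 3 * z 4)) = 0)
    (h2 : z 0 * (z 2 + z 3 + z 4 + z 5) = 0) (h3 : z 1 * (z 2 + z 3 + z 4 + z 5) = 0) :
    (∀ a b e f : Fin 6, ∃ l : ℤ, z a * z b * z e * z f = (l : B) * (z 2 * z 3 * z 4 * z 5)) ∧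
    ∀ a b e f g : Fin 6, z a * z b * z e * z f * z g = 0 := by
  obtain ⟨hS, hp, hq⟩ := B6S_four h7 z hs h1 h2 h3
  have h4 : ∀ a b e f : Fin 6, ∃ l : ℤ, z a * z b * z e * z f =
      (l : B) * (z 2 * z 3 * z 4 * z 5) := by
    intro a b e f
    by_cases hab : a = b
    · subst hab
      exact ⟨0, by push_cast; linear_combination z e * z f * hs a⟩
    by_cases hae : a = e
    · subst hae
      exact ⟨0, by push_cast; linear_combination z b * z f * hs a⟩
    by_cases haf : a = f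
    · subst haf
      exact ⟨0, by push_cast; linear_combination z b * z e * hs a⟩
    by_cases hbe : b = e
    · subst hbe
      exact ⟨0, by push_cast; linear_combination z a * z f * hs b⟩
    by_cases hbf : b = f
    · subst hbf
      exact ⟨0, by push_cast; linear_combination z a * z e * hs b⟩
    by_cases hef : e = f
    · subst hef
      exact ⟨0, by push_cast; linear_combination z a * z b * hs e⟩
    have ha : a ∉ ({b, e, f} : Finset (Fin 6)) := by
      simp only [Finset.mem_insert, Finset.mem_singleton, not_or]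
      exact ⟨hab, hae, haf⟩
    have hb : b ∉ ({e, f} : Finset (Fin 6)) := by
      simp only [Finset.mem_insert, Finset.mem_singleton, not_or]
      exact ⟨hbe, hbf⟩
    have he : e ∉ ({f} : Finset (Fin 6)) := by
      simp only [Finset.mem_singleton]
      exact hef
    obtain ⟨l, hl⟩ := hS {a, b, e, f} (by
      rw [Finset.mem_powersetCard]
      refine ⟨Finset.subset_univ _, ?_⟩
      rw [Finset.card_insert_of_notMem ha, Finset.card_insert_of_notMem hb,
        Finset.card_insert_of_notMem he, Finset.card_singleton])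
    rw [Finset.prod_insert ha, Finset.prod_insert hb, Finset.prod_insert he,
      Finset.prod_singleton] at hl
    exact ⟨l, by linear_combination hl⟩
  refine ⟨h4, fun a b e f g => ?_⟩
  obtain ⟨l, hl⟩ := h4 a b e f
  rw [hl]
  have h5 : ∀ g : Fin 6, z 2 * z 3 * z 4 * z 5 * z g = 0 := by
    intro g
    fin_cases g
    · show z 2 * z 3 * z 4 * z 5 * z 0 = 0
      linear_combination z 5 * hp
    · show z 2 * z 3 * z 4 * z 5 * z 1 = 0
      linear_combination z 5 * hq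
    · show z 2 * z 3 * z 4 * z 5 * z 2 = 0
      linear_combination z 3 * z 4 * z 5 * hs 2
    · show z 2 * z 3 * z 4 * z 5 * z 3 = 0
      linear_combination z 2 * z 4 * z 5 * hs 3
    · show z 2 * z 3 * z 4 * z 5 * z 4 = 0
      linear_combination z 2 * z 3 * z 5 * hs 4
    · show z 2 * z 3 * z 4 * z 5 * z 5 = 0
      linear_combination z 2 * z 3 * z 4 * hs 5
  rw [mul_assoc, h5, mul_zero]

end ring

/-- [B6S] -/
theorem B6S : St_B6S := by
  intro A _ x K h7 hx hg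
  obtain ⟨z, hz⟩ : ∃ z : Fin 6 → A ⧸ K, ∀ i, z i = Ideal.Quotient.mk K (x i) :=
    ⟨_, fun _ => rfl⟩
  have e7 : (7 : A ⧸ K) = 0 := by
    have h := congrArg (Ideal.Quotient.mk K) h7
    rw [map_zero, map_ofNat] at h
    exact h
  have hs : ∀ i, z i ^ 2 = 0 := by
    intro i
    rw [hz, ← map_pow]
    exact Ideal.Quotient.eq_zero_iff_mem.mpr (hx i)
  have g1 := Ideal.Quotient.eq_zero_iff_mem.mpr (hg 0)
  have g2 := Ideal.Quotient.eq_zero_iff_mem.mpr (hg 1)
  have g3 := Ideal.Quotient.eq_zero_iff_mem.mpr (hg 2)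
  have y0 : y6 x 0 = x 2 := rfl
  have y1 : y6 x 1 = x 3 := rfl
  have y2 : y6 x 2 = x 4 := rfl
  have y3 : y6 x 3 = x 5 := rfl
  have d1 : g6 x 0 = x 0 * x 1 + quad (y6 x) := rfl
  have d2 : g6 x 1 = x 0 * lin (y6 x) := rfl
  have d3 : g6 x 2 = x 1 * lin (y6 x) := rfl
  rw [d1, quad, y0, y1, y2, y3] at g1
  rw [d2, lin, y0, y1, y2, y3] at g2
  rw [d3, lin, y0, y1, y2, y3] at g3
  simp only [map_add, map_mul, map_ofNat, ← hz] at g1 g2 g3
  obtain ⟨h4, h5⟩ := B6S_quot e7 z hs g1 g2 g3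
  refine ⟨fun a b e f => ?_, fun a b e f g => ?_⟩
  · obtain ⟨l, hl⟩ := h4 a b e f
    refine ⟨l, Ideal.Quotient.eq_zero_iff_mem.mp ?_⟩
    simp only [map_sub, map_mul, map_intCast, ← hz]
    rw [hl, sub_self]
  · refine Ideal.Quotient.eq_zero_iff_mem.mp ?_
    simp only [map_mul, ← hz]
    exact h5 a b e f g

end Pool.Agent.LCB
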