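import Mathlib
import Pool.Agent.LCB.BSt

/-!
Transfer between the polynomial ring and the local ring.
-/

namespace Pool.Agent.LCB

open Pool.Agent.Helper40.Licci RingTheory.Sequence IsLocalRing MvPolynomial

lemma X_pow_mem_bA {n c : ℕ} (v : Fin c) : (X v : PP c) ^ bx n v ∈ bA n c :=
  Ideal.subset_span ⟨v, rfl⟩

lemma org_le_radical (n c : ℕ) : org c ≤ (bA n c).radical := by
  rw [org_eq, Ideal.span_le]
  rintro _ ⟨v, rfl⟩
  exact ⟨bx n v, X_pow_mem_bA v⟩

lemma exists_inv (n : ℕ) {c : ℕ} (s : PP c) (hs : s ∉ org c) :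
    ∃ t : PP c, s * t - 1 ∈ bA n c := by
  have h0 : constantCoeff s ≠ 0 := fun h => hs ((mem_org c s).mpr h)
  have hm : s - C (constantCoeff s) ∈ org c := by
    rw [mem_org, map_sub, constantCoeff_C, sub_self]
  obtain ⟨N, hN⟩ := org_le_radical n c hm
  have hnil : IsNilpotent (Ideal.Quotient.mk (bA n c) (s - C (constantCoeff s))) :=
    ⟨N, by rw [← map_pow]; exact Ideal.Quotient.eq_zero_iff_mem.mpr hN⟩
  have hu : IsUnit (Ideal.Quotient.mk (bA n c) (C (constantCoeff s))) :=
    ((isUnit_iff_ne_zero.mpr h0).map C).map _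
  have hsu : IsUnit (Ideal.Quotient.mk (bA n c) s) := by
    have := hnil.isUnit_add_left_of_commute hu (Commute.all _ _)
    rw [← map_add, add_sub_cancel] at this
    exact this
  obtain ⟨t', ht'⟩ := hsu.exists_right_inv
  obtain ⟨t, rfl⟩ := Ideal.Quotient.mk_surjective t'
  refine ⟨t, ?_⟩
  rw [← Ideal.Quotient.eq_zero_iff_mem, map_sub, map_mul, ht', map_one, sub_self]

theorem BG2 : St_BG2 := by
  intro n c hn
  have h2 : (bA n c).map (toR c) = bL n c := (span_range_map c (ba n)).symm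
  refine ⟨?_, h2, ?_, ?_⟩
  · intro m g
    unfold bI bJ
    rw [Ideal.map_sup, h2, Ideal.map_span, ← Set.range_comp]
    rfl
  · intro K hK u
    refine ⟨fun h => ?_, fun h => Ideal.mem_map_of_mem _ h⟩
    rw [IsLocalization.algebraMap_mem_map_algebraMap_iff (org c).primeCompl] at h
    obtain ⟨m, hm, h⟩ := h
    obtain ⟨t, ht⟩ := exists_inv n m hm
    have e : u = t * (m * u) - (m * t - 1) * u := by ring
    rw [e]
    exact K.sub_mem (K.mul_mem_left _ h) (K.mul_mem_right _ (hK ht))
  · intro x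
    obtain ⟨u, s, rfl⟩ := IsLocalization.exists_mk'_eq (org c).primeCompl x
    obtain ⟨t, ht⟩ := exists_inv n s.1 s.2
    refine ⟨u * t, ?_⟩
    have h3 : IsLocalization.mk' (RR c) u s * toR c s = toR c u := IsLocalization.mk'_spec _ _ _
    have e : IsLocalization.mk' (RR c) u s - toR c (u * t) =
        - (IsLocalization.mk' (RR c) u s * toR c (s.1 * t - 1)) := by
      rw [map_mul, ← h3, map_sub, map_mul, map_one]
      ring
    rw [e, Ideal.neg_mem_iff, ← h2]
    exact Ideal.mul_mem_left _ _ (Ideal.mem_map_of_mem _ ht)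

end Pool.Agent.LCB
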